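import Pool.Agent.Work.MP_6b5a33_co.Loc
import Mathlib.Topology.Connected.Clopen
import Mathlib.Topology.Instances.Real.Lemmas

/-! Alexander-Spanier cochains on lists; relative cohomology of compact pairs; excision. -/

namespace Pool.Agent.Work.MP_6b5a33_co

open Topology Set

variable {X X' X'' : Type}

abbrev Co (X : Type) : Type := List X → ℚ

def Dl : List X → Co X → ℚ
  | [], _ => 0
  | a :: l, φ => φ l - Dl l (fun m => φ (a :: m))

theorem Dl_add (l : List X) : ∀ φ ψ : Co X, Dl l (φ + ψ) = Dl l φ + Dl l ψ := by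
  induction l with
  | nil => intro φ ψ; simp [Dl]
  | cons a l ih =>
    intro φ ψ
    have := ih (fun m => φ (a :: m)) (fun m => ψ (a :: m))
    simp only [Dl, Pi.add_apply]
    rw [show (fun m => φ (a :: m) + ψ (a :: m)) =
      (fun m => φ (a :: m)) + (fun m => ψ (a :: m)) from rfl, this]
    ring

theorem Dl_smul (c : ℚ) (l : List X) : ∀ φ : Co X, Dl l (c • φ) = c * Dl l φ := by
  induction l with
  | nil => intro φ; simp [Dl]
  | cons a l ih =>
    intro φ
    have := ih (fun m => φ (a :: m))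
    simp only [Dl, Pi.smul_apply, smul_eq_mul]
    rw [show (fun m => c * φ (a :: m)) = c • (fun m => φ (a :: m)) from rfl, this]
    ring

def D : Co X →ₗ[ℚ] Co X where
  toFun φ l := Dl l φ
  map_add' φ ψ := funext fun l => Dl_add l φ ψ
  map_smul' c φ := funext fun l => Dl_smul c l φ

/-- cone operator -/
def cn (a : X) : Co X →ₗ[ℚ] Co X where
  toFun φ l := φ (a :: l)
  map_add' _ _ := rfl
  map_smul' _ _ := rfl

@[simp] theorem cn_apply (a : X) (φ : Co X) (l : List X) : cn a φ l = φ (a :: l) := rfl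
@[simp] theorem D_nil (φ : Co X) : D φ [] = 0 := rfl
theorem D_cons (φ : Co X) (a : X) (l : List X) : D φ (a :: l) = φ l - D (cn a φ) l := rfl

theorem cn_D (a : X) (φ : Co X) : cn a (D φ) = φ - D (cn a φ) := rfl

theorem DD (φ : Co X) : D (D φ) = 0 := by
  funext l
  induction l generalizing φ with
  | nil => rfl
  | cons a l ih =>
    rw [D_cons, cn_D, map_sub]
    have := ih (cn a φ)
    simp only [Pi.sub_apply, this, Pi.zero_apply]
    ring

theorem D_len (n : ℤ) (φ : Co X) (h : ∀ l, φ l ≠ 0 → (l.length : ℤ) = n) (l : List X)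
    (hl : D φ l ≠ 0) : (l.length : ℤ) = n + 1 := by
  induction l generalizing φ n with
  | nil => exact absurd rfl hl
  | cons a l ih =>
    rw [D_cons] at hl
    by_cases h1 : φ l = 0
    · have h2 : D (cn a φ) l ≠ 0 := fun h2 => hl (by rw [h1, h2, sub_zero])
      have := ih (n - 1) (cn a φ) (fun m hm => by
        have := h (a :: m) hm
        simp only [List.length_cons] at this
        push_cast at this; omega) h2
      simp only [List.length_cons]; push_cast; omega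
    · have := h l h1
      simp only [List.length_cons]; push_cast; omega

/-- reduced grading -/
def Gr (X : Type) (p : ℤ) : Submodule ℚ (Co X) where
  carrier := {φ | ∀ l, φ l ≠ 0 → (l.length : ℤ) = p + 1}
  add_mem' {φ ψ} h1 h2 l hl := by
    by_cases h : φ l = 0
    · exact h2 l fun h' => hl (by simp [h, h'])
    · exact h1 l h
  zero_mem' l hl := absurd rfl hl
  smul_mem' c φ h l hl := h l fun h' => hl (by simp [h'])

/-- cochains vanishing on the empty list -/
def Z0 (X : Type) : Submodule ℚ (Co X) := LinearMap.ker (LinearMap.proj (R := ℚ) [])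

theorem mem_Z0 {φ : Co X} : φ ∈ Z0 X ↔ φ [] = 0 := Iff.rfl

/-- reduced complex -/
def cxr (X : Type) : Cx (Co X) where
  d := D
  G := Gr X
  dd := DD
  dG p φ h l hl := D_len (p + 1) φ h l hl

/-- unreduced complex -/
def cx (X : Type) : Cx (Co X) where
  d := D
  G p := Gr X p ⊓ Z0 X
  dd := DD
  dG p φ h := ⟨fun l hl => D_len (p + 1) φ h.1 l hl, D_nil φ⟩

theorem cx_low (p : ℤ) (hp : p < 0) (φ : Co X) (h : φ ∈ (cx X).G p) : φ = 0 := by
  funext l
  by_contra hl
  have h1 := h.1 l hl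
  have : l = [] := List.length_eq_zero_iff.1 (by omega)
  subst this
  exact hl h.2

/-- vanishing on lists inside `U` -/
def Van (φ : Co X) (U : Set X) : Prop := ∀ l : List X, (∀ y ∈ l, y ∈ U) → φ l = 0

theorem Van.mono {φ : Co X} {U V : Set X} (h : Van φ U) (hV : V ⊆ U) : Van φ V :=
  fun l hl => h l fun y hy => hV (hl y hy)

theorem Van.cn {φ : Co X} {U : Set X} (h : Van φ U) {a : X} (ha : a ∈ U) : Van (cn a φ) U :=
  fun l hl => h (a :: l) (by
    intro y hy
    rcases List.mem_cons.1 hy with rfl | hy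
    · exact ha
    · exact hl y hy)

theorem Van.D {φ : Co X} {U : Set X} (h : Van φ U) : Van (D φ) U := by
  intro l hl
  induction l generalizing φ with
  | nil => rfl
  | cons a l ih =>
    have hl' : ∀ y ∈ l, y ∈ U := fun y hy => hl y (List.mem_cons_of_mem _ hy)
    rw [D_cons, h l hl', ih (h.cn (hl a List.mem_cons_self)) hl', sub_zero]

def pull (f : X' → X) : Co X →ₗ[ℚ] Co X' where
  toFun φ l := φ (l.map f)
  map_add' _ _ := rfl
  map_smul' _ _ := rfl

@[simp] theorem pull_apply (f : X' → X) (φ : Co X) (l : List X') :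
    pull f φ l = φ (l.map f) := rfl

theorem D_pull (f : X' → X) (φ : Co X) : D (pull f φ) = pull f (D φ) := by
  funext l
  induction l generalizing φ with
  | nil => rfl
  | cons a l ih =>
    rw [D_cons, pull_apply, pull_apply, List.map_cons, D_cons, ← pull_apply f (D _), ← ih]
    rfl

theorem pull_ch (f : X' → X) : Cx.IsCh (cx X) (cx X') (pull f) where
  comm := D_pull f
  deg p φ h := ⟨fun l hl => by simpa using h.1 _ hl, h.2⟩

theorem pull_comp (f : X' → X) (g : X'' → X') (φ : Co X) :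
    pull g (pull f φ) = pull (f ∘ g) φ := by
  funext l; simp

open Classical in
/-- cut off by the first vertex -/
noncomputable def cut (O : Set X) : Co X →ₗ[ℚ] Co X where
  toFun φ l := if ∃ a ∈ l.head?, a ∈ O then φ l else 0
  map_add' φ ψ := by funext l; simp only [Pi.add_apply]; split_ifs <;> simp
  map_smul' c φ := by funext l; simp only [Pi.smul_apply, RingHom.id_apply]; split_ifs <;> simp

theorem cut_nil (O : Set X) (φ : Co X) : cut O φ [] = 0 := by simp [cut]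

theorem cut_cons_of_mem {O : Set X} (φ : Co X) {a : X} (l : List X) (ha : a ∈ O) :
    cut O φ (a :: l) = φ (a :: l) := by simp [cut, ha]

theorem cut_cons_of_not_mem {O : Set X} (φ : Co X) {a : X} (l : List X) (ha : a ∉ O) :
    cut O φ (a :: l) = 0 := by simp [cut, ha]

theorem cut_eq_or (O : Set X) (φ : Co X) (l : List X) : cut O φ l = 0 ∨ cut O φ l = φ l := by
  cases l with
  | nil => exact Or.inl (cut_nil _ _)
  | cons a l =>
    by_cases ha : a ∈ O
    · exact Or.inr (cut_cons_of_mem _ _ ha)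
    · exact Or.inl (cut_cons_of_not_mem _ _ ha)

theorem Van.cut {φ : Co X} {U : Set X} (h : Van φ U) (O : Set X) : Van (cut O φ) U := by
  intro l hl
  rcases cut_eq_or O φ l with h1 | h1
  · exact h1
  · rw [h1, h l hl]

theorem van_cut_of_disjoint (φ : Co X) {U O : Set X} (h : Disjoint O U) : Van (cut O φ) U := by
  intro l hl
  cases l with
  | nil => exact cut_nil _ _
  | cons a l =>
    exact cut_cons_of_not_mem _ _ fun ha => h.notMem_of_mem_left ha (hl a List.mem_cons_self)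

theorem van_sub_cut (φ : Co X) (h0 : φ [] = 0) {U O : Set X} (h : U ⊆ O) :
    Van (φ - cut O φ) U := by
  intro l hl
  cases l with
  | nil => simp [cut_nil, h0]
  | cons a l => simp [cut_cons_of_mem _ _ (h (hl a List.mem_cons_self))]

theorem cut_Gr {p : ℤ} {φ : Co X} (h : φ ∈ Gr X p) (O : Set X) : cut O φ ∈ (cx X).G p := by
  refine ⟨fun l hl => h l fun h' => hl ?_, cut_nil O φ⟩
  rcases cut_eq_or O φ l with h1 | h1
  · exact h1
  · rw [h1, h']

theorem cn_Gr {p : ℤ} {φ : Co X} (h : φ ∈ Gr X p) (a : X) : cn a φ ∈ Gr X (p - 1) := by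
  intro l hl
  have := h (a :: l) hl
  simp only [List.length_cons] at this
  push_cast at this; omega

variable [TopologicalSpace X] [TopologicalSpace X'] [TopologicalSpace X'']

/-- cochains vanishing near the diagonal of `A` -/
def N (A : Set X) : Submodule ℚ (Co X) where
  carrier := {φ | ∀ x ∈ A, ∃ U ∈ 𝓝 x, Van φ U}
  add_mem' {φ ψ} h1 h2 x hx := by
    obtain ⟨U, hU, h3⟩ := h1 x hx
    obtain ⟨V, hV, h4⟩ := h2 x hx
    refine ⟨U ∩ V, Filter.inter_mem hU hV, fun l hl => ?_⟩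
    rw [Pi.add_apply, h3 l fun y hy => (hl y hy).1, h4 l fun y hy => (hl y hy).2, add_zero]
  zero_mem' x _ := ⟨univ, Filter.univ_mem, fun _ _ => rfl⟩
  smul_mem' c φ h x hx := by
    obtain ⟨U, hU, h3⟩ := h x hx
    exact ⟨U, hU, fun l hl => by rw [Pi.smul_apply, h3 l hl, smul_zero]⟩

theorem mem_N {A : Set X} {φ : Co X} : φ ∈ N A ↔ ∀ x ∈ A, ∃ U ∈ 𝓝 x, Van φ U := Iff.rfl

theorem N_anti {A B : Set X} (h : A ⊆ B) : N B ≤ N A := fun _ hφ x hx => hφ x (h hx)

theorem N_D {A : Set X} {φ : Co X} (h : φ ∈ N A) : D φ ∈ N A := fun x hx =>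
  let ⟨U, hU, h1⟩ := h x hx; ⟨U, hU, h1.D⟩

theorem N_union {A B : Set X} {φ : Co X} (h1 : φ ∈ N A) (h2 : φ ∈ N B) : φ ∈ N (A ∪ B) :=
  fun x hx => hx.elim (h1 x) (h2 x)

theorem N_empty (φ : Co X) : φ ∈ N (∅ : Set X) := fun _ hx => hx.elim

theorem N_cut {A : Set X} {φ : Co X} (h : φ ∈ N A) (O : Set X) : cut O φ ∈ N A := fun x hx =>
  let ⟨U, hU, h1⟩ := h x hx; ⟨U, hU, h1.cut O⟩

theorem N_pull {f : X' → X} (hf : Continuous f) {A : Set X} {A' : Set X'} (h : MapsTo f A' A)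
    (φ : Co X) (hφ : φ ∈ N A) : pull f φ ∈ N A' := by
  intro x hx
  obtain ⟨U, hU, h1⟩ := hφ _ (h hx)
  refine ⟨f ⁻¹' U, hf.continuousAt hU, fun l hl => h1 _ ?_⟩
  intro y hy
  obtain ⟨z, hz, rfl⟩ := List.mem_map.1 hy
  exact hl z hz

/-- the open set near which a cochain vanishes -/
def nul (φ : Co X) : Set X := {x | ∃ U ∈ 𝓝 x, Van φ U}

theorem isOpen_nul (φ : Co X) : IsOpen (nul φ) := by
  rw [isOpen_iff_mem_nhds]
  rintro x ⟨U, hU, h⟩
  filter_upwards [eventually_mem_nhds_iff.2 hU] with y hy using ⟨U, hy, h⟩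

theorem mem_N_iff {A : Set X} {φ : Co X} : φ ∈ N A ↔ A ⊆ nul φ := Iff.rfl

theorem N_inter [T2Space X] {A B : Set X} (hA : IsCompact A) (hB : IsCompact B) {φ : Co X}
    (h0 : φ [] = 0) (h : φ ∈ N (A ∩ B)) : ∃ O, cut O φ ∈ N A ∧ φ - cut O φ ∈ N B := by
  obtain ⟨U, V, hU, hV, h1, h2, h3⟩ := SeparatedNhds.of_isCompact_isCompact
    (hA.diff (isOpen_nul φ)) (hB.diff (isOpen_nul φ)) (by
      rw [Set.disjoint_left]
      intro x hx hx'
      exact hx.2 (h x ⟨hx.1, hx'.1⟩))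
  refine ⟨V, fun x hx => ?_, fun x hx => ?_⟩
  · by_cases hx' : x ∈ nul φ
    · obtain ⟨W, hW, h4⟩ := hx'
      exact ⟨W, hW, h4.cut V⟩
    · exact ⟨U, hU.mem_nhds (h1 ⟨hx, hx'⟩), van_cut_of_disjoint _ h3.symm⟩
  · by_cases hx' : x ∈ nul φ
    · obtain ⟨W, hW, h4⟩ := hx'
      exact ⟨W, hW, fun l hl => by rw [Pi.sub_apply, h4 l hl, h4.cut V l hl, sub_zero]⟩
    · exact ⟨V, hV.mem_nhds (h2 ⟨hx, hx'⟩), van_sub_cut _ h0 subset_rfl⟩

/-- relative theory over a base -/
theorem loc_rel [T2Space X] [T2Space X'] {f : X' → X} (hf : Continuous f) {A B : Set X'}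
    (hA : IsCompact A) (hB : IsCompact B) :
    Cx.Loc (cx X') (fun K : Set X => N ((A ∩ f ⁻¹' K) ∪ B)) where
  dN _ _ h := N_D h
  anti K L h := N_anti (union_subset_union_left _ (inter_subset_inter_right _ (preimage_mono h)))
  union K L φ h1 h2 := N_anti (by
    rintro x (⟨h3, h4 | h4⟩ | h3)
    · exact Or.inl (Or.inl ⟨h3, h4⟩)
    · exact Or.inr (Or.inl ⟨h3, h4⟩)
    · exact Or.inl (Or.inr h3)) (N_union h1 h2)
  inter K L hK hL p φ hφ h := by
    obtain ⟨O, h1, h2⟩ := N_inter ((hA.inter_right (hK.isClosed.preimage hf)).union hB)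
      ((hA.inter_right (hL.isClosed.preimage hf)).union hB) hφ.2 (N_anti (by
        rintro x ⟨h3 | h3, h4 | h4⟩
        · exact Or.inl ⟨h3.1, h3.2, h4.2⟩
        all_goals exact Or.inr ‹_›) h)
    exact ⟨_, cut_Gr hφ.1 O, h1, h2⟩
  loc a φ h := by
    refine ⟨(f '' (A \ nul φ))ᶜ, ((hA.diff (isOpen_nul φ)).image hf).isClosed.isOpen_compl.mem_nhds
      ?_, ?_⟩
    · rintro ⟨x, hx, hxa⟩
      exact hx.2 (h x (Or.inl ⟨hx.1, hxa⟩))
    · rintro x (hx | hx)
      · by_contra hc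
        exact hx.2 ⟨x, ⟨hx.1, hc⟩, rfl⟩
      · exact h x (Or.inr hx)
  low := ⟨0, fun p hp φ h => cx_low p hp φ h⟩

/-- relative cohomology of a pair of subsets -/
abbrev HH (A B : Set X) (p : ℤ) : Type := (cx X).H (N A) (N B) p

/-- induced map -/
def hm {f : X' → X} (hf : Continuous f) {A B : Set X} {A' B' : Set X'} (hA : MapsTo f A' A)
    (hB : MapsTo f B' B) (p : ℤ) : HH A B p →ₗ[ℚ] HH A' B' p :=
  Cx.hmap (pull_ch f) (N_pull hf hA) (N_pull hf hB) p

theorem hm_comp {f : X' → X} (hf : Continuous f) {g : X'' → X'} (hg : Continuous g)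
    {A B : Set X} {A' B' : Set X'} {A'' B'' : Set X''} (hA : MapsTo f A' A)
    (hB : MapsTo f B' B) (hA' : MapsTo g A'' A') (hB' : MapsTo g B'' B') (p : ℤ) (x : HH A B p) :
    hm hg hA' hB' p (hm hf hA hB p x) = hm (hf.comp hg) (hA.comp hA') (hB.comp hB') p x := by
  induction x using SQ.ind with | _ φ hφ
  refine SQ.mk_eq_mk.2 ?_
  change pull g (pull f φ) - pull (f ∘ g) φ ∈ _
  rw [pull_comp, sub_self]; exact Submodule.zero_mem _

theorem hm_congr {f g : X' → X} (hf : Continuous f) (hg : Continuous g) (h : f = g)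
    {A B : Set X} {A' B' : Set X'} (hA : MapsTo f A' A) (hB : MapsTo f B' B)
    (hA' : MapsTo g A' A) (hB' : MapsTo g B' B) (p : ℤ) :
    hm hf hA hB p = hm hg hA' hB' p := by subst h; rfl

theorem hm_id {A B : Set X} (hA : MapsTo id A A) (hB : MapsTo id B B) (p : ℤ) (x : HH A B p) :
    hm continuous_id hA hB p x = x := by
  induction x using SQ.ind with | _ φ hφ
  refine SQ.mk_eq_mk.2 ?_
  have : pull id φ = φ := by funext l; simp
  change pull id φ - φ ∈ _
  rw [this, sub_self]; exact Submodule.zero_mem _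

theorem HH_self (B : Set X) (p : ℤ) : Subsingleton (HH B B p) :=
  Cx.acyc_iff.2 fun x _ h _ => ⟨0, Submodule.zero_mem _, Submodule.zero_mem _, by simpa using h⟩

theorem HH_low (A B : Set X) (p : ℤ) (hp : p < 0) : Subsingleton (HH A B p) :=
  Cx.acyc_iff.2 fun x h _ _ => ⟨0, Submodule.zero_mem _, Submodule.zero_mem _, by
    rw [cx_low p hp x h]; simp⟩

theorem van_cone {φ : Co X} {U : Set X} {a : X} (ha : a ∈ U) (h : Van (D φ) U) :
    Van (φ - D (cn a φ)) U := by
  rw [← cn_D]; exact h.cn ha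

theorem pt_bd [T2Space X] {B : Set X} (hB : IsCompact B) {a : X} (ha : a ∉ B) {p : ℤ} {φ : Co X}
    (hφ : φ ∈ (cx X).Zc (N ({a} ∪ B)) (N B) p) (h0 : φ [a] = 0) :
    φ ∈ (cx X).Bc (N ({a} ∪ B)) (N B) p := by
  obtain ⟨U, V, hU, hV, h1, h2, h3⟩ := SeparatedNhds.of_isCompact_isCompact
    (isCompact_singleton (x := a)) hB (disjoint_singleton_left.2 ha)
  obtain ⟨g, hφB, hd⟩ := (cx X).mem_Zc.1 hφ
  have hψ : cut U (cn a φ) ∈ N B := fun x hx =>
    ⟨V, hV.mem_nhds (h2 hx), van_cut_of_disjoint _ h3⟩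
  refine (cx X).mem_Bc.2 ⟨cut U (cn a φ), cut_Gr (cn_Gr g.1 a) U, hψ, ?_⟩
  refine N_union ?_ (Submodule.sub_mem _ hφB (N_D hψ))
  rintro x rfl
  obtain ⟨W, hW, h4⟩ := hd x (Or.inl rfl)
  refine ⟨W ∩ U, Filter.inter_mem hW (hU.mem_nhds (h1 rfl)), fun l hl => ?_⟩
  have e1 := van_cone (mem_of_mem_nhds hW) h4 l fun y hy => (hl y hy).1
  have e2 := (van_sub_cut (cn x φ) h0 (subset_refl U)).D l fun y hy => (hl y hy).2
  rw [map_sub] at e2
  change φ l - D (cut U (cn x φ)) l = 0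
  simp only [Pi.sub_apply] at e1 e2
  linarith

theorem bd_pt {B : Set X} {a : X} {p : ℤ} {φ : Co X}
    (hφ : φ ∈ (cx X).Bc (N ({a} ∪ B)) (N B) p) : φ [a] = 0 := by
  obtain ⟨ψ, h1, _, h3⟩ := (cx X).mem_Bc.1 hφ
  obtain ⟨U, hU, h4⟩ := h3 a (Or.inl rfl)
  have := h4 [a] (by simpa using mem_of_mem_nhds hU)
  have h5 : ψ [] = 0 := h1.2
  change φ [a] - D ψ [a] = 0 at this
  rw [D_cons, D_nil, h5] at this
  linarith

theorem pt_bij [T2Space X] [T2Space X'] {f : X' → X} (hf : Continuous f) {B : Set X}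
    {B' : Set X'} (hB : IsCompact B) (hB' : IsCompact B') {a : X'} (ha : f a ∉ B) (ha' : a ∉ B')
    (h1 : MapsTo f ({a} ∪ B') ({f a} ∪ B)) (h2 : MapsTo f B' B) (p : ℤ) :
    Function.Bijective (hm hf h1 h2 p) := by
  constructor
  · rw [injective_iff_map_eq_zero]
    intro x hx
    induction x using SQ.ind with | _ φ hφ
    have h3 : pull f φ [a] = 0 := bd_pt (SQ.mk_eq_zero.1 hx)
    exact SQ.mk_eq_zero.2 (pt_bd hB ha hφ h3)
  · intro y
    induction y using SQ.ind with | _ φ hφ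
    obtain ⟨U, V, hU, hV, e1, e2, e3⟩ := SeparatedNhds.of_isCompact_isCompact
      (isCompact_singleton (x := f a)) hB (disjoint_singleton_left.2 ha)
    let δ : Co X := fun l => if l = [] then φ [a] else 0
    have hδ : δ ∈ Gr X (p - 1) := by
      intro l hl
      simp only [δ, ne_eq, ite_eq_right_iff, Classical.not_imp] at hl
      have := ((cx X').mem_Zc.1 hφ).1.1 [a] hl.2
      rw [hl.1]; simp at this ⊢; omega
    have hDδ : D δ ∈ Gr X p := by
      have := (cxr X).dG _ _ hδ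
      rwa [sub_add_cancel] at this
    have hχ : cut U (D δ) ∈ N B := fun x hx =>
      ⟨V, hV.mem_nhds (e2 hx), van_cut_of_disjoint _ e3⟩
    have hZ : cut U (D δ) ∈ (cx X).Zc (N ({f a} ∪ B)) (N B) p := by
      refine (cx X).mem_Zc.2 ⟨cut_Gr hDδ U, hχ, N_union ?_ (N_D hχ)⟩
      rintro x rfl
      refine ⟨U, hU.mem_nhds (e1 rfl), fun l hl => ?_⟩
      have := (van_sub_cut (D δ) rfl (subset_refl U)).D l hl
      rw [map_sub, DD] at this
      change D (cut U (D δ)) l = 0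
      simpa using this
    refine ⟨SQ.mk _ _ hZ, ?_⟩
    obtain ⟨hz, e⟩ := Cx.hmap_mk (pull_ch f) (N_pull hf h1) (N_pull hf h2) p _ hZ
    refine e.trans (SQ.mk_eq_mk.2 (pt_bd hB' ha' (Submodule.sub_mem _ hz hφ) ?_))
    simp [cut_cons_of_mem _ _ (e1 rfl), D_cons, δ]

theorem hm_bij_congr {f : X' → X} (hf : Continuous f) {A B A₁ B₁ : Set X}
    {A' B' A₁' B₁' : Set X'} (e1 : A = A₁) (e2 : B = B₁) (e3 : A' = A₁') (e4 : B' = B₁')
    (hA : MapsTo f A' A) (hB : MapsTo f B' B) (hA₁ : MapsTo f A₁' A₁) (hB₁ : MapsTo f B₁' B₁)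
    (p : ℤ) (h : Function.Bijective (hm hf hA₁ hB₁ p)) : Function.Bijective (hm hf hA hB p) := by
  subst e1 e2 e3 e4; exact h

/-- strong excision -/
theorem excise [T3Space X] [T2Space X'] {f : X' → X} (hf : Continuous f) {A B : Set X}
    {A' B' : Set X'} (cA : IsCompact A) (cB : IsCompact B) (cA' : IsCompact A')
    (cB' : IsCompact B') (hBA : B ⊆ A) (hBA' : B' ⊆ A') (hA : MapsTo f A' A) (hB : MapsTo f B' B)
    (hbij : BijOn f (A' \ B') (A \ B)) (p : ℤ) : Function.Bijective (hm hf hA hB p) := by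
  have hm' : ∀ K : Set X, MapsTo f ((A' ∩ f ⁻¹' K) ∪ B') ((A ∩ id ⁻¹' K) ∪ B) := by
    rintro K x (hx | hx)
    · exact Or.inl ⟨hA hx.1, hx.2⟩
    · exact Or.inr (hB hx)
  have key := (loc_rel continuous_id cA cB).bij (pull_ch f) (loc_rel hf cA' cB')
    (fun K => N_pull hf (hm' K)) (fun a q => ?_) A cA p
  · refine hm_bij_congr hf ?_ ?_ ?_ ?_ hA hB (hm' A) (hm' ∅) p key
    · simp [union_eq_left.2 hBA]
    · simp
    · rw [inter_eq_left.2 (show A' ⊆ f ⁻¹' A from hA), union_eq_left.2 hBA']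
    · simp
  by_cases ha : a ∈ A \ B
  · obtain ⟨a', ha', rfl⟩ := hbij.surjOn ha
    have hmm : MapsTo f ({a'} ∪ B') ({f a'} ∪ B) := by
      rintro x (rfl | hx)
      · exact Or.inl rfl
      · exact Or.inr (hB hx)
    refine hm_bij_congr hf ?_ ?_ ?_ ?_ (hm' _) (hm' ∅) hmm hB q
      (pt_bij hf cB cB' ha.2 ha'.2 hmm hB q)
    · rw [preimage_id, inter_eq_right.2 (singleton_subset_iff.2 ha.1)]
    · simp
    · ext x
      constructor
      · rintro (hx | hx)
        · by_cases hb : x ∈ B'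
          · exact Or.inr hb
          · exact Or.inl (hbij.injOn ⟨hx.1, hb⟩ ha' hx.2)
        · exact Or.inr hx
      · rintro (rfl | hx)
        · exact Or.inl ⟨ha'.1, rfl⟩
        · exact Or.inr hx
    · simp
  · refine hm_bij_congr hf (A₁ := B) (B₁ := B) (A₁' := B') (B₁' := B') ?_ ?_ ?_ ?_ (hm' _) (hm' ∅)
      hB hB q ?_
    · rw [union_eq_right]
      rintro x ⟨h1, rfl⟩
      by_contra hc
      exact ha ⟨h1, hc⟩
    · simp
    · rw [union_eq_right]
      rintro x ⟨h1, h2⟩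
      by_contra hc
      exact ha (h2 ▸ hbij.mapsTo ⟨h1, hc⟩)
    · simp
    · haveI := HH_self B q
      haveI := HH_self B' q
      exact ⟨fun _ _ _ => Subsingleton.elim _ _, fun y => ⟨0, Subsingleton.elim _ _⟩⟩

/-- fibrewise acyclic pairs are acyclic -/
theorem acyc_fib [T3Space X] [T2Space X'] {f : X' → X} (hf : Continuous f) {A B : Set X'}
    (cA : IsCompact A) (cB : IsCompact B) (hBA : B ⊆ A)
    (h : ∀ a p, Subsingleton (HH ((A ∩ f ⁻¹' {a}) ∪ B) B p)) (p : ℤ) :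
    Subsingleton (HH A B p) := by
  have key := (loc_rel hf cA cB).acyc (fun a q => by simpa using h a q) p _ (cA.image hf)
  have e : (A ∩ f ⁻¹' (f '' A)) ∪ B = A := by
    rw [inter_eq_left.2 (subset_preimage_image f A), union_eq_left.2 hBA]
  simpa [e] using key

theorem Icc_red (p : ℤ) : ∀ a b : ℝ, a ≤ b →
    Subsingleton ((cxr ℝ).H (N (Icc a b)) ⊤ p) := by
  induction p using Int.strongRec (m := -1) with
  | lt p hp =>
    intro a b _
    refine Cx.acyc_iff.2 fun x hx _ _ => ⟨0, Submodule.zero_mem _, Submodule.zero_mem _, ?_⟩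
    have : x = 0 := by
      funext l
      by_contra hl
      have := hx l hl
      omega
    rw [this]; simp
  | ge p _ ih =>
    intro a b hab
    refine Cx.acyc_iff.2 fun φ hφ _ hd => ?_
    have key := (isPreconnected_Icc (a := a) (b := b)).induction₂'
      (fun x y => ∃ ψ, ψ ∈ (cxr ℝ).G (p - 1) ∧ ψ ∈ (⊤ : Submodule ℚ (Co ℝ)) ∧
        φ - (cxr ℝ).d ψ ∈ N (uIcc x y)) ?_ ?_ (left_mem_Icc.2 hab) (right_mem_Icc.2 hab)
    · rwa [uIcc_of_le hab] at key
    · intro x hx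
      obtain ⟨U, hU, h1⟩ := hd x hx
      obtain ⟨ε, hε, hball⟩ := Metric.mem_nhds_iff.1 hU
      have h2 : ∀ y ∈ Metric.ball x ε, φ - D (cn x φ) ∈ N (uIcc x y) := by
        intro y hy z hz
        refine ⟨Metric.ball x ε, Metric.isOpen_ball.mem_nhds ?_,
          van_cone (Metric.mem_ball_self hε) (h1.mono hball)⟩
        exact (convex_ball x ε).ordConnected.uIcc_subset (Metric.mem_ball_self hε) hy hz
      filter_upwards [mem_nhdsWithin_of_mem_nhds (Metric.ball_mem_nhds x hε)] with y hy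
      exact ⟨⟨_, cn_Gr hφ x, trivial, h2 y hy⟩, ⟨_, cn_Gr hφ x, trivial, by
        rw [uIcc_comm]; exact h2 y hy⟩⟩
    · rintro x y z - - - ⟨ψ, g1, -, h1⟩ ⟨θ, g2, -, h2⟩
      have hy : y ∈ uIcc x y ∩ uIcc y z := ⟨right_mem_uIcc, left_mem_uIcc⟩
      obtain ⟨w, w1, w2, w3⟩ := Cx.glue' (K := cxr ℝ) (PI := N (uIcc x y ∩ uIcc y z)) (Q := ⊤)
        (PU := N (uIcc x y ∪ uIcc y z)) (fun _ h => N_D h) (fun _ h => N_D h)
        (N_anti inter_subset_left) (N_anti inter_subset_right) le_top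
        (fun _ h h' => N_union h h') (p := p) (fun χ hχ hN => by
          obtain ⟨U, hU, h3⟩ := hN y hy
          obtain ⟨O, o1, o2⟩ := N_inter isCompact_uIcc isCompact_uIcc (h3 [] (by simp)) hN
          exact ⟨_, (cut_Gr hχ O).1, o1, o2⟩) (by
          have hy' := hy
          unfold uIcc at hy' ⊢
          rw [Icc_inter_Icc] at hy' ⊢
          exact ih (p - 1) (by omega) _ _ (hy'.1.trans hy'.2)) g1 trivial h1 g2 trivial h2
      exact ⟨w, w1, w2, N_anti uIcc_subset_uIcc_union_uIcc w3⟩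

theorem Icc_acyc {a b : ℝ} (hab : a ≤ b) (p : ℤ) : Subsingleton (HH (Icc a b) {a} p) := by
  refine Cx.acyc_iff.2 fun φ hφ ha hd => ?_
  obtain ⟨ψ, g, -, h⟩ := Cx.acyc_iff.1 (Icc_red p a b hab) φ hφ.1 trivial hd
  have h1 : D ψ ∈ N {a} := by
    have := (N {a}).sub_mem ha (N_anti (singleton_subset_iff.2 (left_mem_Icc.2 hab)) h)
    simpa [cxr] using this
  obtain ⟨U, hU, h2⟩ := h1 a rfl
  have h3 := van_cone (mem_of_mem_nhds hU) h2
  have g2 : D (cn a ψ) ∈ Gr ℝ (p - 1) := by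
    have := (cxr ℝ).dG _ _ (cn_Gr g a)
    rwa [sub_add_cancel] at this
  refine ⟨ψ - D (cn a ψ), ⟨Submodule.sub_mem _ g g2, h3 [] (by simp)⟩, ?_, ?_⟩
  · rintro x rfl
    exact ⟨U, hU, h3⟩
  · change φ - D (ψ - D (cn a ψ)) ∈ _
    rw [map_sub, DD, sub_zero]; exact h

end Pool.Agent.Work.MP_6b5a33_co
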