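import Pool.Agent.Work.MP_6b5a33_co.Strata
import Mathlib.Analysis.Normed.Module.Connected
import Mathlib.Analysis.Normed.Module.FiniteDimension
import Mathlib.LinearAlgebra.Eigenspace.Minpoly
import Mathlib.LinearAlgebra.Complex.FiniteDimensional
import Mathlib.Analysis.Complex.Basic
import Mathlib.Topology.Separation.Connected

/-! Points and cells. -/

namespace Pool.Agent.Work.MP_6b5a33_co

open Topology Set Metric Module

variable {X X' : Type} [TopologicalSpace X] [TopologicalSpace X']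

/-- relative homeomorphism data -/
structure Tr (f : X' → X) (U' : Set X') (U : Set X) : Prop where
  cont : Continuous f
  ex : ∃ A', IsCompact A' ∧ U' ⊆ A' ∧ ∀ x ∈ A', f x ∈ U → x ∈ U'
  bij : BijOn f U' U

section Tr
variable [T3Space X] [T2Space X'] {f : X' → X} {U' : Set X'} {U : Set X} (h : Tr f U' U)
  (hU : LC U)
include h hU

theorem Tr.lc : LC U' :=
  let ⟨_, a, b, c⟩ := h.ex; tr_lc h.cont a b c h.bij hU

theorem Tr.fd : FD U ↔ FD U' :=
  let ⟨_, a, b, c⟩ := h.ex; tr_fd h.cont a b c h.bij hU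

theorem Tr.vn (S : ℤ → Prop) : Vn S U ↔ Vn S U' :=
  let ⟨_, a, b, c⟩ := h.ex; tr_vn h.cont a b c h.bij hU S

theorem Tr.lef {σ : X → X} {σ' : X' → X'} (hσ : Pres σ U) (hσ' : Pres σ' U')
    (hc : ∀ x, f (σ' x) = σ (f x)) : Lef σ U = Lef σ' U' :=
  let ⟨_, a, b, c⟩ := h.ex; tr_lef h.cont a b c h.bij hU hσ hσ' hc

end Tr

theorem Pres.prod {U : Set X} {V : Set X'} {σ : X → X} {τ : X' → X'} (h : Pres σ U)
    (h' : Pres τ V) : Pres (Prod.map σ τ) (U ×ˢ V) :=
  ⟨h.1.prodMap h'.1, fun x => and_congr (h.2 _) (h'.2 _)⟩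

section point
variable [T3Space X] (a : X)

/-- evaluation at a point -/
noncomputable def ev (p : ℤ) : HH ({a} ∪ ∅) ∅ p →ₗ[ℚ] ℚ :=
  Submodule.liftQ _ ((LinearMap.proj [a]).comp (Submodule.subtype _)) fun φ hφ =>
    bd_pt (B := ∅) (p := p) hφ

theorem ev_inj (p : ℤ) : Function.Injective (ev a p) := by
  rw [injective_iff_map_eq_zero]
  intro x hx
  induction x using SQ.ind with | _ φ hφ
  exact SQ.mk_eq_zero.2 (pt_bd isCompact_empty (notMem_empty a) hφ hx)

theorem ev_surj : Function.Surjective (ev a 0) := by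
  intro c
  let δ : Co X := fun l => if l = [] then c else 0
  have hδ : δ ∈ Gr X (-1) := by
    intro l hl
    simp only [δ, ne_eq, ite_eq_right_iff, Classical.not_imp] at hl
    rw [hl.1]; simp
  refine ⟨SQ.mk _ (D δ) ((cx X).mem_Zc.2 ⟨⟨(cxr X).dG _ _ hδ, rfl⟩, N_empty _, ?_⟩), ?_⟩
  · change D (D δ) ∈ _
    rw [DD]; exact Submodule.zero_mem _
  · change D δ [a] = c
    simp [D_cons, δ]

theorem pt_sub (p : ℤ) (hp : p ≠ 0) : Subsingleton (HH ({a} ∪ ∅) ∅ p) := by
  refine subsingleton_of_forall_eq 0 fun x => ev_inj a p ?_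
  induction x using SQ.ind with | _ φ hφ
  rw [map_zero]
  by_contra hc
  have := ((cx X).mem_Zc.1 hφ).1.1 [a] hc
  simp at this
  exact hp this

theorem pt_eq : (({a} : Set X) ∪ ∅) \ ∅ = {a} := by simp

theorem pt_c : IsCompact (({a} : Set X) ∪ ∅) := isCompact_singleton.union isCompact_empty

theorem fd_pt : FD ({a} : Set X) := by
  rw [pr_fd (pt_c a) isCompact_empty (empty_subset _) (pt_eq a)]
  refine ⟨fun p => Module.Finite.of_injective _ (ev_inj a p),
    (finite_singleton 0).subset fun p hp => ?_⟩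
  by_contra hc
  exact hp (pt_sub a p hc)

theorem vn_pt : Vn (· ≠ 0) ({a} : Set X) := fun p hp =>
  (pr_sub (pt_c a) isCompact_empty (empty_subset _) (pt_eq a) p).2 (pt_sub a p hp)

theorem lef_pt {σ : X → X} (hσ : Pres σ {a}) : Lef σ {a} = 1 := by
  have ha : σ a = a := (hσ.2 a).2 rfl
  have hm' : MapsTo σ ({a} ∪ ∅) ({a} ∪ ∅) := by
    rintro x (rfl | hx)
    · exact Or.inl ha
    · exact hx.elim
  rw [pr_lef (pt_c a) isCompact_empty (empty_subset _) (pt_eq a) hσ hm' (mapsTo_empty _ _)]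
  unfold Cx.lef
  rw [finsum_eq_single _ 0 fun p hp => by
    haveI := pt_sub a p hp
    rw [trace_of_subsingleton, mul_zero]]
  rw [trace_of_bij (ev a 0) ⟨ev_inj a 0, ev_surj a⟩ _ LinearMap.id fun x => by
    induction x using SQ.ind with | _ φ hφ
    change φ [σ a] = φ [a]
    rw [ha]]
  simp

end point

section rad
variable {E E' : Type} [NormedAddCommGroup E] [NormedAddCommGroup E'] [NormedSpace ℝ E']

/-- radial rescaling -/
noncomputable def rad (v : E) (w : E') : E' := (‖v‖ / ‖w‖) • w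

theorem norm_rad {v : E} {w : E'} (h : w = 0 → v = 0) : ‖rad v w‖ = ‖v‖ := by
  by_cases hw : w = 0
  · simp [rad, hw, h hw]
  · rw [rad, norm_smul, norm_div, norm_norm, norm_norm, div_mul_cancel₀ _ (norm_ne_zero_iff.2 hw)]

theorem rad_of_norm {v : E} {w : E'} (h : ‖w‖ = ‖v‖) : rad v w = w := by
  by_cases hw : w = 0
  · simp [rad, hw]
  · rw [rad, ← h, div_self (norm_ne_zero_iff.2 hw), one_smul]

theorem continuous_rad {a : X → E} {b : X → E'} (ha : Continuous a) (hb : Continuous b)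
    (h : ∀ t, b t = 0 → a t = 0) : Continuous fun t => rad (a t) (b t) := by
  rw [continuous_iff_continuousAt]
  intro t
  by_cases ht : b t = 0
  · have : rad (a t) (b t) = 0 := by simp [rad, ht]
    rw [ContinuousAt, this, tendsto_zero_iff_norm_tendsto_zero]
    simp only [norm_rad (h _)]
    have := ha.norm.tendsto t
    rwa [h t ht, norm_zero] at this
  · exact (ha.norm.continuousAt.div hb.norm.continuousAt (norm_ne_zero_iff.2 ht)).smul
      hb.continuousAt

end rad

theorem lc_ball (E : Type) [NormedAddCommGroup E] [ProperSpace E] : LC (ball (0 : E) 1) :=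
  pr_lc (isCompact_closedBall 0 1) (isCompact_sphere 0 1) closedBall_diff_sphere

theorem cell_real [T3Space X] {U : Set X} (hU : LC U) (r : ℕ) :
    ∀ (E : Type) [NormedAddCommGroup E] [NormedSpace ℝ E] [FiniteDimensional ℝ E],
      finrank ℝ E = r → (FD U → FD (U ×ˢ ball (0 : E) 1)) ∧
      (∀ S, Vn S U → Vn (fun p => S (p - r)) (U ×ˢ ball (0 : E) 1)) ∧
      ∀ σ, Pres σ U → Lef (Prod.map σ id) (U ×ˢ ball (0 : E) 1) = (-1) ^ r * Lef σ U := by
  induction r with
  | zero =>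
    intro E _ _ _ hE
    haveI := FiniteDimensional.proper ℝ E
    haveI : Subsingleton E := finrank_zero_iff.1 hE
    have t : Tr Prod.fst (U ×ˢ ball (0 : E) 1) U := ⟨continuous_fst,
      ⟨_, hU.1.prod (isCompact_closedBall 0 1), prod_mono subset_closure ball_subset_closedBall,
        fun x _ h => ⟨h, by rw [Subsingleton.elim x.2 0]; simp⟩⟩,
      fun x hx => hx.1, fun x _ y _ h => Prod.ext h (Subsingleton.elim _ _),
      fun x hx => ⟨(x, 0), ⟨hx, by simp⟩, rfl⟩⟩
    refine ⟨(t.fd hU).1, fun S hS => by simpa using (t.vn hU S).1 hS, fun σ hσ => ?_⟩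
    rw [← t.lef hU hσ (hσ.prod ⟨continuous_id, fun _ => Iff.rfl⟩) fun _ => rfl]; simp
  | succ r ih =>
    intro E _ _ _ hE
    haveI := FiniteDimensional.proper ℝ E
    obtain ⟨i1, i2, i3⟩ := ih (Fin r → ℝ) (by simp)
    let φ : E ≃L[ℝ] (Fin r → ℝ) × ℝ :=
      (LinearEquiv.ofFinrankEq E ((Fin r → ℝ) × ℝ) (by simp [hE])).toContinuousLinearEquiv
    have h0 : ∀ v, φ v = 0 → v = 0 := fun v h => by simpa using h
    have h0' : ∀ v, φ.symm v = 0 → v = 0 := fun v h => by simpa using h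
    have cr : Continuous fun v : E => rad v (φ v) := continuous_rad continuous_id φ.continuous h0
    have mb : ∀ w : (Fin r → ℝ) × ℝ, (w.1 ∈ ball (0 : Fin r → ℝ) 1 ∧ w.2 ∈ Ioo (-1 : ℝ) 1) ↔
        ‖w‖ < 1 := fun w => by
      rw [Prod.norm_def, max_lt_iff, mem_ball_zero_iff, Real.norm_eq_abs, abs_lt]; rfl
    have mem : ∀ x : X × E, ((x.1, (rad x.2 (φ x.2)).1), (rad x.2 (φ x.2)).2) ∈
        (U ×ˢ ball (0 : Fin r → ℝ) 1) ×ˢ Ioo (-1 : ℝ) 1 ↔ x ∈ U ×ˢ ball (0 : E) 1 := by
      intro x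
      simp only [mem_prod, and_assoc, mb, norm_rad (h0 _)]
      rw [mem_ball_zero_iff]
    have inv1 : ∀ v, rad (rad v (φ v)) (φ.symm (rad v (φ v))) = v := by
      intro v
      by_cases hv : v = 0
      · simp [hv, rad]
      have a1 : ‖v‖ ≠ 0 := norm_ne_zero_iff.2 hv
      have a2 : ‖φ v‖ ≠ 0 := norm_ne_zero_iff.2 fun h => hv (h0 v h)
      rw [rad, norm_rad (h0 v), rad, map_smul, φ.symm_apply_apply, smul_smul, norm_smul,
        norm_div, norm_norm, norm_norm]
      field_simp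
      simp
    have inv2 : ∀ w, rad (rad w (φ.symm w)) (φ (rad w (φ.symm w))) = w := by
      intro v
      by_cases hv : v = 0
      · simp [hv, rad]
      have a1 : ‖v‖ ≠ 0 := norm_ne_zero_iff.2 hv
      have a2 : ‖φ.symm v‖ ≠ 0 := norm_ne_zero_iff.2 fun h => hv (h0' v h)
      rw [rad, norm_rad (h0' v), rad, map_smul, φ.apply_symm_apply, smul_smul, norm_smul,
        norm_div, norm_norm, norm_norm]
      field_simp
      simp
    have t : Tr (fun x : X × E => ((x.1, (rad x.2 (φ x.2)).1), (rad x.2 (φ x.2)).2))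
        (U ×ˢ ball (0 : E) 1) ((U ×ˢ ball (0 : Fin r → ℝ) 1) ×ˢ Ioo (-1 : ℝ) 1) := by
      have cr' := cr.comp (continuous_snd (X := X))
      refine ⟨(continuous_fst.prodMk cr'.fst).prodMk cr'.snd, ⟨_, hU.1.prod (isCompact_closedBall 0 1),
        prod_mono subset_closure ball_subset_closedBall, fun x _ h => (mem x).1 h⟩,
        fun x hx => (mem x).2 hx, fun x _ y _ h => ?_, fun y hy => ?_⟩
      · simp only [Prod.mk.injEq] at h
        refine Prod.ext h.1.1 ?_
        rw [← inv1 x.2, ← inv1 y.2, Prod.ext h.1.2 h.2]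
      · have e : ((y.1.1, (rad (rad (y.1.2, y.2) (φ.symm (y.1.2, y.2))) (φ (rad (y.1.2, y.2)
          (φ.symm (y.1.2, y.2))))).1), (rad (rad (y.1.2, y.2) (φ.symm (y.1.2, y.2)))
          (φ (rad (y.1.2, y.2) (φ.symm (y.1.2, y.2))))).2) = y := by rw [inv2]
        exact ⟨(y.1.1, rad (y.1.2, y.2) (φ.symm (y.1.2, y.2))), (mem _).1 (by rwa [e]), e⟩
    have l1 := hU.prod (lc_ball (Fin r → ℝ))
    have l2 : LC ((U ×ˢ ball (0 : Fin r → ℝ) 1) ×ˢ Ioo (-1 : ℝ) 1) := l1.prod (by
      have := lc_ball ℝ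
      rwa [Real.ball_eq_Ioo, zero_sub, zero_add] at this)
    refine ⟨fun h => (t.fd l2).1 (susp_fd l1 (i1 h)), fun S hS => ?_, fun σ hσ => ?_⟩
    · refine ((t.vn l2 _).1 (susp_vn l1 (i2 S hS))).mono fun p hp => ?_
      convert hp using 1
      push_cast; ring
    · have p1 : Pres (Prod.map σ id) (U ×ˢ ball (0 : Fin r → ℝ) 1) :=
        hσ.prod ⟨continuous_id, fun _ => Iff.rfl⟩
      rw [← t.lef l2 (p1.prod ⟨continuous_id, fun _ => Iff.rfl⟩)
        (hσ.prod ⟨continuous_id, fun _ => Iff.rfl⟩) fun _ => rfl, susp_lef l1 p1, i3 σ hσ]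
      ring

theorem lef_seg [T3Space X] {U : Set X} (hU : LC U) {E : Type} [NormedAddCommGroup E]
    [NormedSpace ℝ E] [ProperSpace E] {σ : X → X} (hσ : Pres σ U) {g g' : E → E}
    (c : Continuous g) (c' : Continuous g') (n : ∀ v, ‖g v‖ = ‖v‖) (n' : ∀ v, ‖g' v‖ = ‖v‖)
    (h : ∀ v, g v + g' v = 0 → v = 0) :
    Lef (Prod.map σ g) (U ×ˢ ball (0 : E) 1) = Lef (Prod.map σ g') (U ×ˢ ball (0 : E) 1) := by
  have h0 : ∀ (t : ℝ) v, (1 - t) • g v + t • g' v = 0 → v = 0 := by
    intro t v e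
    by_contra hv
    have e1 := congrArg norm (eq_neg_of_add_eq_zero_left e)
    rw [norm_neg, norm_smul, norm_smul, n, n', mul_left_inj' (norm_ne_zero_iff.2 hv),
      Real.norm_eq_abs, Real.norm_eq_abs, abs_eq_abs] at e1
    have : t = 1 / 2 := by rcases e1 with e1 | e1 <;> linarith
    subst this
    apply hv (h v _)
    rw [show (1 : ℝ) - 1 / 2 = 1 / 2 by norm_num, ← smul_add] at e
    exact (smul_eq_zero.1 e).resolve_left (by norm_num)
  refine lef_homotopy (hU.prod (lc_ball E))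
    (F := fun y => (σ y.1.1, rad y.1.2 ((1 - y.2) • g y.1.2 + y.2 • g' y.1.2))) ?_ ?_ ?_ ?_
  · exact (hσ.1.comp (by fun_prop)).prodMk
      (continuous_rad (by fun_prop) (by fun_prop) fun y => h0 _ _)
  · intro x t _
    simp only [mem_prod, mem_ball_zero_iff, norm_rad (h0 _ _), hσ.2]
  · intro x
    simp only [sub_zero, one_smul, zero_smul, add_zero, rad_of_norm (n _)]; rfl
  · intro x
    simp only [sub_self, one_smul, zero_smul, zero_add, rad_of_norm (n' _)]; rfl

/-- odd degrees and degrees above `2 D` -/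
def Sup (D : ℤ) (p : ℤ) : Prop := Odd p ∨ 2 * D < p

theorem Sup.mono {U : Set X} {D D' : ℤ} (h : Vn (Sup D) U) (hD : D ≤ D') : Vn (Sup D') U :=
  h.mono fun p hp => hp.imp id fun h => by omega

theorem cell [T3Space X] {U : Set X} (hU : LC U) (E : Type) [NormedAddCommGroup E]
    [NormedSpace ℂ E] [FiniteDimensional ℂ E] : (FD U → FD (U ×ˢ ball (0 : E) 1)) ∧
      (∀ D, Vn (Sup D) U → Vn (Sup (D + finrank ℂ E)) (U ×ˢ ball (0 : E) 1)) ∧
      ∀ σ, Pres σ U → ∀ g : E →ₗ[ℂ] E, (∀ v, ‖g v‖ = ‖v‖) →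
        Lef (Prod.map σ g) (U ×ˢ ball (0 : E) 1) = Lef σ U := by
  haveI := FiniteDimensional.proper ℂ E
  obtain ⟨i1, i2, i3⟩ := cell_real hU _ E (finrank_real_of_complex E)
  refine ⟨i1, fun D h => (i2 _ h).mono fun p hp => ?_, fun σ hσ g hg => ?_⟩
  · rcases hp with hp | hp
    · left; push_cast; exact hp.sub_even (even_two_mul _)
    · right; push_cast; omega
  have inf : (sphere (0 : ℂ) 1).Infinite :=
    (isPreconnected_sphere (by rw [Complex.rank_real_complex]; norm_num) _ _).infinite_of_nontrivial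
      ⟨1, by simp, -1, by simp, by norm_num⟩
  obtain ⟨z, hz, hz'⟩ := inf.exists_notMem_finite
    ((Module.End.finite_hasEigenvalue g).union (finite_singleton 1))
  simp only [mem_union, mem_ofPred_eq, mem_singleton_iff, not_or, mem_sphere_zero_iff_norm] at hz hz'
  have nz : ∀ v : E, ‖-z • v‖ = ‖v‖ := fun v => by rw [norm_smul, norm_neg, hz, one_mul]
  rw [lef_seg hU hσ (g' := fun v => -z • v) g.continuous_of_finiteDimensional (by fun_prop) hg nz
    fun v hv => ?_, lef_seg hU hσ (g' := id) (by fun_prop) continuous_id nz (fun _ => rfl)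
    fun v hv => ?_, i3 σ hσ]
  · simp
  · have : (1 - z) • v = 0 := by rw [sub_smul, one_smul, ← hv, neg_smul, id]; abel
    exact (smul_eq_zero.1 this).resolve_left fun h => hz'.2 (sub_eq_zero.1 h).symm
  · by_contra hc
    refine hz'.1 (Module.End.hasEigenvalue_of_hasEigenvector (x := v) ⟨?_, hc⟩)
    rw [Module.End.mem_eigenspace_iff]
    rw [neg_smul] at hv
    exact eq_of_sub_eq_zero (by rw [← hv]; abel)

end Pool.Agent.Work.MP_6b5a33_co
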