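import Pool.Agent.Work.MP_6b5a33_co.Tab

/-! The tables satisfy the recursions. -/

namespace Pool.Agent.Work.MP_6b5a33_co

open Finset

/-- convolution -/
def cv (f g : ℕ → ℤ) (n : ℕ) (m : ℕ) : ℤ :=
  Nat.rec 0 (fun k acc => Int.add acc (Int.mul (f (Nat.succ k)) (g (Nat.sub n (Nat.succ k))))) m

theorem cv_eq (f g : ℕ → ℤ) (n m : ℕ) : cv f g n m = ∑ k ∈ Ioc 0 m, f k * g (n - k) := by
  induction m with
  | zero => rfl
  | succ m ih => rw [sum_Ioc_succ_top (Nat.zero_le m), ← ih]; rfl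

theorem chk1 : ∀ k ∈ Ioc 0 120, ∀ j ∈ range 4, tT j k = ∑ N ∈ k.divisors, (N : ℤ) * tF j N ∧
    tU j k = ∑ N ∈ k.divisors, (k : ℤ) * tF j N := by decide +kernel

/-- the list `f (n-1), …, f 0` -/
def rvL (f : ℕ → ℕ) (n : ℕ) : List ℕ := Nat.rec [] (fun m l => f m :: l) n

/-- the list of the values of `f`, evaluated once and passed on; fails on a negative value -/
noncomputable def tabR (f : ℕ → ℤ) (n : ℕ) : (List ℕ → Bool) → Bool :=
  Nat.rec (fun k => k [])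
    (fun m ih k => Int.rec (fun v => ih fun l => k (v :: l)) (fun _ => false) (f m)) n

theorem tabR_spec (f : ℕ → ℤ) (n : ℕ) : ∀ k : List ℕ → Bool, tabR f n k = true →
    k (rvL (fun i => (f i).toNat) n) = true ∧ ∀ i < n, (((f i).toNat : ℕ) : ℤ) = f i := by
  induction n with
  | zero => exact fun _ h => ⟨h, fun _ hi => absurd hi (Nat.not_lt_zero _)⟩
  | succ m ih =>
    intro k h
    have h' : (Int.rec (fun v => tabR f m fun l => k (v :: l)) (fun _ => false) (f m) : Bool) =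
      true := h
    have e : rvL (fun i => (f i).toNat) (m + 1) =
      (f m).toNat :: rvL (fun i => (f i).toNat) m := rfl
    rw [e]
    rcases hf : f m with v | v
    · rw [hf] at h'
      refine ⟨(ih _ h').1, fun i hi => ?_⟩
      rcases Nat.lt_succ_iff_lt_or_eq.1 hi with h1 | rfl
      · exact (ih _ h').2 i h1
      · rw [hf]; rfl
    · rw [hf] at h'; exact absurd h' Bool.false_ne_true

/-- scalar product of two lists -/
noncomputable def dotL (a : List ℕ) : List ℕ → ℕ :=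
  List.rec (fun _ => 0)
    (fun x _ ih b => List.rec 0 (fun y t _ => Nat.add (Nat.mul x y) (ih t)) b) a

theorem dotL_eq (f g : ℕ → ℕ) (n : ℕ) : ∀ s N, n ≤ s → s ≤ N →
    dotL (rvL (fun i => f (N - i)) s) (rvL g n) =
      ∑ i ∈ range n, f (N - s + 1 + i) * g (n - 1 - i) := by
  induction n with
  | zero => intro s N _ _; cases s <;> rfl
  | succ n ih =>
    intro s N h1 h2
    obtain ⟨s, rfl⟩ : ∃ t, s = t + 1 := ⟨s - 1, by omega⟩
    have e : dotL (rvL (fun i => f (N - i)) (s + 1)) (rvL g (n + 1)) =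
      f (N - s) * g n + dotL (rvL (fun i => f (N - i)) s) (rvL g n) := rfl
    rw [e, sum_range_succ', add_comm, ih s N (by omega) (by omega)]
    refine congrArg₂ (· + ·) (sum_congr rfl fun i _ => ?_) ?_
    · rw [show N - s + 1 + i = N - (s + 1) + 1 + (i + 1) by omega,
        show n - 1 - i = n + 1 - 1 - (i + 1) by omega]
    · rw [show N - (s + 1) + 1 + 0 = N - s by omega, show n + 1 - 1 - 0 = n by omega]

theorem dotL_cv (f g : ℕ → ℤ) (hf : ∀ i < 120, (((f (120 - i)).toNat : ℕ) : ℤ) = f (120 - i))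
    (hg : ∀ i < 120, (((g i).toNat : ℕ) : ℤ) = g i) (n : ℕ) (h : n ≤ 120) :
    ((dotL (rvL (fun i => (f (120 - i)).toNat) 120) (rvL (fun i => (g i).toNat) n) : ℕ) : ℤ) =
      cv f g n n := by
  rw [dotL_eq (fun i => (f i).toNat) _ n 120 120 h le_rfl, cv_eq,
    ← Finset.Ico_add_one_add_one_eq_Ioc, sum_Ico_eq_sum_range]
  refine (map_sum (Nat.castAddMonoidHom ℤ) _ _).trans ?_
  refine sum_congr (congrArg range (by omega)) fun i hi => ?_
  have := mem_range.1 hi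
  have e := hf (119 - i) (by omega)
  rw [show 120 - (119 - i) = 0 + 1 + i by omega] at e
  rw [Nat.coe_castAddMonoidHom, Nat.cast_mul, hg _ (by omega), show 120 - 120 + 1 + i = 0 + 1 + i by omega, e,
    show n - 1 - i = n - (0 + 1 + i) by omega]

/-- run a test along the common suffixes of four lists -/
noncomputable def loopL (P : ℕ → List ℕ → List ℕ → List ℕ → List ℕ → Bool) (n : ℕ) :
    List ℕ → List ℕ → List ℕ → List ℕ → Bool :=
  Nat.rec (fun _ _ _ _ => true)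
    (fun m ih a b c d => P (m + 1) a b c d && ih a.tail b.tail c.tail d.tail) n

theorem loopL_spec (P : ℕ → List ℕ → List ℕ → List ℕ → List ℕ → Bool) (a b c d : ℕ → ℕ) (N : ℕ) :
    loopL P N (rvL a N) (rvL b N) (rvL c N) (rvL d N) = true →
      ∀ n, 0 < n → n ≤ N → P n (rvL a n) (rvL b n) (rvL c n) (rvL d n) = true := by
  induction N with
  | zero => intro _ n h1 h2; omega
  | succ N ih =>
    intro h n h1 h2
    have h' := Bool.and_eq_true_iff.1 h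
    rcases Nat.lt_or_ge N n with h3 | h3
    · obtain rfl : n = N + 1 := by omega
      exact h'.1
    · exact ih h'.2 n h1 h3

/-- the six nontrivial identities at index `n` -/
noncomputable def testL (t1 t2 u1 u2 : List ℕ) (n : ℕ) (a1 a2 b1 b2 : List ℕ) : Bool :=
  decide ((n : ℤ) * tA 1 n = tT 1 n) &&
    decide ((n : ℤ) * tA 2 n = (dotL t1 a1 : ℕ) + tT 2 n) &&
    decide ((n : ℤ) * tA 3 n = (dotL t1 a2 : ℕ) + ((dotL t2 a1 : ℕ) + tT 3 n)) &&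
    decide ((n : ℤ) * tB 1 n = tU 1 n) &&
    decide ((n : ℤ) * tB 2 n = (dotL t1 b1 : ℕ) + ((dotL u1 a1 : ℕ) + tU 2 n)) &&
    decide ((n : ℤ) * tB 3 n = (dotL t1 b2 : ℕ) + (dotL t2 b1 : ℕ) +
      ((dotL u1 a2 : ℕ) + ((dotL u2 a1 : ℕ) + tU 3 n)))

theorem testL_run : (tabR (fun i => tT 1 (120 - i)) 120 fun t1 =>
    tabR (fun i => tT 2 (120 - i)) 120 fun t2 => tabR (fun i => tU 1 (120 - i)) 120 fun u1 =>
    tabR (fun i => tU 2 (120 - i)) 120 fun u2 => tabR (tA 1) 120 fun a1 =>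
    tabR (tA 2) 120 fun a2 => tabR (tB 1) 120 fun b1 => tabR (tB 2) 120 fun b2 =>
    loopL (testL t1 t2 u1 u2) 120 a1 a2 b1 b2) = true := by decide +kernel

theorem testL_all (n : ℕ) (h0 : 0 < n) (h : n ≤ 120) :
    (((((n : ℤ) * tA 1 n = tT 1 n ∧ (n : ℤ) * tA 2 n = cv (tT 1) (tA 1) n n + tT 2 n) ∧
      (n : ℤ) * tA 3 n = cv (tT 1) (tA 2) n n + (cv (tT 2) (tA 1) n n + tT 3 n)) ∧
      (n : ℤ) * tB 1 n = tU 1 n) ∧
      (n : ℤ) * tB 2 n = cv (tT 1) (tB 1) n n + (cv (tU 1) (tA 1) n n + tU 2 n)) ∧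
      (n : ℤ) * tB 3 n = cv (tT 1) (tB 2) n n + cv (tT 2) (tB 1) n n +
        (cv (tU 1) (tA 2) n n + (cv (tU 2) (tA 1) n n + tU 3 n)) := by
  obtain ⟨r, t1⟩ := tabR_spec _ _ _ testL_run
  obtain ⟨r, t2⟩ := tabR_spec _ _ _ r
  obtain ⟨r, u1⟩ := tabR_spec _ _ _ r
  obtain ⟨r, u2⟩ := tabR_spec _ _ _ r
  obtain ⟨r, a1⟩ := tabR_spec _ _ _ r
  obtain ⟨r, a2⟩ := tabR_spec _ _ _ r
  obtain ⟨r, b1⟩ := tabR_spec _ _ _ r
  obtain ⟨r, b2⟩ := tabR_spec _ _ _ r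
  have r2 := loopL_spec _ _ _ _ _ _ r n h0 h
  simp only [testL, Bool.and_eq_true, decide_eq_true_eq] at r2
  rwa [dotL_cv _ _ t1 a1 n h, dotL_cv _ _ t1 a2 n h, dotL_cv _ _ t2 a1 n h,
    dotL_cv _ _ t1 b1 n h, dotL_cv _ _ u1 a1 n h, dotL_cv _ _ t1 b2 n h, dotL_cv _ _ t2 b1 n h,
    dotL_cv _ _ u1 a2 n h, dotL_cv _ _ u2 a1 n h] at r2

theorem sum_ad (F : ℕ × ℕ → ℤ) : ∑ q ∈ antidiagonal 0, F q = F (0, 0) + 0 ∧
    ∑ q ∈ antidiagonal 1, F q = F (0, 1) + (F (1, 0) + 0) ∧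
    ∑ q ∈ antidiagonal 2, F q = F (0, 2) + (F (1, 1) + (F (2, 0) + 0)) ∧
    ∑ q ∈ antidiagonal 3, F q = F (0, 3) + (F (1, 2) + (F (2, 1) + (F (3, 0) + 0))) :=
  ⟨rfl, rfl, rfl, rfl⟩

theorem tA0_pos (n : ℕ) (h : 0 < n) : tA 0 n = 0 := by cases n with
  | zero => omega
  | succ n => rfl

theorem tB0 (n : ℕ) : tB 0 n = 0 := by
  rcases n with _ | _ | n <;> rfl

theorem cv_T0 (g : ℕ → ℤ) (n : ℕ) : cv (tT 0) g n n = 0 := by
  rw [cv_eq]; exact sum_eq_zero fun _ _ => zero_mul _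

theorem cv_U0 (g : ℕ → ℤ) (n : ℕ) : cv (tU 0) g n n = 0 := by
  rw [cv_eq]; exact sum_eq_zero fun _ _ => zero_mul _

theorem cv_B0 (f : ℕ → ℤ) (n : ℕ) : cv f (tB 0) n n = 0 := by
  rw [cv_eq]; exact sum_eq_zero fun _ _ => by rw [tB0, mul_zero]

theorem cv_A0 (f : ℕ → ℤ) (n : ℕ) (h : 0 < n) : cv f (tA 0) n n = f n := by
  rw [cv_eq, sum_eq_single_of_mem n (mem_Ioc.2 ⟨h, le_rfl⟩), Nat.sub_self]
  · exact mul_one _
  · intro k hk hne
    have := mem_Ioc.1 hk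
    rw [tA0_pos _ (by omega), mul_zero]

theorem chk2' : ∀ n ∈ Ioc (0 : ℕ) 120, ∀ j ∈ range 4,
    (n : ℤ) * tA j n = ∑ q ∈ antidiagonal j, cv (tT q.1) (tA q.2) n n := by
  intro n hn j hj
  obtain ⟨h0, h⟩ := mem_Ioc.1 hn
  have r := testL_all n h0 h
  have hj' := mem_range.1 hj
  obtain rfl | rfl | rfl | rfl : j = 0 ∨ j = 1 ∨ j = 2 ∨ j = 3 := by omega
  all_goals simp only [sum_ad, cv_T0, cv_A0 _ n h0, zero_add, add_zero]
  · rw [tA0_pos n h0, mul_zero]; rfl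
  · exact r.1.1.1.1.1
  · exact r.1.1.1.1.2
  · exact r.1.1.1.2

theorem chk3' : ∀ n ∈ Ioc (0 : ℕ) 120, ∀ j ∈ range 4,
    (n : ℤ) * tB j n = ∑ q ∈ antidiagonal j, cv (tT q.1) (tB q.2) n n +
      ∑ q ∈ antidiagonal j, cv (tU q.1) (tA q.2) n n := by
  intro n hn j hj
  obtain ⟨h0, h⟩ := mem_Ioc.1 hn
  have r := testL_all n h0 h
  have hj' := mem_range.1 hj
  obtain rfl | rfl | rfl | rfl : j = 0 ∨ j = 1 ∨ j = 2 ∨ j = 3 := by omega
  all_goals simp only [sum_ad, cv_T0, cv_U0, cv_B0, cv_A0 _ n h0, zero_add, add_zero]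
  · rw [tB0, mul_zero]; rfl
  · exact r.1.1.2
  · exact r.1.2
  · exact r.2

theorem chk2 : ∀ n ∈ Ioc (0 : ℕ) 120, ∀ j ∈ range 4,
    (n : ℤ) * tA j n = ∑ k ∈ Ioc 0 n, ∑ q ∈ antidiagonal j, tT q.1 k * tA q.2 (n - k) := by
  intro n hn j hj
  rw [chk2' n hn j hj, sum_comm]
  simp only [cv_eq]

theorem chk3 : ∀ n ∈ Ioc (0 : ℕ) 120, ∀ j ∈ range 4,
    (n : ℤ) * tB j n = ∑ k ∈ Ioc 0 n, (∑ q ∈ antidiagonal j, tT q.1 k * tB q.2 (n - k) +
      ∑ q ∈ antidiagonal j, tU q.1 k * tA q.2 (n - k)) := by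
  intro n hn j hj
  rw [chk3' n hn j hj, sum_add_distrib, sum_comm (s := Ioc 0 n), sum_comm (s := Ioc 0 n)]
  simp only [cv_eq]

theorem chk4 : ∀ j ∈ range 4, tA j 0 = (if j = 0 then 1 else 0) ∧
    tF j 1 = (if j = 1 then cc else 0) := by decide +kernel

theorem chk5 : tA 2 120 ^ 2 < tA 1 120 * tA 3 120 := by decide +kernel

end Pool.Agent.Work.MP_6b5a33_co
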