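import Pool.Agent.Work.MP_6b5a33_co.Dec
import Mathlib.Data.Fintype.CardEmbedding
import Mathlib.Logic.Equiv.Fin.Rotate

/-! The exponential formula for weighted invariant partitions. -/

namespace Pool.Agent.Work.MP_6b5a33_co

open Finset

variable {I J J' : Type} [Fintype I] [DecidableEq I] [Fintype J] [DecidableEq J] [Fintype J']
  [DecidableEq J'] {R : Type} [CommRing R] [Algebra ℚ R] (m y : R)

/-- `m` to the number of cycles -/
noncomputable def cyc (σ : Equiv.Perm I) : R := QP (Equiv.Perm.SameCycle.setoid σ) fun _ => m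

/-- weight of a pair -/
noncomputable def Fw (σ : Equiv.Perm I) (π : Setoid I) : R :=
  wt σ π • (cyc m σ * QP π fun _ => y)

open Classical in
/-- total weight -/
noncomputable def AA (I : Type) [Fintype I] [DecidableEq I] : R :=
  ∑ σ : Equiv.Perm I, ∑ π with Inv σ π, Fw m y σ π

/-- weight of one-block partitions -/
noncomputable def Ph (I : Type) [Fintype I] [DecidableEq I] : R :=
  ∑ σ : Equiv.Perm I, wt σ ⊤ • cyc m σ

open Classical in
theorem Dec.inner {σ : Equiv.Perm I} {τ : Equiv.Perm J} {σ' : Equiv.Perm J'} {e : J ↪ I}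
    {e' : J' ↪ I} {d : ℕ} (D : Dec σ τ σ' e e' d) (a : J) :
    ∑ π with Inv σ π ∧ Sat e π ∧ π.comap e = ⊤, Fw m y σ π =
      y ^ d * (wt τ ⊤ • cyc m τ) * ∑ π with Inv σ' π, Fw m y σ' π := by
  rw [mul_sum]
  refine sum_bij (fun π _ => π.comap e') ?_ ?_ ?_ ?_
  · simp only [mem_filter, mem_univ, true_and]
    exact fun π h => D.inv2 h.1
  · simp only [mem_filter, mem_univ, true_and]
    exact fun π h π' h' hh => (D.le_of h.1 h.2.1 h'.1 (h'.2.2 ▸ le_top) hh.le).antisymm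
      (D.le_of h'.1 h'.2.1 h.1 (h.2.2 ▸ le_top) hh.ge)
  · simp only [mem_filter, mem_univ, true_and]
    intro π h
    obtain ⟨ρ, c1, c2, c3, c4⟩ := D.glue (inv_top τ) h
    exact ⟨ρ, ⟨c1, c2, c3⟩, c4⟩
  · simp only [mem_filter, mem_univ, true_and]
    intro π h
    rw [Fw, Fw, D.wt_two π h.1 h.2.1, h.2.2, D.cls_two y h.1 h.2.1 h.2.2 a, cyc, D.cyc_two,
      cyc, cyc]
    simp only [Algebra.smul_def, map_mul]
    ring

variable {d : ℕ} (E : Fin (d + 1) × J ↪ I)

/-- first layer -/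
def lay : J ↪ I := ⟨fun j => E (0, j), fun _ _ h => (Prod.ext_iff.1 (E.injective h)).2⟩

/-- the permutation shifts the layers -/
def Shf (σ : Equiv.Perm I) : Prop := (∀ k j, E (k, j) = (σ ^ (k : ℕ)) (E (0, j))) ∧
  ∀ j, ∃ j', (σ ^ (d + 1)) (E (0, j)) = E (0, j')

/-- model relation -/
def Mod (e' : J' ↪ I) (σ : Equiv.Perm I) (p : Equiv.Perm J × Equiv.Perm J') : Prop :=
  (∀ k j, E (k, j) = (σ ^ (k : ℕ)) (E (0, j))) ∧ (∀ j, (σ ^ (d + 1)) (E (0, j)) = E (0, p.1 j)) ∧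
    ∀ b, σ (e' b) = e' (p.2 b)

section
variable {E} {e' : J' ↪ I} (hd : ∀ p b, E p ≠ e' b) (hc : ∀ i, (∃ p, i = E p) ∨ ∃ b, i = e' b)
include hd hc

theorem Mod.dec {σ : Equiv.Perm I} {p : Equiv.Perm J × Equiv.Perm J'} (h : Mod E e' σ p) :
    Dec σ p.1 p.2 (lay E) e' (d + 1) := by
  refine ⟨d.succ_pos, h.2.1, h.2.2, fun k h0 hk a a' hh => ?_, fun a b => hd _ b, fun i => ?_⟩
  · have := E.injective ((h.1 ⟨k, hk⟩ a).trans hh)
    exact h0.ne' (congrArg (fun p => (p.1 : ℕ)) this)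
  · rcases hc i with ⟨⟨k, j⟩, rfl⟩ | h
    · exact Or.inl ⟨k, k.2, j, h.1 k j⟩
    · exact Or.inr h

omit hd hc in
theorem shf_step {σ : Equiv.Perm I} (h : ∀ k j, E (k, j) = (σ ^ (k : ℕ)) (E (0, j)))
    (k : Fin (d + 1)) (j : J) : σ (E (k, j)) =
      if k = Fin.last d then (σ ^ (d + 1)) (E (0, j)) else E (k + 1, j) := by
  rw [h k, ← Equiv.Perm.mul_apply, ← pow_succ']
  split_ifs with hk
  · rw [hk]; rfl
  · rw [h (k + 1), Fin.val_add_one_of_lt (Fin.lt_last_iff_ne_last.2 hk)]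

omit hd in
theorem Mod.uniq {σ σ₂ : Equiv.Perm I} {p : Equiv.Perm J × Equiv.Perm J'} (h : Mod E e' σ p)
    (h' : Mod E e' σ₂ p) : σ = σ₂ := by
  ext i
  rcases hc i with ⟨⟨k, j⟩, rfl⟩ | ⟨b, rfl⟩
  · rw [shf_step h.1, shf_step h'.1, h.2.1, h'.2.1]
  · rw [h.2.2, h'.2.2]

theorem mod_ex (p : Equiv.Perm J × Equiv.Perm J') : ∃ σ, Mod E e' σ p := by
  let Θ : (Fin (d + 1) × J) ⊕ J' ≃ I := Equiv.ofBijective (Sum.elim E e')
    ⟨E.injective.sumElim e'.injective hd, fun i => by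
      rcases hc i with ⟨p, rfl⟩ | ⟨b, rfl⟩
      exacts [⟨Sum.inl p, rfl⟩, ⟨Sum.inr b, rfl⟩]⟩
  let c : Equiv.Perm (Fin (d + 1) × J) :=
    Equiv.prodShear (finRotate (d + 1)) fun k => if k = Fin.last d then p.1 else 1
  let σ : Equiv.Perm I := Θ.permCongr (Equiv.sumCongr c p.2)
  have e : ∀ x, σ (Θ x) = Θ (Equiv.sumCongr c p.2 x) := fun x => by simp [σ]
  have e1 : ∀ q, σ (E q) = E (c q) := fun q => e (Sum.inl q)
  have e2 : ∀ (k : ℕ) (hk : k < d + 1) j, E (⟨k, hk⟩, j) = (σ ^ k) (E (0, j)) := by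
    intro k
    induction k with
    | zero => intro _ _; rfl
    | succ k ih =>
      intro hk j
      have hk' : (⟨k, by omega⟩ : Fin (d + 1)) ≠ Fin.last d := fun h => by
        have := congrArg Fin.val h
        simp at this; omega
      rw [pow_succ', Equiv.Perm.mul_apply, ← ih (by omega), e1]
      congr 1
      refine Prod.ext (Fin.ext (coe_finRotate_of_ne_last hk').symm) ?_
      simp [c, hk']
  refine ⟨σ, fun k j => e2 k k.2 j, fun j => ?_, fun b => e (Sum.inr b)⟩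
  rw [pow_succ', Equiv.Perm.mul_apply, ← e2 d d.lt_succ_self, e1]
  congr 1
  change c (Fin.last d, j) = _
  simp [c]

theorem Shf.ex {σ : Equiv.Perm I} (h : Shf E σ) : ∃ p, Mod E e' σ p := by
  choose t ht using h.2
  have ti : Function.Injective t := fun a b hab =>
    (lay E).injective ((σ ^ (d + 1)).injective ((ht a).trans (hab ▸ (ht b).symm)))
  have st : ∀ p, ∃ q, σ (E p) = E q := by
    rintro ⟨k, j⟩
    rw [shf_step h.1, ht]
    split_ifs <;> exact ⟨_, rfl⟩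
  choose s hs using st
  have si : Function.Surjective s := Finite.injective_iff_surjective.1 fun a b hab =>
    E.injective (σ.injective ((hs a).trans (hab ▸ (hs b).symm)))
  have : ∀ b, ∃ b', σ (e' b) = e' b' := fun b => (hc _).resolve_left (by
    rintro ⟨q, hq⟩
    obtain ⟨q, rfl⟩ := si q
    exact hd q b (σ.injective ((hs q).trans hq.symm)))
  choose t' ht' using this
  have ti' : Function.Injective t' := fun a b hab =>
    e'.injective (σ.injective ((ht' a).trans (hab ▸ (ht' b).symm)))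
  exact ⟨(Equiv.ofBijective t (Finite.injective_iff_bijective.1 ti),
    Equiv.ofBijective t' (Finite.injective_iff_bijective.1 ti')), h.1, ht, ht'⟩

open Classical in
theorem fix_E (a : J) : ∑ σ with Shf E σ,
    ∑ π with Inv σ π ∧ Sat (lay E) π ∧ π.comap (lay E) = ⊤, Fw m y σ π =
      y ^ (d + 1) * Ph m J * AA m y J' := by
  choose s hs using mod_ex hd hc
  rw [Ph, AA, mul_assoc, sum_mul_sum, ← sum_product', mul_sum]
  symm
  refine sum_bij (fun p _ => s p) (fun p _ => ?_) (fun p _ q _ h => ?_) (fun σ hσ => ?_)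
    fun p _ => ?_
  · exact mem_filter.2 ⟨mem_univ _, (hs p).1, fun j => ⟨_, (hs p).2.1 j⟩⟩
  · refine Prod.ext (Equiv.ext fun j => (lay E).injective ?_) (Equiv.ext fun b => e'.injective ?_)
    · exact ((hs p).2.1 j).symm.trans (h ▸ (hs q).2.1 j)
    · exact ((hs p).2.2 b).symm.trans (h ▸ (hs q).2.2 b)
  · obtain ⟨p, hp⟩ := (mem_filter.1 hσ).2.ex hd hc
    exact ⟨p, by simp, (hs p).uniq hc hp⟩
  · rw [((hs p).dec hd hc).inner m y a, mul_assoc]

end

/-- adapted embeddings -/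
def Ad (σ : Equiv.Perm I) (π : Setoid I) : Prop :=
  Shf E σ ∧ Sat (lay E) π ∧ π.comap (lay E) = ⊤

open Classical in
theorem count_Ad {σ : Equiv.Perm I} {π : Setoid I} (hπ : Inv σ π) (i : I) :
    ∃ d₀ N₀, (d₀ + 1) * N₀ ≤ Fintype.card I ∧ 0 < N₀ ∧ ∀ d N,
      #{E : Fin (d + 1) × Fin N ↪ I | Ad E σ π ∧ ∃ j, E (0, j) = i} =
        if d = d₀ ∧ N = N₀ then N.factorial else 0 := by
  have ex : ∃ k, π ((σ ^ (k + 1)) i) i := ⟨orderOf σ - 1, by
    rw [Nat.sub_add_cancel (orderOf_pos σ), pow_orderOf_eq_one]; exact π.refl i⟩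
  set d₀ := Nat.find ex
  set B := blk π i
  have inj : ∀ (k k' : Fin (d₀ + 1)) (a a' : B), (σ ^ (k : ℕ)) a = (σ ^ (k' : ℕ)) a' →
      k = k' ∧ a = a' := by
    intro k k' a a' h
    wlog hle : (k : ℕ) ≤ k' generalizing k k' a a'
    · have := this k' k a' a h.symm (by omega)
      exact ⟨this.1.symm, this.2.symm⟩
    obtain ⟨l, hl⟩ := Nat.exists_eq_add_of_le hle
    rw [hl, pow_add, Equiv.Perm.mul_apply, (σ ^ (k : ℕ)).injective.eq_iff] at h
    cases l with
    | zero => exact ⟨Fin.ext hl.symm, Subtype.ext h⟩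
    | succ l =>
      refine absurd ?_ (Nat.find_min ex (m := l) (by have := k'.2; omega))
      exact π.trans ((hπ.pow _ _ _).2 (mem_blk.1 a'.2)) (h ▸ π.symm (mem_blk.1 a.2))
  let mk : ∀ {N}, (Fin N ≃ B) → Fin (d₀ + 1) × Fin N ↪ I := fun ε =>
    ⟨fun p => (σ ^ (p.1 : ℕ)) (ε p.2), fun p q h =>
      Prod.ext (inj _ _ _ _ h).1 (ε.injective (inj _ _ _ _ h).2)⟩
  have rng : ∀ {d N} (E : Fin (d + 1) × Fin N ↪ I), (Ad E σ π ∧ ∃ j, E (0, j) = i) →
      ∀ x, x ∈ B ↔ ∃ j, E (0, j) = x := by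
    rintro d N E ⟨⟨-, h2, h3⟩, j, hj⟩ x
    rw [mem_blk, ← hj]
    refine ⟨fun h => (h2 j x h).imp fun _ => Eq.symm, ?_⟩
    rintro ⟨j', rfl⟩
    change π.comap (lay E) j j'
    rw [h3]; trivial
  let eps : ∀ {d N} (E : Fin (d + 1) × Fin N ↪ I), (Ad E σ π ∧ ∃ j, E (0, j) = i) → Fin N ≃ B :=
    fun E h => Equiv.ofBijective (fun j => ⟨E (0, j), (rng E h _).2 ⟨j, rfl⟩⟩)
      ⟨fun a b hab => (lay E).injective (congrArg Subtype.val hab), fun x =>
        ((rng E h x).1 x.2).imp fun _ => Subtype.ext⟩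
  refine ⟨d₀, #B, ?_, card_pos.2 ⟨i, self_mem_blk π i⟩, fun d N => ?_⟩
  · simpa using Fintype.card_le_of_embedding (mk B.equivFin.symm)
  split_ifs with h
  · obtain ⟨rfl, rfl⟩ := h
    have := Fintype.card_equiv B.equivFin.symm
    rw [Fintype.card_fin] at this
    rw [← this, ← card_univ]
    symm
    refine card_bij (fun ε _ => mk ε) (fun ε _ => ?_) (fun ε _ ε' _ h => ?_) fun E hE => ?_
    · have top : ∀ a b, π (ε a) (ε b) := fun a b =>
        π.trans (π.symm (mem_blk.1 (ε a).2)) (mem_blk.1 (ε b).2)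
      have sur : ∀ x, π i x → ∃ j, x = mk ε (0, j) := fun x hx =>
        ⟨ε.symm ⟨x, mem_blk.2 hx⟩, by simp [mk]⟩
      refine mem_filter.2 ⟨mem_univ _, ⟨⟨fun _ _ => rfl, fun j => sur _ ?_⟩, fun a x hx => sur _ ?_,
        Setoid.ext fun a b => iff_of_true (top a b) trivial⟩, (sur i (π.refl i)).imp fun _ => Eq.symm⟩
      · exact π.trans (π.symm (Nat.find_spec ex)) ((hπ.pow _ _ _).2 (mem_blk.1 (ε j).2))
      · exact π.trans (mem_blk.1 (ε a).2) hx
    · ext j
      exact DFunLike.congr_fun h (0, j)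
    · have h := (mem_filter.1 hE).2
      exact ⟨eps E h, mem_univ _, Function.Embedding.ext fun p => (h.1.1.1 p.1 p.2).symm⟩
  · refine card_eq_zero.2 (filter_eq_empty_iff.2 fun E _ hE => h ⟨?_, ?_⟩)
    · have r := rng E hE
      obtain ⟨⟨⟨h1, h2⟩, -⟩, j, hj⟩ := hE
      refine ((Nat.find_eq_iff ex).2 ⟨?_, fun k hk h => ?_⟩).symm
      · obtain ⟨j', hj'⟩ := h2 j
        exact π.symm (mem_blk.1 ((r _).2 ⟨j', by rw [← hj', hj]⟩))
      · obtain ⟨j', hj'⟩ := (r _).1 (mem_blk.2 (π.symm h))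
        have := E.injective (hj'.trans (hj ▸ (h1 ⟨k + 1, by omega⟩ j).symm))
        simpa using congrArg (fun p => (p.1 : ℕ)) this
    · simpa using Fintype.card_congr (eps E hE)

open Classical in
theorem sum_Ad {σ : Equiv.Perm I} {π : Setoid I} (hπ : Inv σ π) :
    ∑ d ∈ range (Fintype.card I), ∑ N ∈ range (Fintype.card I + 1),
      ∑ E : Fin (d + 1) × Fin N ↪ I with Ad E σ π, (N / N.factorial : ℚ) = Fintype.card I := by
  have e : ∀ d N, ∑ E : Fin (d + 1) × Fin N ↪ I with Ad E σ π, (N / N.factorial : ℚ) =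
      ∑ i, (#{E : Fin (d + 1) × Fin N ↪ I | Ad E σ π ∧ ∃ j, E (0, j) = i} : ℚ) / N.factorial := by
    intro d N
    simp only [← filter_filter, card_filter _ (filter _ univ), Nat.cast_sum, ← sum_div]
    rw [sum_comm]
    congr 1
    refine sum_congr rfl fun E _ => ?_
    rw [← Nat.cast_sum, ← card_filter]
    congr 1
    have : (univ.filter fun i => ∃ j, E (0, j) = i) = univ.map (lay E) := by
      ext i; simp [lay]
    rw [this, card_map, card_univ, Fintype.card_fin]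
  simp only [e]
  rw [sum_congr rfl fun d _ => sum_comm, sum_comm]
  rw [← card_univ, card_eq_sum_ones, Nat.cast_sum]
  refine sum_congr rfl fun i _ => ?_
  obtain ⟨d₀, N₀, h1, h2, h3⟩ := count_Ad hπ i
  simp only [h3]
  rw [sum_eq_single d₀ (fun d _ hd => by simp [hd]) fun h => absurd (mem_range.2 (by
      simp only [sum_const, card_univ, smul_eq_mul, mul_one]; nlinarith)) h,
    sum_eq_single N₀ (fun N _ hN => by simp [hN]) fun h => absurd (mem_range.2 (by
      simp only [sum_const, card_univ, smul_eq_mul, mul_one]; nlinarith)) h]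
  simp [Nat.factorial_ne_zero]

open Classical in
theorem recur (n : ℕ) : (n : ℚ) • AA m y (Fin n) = ∑ d ∈ range n, ∑ N ∈ range (n + 1),
    (n.descFactorial ((d + 1) * N) * (N / N.factorial) : ℚ) •
      (y ^ (d + 1) * Ph m (Fin N) * AA m y (Fin (n - (d + 1) * N))) := by
  have e : (n : ℚ) • AA m y (Fin n) = ∑ σ : Equiv.Perm (Fin n), ∑ π with Inv σ π,
      ∑ d ∈ range n, ∑ N ∈ range (n + 1), ∑ E : Fin (d + 1) × Fin N ↪ Fin n,
        if Ad E σ π then (N / N.factorial : ℚ) • Fw m y σ π else 0 := by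
    rw [AA, smul_sum]
    refine sum_congr rfl fun σ _ => ?_
    rw [smul_sum]
    refine sum_congr rfl fun π hπ => ?_
    have := sum_Ad (mem_filter.1 hπ).2
    rw [Fintype.card_fin] at this
    rw [← this]
    simp only [sum_smul, sum_filter, ite_smul, zero_smul]
  have sw : ∀ {α : Type} (s : Finset α)
      (f : α → (d N : ℕ) → (Fin (d + 1) × Fin N ↪ Fin n) → R),
      ∑ a ∈ s, ∑ d ∈ range n, ∑ N ∈ range (n + 1), ∑ E, f a d N E =
        ∑ d ∈ range n, ∑ N ∈ range (n + 1), ∑ E, ∑ a ∈ s, f a d N E := fun s f => by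
    rw [sum_comm]
    refine sum_congr rfl fun d _ => ?_
    rw [sum_comm]
    exact sum_congr rfl fun N _ => sum_comm
  rw [e, sum_congr rfl fun σ _ => sw _ _, sw]
  refine sum_congr rfl fun d _ => sum_congr rfl fun N _ => ?_
  have c := Fintype.card_embedding_eq (α := Fin (d + 1) × Fin N) (β := Fin n)
  simp only [Fintype.card_fin, Fintype.card_prod] at c
  rw [← c, mul_smul, Nat.cast_smul_eq_nsmul, ← card_univ, ← sum_const]
  refine sum_congr rfl fun E _ => ?_
  rcases N.eq_zero_or_pos with rfl | hN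
  · simp
  have hc : #(univ.map E)ᶜ = n - (d + 1) * N := by simp [card_compl]
  let ε := (equivFinOfCardEq hc).symm
  rw [← fix_E m y (E := E) (e' := ε.toEmbedding.trans (Function.Embedding.subtype _))
    (fun p b h => mem_compl.1 (ε b).2 (mem_map.2 ⟨p, mem_univ _, h⟩)) (fun i => ?_) ⟨0, hN⟩,
    sum_filter, smul_sum]
  · refine sum_congr rfl fun σ _ => ?_
    unfold Ad
    split_ifs with h
    · simp only [h, true_and, sum_filter, smul_sum, ite_and, smul_ite, smul_zero]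
    · simp [h]
  · by_cases hi : i ∈ univ.map E
    · obtain ⟨p, -, hp⟩ := mem_map.1 hi
      exact Or.inl ⟨p, hp.symm⟩
    · exact Or.inr ⟨ε.symm ⟨i, mem_compl.2 hi⟩, by simp⟩

end Pool.Agent.Work.MP_6b5a33_co
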