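import Pool.Agent.Work.MP_6b5a33_co.Wt

/-! Multiplicativity of the weights. -/

namespace Pool.Agent.Work.MP_6b5a33_co

open Finset

variable {I J J' : Type} [Fintype I] [DecidableEq I] [Fintype J] [DecidableEq J] [Fintype J']
  [DecidableEq J']

theorem Inv.pow {σ : Equiv.Perm I} {π : Setoid I} (h : Inv σ π) (k : ℕ) : Inv (σ ^ k) π := by
  induction k with
  | zero => exact fun _ _ => Iff.rfl
  | succ k ih => intro i j; rw [pow_succ', Equiv.Perm.mul_apply, Equiv.Perm.mul_apply, h, ih]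

theorem inv_of_imp {σ : Equiv.Perm I} {π : Setoid I} (h : ∀ i j, π i j → π (σ i) (σ j)) :
    Inv σ π := by
  have hp : ∀ k i j, π i j → π ((σ ^ k) i) ((σ ^ k) j) := fun k => by
    induction k with
    | zero => exact fun _ _ h => h
    | succ k ih => exact fun i j hij => by rw [pow_succ']; exact h _ _ (ih i j hij)
  refine fun i j => ⟨fun hij => ?_, h i j⟩
  have := hp (orderOf σ - 1) _ _ hij
  rwa [← Equiv.Perm.mul_apply, ← Equiv.Perm.mul_apply, ← pow_succ,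
    Nat.sub_add_cancel (orderOf_pos σ), pow_orderOf_eq_one] at this

theorem orb_iff {σ : Equiv.Perm I} {π : Setoid I} (h : Inv σ π) (i j : I) :
    orb σ π i j ↔ ∃ k : ℕ, π ((σ ^ k) i) j := by
  have e : ∀ k : ℕ, ((σ.finsetCongr : Equiv.Perm (Finset I)) ^ k) (blk π i) =
      blk π ((σ ^ k) i) := fun k => by
    induction k with
    | zero => rfl
    | succ k ih => rw [pow_succ', pow_succ', Equiv.Perm.mul_apply, ih, h.blk]; rfl
  constructor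
  · intro hij
    obtain ⟨k, -, hk⟩ := Equiv.Perm.SameCycle.exists_pow_eq' hij
    exact ⟨k, blk_eq.1 ((e k).symm.trans hk)⟩
  · rintro ⟨k, hk⟩
    exact ⟨k, by rw [zpow_natCast, e, blk_eq.2 hk]⟩

theorem orb_bot (σ : Equiv.Perm I) : orb σ ⊥ = Equiv.Perm.SameCycle.setoid σ :=
  Setoid.ext fun i j => by
    rw [orb_iff (inv_bot σ)]
    exact ⟨fun ⟨k, hk⟩ => ⟨k, hk⟩, fun h => let ⟨k, _, hk⟩ := h.exists_pow_eq'; ⟨k, hk⟩⟩

/-- decomposition into an induced part and a complementary part -/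
structure Dec (σ : Equiv.Perm I) (τ : Equiv.Perm J) (σ' : Equiv.Perm J') (e : J ↪ I) (e' : J' ↪ I)
    (d : ℕ) : Prop where
  pos : 0 < d
  ret : ∀ a, (σ ^ d) (e a) = e (τ a)
  eqv : ∀ b, σ (e' b) = e' (σ' b)
  dis : ∀ k, 0 < k → k < d → ∀ a a', (σ ^ k) (e a) ≠ e a'
  dis' : ∀ a b, e a ≠ e' b
  cov : ∀ i, (∃ k < d, ∃ a, i = (σ ^ k) (e a)) ∨ ∃ b, i = e' b

/-- the range of `e` is a union of classes -/
def Sat (e : J ↪ I) (π : Setoid I) : Prop := ∀ a i, π (e a) i → ∃ a', i = e a'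

theorem Sat.mono {e : J ↪ I} {π ρ : Setoid I} (h : Sat e π) (hρ : ρ ≤ π) : Sat e ρ :=
  fun a i hi => h a i (hρ hi)

theorem Sat.fac {e : J ↪ I} {π : Setoid I} (h : Sat e π) (ρ : Setoid I) (a : J) :
    fac ρ (blk π (e a)) = fac (ρ.comap e) (blk (π.comap e) a) := by
  have : blk π (e a) = (blk (π.comap e) a).map e := by
    ext i
    simp only [mem_blk, mem_map]
    constructor
    · intro hi
      obtain ⟨a', rfl⟩ := h a i hi
      exact ⟨a', hi, rfl⟩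
    · rintro ⟨a', h', rfl⟩
      exact h'
  unfold MP_6b5a33_co.fac
  rw [this, card_map, cnt_map (ρ' := ρ.comap e) e fun _ _ => Iff.rfl]

theorem comap_bot' (e : J ↪ I) : (⊥ : Setoid I).comap e = ⊥ :=
  Setoid.ext fun _ _ => e.injective.eq_iff

namespace Dec
variable {σ : Equiv.Perm I} {τ : Equiv.Perm J} {σ' : Equiv.Perm J'} {e : J ↪ I} {e' : J' ↪ I}
  {d : ℕ} (D : Dec σ τ σ' e e' d)
include D

theorem pow' (k : ℕ) (b : J') : (σ ^ k) (e' b) = e' ((σ' ^ k) b) := by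
  induction k with
  | zero => rfl
  | succ k ih => rw [pow_succ', pow_succ', Equiv.Perm.mul_apply, ih, D.eqv]; rfl

theorem pow_mul (q : ℕ) (a : J) : (σ ^ (d * q)) (e a) = e ((τ ^ q) a) := by
  induction q with
  | zero => rfl
  | succ q ih => rw [Nat.mul_succ, add_comm, pow_add, Equiv.Perm.mul_apply, ih, D.ret, pow_succ']; rfl

theorem pow_eq {k : ℕ} {a a' : J} (h : (σ ^ k) (e a) = e a') : ∃ q : ℕ, a' = (τ ^ q) a := by
  rw [← Nat.mod_add_div k d, pow_add, Equiv.Perm.mul_apply, D.pow_mul] at h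
  rcases Nat.eq_zero_or_pos (k % d) with h0 | h0
  · rw [h0] at h
    exact ⟨_, (e.injective h).symm⟩
  · exact absurd h (D.dis _ h0 (Nat.mod_lt _ D.pos) _ _)

theorem pow_inj {k k' : ℕ} (hk : k < d) (hk' : k' < d) {a a' : J}
    (h : (σ ^ k) (e a) = (σ ^ k') (e a')) : k = k' ∧ a = a' := by
  wlog hle : k ≤ k' generalizing k k' a a'
  · have := this hk' hk h.symm (by omega)
    exact ⟨this.1.symm, this.2.symm⟩
  obtain ⟨m, rfl⟩ := Nat.exists_eq_add_of_le hle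
  rw [pow_add, Equiv.Perm.mul_apply, (σ ^ k).injective.eq_iff] at h
  rcases Nat.eq_zero_or_pos m with rfl | h0
  · exact ⟨rfl, e.injective h⟩
  · exact absurd h.symm (D.dis _ h0 (by omega) _ _)

theorem ne' (k : ℕ) (a : J) (b : J') : (σ ^ k) (e a) ≠ e' b := by
  obtain ⟨b, rfl⟩ := (σ' ^ k).surjective b
  rw [← D.pow', (σ ^ k).injective.ne_iff]
  exact D.dis' a b

theorem inv1 {π : Setoid I} (h : Inv σ π) : Inv τ (π.comap e) := fun a b => by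
  change π (e (τ a)) (e (τ b)) ↔ _
  rw [← D.ret, ← D.ret, h.pow]; rfl

theorem inv2 {π : Setoid I} (h : Inv σ π) : Inv σ' (π.comap e') := fun a b => by
  change π (e' (σ' a)) (e' (σ' b)) ↔ _
  rw [← D.eqv, ← D.eqv, h]; rfl

theorem sat2 {π : Setoid I} (h : Inv σ π) (hs : Sat e π) : Sat e' π := fun b i hi => by
  rcases D.cov i with ⟨k, -, a, rfl⟩ | hb
  · obtain ⟨b, rfl⟩ := (σ' ^ k).surjective b
    rw [← D.pow', h.pow] at hi
    obtain ⟨a', ha⟩ := hs a _ (π.symm hi)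
    exact absurd ha.symm (D.dis' _ _)
  · exact hb

theorem le_of {π ρ : Setoid I} (h : Inv σ π) (hs : Sat e π) (h' : Inv σ ρ)
    (h1 : π.comap e ≤ ρ.comap e) (h2 : π.comap e' ≤ ρ.comap e') : π ≤ ρ := fun i j hij => by
  rcases D.cov i with ⟨k, -, a, rfl⟩ | ⟨b, rfl⟩
  · obtain ⟨j, rfl⟩ := (σ ^ k).surjective j
    rw [h.pow] at hij
    obtain ⟨a', rfl⟩ := hs a j hij
    exact (h'.pow k _ _).2 (h1 hij)
  · obtain ⟨b', rfl⟩ := D.sat2 h hs b j hij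
    exact h2 hij

theorem glue {ρ₁ : Setoid J} {ρ₂ : Setoid J'} (h1 : Inv τ ρ₁) (h2 : Inv σ' ρ₂) :
    ∃ ρ, Inv σ ρ ∧ Sat e ρ ∧ ρ.comap e = ρ₁ ∧ ρ.comap e' = ρ₂ := by
  let r : I → I → Prop := fun i j =>
    (∃ k < d, ∃ a a', ρ₁ a a' ∧ i = (σ ^ k) (e a) ∧ j = (σ ^ k) (e a')) ∨
      ∃ b b', ρ₂ b b' ∧ i = e' b ∧ j = e' b'
  have hr : Equivalence r := ⟨fun i => by
      rcases D.cov i with ⟨k, hk, a, rfl⟩ | ⟨b, rfl⟩
      · exact Or.inl ⟨k, hk, a, a, ρ₁.refl a, rfl, rfl⟩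
      · exact Or.inr ⟨b, b, ρ₂.refl b, rfl, rfl⟩, by
      rintro _ _ (⟨k, hk, a, a', h, rfl, rfl⟩ | ⟨b, b', h, rfl, rfl⟩)
      · exact Or.inl ⟨k, hk, a', a, ρ₁.symm h, rfl, rfl⟩
      · exact Or.inr ⟨b', b, ρ₂.symm h, rfl, rfl⟩, by
      rintro _ _ _ (⟨k, hk, a, a', h, rfl, rfl⟩ | ⟨b, b', h, rfl, rfl⟩)
        (⟨l, hl, c, c', h', e1, rfl⟩ | ⟨c, c', h', e1, rfl⟩)
      · obtain ⟨rfl, rfl⟩ := D.pow_inj hk hl e1
        exact Or.inl ⟨k, hk, a, c', ρ₁.trans h h', rfl, rfl⟩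
      · exact absurd e1 (D.ne' _ _ _)
      · exact absurd e1.symm (D.ne' _ _ _)
      · obtain rfl := e'.injective e1
        exact Or.inr ⟨b, c', ρ₂.trans h h', rfl, rfl⟩⟩
  have key : ∀ a j, r (e a) j → ∃ a', ρ₁ a a' ∧ j = e a' := by
    rintro a _ (⟨k, hk, c, c', h, e1, rfl⟩ | ⟨b, b', h, e1, rfl⟩)
    · obtain ⟨rfl, rfl⟩ := D.pow_inj D.pos hk e1
      exact ⟨c', h, rfl⟩
    · exact absurd e1 (D.dis' _ _)
  refine ⟨⟨r, hr⟩, inv_of_imp ?_, fun a i h => (key a i h).imp fun _ h => h.2,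
    Setoid.ext fun a a' => ⟨fun h => ?_, fun h => Or.inl ⟨0, D.pos, a, a', h, rfl, rfl⟩⟩,
    Setoid.ext fun b b' => ⟨?_, fun h => Or.inr ⟨b, b', h, rfl, rfl⟩⟩⟩
  · rintro _ _ (⟨k, hk, a, a', h, rfl, rfl⟩ | ⟨b, b', h, rfl, rfl⟩)
    · left
      simp only [← Equiv.Perm.mul_apply, ← pow_succ']
      rcases (Nat.succ_le_of_lt hk).eq_or_lt with h' | h'
      · exact ⟨0, D.pos, τ a, τ a', (h1 _ _).2 h, by rw [← D.ret, ← h']; rfl,
          by rw [← D.ret, ← h']; rfl⟩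
      · exact ⟨k + 1, h', a, a', h, rfl, rfl⟩
    · exact Or.inr ⟨σ' b, σ' b', (h2 _ _).2 h, D.eqv b, D.eqv b'⟩
  · obtain ⟨c, h1, h2⟩ := key a _ h
    rwa [e.injective h2]
  · rintro (⟨k, hk, c, c', h, e1, -⟩ | ⟨c, c', h, e1, e2⟩)
    · exact absurd e1.symm (D.ne' _ _ _)
    · rwa [e'.injective e1, e'.injective e2]

theorem orb_two {R : Type} [CommMonoid R] {π : Setoid I} (h : Inv σ π) (hs : Sat e π) {g : I → R}
    (hg : ∀ a b, orb σ π a b → g a = g b) : QP (orb σ π) g =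
      QP (orb τ (π.comap e)) (fun a => g (e a)) * QP (orb σ' (π.comap e')) fun b => g (e' b) := by
  refine QP_two e e' (fun a b => ?_) (fun a b => ?_) (fun a b hab => ?_) hg fun i => Or.inr ?_
  · rw [orb_iff h, orb_iff (D.inv1 h)]
    constructor
    · rintro ⟨k, hk⟩
      obtain ⟨a', ha⟩ := hs b _ (π.symm hk)
      obtain ⟨q, rfl⟩ := D.pow_eq ha
      exact ⟨q, by rwa [ha] at hk⟩
    · rintro ⟨q, hq⟩
      exact ⟨d * q, by rwa [D.pow_mul]⟩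
  · simp only [orb_iff h, orb_iff (D.inv2 h), D.pow']; rfl
  · obtain ⟨k, hk⟩ := (orb_iff h _ _).1 hab
    obtain ⟨b', hb⟩ := D.sat2 h hs b _ (π.symm hk)
    exact D.ne' _ _ _ hb
  · rcases D.cov i with ⟨k, -, a, rfl⟩ | ⟨b, rfl⟩
    · exact Or.inl ⟨a, (orb σ π).symm ((orb_iff h _ _).2 ⟨k, π.refl _⟩)⟩
    · exact Or.inr ⟨b, (orb σ π).refl _⟩

theorem nu_two {π ρ : Setoid I} (h : Inv σ π) (hs : Sat e π) (hρ : Inv σ ρ) :
    nu σ π ρ = nu τ (π.comap e) (ρ.comap e) * nu σ' (π.comap e') (ρ.comap e') := by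
  unfold nu
  rw [D.orb_two h hs fun a b hab => sameCycle_inv hρ.fac _ _ hab]
  simp only [hs.fac, (D.sat2 h hs).fac]

open Classical in
theorem sum_two {π : Setoid I} (h : Inv σ π) (hs : Sat e π) (f : Setoid J → ℚ)
    (g : Setoid J' → ℚ) : ∑ ρ with ρ ≤ π ∧ Inv σ ρ, f (ρ.comap e) * g (ρ.comap e') =
      (∑ ρ with ρ ≤ π.comap e ∧ Inv τ ρ, f ρ) * ∑ ρ with ρ ≤ π.comap e' ∧ Inv σ' ρ, g ρ := by
  rw [sum_mul_sum, ← sum_product']
  refine sum_bij (fun ρ _ => (ρ.comap e, ρ.comap e')) ?_ ?_ ?_ fun _ _ => rfl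
  · simp only [mem_filter, mem_univ, true_and, mem_product]
    exact fun ρ hρ => ⟨⟨fun _ _ h => hρ.1 h, D.inv1 hρ.2⟩, fun _ _ h => hρ.1 h, D.inv2 hρ.2⟩
  · simp only [mem_filter, mem_univ, true_and, Prod.mk.injEq]
    exact fun ρ hρ ρ' hρ' hh => (D.le_of hρ.2 (hs.mono hρ.1) hρ'.2 hh.1.le hh.2.le).antisymm
      (D.le_of hρ'.2 (hs.mono hρ'.1) hρ.2 hh.1.ge hh.2.ge)
  · simp only [mem_filter, mem_univ, true_and, mem_product]
    rintro ⟨ρ₁, ρ₂⟩ ⟨a, b⟩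
    obtain ⟨ρ, c1, c2, c3, c4⟩ := D.glue a.2 b.2
    exact ⟨ρ, ⟨D.le_of c1 c2 h (c3 ▸ a.1) (c4 ▸ b.1), c1⟩, Prod.ext c3 c4⟩

theorem wt_two (π : Setoid I) : Inv σ π → Sat e π →
    wt σ π = wt τ (π.comap e) * wt σ' (π.comap e') := by
  classical
  induction π using (wellFounded_lt (α := Setoid I)).induction with | _ π ih
  intro h hs
  by_cases h0 : π = ⊥
  · subst h0
    rw [comap_bot', comap_bot', wt_bot, wt_bot, wt_bot, one_mul]
  have key : ∑ ρ with ρ ≤ π ∧ Inv σ ρ,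
      wt τ (ρ.comap e) * wt σ' (ρ.comap e') * (nu σ π ρ - 1) = 0 := by
    have e1 := D.sum_two h hs (wt τ) (wt σ')
    have e2 := D.sum_two h hs (fun ρ => wt τ ρ * nu τ (π.comap e) ρ)
      fun ρ => wt σ' ρ * nu σ' (π.comap e') ρ
    rw [← lam_eq (D.inv1 h), ← lam_eq (D.inv2 h), lam, lam, ← e1] at e2
    simp only [mul_sub, mul_one, sum_sub_distrib]
    rw [← e2, sub_eq_zero]
    refine sum_congr rfl fun ρ hρ => ?_
    rw [D.nu_two h hs (mem_filter.1 hρ).2.2]; ring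
  rw [sum_le_split h, nu_self h h0] at key
  rw [wt_eq, if_neg h0, sum_congr rfl fun ρ hρ => by
    rw [ih ρ (mem_filter.1 hρ).2.1 (mem_filter.1 hρ).2.2 (hs.mono (mem_filter.1 hρ).2.1.le)]]
  linarith

theorem cyc_two {R : Type} [CommMonoid R] (m : R) :
    QP (Equiv.Perm.SameCycle.setoid σ) (fun _ => m) = QP (Equiv.Perm.SameCycle.setoid τ)
      (fun _ => m) * QP (Equiv.Perm.SameCycle.setoid σ') fun _ => m := by
  have := D.orb_two (inv_bot σ) (fun a i h => ⟨a, h.symm⟩) (g := fun _ => m) fun _ _ _ => rfl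
  rwa [comap_bot', comap_bot', orb_bot, orb_bot, orb_bot] at this

theorem cls_two {R : Type} [CommMonoid R] (y : R) {π : Setoid I} (h : Inv σ π) (hs : Sat e π)
    (ht : π.comap e = ⊤) (a : J) : QP π (fun _ => y) = y ^ d * QP (π.comap e') fun _ => y := by
  have top : ∀ a a', π (e a) (e a') := fun a a' => by
    change π.comap e a a'
    rw [ht]; trivial
  rw [QP_two (ρ₁ := (⊥ : Setoid (Fin d))) (ρ₂ := π.comap e') (fun k => (σ ^ (k : ℕ)) (e a)) e'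
    (fun k l => ?_) (fun _ _ => Iff.rfl) (fun k b hb => ?_) (fun _ _ _ => rfl) fun i => Or.inr ?_]
  · rw [QP_eq (J := Fin d) id (fun _ _ h => h) (fun _ _ _ => rfl) fun k => Or.inr ⟨k, rfl⟩]
    simp
  · refine ⟨fun hk => ?_, fun hk => by rw [show k = l from hk]⟩
    obtain ⟨j, hj⟩ := (σ ^ (k : ℕ)).surjective ((σ ^ (l : ℕ)) (e a))
    rw [← hj, h.pow] at hk
    obtain ⟨a', rfl⟩ := hs a j hk
    exact Fin.ext (D.pow_inj k.2 l.2 hj).1
  · obtain ⟨b', hb⟩ := D.sat2 h hs b _ (π.symm hb)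
    exact D.ne' _ _ _ hb
  · rcases D.cov i with ⟨k, hk, a', rfl⟩ | ⟨b, rfl⟩
    · exact Or.inl ⟨⟨k, hk⟩, (h.pow k _ _).2 (top _ _)⟩
    · exact Or.inr ⟨b, π.refl _⟩

end Dec

end Pool.Agent.Work.MP_6b5a33_co
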