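import Mathlib.Topology.Compactification.OnePoint.Basic
import Mathlib.Analysis.Complex.Basic
import Mathlib.LinearAlgebra.Trace
import Mathlib.GroupTheory.Perm.Cycle.Type
import Mathlib.Algebra.Polynomial.Eval.Defs

/-! Definitions used in the statement: Alexander-Spanier cohomology with rational coefficients,
the moduli space of stable pointed rational curves, and the characteristic polynomials. -/

namespace Pool.Agent.Work.MP_6b5a33_co

open Topology Polynomial

section cohomology
variable (X : Type) {Y : Type} [TopologicalSpace X] [TopologicalSpace Y]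

/-- Alexander-Spanier `p`-cochains: all functions `X^(p+1) → ℚ`. -/
def Cochain (p : ℕ) : Type := (Fin (p + 1) → X) → ℚ

instance cochainGroup (p : ℕ) : AddCommGroup (Cochain X p) := Pi.addCommGroup

instance cochainModule (p : ℕ) : Module ℚ (Cochain X p) := Pi.Function.module _ ℚ ℚ

/-- The coboundary `(δφ)(x_0,…,x_(p+1)) = ∑ (-1)^i φ(x_0,…,omit x_i,…,x_(p+1))`. -/
def cobd (p : ℕ) : Cochain X p →ₗ[ℚ] Cochain X (p + 1) where
  toFun φ x := ∑ i : Fin (p + 2), (-1) ^ (i : ℕ) * φ fun j => x (i.succAbove j)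
  map_add' φ ψ := funext fun _ =>
    (Finset.sum_congr rfl fun _ _ => mul_add _ _ _).trans Finset.sum_add_distrib
  map_smul' c φ := funext fun _ =>
    (Finset.sum_congr rfl fun _ _ => mul_left_comm _ _ _).trans (Finset.mul_sum _ _ c).symm

/-- Locally zero cochains: every point has a neighbourhood `U` with `φ = 0` on `U^(p+1)`. -/
def locZero (p : ℕ) : Submodule ℚ (Cochain X p) where
  carrier := {φ | ∀ a : X, ∃ U ∈ 𝓝 a, ∀ x : Fin (p + 1) → X, (∀ i, x i ∈ U) → φ x = 0}
  add_mem' {φ ψ} h1 h2 a := by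
    obtain ⟨U, hU, h3⟩ := h1 a
    obtain ⟨V, hV, h4⟩ := h2 a
    refine ⟨U ∩ V, Filter.inter_mem hU hV, fun x hx => ?_⟩
    change φ x + ψ x = 0
    rw [h3 x fun i => (hx i).1, h4 x fun i => (hx i).2, add_zero]
  zero_mem' _ := ⟨Set.univ, Filter.univ_mem, fun _ _ => rfl⟩
  smul_mem' c φ h a := by
    obtain ⟨U, hU, h3⟩ := h a
    exact ⟨U, hU, fun x hx => mul_eq_zero_of_right c (h3 x hx)⟩

/-- Cochains representing cocycles of the complex of cochains modulo locally zero cochains. -/
def cocyc (p : ℕ) : Submodule ℚ (Cochain X p) := (locZero X (p + 1)).comap (cobd X p)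

/-- Cochains representing coboundaries of that complex. -/
def cobdry : (p : ℕ) → Submodule ℚ (Cochain X p)
  | 0 => locZero X 0
  | p + 1 => locZero X (p + 1) ⊔ LinearMap.range (cobd X p)

/-- Alexander-Spanier cohomology `H^p(X; ℚ)`. -/
def ASH (p : ℕ) : Type := cocyc X p ⧸ (cobdry X p).submoduleOf (cocyc X p)

instance ashGroup (p : ℕ) : AddCommGroup (ASH X p) := Submodule.Quotient.addCommGroup _

instance ashModule (p : ℕ) : Module ℚ (ASH X p) := Submodule.Quotient.module _

variable {X}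

/-- Pull-back of cochains. -/
def pullC (f : X → Y) (p : ℕ) : Cochain Y p →ₗ[ℚ] Cochain X p where
  toFun φ x := φ fun i => f (x i)
  map_add' _ _ := rfl
  map_smul' _ _ := rfl

theorem pullC_locZero (f : C(X, Y)) (p : ℕ) :
    ∀ φ ∈ locZero Y p, pullC f p φ ∈ locZero X p := fun _ h a =>
  let ⟨U, hU, h1⟩ := h (f a)
  ⟨f ⁻¹' U, f.continuous.continuousAt hU, fun _ hx => h1 _ hx⟩

theorem pullC_cocyc (f : C(X, Y)) (p : ℕ) : ∀ φ ∈ cocyc Y p, pullC f p φ ∈ cocyc X p :=
  fun _ h => pullC_locZero f (p + 1) _ h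

theorem pullC_cobdry (f : C(X, Y)) : ∀ p, ∀ φ ∈ cobdry Y p, pullC f p φ ∈ cobdry X p
  | 0, φ, h => pullC_locZero f 0 φ h
  | p + 1, _, h => by
    obtain ⟨a, ha, _, ⟨b, rfl⟩, rfl⟩ := Submodule.mem_sup.1 h
    exact Submodule.mem_sup.2 ⟨_, pullC_locZero f _ a ha, _, ⟨pullC f p b, rfl⟩, rfl⟩

/-- The map `f^*` induced in cohomology by a continuous map `f`. -/
def pullH (f : C(X, Y)) (p : ℕ) : ASH Y p →ₗ[ℚ] ASH X p :=
  Submodule.mapQ _ _ ((pullC f p).restrict (pullC_cocyc f p)) fun φ h => pullC_cobdry f p φ.1 h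

/-- The trace of `f^*` on `H^p(X; ℚ)`. -/
noncomputable def traceH (f : C(X, X)) (p : ℕ) : ℚ := LinearMap.trace ℚ (ASH X p) (pullH f p)

end cohomology

section moduli
variable {ι : Type}

/-- All cross-ratios of a configuration `z` of points of `ℂ`, as points of `ℙ^1 = ℂ ∪ {∞}`. -/
noncomputable def crossRatios (z : ι → ℂ) : (Fin 4 ↪ ι) → OnePoint ℂ := fun q =>
  (((z (q 0) - z (q 2)) * (z (q 1) - z (q 3)) / ((z (q 0) - z (q 3)) * (z (q 1) - z (q 2))) : ℂ) :
    OnePoint ℂ)

/-- The moduli space of stable rational curves with markings labelled by `ι`: the closure of the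
set of cross-ratio vectors of configurations of distinct points in a product of copies of `ℙ^1`,
one for each ordered quadruple of distinct labels. -/
def M0bar (ι : Type) : Set ((Fin 4 ↪ ι) → OnePoint ℂ) :=
  closure {x | ∃ z : ι → ℂ, Function.Injective z ∧ x = crossRatios z}

theorem continuous_relabel (σ : Equiv.Perm ι) :
    Continuous fun (x : (Fin 4 ↪ ι) → OnePoint ℂ) (q : Fin 4 ↪ ι) => x (q.trans σ.toEmbedding) := by
  fun_prop

theorem relabel_mem (σ : Equiv.Perm ι) :
    Set.MapsTo (fun x q => x (q.trans σ.toEmbedding)) (M0bar ι) (M0bar ι) := by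
  refine Set.MapsTo.closure ?_ (continuous_relabel σ)
  rintro _ ⟨z, hz, rfl⟩
  exact ⟨z ∘ σ, hz.comp σ.injective, rfl⟩

/-- Permuting the markings: the configuration `z` goes to `z ∘ σ`. -/
def relabel (σ : Equiv.Perm ι) : C(M0bar ι, M0bar ι) where
  toFun x := ⟨fun q => x.1 (q.trans σ.toEmbedding), relabel_mem σ x.2⟩
  continuous_toFun := ((continuous_relabel σ).comp continuous_subtype_val).subtype_mk _

end moduli

/-- The characteristic polynomial `(1/n!) ∑_σ χ(σ) m^(ℓ(cycle type of σ))` of an `S_n`-module with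
character `χ`. -/
noncomputable def charPoly {n : ℕ} (χ : Equiv.Perm (Fin n) → ℚ) : ℚ[X] :=
  C (1 / n.factorial : ℚ) * ∑ σ, C (χ σ) * X ^ σ.partition.parts.card

/-- The character of `S_n` on `H^p` of the moduli space with `n + 1` markings, the extra marking
`none` being fixed. -/
noncomputable def charQ (n p : ℕ) (σ : Equiv.Perm (Fin n)) : ℚ :=
  traceH (relabel (ι := Option (Fin n)) σ.optionCongr) p

/-- `Q_n(m, t)`, a polynomial in `t` with coefficients in `ℚ[m]`. -/
noncomputable def Qpoly (n : ℕ) : ℚ[X][X] :=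
  ∑ k ∈ Finset.range (n - 1), C (charPoly (charQ n (2 * k))) * X ^ k

end Pool.Agent.Work.MP_6b5a33_co
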