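import Pool.Agent.Work.MP_6b5a33_co.LefY

/-! Configurations of distinct points are dense in the space of screens. -/

namespace Pool.Agent.Work.MP_6b5a33_co

open Topology Set Metric Module Filter

variable {I : Type} [Fintype I] [DecidableEq I]

/-- vector of differences -/
def dvec : (I → ℂ) →ₗ[ℂ] Ev (I × I) where
  toFun w := WithLp.toLp 2 fun p => w p.1 - w p.2
  map_add' _ _ := by ext p; simp; ring
  map_smul' _ _ := by ext p; simp; ring

theorem dvec_apply (w : I → ℂ) (p : I × I) : dvec w p = w p.1 - w p.2 := rfl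

theorem dvec_mem (w : I → ℂ) : dvec w ∈ VS Finset.univ ⊥ :=
  ⟨fun i j h => by simp at h, fun i _ j _ k _ => by simp [dvec_apply], fun i j h => by
    rw [dvec_apply, show i = j from h, sub_self]⟩

theorem mem_Gs_top {T : Finset I} : T ∈ Gs (⊤ : Setoid I) ↔ 2 ≤ T.card := by
  rw [mem_Gs]; exact and_iff_left fun _ _ _ _ => trivial

/-- screens of a configuration -/
noncomputable def scr (w : I → ℂ) : Finset I → Mat (I × I) := mat (Gs ⊤) fun S => res S (dvec w)

theorem fam_scr {w : I → ℂ} (hw : Function.Injective w) :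
    Fam ⊥ (Gs ⊤) fun S => res S (dvec w) := by
  refine ⟨fun S _ => res_mem (dvec_mem w) S.subset_univ, fun S hS h => ?_,
    fun S _ T _ h => ⟨1, by rw [res_res h, one_smul]⟩⟩
  obtain ⟨i, hi, j, hj, hij⟩ := Finset.one_lt_card.1 (mem_Gs_top.1 hS)
  have := res_eq_zero.1 ((res_res subset_rfl _).symm.trans (by rw [h, map_zero])) i hi j hj
  exact hij (hw (sub_eq_zero.1 this))

theorem scr_mem {w : I → ℂ} (hw : Function.Injective w) : scr w ∈ Y ⊤ :=
  mem_Z.2 ⟨_, fam_scr hw, rfl⟩

theorem dense_scr : Y (⊤ : Setoid I) ⊆ closure {M | ∃ w, Function.Injective w ∧ M = scr w} := by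
  classical
  intro M hM
  obtain ⟨u, hu, rfl⟩ := mem_Z.1 hM
  set G := Gs (⊤ : Setoid I)
  have up : ∀ S ∈ G, ∀ T, S ⊆ T → T ∈ G := fun S hS T h =>
    mem_Gs_top.2 ((mem_Gs_top.1 hS).trans (Finset.card_le_card h))
  let F := G.filter fun S => ∀ T ∈ G, S ⊂ T → res S (u T) = 0
  have mF : ∀ S, S ∈ F ↔ S ∈ G ∧ ∀ T ∈ G, S ⊂ T → res S (u T) = 0 := fun S => Finset.mem_filter
  have nest : ∀ S ∈ F, ∀ S' ∈ F, ∀ t ∈ S, t ∈ S' → S ⊆ S' ∨ S' ⊆ S := by
    intro S hS S' hS' t h1 h2
    by_contra hc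
    push Not at hc
    have hU := up S ((mF S).1 hS).1 (S ∪ S') Finset.subset_union_left
    exact hu.ne _ hU (res_union (hu.mem _ hU) h1 h2
      (((mF S).1 hS).2 _ hU ⟨Finset.subset_union_left, fun h => hc.2 (Finset.union_subset_right h)⟩)
      (((mF S').1 hS').2 _ hU
        ⟨Finset.subset_union_right, fun h => hc.1 (Finset.union_subset_left h)⟩))
  have : ∀ S, ∃ x : I → ℂ, (∀ i ∉ S, x i = 0) ∧
      (S ∈ G → ∀ T ⊆ S, res T (dvec x) = res T (u S)) := fun S => by
    rcases S.eq_empty_or_nonempty with rfl | ⟨b, hb⟩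
    · exact ⟨0, fun _ _ => rfl, fun h => by simpa using mem_Gs_top.1 h⟩
    refine ⟨fun i => if i ∈ S then u S (i, b) else 0, fun i hi => if_neg hi, fun hS T hT => ?_⟩
    ext ⟨i, j⟩
    simp only [res_apply, dvec_apply]
    split_ifs with h h1 h2 h2
    · rw [← (hu.mem S hS).2.1 i h1 j h2 b hb]; ring
    · exact absurd (hT h.2) h2
    · exact absurd (hT h.1) h1
    · exact absurd (hT h.1) h1
    · rfl
  choose x x0 x1 using this
  let z : ℂ → I → ℂ := fun ε => ∑ S ∈ F, ε ^ (Fintype.card I - S.card) • x S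
  have key : ∀ T ∈ G, ∃ (k : ℕ) (v : ℂ → Ev (I × I)), Continuous v ∧ v 0 ≠ 0 ∧
      pr (v 0) = pr (u T) ∧ ∀ ε, res T (dvec (z ε)) = ε ^ k • v ε := by
    intro T hT
    obtain ⟨S, hS, hmax⟩ := (G.filter fun S => T ⊆ S ∧ res T (u S) ≠ 0).exists_max_image
      Finset.card ⟨T, Finset.mem_filter.2 ⟨hT, subset_rfl, by
        rw [res_self (hu.mem T hT)]; exact hu.ne T hT⟩⟩
    obtain ⟨hS, hTS, h0⟩ := Finset.mem_filter.1 hS
    have hSF : S ∈ F := (mF S).2 ⟨hS, fun T' hT' h => by
      obtain ⟨c, hc⟩ := hu.cmp T' hT' S hS h.1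
      by_contra hne
      refine (Finset.card_lt_card h).not_ge (hmax T' (Finset.mem_filter.2
        ⟨hT', hTS.trans h.1, fun h' => ?_⟩))
      rw [← res_res hTS, hc, map_smul, smul_eq_zero, or_iff_left h0] at h'
      exact hne (by rw [hc, h', zero_smul])⟩
    have v0 : ∑ S' ∈ F.filter (· ⊆ S), (0 : ℂ) ^ (S.card - S'.card) • res T (dvec (x S')) =
        res T (u S) := by
      rw [Finset.sum_eq_single_of_mem S (by simpa using hSF) fun S' hS' hne => ?_, x1 S hS T hTS]
      · simp
      · rw [zero_pow (Nat.sub_ne_zero_of_lt (Finset.card_lt_card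
          ((Finset.mem_filter.1 hS').2.ssubset_of_ne hne))), zero_smul]
    refine ⟨Fintype.card I - S.card,
      fun ε => ∑ S' ∈ F.filter (· ⊆ S), ε ^ (S.card - S'.card) • res T (dvec (x S')),
      by fun_prop, v0.trans_ne h0, ?_, fun ε => ?_⟩
    · obtain ⟨c, hc⟩ := hu.cmp S hS T hT hTS
      simp only [v0]
      rw [hc, pr_smul]
      rintro rfl
      exact h0 (by rw [hc, zero_smul])
    · simp only [z, map_sum, map_smul, Finset.smul_sum, smul_smul, ← pow_add]
      rw [← Finset.sum_subset (Finset.filter_subset (· ⊆ S) F) fun S' hS' h => ?_]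
      · refine Finset.sum_congr rfl fun S' hS' => ?_
        have := Finset.card_le_card (Finset.mem_filter.1 hS').2
        have := S.card_le_univ
        congr 2
        omega
      · have h' : ¬ S' ⊆ S := fun h' => h (Finset.mem_filter.2 ⟨hS', h'⟩)
        refine smul_eq_zero_of_right _ ?_
        by_cases hd : ∃ t ∈ S', t ∈ S
        · obtain ⟨t, h1, h2⟩ := hd
          have := (nest S' hS' S hSF t h1 h2).resolve_left h'
          rw [x1 S' ((mF _).1 hS').1 T (hTS.trans this), ← res_res hTS,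
            ((mF S).1 hSF).2 S' ((mF _).1 hS').1 ⟨this, h'⟩, map_zero]
        · push Not at hd
          exact res_eq_zero.2 fun i hi j hj => by
            rw [dvec_apply, x0 S' i fun h => hd i h (hTS hi), x0 S' j fun h => hd j h (hTS hj),
              sub_zero]
  refine mem_closure_of_tendsto (f := fun ε => scr (z ε)) (b := 𝓝[≠] (0 : ℂ))
    (tendsto_pi_nhds.2 fun T => ?_) ?_
  · by_cases hT : T ∈ G
    · obtain ⟨k, v, h1, h2, h3, h4⟩ := key T hT
      rw [mat_pos _ hT, ← h3]
      refine (((continuousAt_pr h2).tendsto.comp (h1.tendsto 0)).mono_left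
        nhdsWithin_le_nhds).congr' ?_
      filter_upwards [self_mem_nhdsWithin] with ε hε
      rw [scr, mat_pos _ hT, h4, pr_smul (pow_ne_zero _ hε)]; rfl
    · rw [mat_neg _ hT]
      exact tendsto_const_nhds.congr fun ε => (mat_neg _ hT).symm
  · have : ∀ i j, ∀ᶠ ε in 𝓝[≠] (0 : ℂ), z ε i = z ε j → i = j := fun i j => by
      by_cases hij : i = j
      · exact Eventually.of_forall fun _ _ => hij
      obtain ⟨k, v, h1, h2, -, h4⟩ := key {i, j} (mem_Gs_top.2 (Finset.card_pair hij).ge)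
      filter_upwards [self_mem_nhdsWithin,
        nhdsWithin_le_nhds (h1.continuousAt.eventually_ne h2)] with ε hε hv h
      refine absurd ((h4 ε).symm.trans (res_eq_zero.2 fun a ha b hb => ?_))
        (smul_ne_zero (pow_ne_zero _ hε) hv)
      simp only [Finset.mem_insert, Finset.mem_singleton] at ha hb
      rcases ha with rfl | rfl <;> rcases hb with rfl | rfl <;> simp [dvec_apply, h]
    filter_upwards [eventually_all.2 fun i => eventually_all.2 (this i)] with ε hε
    exact ⟨z ε, fun i j => hε i j, rfl⟩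

end Pool.Agent.Work.MP_6b5a33_co
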