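import Mathlib.Topology.Compactification.OnePoint.Basic
import Mathlib.Analysis.Complex.Basic
import Mathlib.Tactic

/-! A closed relation describing points of the Riemann sphere as ratios. -/

namespace Pool.Agent.Work.MP_6b5a33_co

open Topology Filter OnePoint ComplexConjugate

theorem cont_elim {g : ℂ → ℂ} (hg : Continuous g) (h : ∀ c, ‖g c‖ ≤ 2 * (1 + ‖c‖)⁻¹) :
    Continuous fun x : OnePoint ℂ => x.elim 0 g := by
  refine (OnePoint.continuous_iff _).2 ⟨?_, hg⟩
  rw [coclosedCompact_eq_cocompact, ← Metric.cobounded_eq_cocompact]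
  refine squeeze_zero_norm h ?_
  simpa using (tendsto_inv_atTop_zero.comp (tendsto_atTop_add_const_left _ 1
    (tendsto_norm_cobounded_atTop (E := ℂ)))).const_mul 2

theorem den_ne (c : ℂ) : (1 + (‖c‖ : ℂ) ^ 2) ≠ 0 := by
  have : (0 : ℝ) < 1 + ‖c‖ ^ 2 := by positivity
  exact_mod_cast this.ne'

theorem norm_den (c : ℂ) : ‖1 + (‖c‖ : ℂ) ^ 2‖ = 1 + ‖c‖ ^ 2 := by
  rw [show 1 + (‖c‖ : ℂ) ^ 2 = ((1 + ‖c‖ ^ 2 : ℝ) : ℂ) by push_cast; rfl, Complex.norm_real,
    Real.norm_of_nonneg (by positivity)]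

/-- first coordinate function -/
noncomputable def k1 (x : OnePoint ℂ) : ℂ := x.elim 0 fun c => 1 / (1 + (‖c‖ : ℂ) ^ 2)

/-- second coordinate function -/
noncomputable def k2 (x : OnePoint ℂ) : ℂ := x.elim 0 fun c => c / (1 + (‖c‖ : ℂ) ^ 2)

theorem continuous_k1 : Continuous k1 := by
  refine cont_elim (Continuous.div (by fun_prop) (by fun_prop) den_ne) fun c => ?_
  rw [norm_div, norm_den, norm_one, ← div_eq_mul_inv,
    div_le_div_iff₀ (by positivity) (by positivity)]
  nlinarith [norm_nonneg c, sq_nonneg (‖c‖ - 1)]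

theorem continuous_k2 : Continuous k2 := by
  refine cont_elim (Continuous.div (by fun_prop) (by fun_prop) den_ne) fun c => ?_
  rw [norm_div, norm_den, ← div_eq_mul_inv, div_le_div_iff₀ (by positivity) (by positivity)]
  nlinarith [norm_nonneg c, sq_nonneg (‖c‖ - 1)]

/-- `x` is the ratio of `A` and `B` -/
def Eqn (x : OnePoint ℂ) (A B : ℂ) : Prop :=
  k1 x * A = k2 x * B ∧ conj (k2 x) * A = (1 - k1 x) * B

theorem eqn_inf {A B : ℂ} : Eqn ∞ A B ↔ B = 0 := by
  simp [Eqn, k1, k2, eq_comm]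

theorem eqn_coe {c A B : ℂ} : Eqn c A B ↔ A = c * B := by
  have h := den_ne c
  have e : conj (1 + (‖c‖ : ℂ) ^ 2) = 1 + (‖c‖ : ℂ) ^ 2 := by simp
  change 1 / _ * A = c / _ * B ∧ conj (c / _) * A = (1 - 1 / _) * B ↔ _
  rw [map_div₀, e]
  constructor
  · intro hh
    have := hh.1
    field_simp at this
    exact this
  · rintro rfl
    refine ⟨by ring, ?_⟩
    field_simp
    rw [← Complex.mul_conj' c]; ring

theorem Eqn.uniq {x x' : OnePoint ℂ} {A B : ℂ} (h : Eqn x A B) (h' : Eqn x' A B)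
    (hn : ¬ (A = 0 ∧ B = 0)) : x = x' := by
  induction x using OnePoint.rec <;> induction x' using OnePoint.rec <;>
    simp only [eqn_inf, eqn_coe] at h h'
  · rfl
  · exact absurd ⟨by rw [h', h, mul_zero], h⟩ hn
  · exact absurd ⟨by rw [h, h', mul_zero], h'⟩ hn
  · have : B ≠ 0 := fun hB => hn ⟨by rw [h, hB, mul_zero], hB⟩
    rw [mul_right_cancel₀ this (h.symm.trans h')]

theorem Eqn.cross {x : OnePoint ℂ} {A B A' B' : ℂ} (h : Eqn x A B) (h' : Eqn x A' B') :
    A * B' = B * A' := by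
  induction x using OnePoint.rec <;> simp only [eqn_inf, eqn_coe] at h h'
  · simp [h, h']
  · rw [h, h']; ring

theorem Eqn.scale {x : OnePoint ℂ} {A B A' B' k : ℂ} (h : Eqn x A' B') (hk : k ≠ 0)
    (hA : A' = A * k) (hB : B' = B * k) : Eqn x A B := by
  subst hA hB
  induction x using OnePoint.rec <;> simp only [eqn_inf, eqn_coe] at h ⊢
  · simpa [hk] using h
  · exact mul_right_cancel₀ hk (by rw [h, mul_assoc])

theorem isClosed_eqn {T : Type} [TopologicalSpace T] {f : T → OnePoint ℂ} {g h : T → ℂ}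
    (hf : Continuous f) (hg : Continuous g) (hh : Continuous h) :
    IsClosed {y | Eqn (f y) (g y) (h y)} := by
  have c1 := continuous_k1.comp hf
  have c2 := continuous_k2.comp hf
  exact (isClosed_eq (c1.mul hg) (c2.mul hh)).inter (isClosed_eq
    ((Complex.continuous_conj.comp c2).mul hg) ((continuous_const.sub c1).mul hh))

end Pool.Agent.Work.MP_6b5a33_co
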