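import Pool.Agent.Work.MP_6b5a33_co.Scr

/-! Vanishing of odd and high cohomology of spaces of screens. -/

namespace Pool.Agent.Work.MP_6b5a33_co

open Topology Set Metric Module

variable {I : Type} [Fintype I] [DecidableEq I]

theorem Fam.two {π : Setoid I} {G : Finset (Finset I)} {u : Finset I → Ev (I × I)}
    (hu : Fam π G u) {S S' T : Finset I} (hS : S ∈ G) (hS' : S' ∈ G) (hU : S ∪ S' ∈ G)
    (h1 : T ⊆ S) (h2 : T ⊆ S') (h : res T (u S') ≠ 0) :
    ∃ c : ℂ, res T (u S) = c • res T (u S') := by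
  obtain ⟨c, hc⟩ := hu.cmp _ hU S hS Finset.subset_union_left
  obtain ⟨c', hc'⟩ := hu.cmp _ hU S' hS' Finset.subset_union_right
  have e : c • res T (u S) = c' • res T (u S') := by
    rw [← map_smul, ← map_smul, ← hc, ← hc', res_res h1, res_res h2]
  obtain ⟨t, ht⟩ : T.Nonempty := by
    rw [Finset.nonempty_iff_ne_empty]
    rintro rfl
    exact h (res_eq_zero.2 (by simp))
  have c0 : c ≠ 0 := by
    rintro rfl
    rw [zero_smul, eq_comm, smul_eq_zero, or_iff_left h] at e
    rw [zero_smul] at hc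
    rw [e, zero_smul] at hc'
    exact hu.ne _ hU (res_union (hu.mem _ hU) (h1 ht) (h2 ht) hc hc')
  exact ⟨c⁻¹ * c', by rw [mul_smul, ← e, smul_smul, inv_mul_cancel₀ c0, one_smul]⟩

theorem Fam.up {π : Setoid I} {G : Finset (Finset I)} {u : Finset I → Ev (I × I)}
    (hu : Fam π G u) {S T : Finset I} (hT : T ∈ G) (hU : T ∪ S ∈ G) (h : res S (u T) ≠ 0) :
    res S (u (T ∪ S)) ≠ 0 := by
  intro h0
  obtain ⟨c, hc⟩ := hu.cmp _ hU T hT Finset.subset_union_left
  have e : c • res S (u T) = 0 := by rw [← map_smul, ← hc, res_comm, h0, map_zero]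
  rw [smul_eq_zero, or_iff_left h] at e
  rw [e, zero_smul] at hc
  rw [Ne, res_eq_zero] at h
  push Not at h
  obtain ⟨i, hi, j, -, h⟩ := h
  have : i ∈ T := by
    by_contra hc
    exact h ((hu.mem T hT).1 i j fun h' => hc h'.1)
  exact hu.ne _ hU (res_union (hu.mem _ hU) this hi hc h0)

/-- collapsing a saturated subset -/
def coll (π : Setoid I) (S : Finset I) (h : ∀ i j, π i j → i ∈ S → j ∈ S) : Setoid I where
  r i j := π i j ∨ (i ∈ S ∧ j ∈ S)
  iseqv := ⟨fun i => Or.inl (π.refl i), fun h => h.imp π.symm And.symm, by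
    rintro i j k (a | a) (b | b)
    · exact Or.inl (π.trans a b)
    · exact Or.inr ⟨h _ _ (π.symm a) b.1, b.2⟩
    · exact Or.inr ⟨a.1, h _ _ b a.2⟩
    · exact Or.inr ⟨a.1, b.2⟩⟩

theorem finrank_coll {π : Setoid I} {S : Finset I} (h : ∀ i j, π i j → i ∈ S → j ∈ S)
    (hS : S.Nonempty) : finrank ℂ (VS S π) + finrank ℂ (VS Finset.univ (coll π S h)) ≤
      finrank ℂ (VS Finset.univ π) := by
  obtain ⟨s, hs⟩ := hS
  rw [← ((res S).domRestrict (VS Finset.univ π)).finrank_range_add_finrank_ker]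
  gcongr
  · refine Submodule.finrank_mono fun u hu => ?_
    let x : I → ℂ := fun i => if i ∈ S then u (i, s) else 0
    refine ⟨⟨WithLp.toLp 2 fun p => x p.1 - x p.2, fun i j h => by simp at h,
      fun i _ j _ k _ => by simp, fun i j hij => ?_⟩, ?_⟩
    · change x i - x j = 0
      by_cases hi : i ∈ S
      · simp only [x, if_pos hi, if_pos (h i j hij hi)]
        rw [← hu.2.1 i hi j (h i j hij hi) s hs, hu.2.2 i j hij]; ring
      · simp only [x, if_neg hi, if_neg (mt (h j i (π.symm hij)) hi), sub_zero]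
    · ext ⟨i, j⟩
      change (if i ∈ S ∧ j ∈ S then x i - x j else 0) = u (i, j)
      split_ifs with hij
      · simp only [x, if_pos hij.1, if_pos hij.2]
        rw [← hu.2.1 i hij.1 j hij.2 s hs]; ring
      · exact (hu.1 i j hij).symm
  · have le : VS Finset.univ (coll π S h) ≤ VS Finset.univ π := fun u hu =>
      ⟨hu.1, hu.2.1, fun i j hij => hu.2.2 i j (Or.inl hij)⟩
    rw [← (Submodule.comapSubtypeEquivOfLe le).finrank_eq]
    refine Submodule.finrank_mono fun u hu => ?_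
    exact res_eq_zero.2 fun i hi j hj => hu.2.2 i j (Or.inr ⟨hi, hj⟩)

theorem vn_pt0 : Vn (Sup 0) ({()} : Set Unit) := (vn_pt ()).mono fun p hp => by
  rintro rfl
  simp [Sup] at hp

theorem even_Z (G : Finset (Finset I)) : (∀ S ∈ G, S.Nonempty) → Finset.univ ∈ G →
    (∀ S ∈ G, ∀ T, S ⊆ T → T ∈ G) →
    ∀ π, Vn (Sup (finrank ℂ (VS Finset.univ π) - 1)) (Z π G) := by
  induction G using Finset.strongInductionOn with | _ G ih
  intro hne hu up π
  obtain ⟨S, hS, hmin⟩ := G.exists_min_image Finset.card ⟨_, hu⟩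
  by_cases hSu : S = Finset.univ
  · have hG : G = {Finset.univ} := by
      refine Finset.eq_singleton_iff_unique_mem.2 ⟨hu, fun T hT => ?_⟩
      exact Finset.eq_univ_of_card _ ((Finset.card_le_univ T).antisymm (by
        simpa [hSu] using hmin T hT))
    have : Z π G = PP G (VS · π) := by
      refine inter_subset_left.antisymm fun M hM => ?_
      obtain ⟨u, hu', rfl⟩ := exists_mat hM
      refine mem_Z.2 ⟨u, ⟨fun S hS => (hu' S hS).1, fun S hS => (hu' S hS).2, ?_⟩, rfl⟩
      simp only [hG, Finset.mem_singleton]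
      rintro _ rfl _ rfl -
      exact ⟨1, by rw [res_self (hu' _ hu).1, one_smul]⟩
    rw [this]
    have lc : LC ({()} : Set Unit) := LC.of_compact isCompact_singleton
    have := (proj lc G (VS · π)).2.1 0 vn_pt0
    rw [(tr_pt (isCompact_PP _ _)).vn (lc.prod (LC.of_compact (isCompact_PP _ _)))] at this
    simpa [hG] using this
  set G' := G.erase S with hG'
  have mG : ∀ T, T ∈ G' ↔ T ≠ S ∧ T ∈ G := fun T => Finset.mem_erase
  have min' : ∀ T ∈ G, T ⊆ S → T = S := fun T hT h =>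
    Finset.eq_of_subset_of_card_le h (hmin T hT)
  have up' : ∀ T ∈ G', ∀ T', T ⊆ T' → T' ∈ G' := fun T hT T' h => (mG _).2
    ⟨fun e => ((mG _).1 hT).1 (min' T ((mG _).1 hT).2 (e ▸ h)), up T ((mG _).1 hT).2 T' h⟩
  have IH := ih G' (Finset.erase_ssubset hS) (fun T hT => hne T ((mG _).1 hT).2)
    ((mG _).2 ⟨Ne.symm hSu, hu⟩) up'
  let C : Set (Finset I → Mat (I × I)) := {M | ∀ T ∈ G', ∀ i ∈ S, ∀ j ∈ S, M T (i, j) (i, j) = 0}
  have cC : IsClosed C := by
    simp only [C, ofPred_forall]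
    exact isClosed_iInter fun T => isClosed_iInter fun _ => isClosed_iInter fun i =>
      isClosed_iInter fun _ => isClosed_iInter fun j => isClosed_iInter fun _ =>
      isClosed_eq (by fun_prop) continuous_const
  let f : (Finset I → Mat (I × I)) → Finset I → Mat (I × I) := fun M => Function.update M S 0
  have cf : Continuous f := by fun_prop
  have fC : ∀ M, f M ∈ C ↔ M ∈ C := fun M => forall₂_congr fun T hT => by
    simp only [f, Function.update_of_ne ((mG _).1 hT).1]
  have fm : ∀ u, f (mat G u) = mat G' u := fun u => funext fun T => by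
    by_cases h : T = S
    · subst h; simp [f, mat, mG]
    · simp [f, mat, mG, h]
  have fam : ∀ u, Fam π G u → Fam π G' u := fun u hu => ⟨fun T hT => hu.mem T ((mG _).1 hT).2,
    fun T hT => hu.ne T ((mG _).1 hT).2,
    fun T hT T' hT' => hu.cmp T ((mG _).1 hT).2 T' ((mG _).1 hT').2⟩
  have mC : ∀ u, Fam π G' u → (mat G' u ∈ C ↔ ∀ T ∈ G', res S (u T) = 0) := fun u hu =>
    forall₂_congr fun T hT => by simp only [res_eq_zero, mat_pos u hT, pr_diag (hu.ne T hT)]
  have nC : ∀ u, Fam π G' u → mat G' u ∉ C → ∃ T ∈ G', S ⊆ T ∧ res S (u T) ≠ 0 := by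
    intro u hu h
    rw [mC u hu] at h
    push Not at h
    obtain ⟨T, hT, h⟩ := h
    have := up' T hT (T ∪ S) Finset.subset_union_left
    exact ⟨_, this, Finset.subset_union_right, hu.up hT this h⟩
  have ext : ∀ u v, Fam π G' u → v ∈ VS S π → v ≠ 0 →
      (∀ T ∈ G', S ⊆ T → ∃ c : ℂ, res S (u T) = c • v) → Fam π G (Function.update u S v) ∧
        f (mat G (Function.update u S v)) = mat G' u := by
    intro u v hu h1 h2 h3
    refine ⟨⟨fun T hT => ?_, fun T hT => ?_, fun T hT T' hT' h => ?_⟩, ?_⟩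
    · by_cases e : T = S
      · rwa [e, Function.update_self]
      · rw [Function.update_of_ne e]; exact hu.mem T ((mG _).2 ⟨e, hT⟩)
    · by_cases e : T = S
      · rwa [e, Function.update_self]
      · rw [Function.update_of_ne e]; exact hu.ne T ((mG _).2 ⟨e, hT⟩)
    · by_cases e : T = S
      · subst e
        rw [min' T' hT' h, Function.update_self]
        exact ⟨1, by rw [res_self h1, one_smul]⟩
      · rw [Function.update_of_ne e]
        by_cases e' : T' = S
        · subst e'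
          rw [Function.update_self]; exact h3 T ((mG _).2 ⟨e, hT⟩) h
        · rw [Function.update_of_ne e']
          exact hu.cmp T ((mG _).2 ⟨e, hT⟩) T' ((mG _).2 ⟨e', hT'⟩) h
    · rw [fm]
      funext T
      by_cases hT : T ∈ G'
      · rw [mat_pos _ hT, mat_pos _ hT, Function.update_of_ne ((mG _).1 hT).1]
      · rw [mat_neg _ hT, mat_neg _ hT]
  have mA : MapsTo f (Z π G) (Z π G') := fun M hM => by
    obtain ⟨u, hu, rfl⟩ := mem_Z.1 hM
    exact mem_Z.2 ⟨u, fam u hu, fm u⟩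
  have finj : ∀ M M', f M = f M' → M S = M' S → M = M' := fun M M' h h' => funext fun T => by
    by_cases e : T = S
    · rw [e, h']
    · simpa only [f, Function.update_of_ne e] using congrFun h T
  have cZC := (isCompact_Z π G').inter_right cC
  have cE := (isCompact_Z π G).inter_right cC
  refine blowup cf (isCompact_Z π G') cZC (isCompact_Z π G) cE inter_subset_left inter_subset_left
    mA (fun M hM => ⟨mA hM.1, (fC M).2 hM.2⟩) ⟨fun M hM => ⟨mA hM.1, fun h =>
      hM.2 ⟨hM.1, (fC M).1 h.2⟩⟩, fun M hM M' hM' h => finj M M' h ?_, fun M hM => ?_⟩ (IH π) ?_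
  · obtain ⟨u, hu, rfl⟩ := mem_Z.1 hM.1
    obtain ⟨T, hT, h1, h2⟩ := nC u (fam u hu) fun h => hM.2 ⟨hM.1, (fC _).1 (fm u ▸ h)⟩
    have hT' := (mG _).1 hT
    have e : M' T = pr (u T) := by
      have := congrFun h T
      simp only [f, Function.update_of_ne hT'.1] at this
      rw [← this, mat_pos u hT'.2]
    rw [cmp_eq h2 ((hM'.1.1 S).1 hS) (e ▸ hM'.1.2 T hT'.2 S hS h1),
      cmp_eq h2 ((hM.1.1 S).1 hS) (mat_pos u hT'.2 ▸ hM.1.2 T hT'.2 S hS h1)]
  · obtain ⟨u, hu, rfl⟩ := mem_Z.1 hM.1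
    obtain ⟨T, hT, h1, h2⟩ := nC u hu fun h => hM.2 ⟨hM.1, h⟩
    obtain ⟨a, b⟩ := ext u _ hu (res_mem (hu.mem T hT) h1) h2 fun T' hT' h =>
      hu.two hT' hT (up' _ hT' _ Finset.subset_union_left) h h1 h2
    exact ⟨_, ⟨mem_Z.2 ⟨_, a, rfl⟩, fun h => hM.2 ⟨hM.1, b ▸ (fC _).2 h.2⟩⟩, b⟩
  have t : Tr (fun M => (f M, Pi.single S (M S))) (Z π G ∩ C)
      ((Z π G' ∩ C) ×ˢ PP {S} (VS · π)) := by
    refine Tr.of_compact (cf.prodMk ((continuous_single (A := fun _ : Finset I => Mat (I × I)) S).comp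
      (continuous_apply S))) cE ⟨fun M hM => ⟨⟨mA hM.1, (fC M).2 hM.2⟩, fun T => ?_⟩,
      fun M _ M' _ h => finj M M' (Prod.ext_iff.1 h).1 ?_, ?_⟩
    · rw [Finset.mem_singleton]
      refine ⟨?_, fun h => Pi.single_eq_of_ne h _⟩
      rintro rfl
      simpa using (hM.1.1 T).1 hS
    · simpa using congrFun (Prod.ext_iff.1 h).2 S
    · rintro ⟨M, y⟩ ⟨⟨hM, hC⟩, hy⟩
      obtain ⟨u, hu, rfl⟩ := mem_Z.1 hM
      obtain ⟨v, ⟨h1, h2⟩, h3⟩ := (hy S).1 (Finset.mem_singleton_self S)
      obtain ⟨a, b⟩ := ext u v hu h1 h2 fun T hT _ =>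
        ⟨0, by rw [(mC u hu).1 hC T hT, zero_smul]⟩
      refine ⟨_, ⟨mem_Z.2 ⟨_, a, rfl⟩, (fC _).1 (b ▸ hC)⟩, Prod.ext b (funext fun T => ?_)⟩
      by_cases e : T = S
      · subst e
        simp only [Pi.single_eq_same, mat_pos _ hS, Function.update_self, h3]
      · simp only [Pi.single_eq_of_ne e]
        exact ((hy T).2 (by simpa using e)).symm
  rw [← t.vn ((LC.of_compact cZC).prod (LC.of_compact (isCompact_PP _ _)))]
  by_cases sat : ∀ i j, π i j → i ∈ S → j ∈ S
  · have e : Z π G' ∩ C = Z (coll π S sat) G' := by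
      have le : π ≤ coll π S sat := fun i j h => Or.inl h
      ext M
      constructor
      · rintro ⟨⟨h1, h2⟩, h3⟩
        refine ⟨fun T => ⟨fun hT => (mem_PV_VS le).2 ⟨(h1 T).1 hT, ?_⟩, (h1 T).2⟩, h2⟩
        rintro i j (h | h)
        · exact ((mem_PV_VS le_rfl).1 ((h1 T).1 hT)).2 i j h
        · exact h3 T hT i h.1 j h.2
      · rintro ⟨h1, h2⟩
        exact ⟨⟨fun T => ⟨fun hT => ((mem_PV_VS le).1 ((h1 T).1 hT)).1, (h1 T).2⟩, h2⟩,
          fun T hT i hi j hj => ((mem_PV_VS le).1 ((h1 T).1 hT)).2 i j (Or.inr ⟨hi, hj⟩)⟩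
    rw [e]
    refine Sup.mono ((proj (LC.of_compact (isCompact_Z _ _)) {S} (VS · π)).2.1 _ (IH _)) ?_
    have := finrank_coll sat (hne S hS)
    rw [Finset.sum_singleton]
    omega
  · have e : Z π G' ∩ C = ∅ := by
      refine eq_empty_of_forall_notMem fun M hM => sat fun i j hij hi => ?_
      by_contra hj
      obtain ⟨u, hu, rfl⟩ := mem_Z.1 hM.1
      have hT : S ∪ {i, j} ∈ G' := (mG _).2 ⟨fun e => hj (e ▸ by simp),
        up S hS _ Finset.subset_union_left⟩
      refine hu.ne _ hT (res_union (hu.mem _ hT) hi (by simp) ((mC u hu).1 hM.2 _ hT)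
        (res_eq_zero.2 fun a ha b hb => (hu.mem _ hT).2.2 a b ?_))
      simp only [Finset.mem_insert, Finset.mem_singleton] at ha hb
      rcases ha with rfl | rfl <;> rcases hb with rfl | rfl
      exacts [π.refl _, hij, π.symm hij, π.refl _]
    rw [e, empty_prod]
    exact vn_empty _

end Pool.Agent.Work.MP_6b5a33_co
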