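import Pool.Agent.Work.MP_6b5a33_co.Dens
import Pool.Agent.Work.MP_6b5a33_co.Eqn
import Pool.Agent.Work.MP_6b5a33_co.Defs

/-! Identification of the cross-ratio model with the space of screens. -/

namespace Pool.Agent.Work.MP_6b5a33_co

open Topology Set Metric Module Filter

variable {I : Type} [Fintype I] [DecidableEq I]

/-- move the extra point to infinity -/
noncomputable def wv (z : Option I → ℂ) (i : I) : ℂ := (z (some i) - z none)⁻¹

theorem wv_inj {z : Option I → ℂ} (hz : Function.Injective z) : Function.Injective (wv z) :=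
  fun _ _ h => Option.some_injective _ (hz (sub_left_injective (inv_injective h)))

abbrev PQ (I : Type) : Type := ((Fin 4 ↪ Option I) → OnePoint ℂ) × (Finset I → Mat (I × I))

/-- closure of the graph -/
def Gam (I : Type) [Fintype I] [DecidableEq I] : Set (PQ I) :=
  closure {y | ∃ z : Option I → ℂ, Function.Injective z ∧ y = (crossRatios z, scr (wv z))}

theorem gam_snd : MapsTo Prod.snd (Gam I) (Y ⊤) := fun y hy =>
  closure_minimal (t := Prod.snd ⁻¹' Y ⊤) (by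
    rintro _ ⟨z, hz, rfl⟩
    exact scr_mem (wv_inj hz)) ((isCompact_Z _ _).isClosed.preimage continuous_snd) hy

theorem gam_fst : MapsTo Prod.fst (Gam I) (M0bar (Option I)) := by
  refine MapsTo.closure ?_ continuous_fst
  rintro _ ⟨z, hz, rfl⟩
  exact ⟨z, hz, rfl⟩

theorem isCompact_Gam : IsCompact (Gam I) :=
  (isCompact_univ.prod (isCompact_Z ⊥ (Gs ⊤))).of_isClosed_subset isClosed_closure
    fun _ hy => ⟨trivial, gam_snd hy⟩

theorem scr_apply (w : I → ℂ) {S : Finset I} (hS : S ∈ Gs ⊤) {a c : I} (ha : a ∈ S) (hc : c ∈ S)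
    (p : I × I) : scr w S (a, c) p = (w a - w c) *
      ((starRingEnd ℂ) (res S (dvec w) p) / (‖res S (dvec w)‖ : ℂ) ^ 2) := by
  rw [scr, mat_pos _ hS, pr, res_apply, if_pos ⟨ha, hc⟩, dvec_apply, mul_div_assoc]

theorem pr_fac {Λ : Type} [Fintype Λ] {u : Ev Λ} (hu : u ≠ 0) :
    ∃ p k, k ≠ 0 ∧ ∀ q, pr u q p = u q * k := by
  obtain ⟨p, hp⟩ := exists_ne_of_ne hu
  exact ⟨p, _, div_ne_zero (by simpa using hp) (nrm_ne hu), fun q => mul_div_assoc _ _ _⟩

theorem sub_ne {ι : Type} {z : ι → ℂ} (hz : Function.Injective z) (q : Fin 4 ↪ ι) {i j : Fin 4}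
    (h : i ≠ j) : z (q i) - z (q j) ≠ 0 := sub_ne_zero.2 (hz.ne (q.injective.ne h))

section rel
variable {x : (Fin 4 ↪ Option I) → OnePoint ℂ} {u : Finset I → Ev (I × I)}
  (h : (x, mat (Gs ⊤) u) ∈ Gam I) (hu : Fam ⊥ (Gs ⊤) u) (q : Fin 4 ↪ Option I)
include h

include hu in
theorem rel0 {a b c : I} (h0 : q 0 = some a) (h1 : q 1 = some b) (h2 : q 2 = some c)
    (h3 : q 3 = none) {S : Finset I} (hS : S ∈ Gs ⊤) (ha : a ∈ S) (hb : b ∈ S) (hc : c ∈ S) :
    Eqn (x q) (u S (a, c)) (u S (b, c)) := by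
  obtain ⟨p, k, k0, hk⟩ := pr_fac (hu.ne S hS)
  have := closure_minimal (t := {y : PQ I | Eqn (y.1 q) (y.2 S (a, c) p) (y.2 S (b, c) p)}) ?_
    (isClosed_eqn (by fun_prop) (by fun_prop) (by fun_prop)) h
  · exact Eqn.scale this k0 (by simp only [mat_pos _ hS, hk]) (by simp only [mat_pos _ hS, hk])
  rintro _ ⟨z, hz, rfl⟩
  have n1 := sub_ne hz q (show (0 : Fin 4) ≠ 3 by decide)
  have n2 := sub_ne hz q (show (1 : Fin 4) ≠ 3 by decide)
  have n3 := sub_ne hz q (show (2 : Fin 4) ≠ 3 by decide)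
  have n4 := sub_ne hz q (show (1 : Fin 4) ≠ 2 by decide)
  simp only [mem_ofPred_eq, crossRatios, eqn_coe, scr_apply _ hS ha hc, scr_apply _ hS hb hc, wv]
  simp only [h0, h1, h2, h3] at n1 n2 n3 n4 ⊢
  generalize (starRingEnd ℂ) _ / _ = κ
  field_simp
  ring

include hu in
theorem rel1 {a b c d : I} (h0 : q 0 = some a) (h1 : q 1 = some b) (h2 : q 2 = some c)
    (h3 : q 3 = some d) {S S' : Finset I} (hS : S ∈ Gs ⊤) (hS' : S' ∈ Gs ⊤) (ha : a ∈ S)
    (hc : c ∈ S) (hd : d ∈ S) (hb' : b ∈ S') (hc' : c ∈ S') (hd' : d ∈ S') :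
    Eqn (x q) (u S (a, c) * u S' (b, d)) (u S (a, d) * u S' (b, c)) := by
  obtain ⟨p, k, k0, hk⟩ := pr_fac (hu.ne S hS)
  obtain ⟨p', k', k0', hk'⟩ := pr_fac (hu.ne S' hS')
  have := closure_minimal (t := {y : PQ I | Eqn (y.1 q) (y.2 S (a, c) p * y.2 S' (b, d) p')
    (y.2 S (a, d) p * y.2 S' (b, c) p')}) ?_
    (isClosed_eqn (by fun_prop) (by fun_prop) (by fun_prop)) h
  · refine Eqn.scale this (mul_ne_zero k0 k0') ?_ ?_ <;>
      simp only [mat_pos _ hS, mat_pos _ hS', hk, hk'] <;> ring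
  rintro _ ⟨z, hz, rfl⟩
  have n : ∀ i, z (some i) - z none ≠ 0 := fun i => sub_ne_zero.2 (hz.ne (by simp))
  have n1 := n a
  have n2 := n b
  have n3 := n c
  have n4 := n d
  have n5 := sub_ne hz q (show (0 : Fin 4) ≠ 3 by decide)
  have n6 := sub_ne hz q (show (1 : Fin 4) ≠ 2 by decide)
  simp only [mem_ofPred_eq, crossRatios, eqn_coe, scr_apply _ hS ha hc, scr_apply _ hS ha hd,
    scr_apply _ hS' hb' hc', scr_apply _ hS' hb' hd', wv]
  simp only [h0, h1, h2, h3] at n5 n6 ⊢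
  generalize (starRingEnd ℂ) (res S _ _) / _ = κ
  generalize (starRingEnd ℂ) _ / _ = κ'
  field_simp
  ring

end rel

/-- first symmetry -/
def sw1 {ι : Type} (q : Fin 4 ↪ ι) : Fin 4 ↪ ι :=
  (Equiv.swap (0 : Fin 4) 1 * Equiv.swap 2 3).toEmbedding.trans q

/-- second symmetry -/
def sw2 {ι : Type} (q : Fin 4 ↪ ι) : Fin 4 ↪ ι :=
  (Equiv.swap (0 : Fin 4) 2 * Equiv.swap 1 3).toEmbedding.trans q

theorem sw_eq {ι : Type} {x : (Fin 4 ↪ ι) → OnePoint ℂ} (h : x ∈ M0bar ι) (q : Fin 4 ↪ ι) :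
    x (sw1 q) = x q ∧ x (sw2 q) = x q := by
  refine closure_minimal (t := {x : (Fin 4 ↪ ι) → OnePoint ℂ | x (sw1 q) = x q ∧ x (sw2 q) = x q}) ?_
    ((isClosed_eq (by fun_prop) (by fun_prop)).inter (isClosed_eq (by fun_prop) (by fun_prop))) h
  rintro _ ⟨z, -, rfl⟩
  constructor
  · change (((z (q 1) - z (q 3)) * (z (q 0) - z (q 2)) /
      ((z (q 1) - z (q 2)) * (z (q 0) - z (q 3))) : ℂ) : OnePoint ℂ) = _
    unfold crossRatios
    congr 1
    ring
  · change (((z (q 2) - z (q 0)) * (z (q 3) - z (q 1)) /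
      ((z (q 2) - z (q 1)) * (z (q 3) - z (q 0))) : ℂ) : OnePoint ℂ) = _
    unfold crossRatios
    congr 2 <;> ring

theorem VS_zero {S : Finset I} {π : Setoid I} {u : Ev (I × I)} (hu : u ∈ VS S π) {c : I}
    (hc : c ∈ S) : (∀ i ∈ S, ∀ j ∈ S, u (i, j) = u (i, c) - u (j, c)) ∧ u (c, c) = 0 :=
  ⟨fun i hi j hj => by rw [← hu.2.1 i hi j hj c hc]; ring, hu.2.2 c c (π.refl c)⟩

theorem VS_eq_zero {S : Finset I} {π : Setoid I} {u : Ev (I × I)} (hu : u ∈ VS S π) {c : I}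
    (hc : c ∈ S) (h : ∀ i ∈ S, u (i, c) = 0) : u = 0 :=
  (res_self hu).symm.trans (res_eq_zero.2 fun i hi j hj => by
    rw [(VS_zero hu hc).1 i hi j hj, h i hi, h j hj, sub_zero])

theorem inj_fst : InjOn Prod.fst (Gam I) := by
  rintro ⟨x, M⟩ h ⟨x', M'⟩ h' rfl
  obtain ⟨u, hu, rfl⟩ := mem_Z.1 (gam_snd h)
  obtain ⟨v, hv, rfl⟩ := mem_Z.1 (gam_snd h')
  refine Prod.ext rfl (funext fun S => ?_)
  by_cases hS : S ∈ Gs ⊤
  swap
  · exact (mat_neg _ hS).trans (mat_neg _ hS).symm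
  obtain ⟨c, hc⟩ : S.Nonempty := Finset.card_pos.1 (by have := mem_Gs_top.1 hS; omega)
  obtain ⟨u1, u2⟩ := VS_zero (hu.mem S hS) hc
  obtain ⟨v1, v2⟩ := VS_zero (hv.mem S hS) hc
  have key : ∀ a ∈ S, ∀ b ∈ S, u S (a, c) * v S (b, c) = u S (b, c) * v S (a, c) := by
    intro a ha b hb
    by_cases h1 : a = b
    · rw [h1]
    by_cases h2 : a = c
    · rw [h2, u2, v2]; simp
    by_cases h3 : b = c
    · rw [h3, u2, v2]; simp
    let q : Fin 4 ↪ Option I := ⟨![some a, some b, some c, none], by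
      intro i j
      fin_cases i <;> fin_cases j <;> simp [h1, h2, h3, Ne.symm h1, Ne.symm h2, Ne.symm h3]⟩
    exact (rel0 h hu q rfl rfl rfl rfl hS ha hb hc).cross (rel0 h' hv q rfl rfl rfl rfl hS ha hb hc)
  obtain ⟨k, hk⟩ := (par_iff (v := u S) (hv.ne S hS)).1 (by
    rintro ⟨i, j⟩ ⟨k, l⟩
    by_cases hij : i ∈ S ∧ j ∈ S
    swap
    · rw [(hu.mem S hS).1 i j hij, (hv.mem S hS).1 i j hij]; simp
    by_cases hkl : k ∈ S ∧ l ∈ S
    swap
    · rw [(hu.mem S hS).1 k l hkl, (hv.mem S hS).1 k l hkl]; simp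
    rw [u1 i hij.1 j hij.2, u1 k hkl.1 l hkl.2, v1 i hij.1 j hij.2, v1 k hkl.1 l hkl.2]
    linear_combination key i hij.1 k hkl.1 - key i hij.1 l hkl.2 - key j hij.2 k hkl.1 +
      key j hij.2 l hkl.2)
  change mat _ u S = mat _ v S
  rw [mat_pos _ hS, mat_pos _ hS, hk, pr_smul]
  rintro rfl
  exact hu.ne S hS (by rw [hk, zero_smul])

theorem tri {u : Finset I → Ev (I × I)} (hu : Fam ⊥ (Gs ⊤) u) {a b c : I} (hab : a ≠ b) :
    {a, b, c} ∈ Gs (⊤ : Setoid I) ∧ ¬ (u {a, b, c} (a, c) = 0 ∧ u {a, b, c} (b, c) = 0) ∧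
      ¬ (u {a, b, c} (a, b) = 0 ∧ u {a, b, c} (a, c) = 0) := by
  have hS : {a, b, c} ∈ Gs (⊤ : Setoid I) :=
    mem_Gs_top.2 (Finset.one_lt_card.2 ⟨a, by simp, b, by simp, hab⟩)
  have m := hu.mem _ hS
  have k : ¬ (u {a, b, c} (a, c) = 0 ∧ u {a, b, c} (b, c) = 0) := fun h =>
    hu.ne _ hS (VS_eq_zero m (c := c) (by simp) (by simp [h.1, h.2, m.2.2 c c rfl]))
  refine ⟨hS, k, fun h => k ⟨h.2, ?_⟩⟩
  have := m.2.1 a (by simp) b (by simp) c (by simp)
  rwa [h.1, h.2, zero_add] at this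

theorem inj_snd : InjOn Prod.snd (Gam I) := by
  rintro ⟨x, M⟩ h ⟨x', M'⟩ h' rfl
  obtain ⟨u, hu, rfl⟩ := mem_Z.1 (gam_snd h)
  refine Prod.ext (funext fun q => ?_) rfl
  change x q = x' q
  have s1 : ∀ q, x (sw1 q) = x' (sw1 q) → x q = x' q := fun q e =>
    (sw_eq (gam_fst h) q).1.symm.trans (e.trans (sw_eq (gam_fst h') q).1)
  have s2 : ∀ q, x (sw2 q) = x' (sw2 q) → x q = x' q := fun q e =>
    (sw_eq (gam_fst h) q).2.symm.trans (e.trans (sw_eq (gam_fst h') q).2)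
  have d0 : ∀ q : Fin 4 ↪ Option I, q 3 = none → x q = x' q := fun q h3 => by
    obtain ⟨a, ha⟩ := Option.ne_none_iff_exists'.1 (h3 ▸ q.injective.ne (show 0 ≠ 3 by decide))
    obtain ⟨b, hb⟩ := Option.ne_none_iff_exists'.1 (h3 ▸ q.injective.ne (show 1 ≠ 3 by decide))
    obtain ⟨c, hc⟩ := Option.ne_none_iff_exists'.1 (h3 ▸ q.injective.ne (show 2 ≠ 3 by decide))
    have hab : a ≠ b := fun e => q.injective.ne (show 0 ≠ 1 by decide) (by rw [ha, hb, e])
    obtain ⟨hS, t, -⟩ := tri hu (c := c) hab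
    exact (rel0 h hu q ha hb hc h3 hS (by simp) (by simp) (by simp)).uniq
      (rel0 h' hu q ha hb hc h3 hS (by simp) (by simp) (by simp)) t
  have d1 : ∀ (q : Fin 4 ↪ Option I) a b c d, q 0 = some a → q 1 = some b → q 2 = some c →
      q 3 = some d → ∀ W ∈ Gs (⊤ : Setoid I), a ∈ W → b ∈ W → c ∈ W → d ∈ W →
      ¬ (∀ i ∈ W, u W (i, c) = 0 ∨ i = d) → ¬ (∀ i ∈ W, u W (i, d) = 0 ∨ i = c) →
      (∀ i ∈ W, i = a ∨ i = b ∨ i = c ∨ i = d) → x q = x' q := by
    intro q a b c d h0 h1 h2 h3 W hW ha hb hc hd n1 n2 all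
    have m := hu.mem W hW
    have fin : ∀ S ∈ Gs (⊤ : Setoid I), ∀ S' ∈ Gs (⊤ : Setoid I), a ∈ S → c ∈ S → d ∈ S → b ∈ S' →
        c ∈ S' → d ∈ S' → ¬ (u S (a, c) * u S' (b, d) = 0 ∧ u S (a, d) * u S' (b, c) = 0) →
        x q = x' q := fun S hS S' hS' m1 m2 m3 m4 m5 m6 t =>
      (rel1 h hu q h0 h1 h2 h3 hS hS' m1 m2 m3 m4 m5 m6).uniq
        (rel1 h' hu q h0 h1 h2 h3 hS hS' m1 m2 m3 m4 m5 m6) t
    have hac : a ≠ c := fun e => q.injective.ne (show 0 ≠ 2 by decide) (by rw [h0, h2, e])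
    have hbc : b ≠ c := fun e => q.injective.ne (show 1 ≠ 2 by decide) (by rw [h1, h2, e])
    have cc := m.2.2 c c rfl
    have dd := m.2.2 d d rfl
    have e1 := m.2.1 a ha c hc d hd
    have e2 := m.2.1 b hb c hc d hd
    have n0 : ¬ (u W (a, d) = 0 ∧ u W (b, d) = 0 ∧ u W (c, d) = 0) := fun hh =>
      hu.ne W hW (VS_eq_zero m hd fun i hi => by
        rcases all i hi with rfl | rfl | rfl | rfl <;> simp [hh.1, hh.2.1, hh.2.2, dd])
    by_cases c1 : u W (a, c) = 0 ∧ u W (a, d) = 0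
    · obtain ⟨hS, -, t⟩ := tri hu (c := d) hac
      rw [c1.1, c1.2, zero_add] at e1
      rw [e1, add_zero] at e2
      have : u W (b, d) ≠ 0 := fun hh => n0 ⟨c1.2, hh, e1⟩
      refine fin _ hS W hW (by simp) (by simp) (by simp) hb hc hd ?_
      simpa [e2, this] using t
    by_cases c2 : u W (b, c) = 0 ∧ u W (b, d) = 0
    · obtain ⟨hS, -, t⟩ := tri hu (c := d) hbc
      rw [c2.1, c2.2, zero_add] at e2
      rw [e2, add_zero] at e1
      have : u W (a, d) ≠ 0 := fun hh => n0 ⟨hh, c2.2, e2⟩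
      refine fin W hW _ hS ha hc hd (by simp) (by simp) (by simp) ?_
      simpa [e1, this, and_comm] using t
    refine fin W hW W hW ha hc hd hb hc hd ?_
    simp only [mul_eq_zero]
    rintro ⟨k1 | k1, k2 | k2⟩
    · exact c1 ⟨k1, k2⟩
    · refine n1 fun i hi => ?_
      rcases all i hi with rfl | rfl | rfl | rfl <;> simp [*]
    · refine n2 fun i hi => ?_
      rcases all i hi with rfl | rfl | rfl | rfl <;> simp [*]
    · exact c2 ⟨k2, k1⟩
  rcases h3 : q 3 with _ | d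
  · exact d0 q h3
  rcases h2 : q 2 with _ | c
  · exact s1 q (d0 _ h2)
  rcases h1 : q 1 with _ | b
  · exact s2 q (d0 _ h1)
  rcases h0 : q 0 with _ | a
  · exact s2 q (s1 _ (d0 _ h0))
  have ne : ∀ i j : Fin 4, i ≠ j → q i ≠ q j := fun i j h => q.injective.ne h
  have hab : a ≠ b := by simpa [h0, h1] using ne 0 1 (by decide)
  have hac : a ≠ c := by simpa [h0, h2] using ne 0 2 (by decide)
  have had : a ≠ d := by simpa [h0, h3] using ne 0 3 (by decide)
  have hbc : b ≠ c := by simpa [h1, h2] using ne 1 2 (by decide)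
  have hbd : b ≠ d := by simpa [h1, h3] using ne 1 3 (by decide)
  have hcd : c ≠ d := by simpa [h2, h3] using ne 2 3 (by decide)
  have hW : {a, b, c, d} ∈ Gs (⊤ : Setoid I) :=
    mem_Gs_top.2 (Finset.one_lt_card.2 ⟨a, by simp, b, by simp, hab⟩)
  set W : Finset I := {a, b, c, d}
  have ha : a ∈ W := by simp [W]
  have hb : b ∈ W := by simp [W]
  have hc : c ∈ W := by simp [W]
  have hd : d ∈ W := by simp [W]
  have all : ∀ i ∈ W, i = a ∨ i = b ∨ i = c ∨ i = d := fun i hi => by simpa [W] using hi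
  have m := hu.mem W hW
  obtain ⟨v1, v2⟩ := VS_zero m ha
  have n0 : ¬ (u W (b, a) = 0 ∧ u W (c, a) = 0 ∧ u W (d, a) = 0) := fun hh =>
    hu.ne W hW (VS_eq_zero m ha fun i hi => by
      rcases all i hi with rfl | rfl | rfl | rfl <;> simp [hh.1, hh.2.1, hh.2.2, v2])
  by_cases c1 : (∀ i ∈ W, u W (i, c) = 0 ∨ i = d) ∨ ∀ i ∈ W, u W (i, d) = 0 ∨ i = c
  · refine s2 q (d1 _ c d a b h2 h3 h0 h1 W hW hc hd ha hb (fun n => ?_) (fun n => ?_)
      fun i hi => (all i hi).elim (fun h => .inr (.inr (.inl h))) fun h =>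
        h.elim (fun h => .inr (.inr (.inr h))) fun h => h.elim .inl fun h => .inr (.inl h))
    · have k1 := (n c hc).resolve_right hbc.symm
      have k2 := (n d hd).resolve_right hbd.symm
      refine n0 ⟨?_, k1, k2⟩
      rcases c1 with c1 | c1
      · simpa [v1 b hb c hc, k1] using (c1 b hb).resolve_right hbd
      · simpa [v1 b hb d hd, k2] using (c1 b hb).resolve_right hbc
    · have k1 := (n c hc).resolve_right hac.symm
      have k2 := (n d hd).resolve_right had.symm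
      rw [v1 c hc b hb, sub_eq_zero] at k1
      rw [v1 d hd b hb, sub_eq_zero] at k2
      have : u W (b, a) = 0 := by
        rcases c1 with c1 | c1
        · simpa [v1 a ha c hc, k1, v2] using (c1 a ha).resolve_right had
        · simpa [v1 a ha d hd, k2, v2] using (c1 a ha).resolve_right hac
      exact n0 ⟨this, k1.trans this, k2.trans this⟩
  · exact d1 q a b c d h0 h1 h2 h3 W hW ha hb hc hd (fun n => c1 (Or.inl n))
      (fun n => c1 (Or.inr n)) all

theorem surj_fst : SurjOn Prod.fst (Gam I) (M0bar (Option I)) := by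
  refine closure_minimal ?_ (isCompact_Gam.image continuous_fst).isClosed
  rintro _ ⟨z, hz, rfl⟩
  exact ⟨_, subset_closure ⟨z, hz, rfl⟩, rfl⟩

theorem surj_snd : SurjOn Prod.snd (Gam I) (Y ⊤) := by
  refine dense_scr.trans (closure_minimal ?_ (isCompact_Gam.image continuous_snd).isClosed)
  rintro _ ⟨w, hw, rfl⟩
  obtain ⟨a, ha⟩ := (finite_range w).exists_notMem
  have n : ∀ i, w i - a ≠ 0 := fun i => sub_ne_zero.2 fun h => ha ⟨i, h⟩
  let z : Option I → ℂ := fun o => o.elim 0 fun i => (w i - a)⁻¹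
  have hz : Function.Injective z := by
    rintro (_ | i) (_ | j) h
    · rfl
    · exact absurd h.symm (inv_ne_zero (n j))
    · exact absurd h (inv_ne_zero (n i))
    · rw [hw (sub_left_injective (inv_injective h))]
  refine ⟨_, subset_closure ⟨z, hz, rfl⟩, ?_⟩
  have : dvec (wv z) = dvec w := by
    ext p
    simp [dvec_apply, wv, z]
  simp only [scr, this]

end Pool.Agent.Work.MP_6b5a33_co
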