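import Pool.Agent.Work.MP_6b5a33_co.AS

/-! Homotopy invariance, suspension, and invariants of locally closed sets. -/

namespace Pool.Agent.Work.MP_6b5a33_co

open Topology Set

namespace Cx
variable {M M' : Type} [AddCommGroup M] [Module ℚ M] [AddCommGroup M'] [Module ℚ M']
  {K : Cx M} {K' : Cx M'} {P Q R : Submodule ℚ M} {P' Q' : Submodule ℚ M'}

theorem lj_bij (hPQ : P ≤ Q) (hQR : Q ≤ R) (h : ∀ p, Subsingleton (K.H P Q p)) (p : ℤ) :
    Function.Bijective (lj (K := K) hPQ R p) := by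
  constructor
  · rw [injective_iff_map_eq_zero]
    intro x hx
    obtain ⟨y, rfl⟩ := (exact_ij hPQ hQR p x).1 hx
    haveI := h p
    rw [Subsingleton.elim y 0, map_zero]
  · intro y
    haveI := h (p + 1)
    exact (exact_jd hPQ hQR p y).1 (Subsingleton.elim _ _)

theorem ld_bij (hPQ : P ≤ Q) (hQR : Q ≤ R) (h : ∀ p, Subsingleton (K.H P R p)) (p : ℤ) :
    Function.Bijective (ld (K := K) P Q R p) := by
  constructor
  · rw [injective_iff_map_eq_zero]
    intro x hx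
    obtain ⟨y, rfl⟩ := (exact_jd hPQ hQR p x).1 hx
    haveI := h p
    rw [Subsingleton.elim y 0, map_zero]
  · intro y
    haveI := h (p + 1)
    exact (exact_di hPQ hQR p y).1 (Subsingleton.elim _ _)

theorem fin_iff_of_bij (e : ∀ p, K.H P Q p →ₗ[ℚ] K'.H P' Q' p)
    (he : ∀ p, Function.Bijective (e p)) : K.Fin' P Q ↔ K'.Fin' P' Q' := by
  unfold Fin'
  refine and_congr (forall_congr' fun p => ?_) ?_
  · exact Module.Finite.equiv_iff (LinearEquiv.ofBijective _ (he p))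
  · rw [show {p | ¬ Subsingleton (K.H P Q p)} = {p | ¬ Subsingleton (K'.H P' Q' p)} from
      Set.ext fun p => not_congr (Equiv.ofBijective _ (he p)).subsingleton_congr]

theorem lef_of_bij {V W : ℤ → Type} [∀ p, AddCommGroup (V p)] [∀ p, Module ℚ (V p)]
    [∀ p, AddCommGroup (W p)] [∀ p, Module ℚ (W p)] (e : ∀ p, V p →ₗ[ℚ] W p)
    (he : ∀ p, Function.Bijective (e p)) (a : ∀ p, V p →ₗ[ℚ] V p) (b : ∀ p, W p →ₗ[ℚ] W p)
    (h : ∀ p x, e p (a p x) = b p (e p x)) : lef a = lef b :=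
  finsum_congr fun p => by rw [trace_of_bij (e p) (he p) _ _ (h p)]

end Cx

variable {X X' X'' : Type} [TopologicalSpace X] [TopologicalSpace X'] [TopologicalSpace X'']

theorem cyl_acyc [T3Space X] {A B : Set X} (cA : IsCompact A) (cB : IsCompact B) (hBA : B ⊆ A)
    {a b : ℝ} (hab : a ≤ b) (p : ℤ) :
    Subsingleton (HH (A ×ˢ Icc a b) ((A ×ˢ {a}) ∪ (B ×ˢ Icc a b)) p) := by
  have c2 : IsCompact ((A ×ˢ ({a} : Set ℝ)) ∪ (B ×ˢ Icc a b)) :=
    (cA.prod isCompact_singleton).union (cB.prod isCompact_Icc)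
  have ha : a ∈ Icc a b := left_mem_Icc.2 hab
  refine acyc_fib continuous_fst (cA.prod isCompact_Icc) c2 ?_ (fun x q => ?_) p
  · rintro y (hy | hy)
    · exact ⟨hy.1, hy.2 ▸ ha⟩
    · exact ⟨hBA hy.1, hy.2⟩
  by_cases hx : x ∈ A \ B
  · have hb := excise (f := fun t : ℝ => (x, t)) (by fun_prop)
      (A := (A ×ˢ Icc a b ∩ Prod.fst ⁻¹' {x}) ∪ ((A ×ˢ {a}) ∪ (B ×ˢ Icc a b)))
      (B := (A ×ˢ {a}) ∪ (B ×ˢ Icc a b)) (A' := Icc a b) (B' := {a})
      (((cA.prod isCompact_Icc).inter_right (isClosed_singleton.preimage continuous_fst)).union c2)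
      c2 isCompact_Icc isCompact_singleton subset_union_right (singleton_subset_iff.2 ha)
      (fun t ht => Or.inl ⟨⟨hx.1, ht⟩, rfl⟩) (fun t ht => Or.inl ⟨hx.1, ht⟩) ?_ q
    · haveI := Icc_acyc hab q
      exact hb.1.subsingleton
    · refine ⟨fun t ht => ⟨Or.inl ⟨⟨hx.1, ht.1⟩, rfl⟩, ?_⟩, fun s _ t _ h => (Prod.ext_iff.1 h).2,
        ?_⟩
      · rintro (h | h)
        · exact ht.2 h.2
        · exact hx.2 h.1
      · rintro ⟨y, t⟩ ⟨h1 | h1, h2⟩
        · obtain rfl : y = x := h1.2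
          exact ⟨t, ⟨h1.1.2, fun h => h2 (Or.inl ⟨hx.1, h⟩)⟩, rfl⟩
        · exact absurd h1 h2
  · have e : (A ×ˢ Icc a b ∩ Prod.fst ⁻¹' {x}) ∪ ((A ×ˢ {a}) ∪ (B ×ˢ Icc a b)) =
        (A ×ˢ {a}) ∪ (B ×ˢ Icc a b) := by
      rw [union_eq_right]
      rintro ⟨y, t⟩ ⟨h1, h2⟩
      obtain rfl : y = x := h2
      refine Or.inr ⟨?_, h1.2⟩
      by_contra hc
      exact hx ⟨h1.1, hc⟩
    rw [e]
    exact HH_self _ q

theorem hm_homotopy [T3Space X] {A B : Set X} (cA : IsCompact A) (cB : IsCompact B)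
    (hBA : B ⊆ A) {F : X × ℝ → X'} (hF : Continuous F) {A' B' : Set X'}
    (hA : MapsTo F (A ×ˢ Icc 0 1) A') (hB : MapsTo F (B ×ˢ Icc 0 1) B')
    {f g : X → X'} (hf : Continuous f) (hg : Continuous g) (e0 : ∀ x, F (x, 0) = f x)
    (e1 : ∀ x, F (x, 1) = g x) (fA : MapsTo f A A') (fB : MapsTo f B B') (gA : MapsTo g A A')
    (gB : MapsTo g B B') (p : ℤ) : hm hf fA fB p = hm hg gA gB p := by
  have h0 : (0 : ℝ) ∈ Icc (0 : ℝ) 1 := by simp
  have h1 : (1 : ℝ) ∈ Icc (0 : ℝ) 1 := by simp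
  have ci : ∀ t : ℝ, Continuous fun x : X => (x, t) := fun t => by fun_prop
  have mA : ∀ t ∈ Icc (0 : ℝ) 1, MapsTo (fun x : X => (x, t)) A (A ×ˢ Icc 0 1) :=
    fun t ht x hx => ⟨hx, ht⟩
  have mB : ∀ t ∈ Icc (0 : ℝ) 1, MapsTo (fun x : X => (x, t)) B (B ×ˢ Icc 0 1) :=
    fun t ht x hx => ⟨hx, ht⟩
  have pA : MapsTo Prod.fst (A ×ˢ Icc (0 : ℝ) 1) A := fun _ h => h.1
  have pB : MapsTo Prod.fst (B ×ˢ Icc (0 : ℝ) 1) B := fun _ h => h.1
  have hsub : (A ×ˢ ({0} : Set ℝ)) ∪ (B ×ˢ Icc 0 1) ⊆ A ×ˢ Icc 0 1 := by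
    rintro y (hy | hy)
    · exact ⟨hy.1, hy.2 ▸ h0⟩
    · exact ⟨hBA hy.1, hy.2⟩
  have b1 := Cx.lj_bij (K := cx (X × ℝ)) (N_anti hsub) (N_anti subset_union_right)
    (cyl_acyc cA cB hBA zero_le_one) p
  have b2 := excise (ci 0) (A := (A ×ˢ ({0} : Set ℝ)) ∪ (B ×ˢ Icc 0 1)) (B := B ×ˢ Icc 0 1)
    ((cA.prod isCompact_singleton).union (cB.prod isCompact_Icc)) (cB.prod isCompact_Icc) cA cB
    subset_union_right hBA (fun x hx => Or.inl ⟨hx, rfl⟩) (mB 0 h0) (by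
      refine ⟨fun x hx => ⟨Or.inl ⟨hx.1, rfl⟩, fun h => hx.2 h.1⟩,
        fun s _ t _ h => (Prod.ext_iff.1 h).1, ?_⟩
      rintro ⟨y, t⟩ ⟨h2 | h2, h3⟩
      · obtain rfl : t = 0 := h2.2
        exact ⟨y, ⟨h2.1, fun h => h3 ⟨h, h0⟩⟩, rfl⟩
      · exact absurd h2 h3) p
  have inj : Function.Injective (hm (ci 0) (mA 0 h0) (mB 0 h0) p) := by
    have := b2.1.comp b1.1
    convert this using 1
    funext y
    induction y using SQ.ind with | _ φ hφ
    rfl
  have sec : ∀ t ht y, hm (ci t) (mA t ht) (mB t ht) p (hm continuous_fst pA pB p y) = y := by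
    intro t ht y
    rw [hm_comp]
    exact hm_id _ _ p y
  have same : ∀ y, hm (ci 0) (mA 0 h0) (mB 0 h0) p y = hm (ci 1) (mA 1 h1) (mB 1 h1) p y := by
    intro y
    have : hm continuous_fst pA pB p (hm (ci 0) (mA 0 h0) (mB 0 h0) p y) = y := inj (sec 0 h0 _)
    conv_rhs => rw [← this, sec 1 h1]
  ext y
  have := same (hm hF hA hB p y)
  rw [hm_comp, hm_comp] at this
  rw [hm_congr hf (hF.comp (ci 0)) (funext fun x => (e0 x).symm) fA fB (hA.comp (mA 0 h0))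
    (hB.comp (mB 0 h0)), hm_congr hg (hF.comp (ci 1)) (funext fun x => (e1 x).symm) gA gB
    (hA.comp (mA 1 h1)) (hB.comp (mB 1 h1))]
  exact this

/-- boundary of a locally closed set -/
def bd (U : Set X) : Set X := closure U \ U

/-- cohomology with compact supports -/
abbrev HC (U : Set X) (p : ℤ) : Type := HH (closure U) (bd U) p

def LC (U : Set X) : Prop := IsCompact (closure U) ∧ IsClosed (bd U)

def FD (U : Set X) : Prop := LC U ∧ (cx X).Fin' (N (closure U)) (N (bd U))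

def Vn (S : ℤ → Prop) (U : Set X) : Prop := ∀ p, S p → Subsingleton (HC U p)

def Pres (f : X → X) (U : Set X) : Prop := Continuous f ∧ ∀ x, f x ∈ U ↔ x ∈ U

theorem Pres.cl {f : X → X} {U : Set X} (h : Pres f U) : MapsTo f (closure U) (closure U) :=
  MapsTo.closure (fun x hx => (h.2 x).2 hx) h.1

theorem Pres.bd {f : X → X} {U : Set X} (h : Pres f U) : MapsTo f (bd U) (bd U) :=
  fun x hx => ⟨h.cl hx.1, fun h' => hx.2 ((h.2 x).1 h')⟩

open Classical in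
/-- Lefschetz number with compact supports -/
noncomputable def Lef (f : X → X) (U : Set X) : ℚ :=
  if h : Pres f U then Cx.lef (hm h.1 h.cl h.bd) else 0

theorem Pres.lef {f : X → X} {U : Set X} (h : Pres f U) :
    Lef f U = Cx.lef (hm h.1 h.cl h.bd) := dif_pos h

theorem LC.cbd {U : Set X} (h : LC U) : IsCompact (bd U) :=
  h.1.of_isClosed_subset h.2 diff_subset

theorem cl_diff_bd (U : Set X) : closure U \ bd U = U := by
  rw [bd, diff_diff_right, diff_self, empty_union, inter_eq_right.2 subset_closure]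

section transfer
variable [T3Space X] [T2Space X'] {f : X' → X} (hf : Continuous f) {U : Set X} {U' A' : Set X'}
  (cA : IsCompact A') (hUA : U' ⊆ A') (hpre : ∀ x ∈ A', f x ∈ U → x ∈ U') (hbij : BijOn f U' U)
  (hU : LC U)
include hf hbij

theorem tr_cl : MapsTo f (closure U') (closure U) := hbij.mapsTo.closure hf

include cA hUA hpre

theorem tr_bd : MapsTo f (bd U') (bd U) := fun x hx =>
  ⟨tr_cl hf hbij hx.1, fun h => hx.2 (hpre x (closure_minimal hUA cA.isClosed hx.1) h)⟩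

include hU

theorem tr_lc : LC U' := by
  refine ⟨cA.of_isClosed_subset isClosed_closure (closure_minimal hUA cA.isClosed), ?_⟩
  have : bd U' = closure U' ∩ f ⁻¹' bd U := by
    ext x
    exact ⟨fun hx => ⟨hx.1, tr_bd hf cA hUA hpre hbij hx⟩,
      fun hx => ⟨hx.1, fun h => hx.2.2 (hbij.mapsTo h)⟩⟩
  rw [this]
  exact isClosed_closure.inter (hU.2.preimage hf)

theorem tr_bij (p : ℤ) :
    Function.Bijective (hm hf (tr_cl hf hbij) (tr_bd hf cA hUA hpre hbij) p) := by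
  have h' := tr_lc hf cA hUA hpre hbij hU
  refine excise hf hU.1 hU.cbd h'.1 h'.cbd diff_subset diff_subset _ _ ?_ p
  rwa [cl_diff_bd, cl_diff_bd]

theorem tr_fd : FD U ↔ FD U' :=
  and_congr (iff_of_true hU (tr_lc hf cA hUA hpre hbij hU))
    (Cx.fin_iff_of_bij _ (tr_bij hf cA hUA hpre hbij hU))

theorem tr_vn (S : ℤ → Prop) : Vn S U ↔ Vn S U' :=
  forall_congr' fun p => imp_congr Iff.rfl
    (Equiv.ofBijective _ (tr_bij hf cA hUA hpre hbij hU p)).subsingleton_congr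

theorem tr_lef {σ : X → X} {σ' : X' → X'} (hσ : Pres σ U) (hσ' : Pres σ' U')
    (hc : ∀ x, f (σ' x) = σ (f x)) : Lef σ U = Lef σ' U' := by
  rw [hσ.lef, hσ'.lef]
  refine Cx.lef_of_bij _ (tr_bij hf cA hUA hpre hbij hU) _ _ fun p x => ?_
  rw [hm_comp, hm_comp]
  exact LinearMap.congr_fun (hm_congr _ _ (funext fun y => (hc y).symm) _ _ _ _ p) x

end transfer

section pair
variable [T3Space X] {A B U : Set X} (cA : IsCompact A) (cB : IsCompact B) (hBA : B ⊆ A)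
  (hU : A \ B = U)
include cA hU

theorem pr_cl : MapsTo id (closure U) A := closure_minimal (hU ▸ diff_subset) cA.isClosed

theorem pr_bd : MapsTo id (bd U) B := fun x hx => by
  by_contra hc
  exact hx.2 (hU ▸ ⟨pr_cl cA hU hx.1, hc⟩)

include cB

theorem pr_lc : LC U := by
  refine ⟨cA.of_isClosed_subset isClosed_closure (pr_cl cA hU), ?_⟩
  have : bd U = closure U ∩ B := by
    ext x
    exact ⟨fun hx => ⟨hx.1, pr_bd cA hU hx⟩, fun hx => ⟨hx.1, fun h => (hU ▸ h).2 hx.2⟩⟩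
  rw [this]
  exact isClosed_closure.inter cB.isClosed

include hBA

theorem pr_bij (p : ℤ) : Function.Bijective (hm continuous_id (pr_cl cA hU) (pr_bd cA hU) p) := by
  have h' := pr_lc cA cB hU
  refine excise continuous_id cA cB h'.1 h'.cbd hBA diff_subset _ _ ?_ p
  rw [cl_diff_bd, hU]; exact bijOn_id _

theorem pr_fd : FD U ↔ (cx X).Fin' (N A) (N B) :=
  (and_iff_right (pr_lc cA cB hU)).trans (Cx.fin_iff_of_bij _ (pr_bij cA cB hBA hU)).symm

theorem pr_sub (p : ℤ) : Subsingleton (HC U p) ↔ Subsingleton (HH A B p) :=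
  (Equiv.ofBijective _ (pr_bij cA cB hBA hU p)).subsingleton_congr.symm

theorem pr_lef {σ : X → X} (hσ : Pres σ U) (hA : MapsTo σ A A) (hB : MapsTo σ B B) :
    Lef σ U = Cx.lef (hm hσ.1 hA hB) := by
  rw [hσ.lef]
  refine (Cx.lef_of_bij _ (pr_bij cA cB hBA hU) _ _ fun p x => ?_).symm
  rw [hm_comp, hm_comp]

end pair

theorem LC.of_compact [T2Space X] {U : Set X} (h : IsCompact U) : LC U := by
  refine ⟨by rwa [h.isClosed.closure_eq], ?_⟩
  rw [bd, h.isClosed.closure_eq, diff_self]; exact isClosed_empty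

theorem LC.inter {U F : Set X} (h : LC U) (hF : IsClosed F) : LC (U ∩ F) := by
  refine ⟨h.1.of_isClosed_subset isClosed_closure (closure_mono inter_subset_left), ?_⟩
  have : bd (U ∩ F) = closure (U ∩ F) ∩ bd U := by
    ext x
    refine ⟨fun hx => ⟨hx.1, closure_mono inter_subset_left hx.1, fun h' => hx.2 ⟨h', ?_⟩⟩,
      fun hx => ⟨hx.1, fun h' => hx.2.2 h'.1⟩⟩
    exact closure_minimal inter_subset_right hF hx.1
  rw [this]
  exact isClosed_closure.inter h.2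

theorem LC.diff {U F : Set X} (h : LC U) (hF : IsClosed F) : LC (U \ F) := by
  refine ⟨h.1.of_isClosed_subset isClosed_closure (closure_mono diff_subset), ?_⟩
  have : bd (U \ F) = closure (U \ F) ∩ (bd U ∪ F) := by
    ext x
    refine ⟨fun hx => ⟨hx.1, ?_⟩, fun hx => ⟨hx.1, fun h' => ?_⟩⟩
    · by_contra hc
      simp only [mem_union, not_or] at hc
      refine hx.2 ⟨?_, hc.2⟩
      by_contra h2
      exact hc.1 ⟨closure_mono diff_subset hx.1, h2⟩
    · rcases hx.2 with h2 | h2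
      · exact h2.2 h'.1
      · exact h'.2 h2
  rw [this]
  exact isClosed_closure.inter (h.2.union hF)

theorem LC.prod {U : Set X} {V : Set X'} (h : LC U) (h' : LC V) : LC (U ×ˢ V) := by
  refine ⟨by rw [closure_prod_eq]; exact h.1.prod h'.1, ?_⟩
  have : bd (U ×ˢ V) = (bd U ×ˢ closure V) ∪ (closure U ×ˢ bd V) := by
    ext x
    simp only [bd, closure_prod_eq, mem_diff, mem_prod, mem_union]
    tauto
  rw [this]
  exact (h.2.prod isClosed_closure).union (isClosed_closure.prod h'.2)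

section add
variable [T3Space X] {U F : Set X} (hU : LC U) (hF : IsClosed F)
include hU hF

theorem mid_c : IsCompact ((closure U ∩ F) ∪ bd U) := (hU.1.inter_right hF).union hU.cbd

omit hU hF [T3Space X] in
theorem mid_sub : (closure U ∩ F) ∪ bd U ⊆ closure U :=
  union_subset inter_subset_left diff_subset

omit hU hF [T3Space X] in
theorem mid_1 : closure U \ ((closure U ∩ F) ∪ bd U) = U \ F := by
  ext x
  have := @subset_closure _ _ U x
  simp only [bd, mem_diff, mem_union, mem_inter_iff]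
  tauto

omit hU hF [T3Space X] in
theorem mid_2 : ((closure U ∩ F) ∪ bd U) \ bd U = U ∩ F := by
  ext x
  have := @subset_closure _ _ U x
  simp only [bd, mem_diff, mem_union, mem_inter_iff]
  tauto

theorem fd_add (h1 : FD (U ∩ F)) (h2 : FD (U \ F)) : FD U :=
  ⟨hU, Cx.fin_mid (N_anti mid_sub) (N_anti subset_union_right)
    ((pr_fd hU.1 (mid_c hU hF) mid_sub mid_1).1 h2)
    ((pr_fd (mid_c hU hF) hU.cbd subset_union_right mid_2).1 h1)⟩

theorem fd_open (h1 : FD (U ∩ F)) (h2 : FD U) : FD (U \ F) :=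
  (pr_fd hU.1 (mid_c hU hF) mid_sub mid_1).2
    (Cx.fin_left (N_anti mid_sub) (N_anti subset_union_right)
      ((pr_fd (mid_c hU hF) hU.cbd subset_union_right mid_2).1 h1) h2.2)

theorem fd_closed (h1 : FD (U \ F)) (h2 : FD U) : FD (U ∩ F) :=
  (pr_fd (mid_c hU hF) hU.cbd subset_union_right mid_2).2
    (Cx.fin_right (N_anti mid_sub) (N_anti subset_union_right)
      ((pr_fd hU.1 (mid_c hU hF) mid_sub mid_1).1 h1) h2.2)

theorem vn_add {S : ℤ → Prop} (h1 : Vn S (U ∩ F)) (h2 : Vn S (U \ F)) : Vn S U := by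
  intro p hp
  haveI := (pr_sub hU.1 (mid_c hU hF) mid_sub mid_1 p).1 (h2 p hp)
  haveI := (pr_sub (mid_c hU hF) hU.cbd subset_union_right mid_2 p).1 (h1 p hp)
  exact subsingleton_exact _ _ (Cx.exact_ij (K := cx X) (N_anti (mid_sub (F := F)))
    (N_anti subset_union_right) p)

theorem lef_add {σ : X → X} (hσ : Pres σ U) (hσ1 : Pres σ (U ∩ F)) (h1 : FD (U ∩ F))
    (h2 : FD (U \ F)) : Lef σ U = Lef σ (U ∩ F) + Lef σ (U \ F) := by
  have hσ2 : Pres σ (U \ F) := ⟨hσ.1, fun x => by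
    have a := hσ.2 x
    have b := hσ1.2 x
    simp only [mem_inter_iff, mem_diff] at b ⊢
    tauto⟩
  have hm1 : MapsTo σ ((closure U ∩ F) ∪ bd U) ((closure U ∩ F) ∪ bd U) := by
    intro x hx
    by_cases hxU : x ∈ U
    · rcases hx with hx | hx
      · exact Or.inl ⟨hσ.cl hx.1, ((hσ1.2 x).2 ⟨hxU, hx.2⟩).2⟩
      · exact absurd hxU hx.2
    · exact Or.inr (hσ.bd ⟨mid_sub hx, hxU⟩)
  rw [hσ.lef, pr_lef hU.1 (mid_c hU hF) mid_sub mid_1 hσ2 hσ.cl hm1,
    pr_lef (mid_c hU hF) hU.cbd subset_union_right mid_2 hσ1 hm1 hσ.bd, add_comm]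
  exact Cx.lef_add (N_anti mid_sub) (N_anti subset_union_right)
    ((pr_fd hU.1 (mid_c hU hF) mid_sub mid_1).1 h2)
    ((pr_fd (mid_c hU hF) hU.cbd subset_union_right mid_2).1 h1) (pull_ch σ)
    (N_pull hσ.1 hσ.cl) (N_pull hσ.1 hm1) (N_pull hσ.1 hσ.bd)

end add

theorem sub_empty (p : ℤ) : Subsingleton (HC (∅ : Set X) p) := by
  have : bd (∅ : Set X) = closure ∅ := by simp [bd]
  unfold HC; rw [this]; exact HH_self _ p

theorem fd_empty [T2Space X] : FD (∅ : Set X) :=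
  ⟨LC.of_compact isCompact_empty, fun p => by haveI := sub_empty (X := X) p; infer_instance,
    finite_empty.subset fun p hp => hp (sub_empty p)⟩

theorem vn_empty (S : ℤ → Prop) : Vn S (∅ : Set X) := fun p _ => sub_empty p

theorem lef_empty (σ : X → X) : Lef σ ∅ = 0 := by
  unfold Lef
  split_ifs with h
  · refine finsum_eq_zero_of_forall_eq_zero fun p => ?_
    haveI := sub_empty (X := X) p
    rw [trace_of_subsingleton, mul_zero]
  · rfl

theorem Vn.mono {S T : ℤ → Prop} {U : Set X} (h : Vn S U) (hT : ∀ p, T p → S p) : Vn T U :=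
  fun p hp => h p (hT p hp)

/-- abstract blow-up squares -/
theorem blowup [T3Space X] [T3Space X'] {f : X' → X} (hf : Continuous f) {A Z : Set X}
    {A' E : Set X'} (cA : IsCompact A) (cZ : IsCompact Z) (cA' : IsCompact A') (cE : IsCompact E)
    (hZ : Z ⊆ A) (hE : E ⊆ A') (mA : MapsTo f A' A) (mE : MapsTo f E Z)
    (hbij : BijOn f (A' \ E) (A \ Z)) {S : ℤ → Prop} (h1 : Vn S A) (h2 : Vn S E) : Vn S A' := by
  intro p hp
  have s1 := (pr_sub cA isCompact_empty (empty_subset _) (diff_empty) p).1 (h1 p hp)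
  have s2 := (pr_sub cE isCompact_empty (empty_subset _) (diff_empty) p).1 (h2 p hp)
  refine (pr_sub cA' isCompact_empty (empty_subset _) (diff_empty) p).2 ?_
  refine subsingleton_of_forall_eq 0 fun x => ?_
  obtain ⟨y, rfl⟩ := (Cx.exact_ij (K := cx X') (N_anti hE) (N_anti (empty_subset E)) p x).1
    (Subsingleton.elim _ _)
  obtain ⟨z, rfl⟩ := (excise hf cA cZ cA' cE hZ hE mA mE hbij p).2 y
  have : Cx.li (N A') (N_anti (empty_subset E)) p (hm hf mA mE p z) =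
      hm hf mA (mapsTo_empty _ _) p (Cx.li (N A) (N_anti (empty_subset Z)) p z) := by
    induction z using SQ.ind with | _ φ hφ
    rfl
  rw [this, Subsingleton.elim (Cx.li (N A) (N_anti (empty_subset Z)) p z) 0, map_zero]

theorem lef_homotopy [T3Space X] {U : Set X} (hU : LC U) {F : X × ℝ → X} (hF : Continuous F)
    (h : ∀ x, ∀ t ∈ Icc (0 : ℝ) 1, F (x, t) ∈ U ↔ x ∈ U) {f g : X → X} (e0 : ∀ x, F (x, 0) = f x)
    (e1 : ∀ x, F (x, 1) = g x) : Lef f U = Lef g U := by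
  have pt : ∀ t ∈ Icc (0 : ℝ) 1, Pres (fun x => F (x, t)) U := fun t ht =>
    ⟨by fun_prop, fun x => h x t ht⟩
  have hf : Pres f U := by
    have := pt 0 (by simp); rwa [funext e0] at this
  have hg : Pres g U := by
    have := pt 1 (by simp); rwa [funext e1] at this
  rw [hf.lef, hg.lef]
  congr 1
  funext p
  exact hm_homotopy hU.1 hU.cbd diff_subset hF (fun x hx => (pt x.2 hx.2).cl hx.1)
    (fun x hx => (pt x.2 hx.2).bd hx.1) _ _ e0 e1 _ _ _ _ p

section susp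
variable [T3Space X] {U : Set X} (hU : LC U)
include hU

theorem susp_main : ∃ (A B C : Set (X × ℝ)) (_ : IsCompact A) (_ : IsCompact B) (_ : B ⊆ A)
    (_ : A \ B = U ×ˢ Ioo (-1) 1)
    (mB : MapsTo (fun x => (x, (1 : ℝ))) (closure U) B)
    (mC : MapsTo (fun x => (x, (1 : ℝ))) (bd U) C),
    (∀ p, Function.Bijective (Cx.ld (K := cx (X × ℝ)) (N A) (N B) (N C) p)) ∧
    (∀ p, Function.Bijective (hm (by fun_prop) mB mC p)) ∧
    ∀ σ, Pres σ U → MapsTo (Prod.map σ id) A A ∧ MapsTo (Prod.map σ id) B B ∧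
      MapsTo (Prod.map σ id) C C := by
  have hab : (-1 : ℝ) ≤ 1 := by norm_num
  have h0 : (-1 : ℝ) ∈ Icc (-1 : ℝ) 1 := left_mem_Icc.2 hab
  have h1 : (1 : ℝ) ∈ Icc (-1 : ℝ) 1 := right_mem_Icc.2 hab
  have cC : IsCompact ((closure U ×ˢ ({-1} : Set ℝ)) ∪ (bd U ×ˢ Icc (-1) 1)) :=
    (hU.1.prod isCompact_singleton).union (hU.cbd.prod isCompact_Icc)
  have cB := (hU.1.prod (isCompact_singleton (x := (1 : ℝ)))).union cC
  have hBA : closure U ×ˢ ({1} : Set ℝ) ∪ ((closure U ×ˢ ({-1} : Set ℝ)) ∪ (bd U ×ˢ Icc (-1) 1))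
      ⊆ closure U ×ˢ Icc (-1) 1 := by
    rintro y (hy | hy | hy)
    · exact ⟨hy.1, hy.2 ▸ h1⟩
    · exact ⟨hy.1, hy.2 ▸ h0⟩
    · exact ⟨hy.1.1, hy.2⟩
  refine ⟨closure U ×ˢ Icc (-1) 1, _, _, hU.1.prod isCompact_Icc, cB, hBA, ?_,
    fun x hx => Or.inl ⟨hx, rfl⟩, fun x hx => Or.inr ⟨hx, h1⟩,
    Cx.ld_bij (N_anti hBA) (N_anti subset_union_right) (cyl_acyc hU.1 hU.cbd diff_subset hab),
    fun p => excise _ cB cC hU.1 hU.cbd subset_union_right diff_subset _ _ ?_ p, ?_⟩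
  · ext ⟨x, t⟩
    have := @subset_closure _ _ U x
    simp only [bd, mem_diff, mem_prod, mem_union, mem_singleton_iff, mem_Icc, mem_Ioo, not_or,
      not_and]
    constructor
    · rintro ⟨⟨a, b, c⟩, d, e, f⟩
      refine ⟨?_, lt_of_le_of_ne b fun h => e a h.symm, lt_of_le_of_ne c (d a)⟩
      by_contra hc
      exact f ⟨a, hc⟩ b c
    · rintro ⟨a, b, c⟩
      exact ⟨⟨this a, b.le, c.le⟩, fun _ => c.ne, fun _ => b.ne', fun h => absurd a h.2⟩
  · refine ⟨fun x hx => ⟨Or.inl ⟨hx.1, rfl⟩, ?_⟩, fun s _ t _ h => (Prod.ext_iff.1 h).1, ?_⟩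
    · rintro (h | h)
      · have : (1 : ℝ) = -1 := h.2
        norm_num at this
      · exact hx.2 h.1
    · rintro ⟨y, t⟩ ⟨h2 | h2, h3⟩
      · obtain rfl : t = 1 := h2.2
        exact ⟨y, ⟨h2.1, fun h => h3 (Or.inr ⟨h, h1⟩)⟩, rfl⟩
      · exact absurd h2 h3
  · intro σ hσ
    refine ⟨fun x hx => ⟨hσ.cl hx.1, hx.2⟩, ?_, ?_⟩
    · rintro x (hx | hx | hx)
      · exact Or.inl ⟨hσ.cl hx.1, hx.2⟩
      · exact Or.inr (Or.inl ⟨hσ.cl hx.1, hx.2⟩)
      · exact Or.inr (Or.inr ⟨hσ.bd hx.1, hx.2⟩)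
    · rintro x (hx | hx)
      · exact Or.inl ⟨hσ.cl hx.1, hx.2⟩
      · exact Or.inr ⟨hσ.bd hx.1, hx.2⟩

theorem susp_vn {S : ℤ → Prop} (h : Vn S U) :
    Vn (fun p => S (p - 1)) (U ×ˢ Ioo (-1 : ℝ) 1) := by
  obtain ⟨A, B, C, cA, cB, hBA, e, mB, mC, b1, b2, -⟩ := susp_main hU
  intro p hp
  obtain ⟨q, rfl⟩ : ∃ q, p = q + 1 := ⟨p - 1, by ring⟩
  rw [add_sub_cancel_right] at hp
  rw [pr_sub cA cB hBA e]
  haveI := h q hp
  haveI := (b2 q).1.subsingleton
  exact (b1 q).2.subsingleton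

theorem susp_fd (h : FD U) : FD (U ×ˢ Ioo (-1 : ℝ) 1) := by
  obtain ⟨A, B, C, cA, cB, hBA, e, mB, mC, b1, b2, -⟩ := susp_main hU
  rw [pr_fd cA cB hBA e]
  have h2 := (Cx.fin_iff_of_bij _ b2).2 h.2
  refine ⟨fun p => ?_, (h2.2.image (· + 1)).subset fun p hp => ?_⟩
  · obtain ⟨q, rfl⟩ : ∃ q, p = q + 1 := ⟨p - 1, by ring⟩
    haveI := h2.1 q
    exact Module.Finite.of_surjective _ (b1 q).2
  · obtain ⟨q, rfl⟩ : ∃ q, p = q + 1 := ⟨p - 1, by ring⟩
    exact ⟨q, fun hc => hp (b1 q).2.subsingleton, rfl⟩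

theorem susp_lef {σ : X → X} (hσ : Pres σ U) :
    Lef (Prod.map σ id) (U ×ˢ Ioo (-1 : ℝ) 1) = - Lef σ U := by
  obtain ⟨A, B, C, cA, cB, hBA, e, mB, mC, b1, b2, hm'⟩ := susp_main hU
  obtain ⟨m1, m2, m3⟩ := hm' σ hσ
  have hσ' : Pres (Prod.map σ id) (U ×ˢ Ioo (-1 : ℝ) 1) :=
    ⟨hσ.1.prodMap continuous_id, fun x => and_congr (hσ.2 _) Iff.rfl⟩
  rw [pr_lef cA cB hBA e hσ' m1 m2, hσ.lef,
    ← Cx.lef_of_bij _ b2 (hm hσ'.1 m2 m3) _ (fun p x => by rw [hm_comp, hm_comp])]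
  unfold Cx.lef
  rw [← finsum_comp_equiv (Equiv.addRight (1 : ℤ)), ← finsum_neg_distrib]
  refine finsum_congr fun p => ?_
  change (((p + 1).negOnePow : ℤ) : ℚ) * LinearMap.trace ℚ _ (hm hσ'.1 m1 m2 (p + 1)) = _
  rw [← trace_of_bij _ (b1 p) (hm hσ'.1 m2 m3 p) _ (fun x => by
    induction x using SQ.ind with | _ φ hφ
    refine SQ.mk_eq_mk.2 ?_
    change D (pull _ φ) - pull _ (D φ) ∈ _
    rw [D_pull, sub_self]; exact Submodule.zero_mem _), Int.negOnePow_succ]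
  simp

end susp

end Pool.Agent.Work.MP_6b5a33_co
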