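import Pool.Agent.Work.MP_6b5a33_co.Lin

/-! Lefschetz numbers on spaces of screens. -/

namespace Pool.Agent.Work.MP_6b5a33_co

open Topology Set Metric Module

variable {I : Type} [Fintype I] [DecidableEq I]

open Classical in
/-- subsets of blocks with at least two points -/
noncomputable def Gs (π : Setoid I) : Finset (Finset I) :=
  Finset.univ.filter fun T => 2 ≤ T.card ∧ ∀ i ∈ T, ∀ j ∈ T, π i j

theorem mem_Gs {π : Setoid I} {T : Finset I} :
    T ∈ Gs π ↔ 2 ≤ T.card ∧ ∀ i ∈ T, ∀ j ∈ T, π i j := by simp [Gs]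

theorem Gs_mono {π ρ : Setoid I} (h : ρ ≤ π) : Gs ρ ⊆ Gs π := fun _ hT =>
  mem_Gs.2 ⟨(mem_Gs.1 hT).1, fun i hi j hj => h ((mem_Gs.1 hT).2 i hi j hj)⟩

theorem Bl_sub (π : Setoid I) : Bl π ⊆ Gs π := fun B hB => by
  obtain ⟨⟨k, rfl⟩, h⟩ := mem_Bl.1 hB
  exact mem_Gs.2 ⟨h, fun i hi j hj => π.trans (π.symm (mem_blk.1 hi)) (mem_blk.1 hj)⟩

theorem Inv.gs {σ : Equiv.Perm I} {π : Setoid I} (h : Inv σ π) (T : Finset I) :
    σ.finsetCongr T ∈ Gs π ↔ T ∈ Gs π := by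
  simp only [mem_Gs, Equiv.finsetCongr_apply, Finset.card_map, Finset.forall_mem_map,
    Equiv.coe_toEmbedding, h _ _]

theorem Gs_blk {π : Setoid I} {T : Finset I} (h : T ∈ Gs π) {i : I} (hi : i ∈ T) :
    T ⊆ blk π i ∧ blk π i ∈ Bl π := by
  have : T ⊆ blk π i := fun j hj => mem_blk.2 ((mem_Gs.1 h).2 i hi j hj)
  exact ⟨this, blk_mem_Bl.2 ((mem_Gs.1 h).1.trans (Finset.card_le_card this))⟩

/-- product of moduli spaces -/
def Y (π : Setoid I) : Set (Finset I → Mat (I × I)) := Z ⊥ (Gs π)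

theorem good_Y {π : Setoid I} {x : Finset I → Mat (I × I)} (h : x ∈ Y π) : Good π x := fun i =>
  ⟨fun hb => (h.1 _).1 (Bl_sub π hb), fun hb => (h.1 _).2 fun h' =>
    hb (blk_mem_Bl.2 (mem_Gs.1 h').1)⟩

/-- forget some screens -/
def mask (G : Finset (Finset I)) (M : Finset I → Mat (I × I)) : Finset I → Mat (I × I) :=
  fun T => if T ∈ G then M T else 0

theorem continuous_mask (G : Finset (Finset I)) : Continuous (mask G) :=
  continuous_pi fun T => by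
    unfold mask
    split_ifs <;> fun_prop

theorem mask_Z {G G' : Finset (Finset I)} (h : G' ⊆ G) {π : Setoid I} {M : Finset I → Mat (I × I)}
    (hM : M ∈ Z π G) : mask G' M ∈ Z π G' := by
  refine ⟨fun T => ⟨fun hT => ?_, fun hT => if_neg hT⟩, fun S hS T hT hTS => ?_⟩
  · rw [mask, if_pos hT]; exact (hM.1 T).1 (h hT)
  · rw [mask, mask, if_pos hS, if_pos hT]; exact hM.2 S (h hS) T (h hT) hTS

theorem mask_act {σ : Equiv.Perm I} {G : Finset (Finset I)}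
    (hG : ∀ S, σ.finsetCongr S ∈ G ↔ S ∈ G) (M : Finset I → Mat (I × I)) :
    mask G (ac σ M) = ac σ (mask G M) := by
  funext T p q
  simp only [mask, act, hG]
  split_ifs <;> rfl

theorem mask_mat {G G' : Finset (Finset I)} (h : G' ⊆ G) (u : Finset I → Ev (I × I)) :
    mask G' (mat G u) = mat G' u := by
  funext T
  unfold mask mat
  split_ifs with h1 h2
  · rfl
  · exact absurd (h h1) h2
  · rfl

theorem typ_mask {π : Setoid I} {M : Finset I → Mat (I × I)} (h : M ∈ Y π) :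
    typ π (mask (Bl π) M) = typ π M := by
  refine Setoid.ext fun i j => ?_
  rw [(good_PP (mask_Z (Bl_sub π) h).1).typ, (good_Y h).typ, mask]
  split_ifs with hb
  · rfl
  · rw [((good_Y h) i).2 hb]

theorem res_ne {π ρ : Setoid I} {x : Finset I → Mat (I × I)} (hx : Good π x) (e : typ π x = ρ)
    {T : Finset I} (hT : T ∈ Gs π) {i : I} (hi : i ∈ T) {u : Ev (I × I)} (u0 : u ≠ 0)
    (hu : x (blk π i) = pr u) : res T u = 0 ↔ T ∈ Gs ρ := by
  rw [res_eq_zero, mem_Gs, and_iff_right (mem_Gs.1 hT).1, ← e]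
  refine forall₂_congr fun j hj => forall₂_congr fun k hk => ?_
  rw [hx.typ, and_iff_right ((mem_Gs.1 hT).2 j hj k hk), ← blk_eq.2 ((mem_Gs.1 hT).2 i hi j hj),
    hu, pr_diag u0]

theorem tr_Y {X : Type} [MetricSpace X] {U : Set X} (hU : LC U) {π ρ : Setoid I} (h : ρ ≤ π) :
    Tr (fun y : X × (Finset I → Mat (I × I)) => ((y.1, mask (Bl π) y.2), mask (Gs ρ) y.2))
      ((U ×ˢ Y π) ∩ (fun y => typ π y.2) ⁻¹' {ρ}) ((U ×ˢ Lo π ρ) ×ˢ Y ρ) := by
  refine ⟨(continuous_fst.prodMk ((continuous_mask _).comp continuous_snd)).prodMk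
    ((continuous_mask _).comp continuous_snd), ⟨closure U ×ˢ Y π, hU.1.prod (isCompact_Z _ _),
      fun y hy => ⟨subset_closure hy.1.1, hy.1.2⟩, fun y hy hy' =>
        ⟨⟨hy'.1.1, hy.2⟩, (typ_mask hy.2).symm.trans hy'.1.2.2⟩⟩, fun y hy =>
    ⟨⟨hy.1.1, (mask_Z (Bl_sub π) hy.1.2).1, (typ_mask hy.1.2).trans hy.2⟩,
      mask_Z (Gs_mono h) hy.1.2⟩, ?_, ?_⟩
  · rintro ⟨x, M⟩ ⟨⟨-, hM⟩, e⟩ ⟨x', M'⟩ ⟨⟨-, hM'⟩, -⟩ hh
    simp only [Prod.mk.injEq] at hh
    refine Prod.ext hh.1.1 (funext fun T => ?_)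
    by_cases hT : T ∈ Gs π
    swap
    · exact ((hM.1 T).2 hT).trans ((hM'.1 T).2 hT).symm
    by_cases hT' : T ∈ Gs ρ
    · simpa only [mask, if_pos hT'] using congrFun hh.2 T
    obtain ⟨i, hi⟩ : T.Nonempty := Finset.card_pos.1 (by have := (mem_Gs.1 hT).1; omega)
    obtain ⟨b1, b2⟩ := Gs_blk hT hi
    obtain ⟨u, ⟨-, u0⟩, hu⟩ := (hM.1 _).1 (Bl_sub π b2)
    have hu' : pr u = M' (blk π i) := by
      rw [hu]
      simpa only [mask, if_pos b2] using congrFun hh.1.2 (blk π i)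
    have r0 := mt (res_ne (good_Y hM) e hT hi u0 hu.symm).1 hT'
    exact (cmp_eq r0 ((hM.1 T).1 hT) (hu ▸ hM.2 _ (Bl_sub π b2) T hT b1)).trans
      (cmp_eq r0 ((hM'.1 T).1 hT) (hu' ▸ hM'.2 _ (Bl_sub π b2) T hT b1)).symm
  · rintro ⟨⟨x, A⟩, B⟩ ⟨⟨hx, hA, e⟩, hB⟩
    obtain ⟨a, ha, rfl⟩ := exists_mat hA
    obtain ⟨b, hb, rfl⟩ := mem_Z.1 hB
    have : ∀ T : Finset I, ∃ D, T ∈ Gs π → ∀ i ∈ T, D = blk π i := fun T => by
      rcases T.eq_empty_or_nonempty with rfl | ⟨k, hk⟩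
      · exact ⟨∅, by simp⟩
      · exact ⟨blk π k, fun hT i hi => blk_eq.2 ((mem_Gs.1 hT).2 k hk i hi)⟩
    choose D hD using this
    have ne : ∀ T ∈ Gs π, ∃ i, i ∈ T := fun T hT =>
      Finset.card_pos.1 (by have := (mem_Gs.1 hT).1; omega)
    have r0 : ∀ T ∈ Gs π, (res T (a (D T)) = 0 ↔ T ∈ Gs ρ) := fun T hT => by
      obtain ⟨i, hi⟩ := ne T hT
      have b2 := (Gs_blk hT hi).2
      rw [hD T hT i hi]
      exact res_ne (good_PP hA) e hT hi (ha _ b2).2 (mat_pos a b2)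
    let u : Finset I → Ev (I × I) := fun T => if T ∈ Gs ρ then b T else res T (a (D T))
    have hu : Fam ⊥ (Gs π) u := by
      refine ⟨fun T hT => ?_, fun T hT => ?_, fun S hS T hT hTS => ?_⟩
      · simp only [u]
        split_ifs with h'
        · exact hb.mem T h'
        · obtain ⟨i, hi⟩ := ne T hT
          rw [hD T hT i hi]
          exact res_mem (ha _ (Gs_blk hT hi).2).1 (Gs_blk hT hi).1
      · simp only [u]
        split_ifs with h'
        · exact hb.ne T h'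
        · exact mt (r0 T hT).1 h'
      · obtain ⟨i, hi⟩ := ne T hT
        have e' : D S = D T := (hD S hS i (hTS hi)).trans (hD T hT i hi).symm
        simp only [u]
        split_ifs with h1 h2 h2
        · exact hb.cmp S h1 T h2 hTS
        · exact absurd (mem_Gs.2 ⟨(mem_Gs.1 hT).1, fun i hi j hj =>
            (mem_Gs.1 h1).2 i (hTS hi) j (hTS hj)⟩) h2
        · exact ⟨0, by rw [res_res hTS, e', (r0 T hT).2 h2, zero_smul]⟩
        · exact ⟨1, by rw [res_res hTS, e', one_smul]⟩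
    have hM : mat (Gs π) u ∈ Y π := mem_Z.2 ⟨u, hu, rfl⟩
    have e1 : mask (Bl π) (mat (Gs π) u) = mat (Bl π) a := by
      rw [mask_mat (Bl_sub π)]
      funext T
      by_cases hT : T ∈ Bl π
      · rw [mat_pos _ hT, mat_pos _ hT]
        obtain ⟨⟨i, rfl⟩, -⟩ := mem_Bl.1 hT
        have := r0 _ (Bl_sub π hT)
        have e' := hD _ (Bl_sub π hT) i (self_mem_blk π i)
        rw [e', res_self (ha _ hT).1] at this
        simp only [u, if_neg (mt this.2 (ha _ hT).2), e', res_self (ha _ hT).1]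
      · rw [mat_neg _ hT, mat_neg _ hT]
    refine ⟨(x, mat (Gs π) u), ⟨⟨hx, hM⟩, (typ_mask hM).symm.trans (e1 ▸ e)⟩,
      Prod.ext (Prod.ext rfl e1) ?_⟩
    refine (mask_mat (Gs_mono h) u).trans (funext fun T => ?_)
    by_cases hT : T ∈ Gs ρ
    · simp only [mat_pos _ hT, u, if_pos hT]
    · simp only [mat_neg _ hT]

theorem pres_Y {σ : Equiv.Perm I} {π : Setoid I} (hπ : Inv σ π) : Pres (ac σ) (Y π) :=
  pres_Z (inv_bot σ) hπ.gs

theorem lef_Y (π : Setoid I) : ∀ (X : Type) [MetricSpace X] (U : Set X), FD U →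
    FD (U ×ˢ Y π) ∧ ∀ σ' σ, Pres σ' U → Inv σ π →
      Lef (Prod.map σ' (ac σ)) (U ×ˢ Y π) = Lef σ' U * lam σ π := by
  classical
  induction π using (wellFounded_lt (α := Setoid I)).induction with | _ π ih
  intro X _ U hU
  by_cases h0 : π = ⊥
  · subst h0
    have e : Gs (⊥ : Setoid I) = ∅ := Finset.eq_empty_of_forall_notMem fun T hT => by
      have := Finset.card_le_one.2 (mem_Gs.1 hT).2
      have := (mem_Gs.1 hT).1
      omega
    have e' : Y (⊥ : Setoid I) = PP ∅ (VS · ⊥) := by simp [Y, Z, e]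
    rw [e']
    refine ⟨(proj hU.1 _ _).1 hU, fun σ' σ h1 h2 => ?_⟩
    rw [(proj hU.1 _ _).2.2 hU σ' _ _ h1 (by simp) (Lp_VS h2), lam, sum_le_split h2, wt_bot]
    simp [QP_one]
  obtain ⟨s1, s2⟩ := strata_typ (π := π) (hU.1.prod (LC.of_compact (isCompact_Z ⊥ (Gs π))))
    fun y hy => good_Y hy.2
  have emp : ∀ ρ, ¬ ρ < π → (U ×ˢ Y π) ∩ (fun y => typ π y.2) ⁻¹' {ρ} = ∅ := fun ρ h =>
    eq_empty_of_forall_notMem fun y hy =>
      h ((show typ π y.2 = ρ from hy.2) ▸ (good_Y hy.1.2).lt h0)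
  have emp' : ∀ ρ, ¬ ρ < π → Lo π ρ = ∅ := fun ρ h =>
    eq_empty_of_forall_notMem fun y hy =>
      h ((show typ π y = ρ from hy.2) ▸ (good_PP hy.1).lt h0)
  obtain ⟨s3, s4⟩ := s2 fun ρ => by
    by_cases h : ρ < π
    · have := (ih ρ h _ _ (fd_Lo hU π ρ)).1
      exact ((tr_Y hU.1 h.le).fd this.1).1 this
    · exact (emp ρ h).symm ▸ fd_empty
  refine ⟨s3, fun σ' σ h1 h2 => ?_⟩
  have pp := h1.prod (pres_Y h2)
  have e : ∀ ρ, Inv σ ρ → Lef (Prod.map σ' (ac σ)) ((U ×ˢ Y π) ∩ (fun y => typ π y.2) ⁻¹' {ρ}) =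
      Lef (Prod.map σ' (ac σ)) (U ×ˢ Lo π ρ) * lam σ ρ := fun ρ hρ => by
    by_cases h : ρ < π
    · obtain ⟨a, b⟩ := ih ρ h _ _ (fd_Lo hU π ρ)
      have p1 := h1.prod (pres_Lo h2 hρ)
      rw [← b _ σ p1 hρ]
      refine ((tr_Y hU.1 h.le).lef a.1 (p1.prod (pres_Y hρ)) ⟨pp.1, fun y => ?_⟩ fun y => ?_).symm
      · simp only [mem_inter_iff, pp.2 y, mem_preimage, mem_singleton_iff]
        refine and_congr_right fun hy => ?_
        rw [show (Prod.map σ' (ac σ) y).2 = ac σ y.2 from rfl,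
          typ_act h2 (good_Y hy.2) (good_Y ((pp.2 y).2 hy).2)]
        conv_lhs => rw [← cmp_fix.2 hρ]
        exact (cmp σ).injective.eq_iff
      · exact Prod.ext (Prod.ext rfl (mask_act h2.bl _)) (mask_act hρ.gs _)
    · rw [emp ρ h, emp' ρ h, prod_empty, lef_empty, zero_mul]
  refine (s4 σ' σ h2 pp).trans ?_
  refine (Finset.sum_congr rfl fun ρ hρ => e ρ (Finset.mem_filter.1 hρ).2).trans ?_
  have e2 : ∀ (π : Setoid I) (f : Setoid I → ℚ), ∑ ρ with ρ ≤ π ∧ Inv σ ρ, f ρ =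
      ∑ ρ with Inv σ ρ, if ρ ≤ π then f ρ else 0 := fun π f => by
    rw [← Finset.sum_filter, Finset.filter_filter]
    simp only [and_comm]
  rw [lam_eq h2, e2, Finset.mul_sum]
  simp only [lam, e2, Finset.mul_sum]
  rw [Finset.sum_comm]
  refine Finset.sum_congr rfl fun ρ hρ => ?_
  have := lef_Lo hU h1 h2 (Finset.mem_filter.1 hρ).2
  calc _ = (∑ ρ' with Inv σ ρ', (if ρ ≤ ρ' then Lef (Prod.map σ' (ac σ)) (U ×ˢ Lo π ρ') else 0)) *
        wt σ ρ := by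
        rw [Finset.sum_mul]
        refine Finset.sum_congr rfl fun ρ' _ => ?_
        split_ifs <;> simp
    _ = _ := by
        rw [this]
        split_ifs <;> ring

theorem lef_X (σ : Equiv.Perm I) : FD (Y (⊤ : Setoid I)) ∧ Lef (ac σ) (Y ⊤) = lam σ ⊤ := by
  obtain ⟨a, b⟩ := lef_Y (⊤ : Setoid I) Unit {()} (fd_pt ())
  have t := tr_pt (isCompact_Z (⊥ : Setoid I) (Gs ⊤))
  have p : Pres id ({()} : Set Unit) := ⟨continuous_id, fun _ => Iff.rfl⟩
  refine ⟨(t.fd a.1).1 a, ?_⟩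
  have := b id σ p (inv_top σ)
  rw [lef_pt _ p, one_mul] at this
  rw [← this]
  exact (t.lef a.1 (p.prod (pres_Y (inv_top σ))) (pres_Y (inv_top σ)) fun _ => rfl).symm

end Pool.Agent.Work.MP_6b5a33_co
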