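import Pool.Agent.Work.MP_6b5a33_co.Scr

/-! Linear strata of products of projective spaces. -/

namespace Pool.Agent.Work.MP_6b5a33_co

open Topology Set Metric Module

variable {I : Type} [Fintype I] [DecidableEq I]

/-- blocks with at least two points -/
noncomputable def Bl (π : Setoid I) : Finset (Finset I) :=
  (Finset.univ.image (blk π)).filter fun B => 2 ≤ B.card

theorem mem_Bl {π : Setoid I} {B : Finset I} : B ∈ Bl π ↔ (∃ i, blk π i = B) ∧ 2 ≤ B.card := by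
  simp [Bl]

theorem blk_mem_Bl {π : Setoid I} {i : I} : blk π i ∈ Bl π ↔ 2 ≤ (blk π i).card := by
  simp [mem_Bl]

theorem Inv.bl {σ : Equiv.Perm I} {π : Setoid I} (h : Inv σ π) (B : Finset I) :
    σ.finsetCongr B ∈ Bl π ↔ B ∈ Bl π := by
  rw [mem_Bl, mem_Bl]
  refine and_congr (σ.exists_congr fun i => ?_).symm (by simp)
  rw [← h.blk, σ.finsetCongr.injective.eq_iff]

/-- screens on the blocks are points of projective spaces -/
def Good (π : Setoid I) (x : Finset I → Mat (I × I)) : Prop :=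
  ∀ i, (blk π i ∈ Bl π → x (blk π i) ∈ PV (VS (blk π i) ⊥)) ∧ (blk π i ∉ Bl π → x (blk π i) = 0)

/-- collision relation -/
def rel (π : Setoid I) (x : Finset I → Mat (I × I)) (i j : I) : Prop :=
  π i j ∧ x (blk π i) (i, j) (i, j) = 0

open Classical in
/-- collision type -/
noncomputable def typ (π : Setoid I) (x : Finset I → Mat (I × I)) : Setoid I :=
  if h : Equivalence (rel π x) then ⟨rel π x, h⟩ else ⊥

theorem Good.typ {π : Setoid I} {x : Finset I → Mat (I × I)} (h : Good π x) (i j : I) :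
    typ π x i j ↔ π i j ∧ x (blk π i) (i, j) (i, j) = 0 := by
  have key : ∀ i j k, rel π x i j → rel π x i k → rel π x j k := by
    rintro i j k ⟨h1, h2⟩ ⟨h3, h4⟩
    refine ⟨π.trans (π.symm h1) h3, ?_⟩
    rw [← blk_eq.2 h1]
    by_cases hb : blk π i ∈ Bl π
    · obtain ⟨u, ⟨hu, u0⟩, e⟩ := (h i).1 hb
      rw [← e, pr_diag u0] at h2 h4 ⊢
      rw [← hu.2.1 i (self_mem_blk π i) j (mem_blk.2 h1) k (mem_blk.2 h3), h2, zero_add] at h4
      exact h4
    · rw [(h i).2 hb]; rfl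
  have rf : ∀ i, rel π x i i := fun i => ⟨π.refl i, by
    by_cases hb : blk π i ∈ Bl π
    · exact ((mem_PV_VS le_rfl).1 ((h i).1 hb)).2 i i rfl
    · rw [(h i).2 hb]; rfl⟩
  have : Equivalence (rel π x) := ⟨rf, fun h => key _ _ _ h (rf _),
    fun h h' => key _ _ _ (key _ _ _ h (rf _)) h'⟩
  unfold MP_6b5a33_co.typ
  rw [dif_pos this]; rfl

theorem Good.le {π : Setoid I} {x : Finset I → Mat (I × I)} (h : Good π x) :
    MP_6b5a33_co.typ π x ≤ π := fun i j hij => ((h.typ i j).1 hij).1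

theorem Good.lt {π : Setoid I} {x : Finset I → Mat (I × I)} (h : Good π x) (hπ : π ≠ ⊥) :
    MP_6b5a33_co.typ π x < π := by
  refine h.le.lt_of_ne fun e => ?_
  obtain ⟨i, hi⟩ := exists_big hπ
  obtain ⟨u, ⟨hu, u0⟩, e'⟩ := (h i).1 (blk_mem_Bl.2 hi)
  refine u0 ((res_self hu).symm.trans (res_eq_zero.2 fun j hj k hk => ?_))
  have := ((h.typ j k).1 (e.symm ▸ π.trans (π.symm (mem_blk.1 hj)) (mem_blk.1 hk))).2
  rwa [← blk_eq.2 (mem_blk.1 hj), ← e', pr_diag u0] at this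

theorem good_PP {π ρ : Setoid I} {x : Finset I → Mat (I × I)} (h : x ∈ PP (Bl π) (VS · ρ)) :
    Good π x := fun i => ⟨fun hb => ((mem_PV_VS bot_le).1 ((h _).1 hb)).1, (h _).2⟩

open Classical in
/-- rank of a partition -/
noncomputable def rk (ρ : Setoid I) : ℕ :=
  (Finset.univ.filter fun p : I × I => ¬ ρ p.1 p.2).card

theorem rk_lt {ρ ρ' : Setoid I} (h : ρ < ρ') : rk ρ' < rk ρ := by
  refine Finset.card_lt_card ⟨fun p hp => ?_, fun h' => h.not_ge fun i j hij => ?_⟩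
  · simp only [Finset.mem_filter, Finset.mem_univ, true_and] at hp ⊢
    exact fun h' => hp (h.le h')
  · by_contra hc
    have := @h' (i, j) (by simpa using hc)
    simp only [Finset.mem_filter, Finset.mem_univ, true_and] at this
    exact this hij

/-- action on partitions -/
def cmp (σ : Equiv.Perm I) : Equiv.Perm (Setoid I) where
  toFun ρ := ρ.comap σ
  invFun ρ := ρ.comap σ.symm
  left_inv ρ := Setoid.ext fun a b => by simp [Setoid.comap_rel]
  right_inv ρ := Setoid.ext fun a b => by simp [Setoid.comap_rel]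

theorem cmp_fix {σ : Equiv.Perm I} {ρ : Setoid I} : cmp σ ρ = ρ ↔ Inv σ ρ := Setoid.ext_iff

theorem rk_cmp (σ : Equiv.Perm I) (ρ : Setoid I) : rk (cmp σ ρ) = rk ρ := by
  refine Finset.card_equiv (σ.prodCongr σ) fun p => ?_
  simp only [Finset.mem_filter, Finset.mem_univ, true_and]
  rfl

/-- the action of a permutation on screens -/
abbrev ac (σ : Equiv.Perm I) : (Finset I → Mat (I × I)) → Finset I → Mat (I × I) :=
  act σ.finsetCongr (σ.prodCongr σ)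

theorem typ_act {σ : Equiv.Perm I} {π : Setoid I} (hπ : Inv σ π) {x : Finset I → Mat (I × I)}
    (h : Good π x) (h' : Good π (ac σ x)) : typ π (ac σ x) = cmp σ (typ π x) := by
  refine Setoid.ext fun i j => (h'.typ i j).trans (Iff.trans ?_ (h.typ (σ i) (σ j)).symm)
  rw [hπ, ← hπ.blk]; rfl

section
variable {X : Type} [MetricSpace X]

theorem typ_cl {π : Setoid I} {A : Set (X × (Finset I → Mat (I × I)))} (hA : ∀ y ∈ A, Good π y.2)
    (ρ : Setoid I) (y : X × (Finset I → Mat (I × I)))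
    (hy : y ∈ closure (A ∩ (fun y => typ π y.2) ⁻¹' {ρ})) (h : y ∈ A) :
    typ π y.2 = ρ ∨ rk (typ π y.2) < rk ρ := by
  have : ρ ≤ typ π y.2 := fun i j hij => by
    refine ((hA y h).typ i j).2 (closure_minimal (t := {z : X × (Finset I → Mat (I × I)) |
      π i j ∧ z.2 (blk π i) (i, j) (i, j) = 0}) ?_
      (isClosed_const.inter (isClosed_eq (by fun_prop) continuous_const)) hy)
    rintro z ⟨h1, h2⟩
    exact ((hA z h1).typ i j).1 ((show typ π z.2 = ρ from h2).symm ▸ hij)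
  exact this.eq_or_lt.imp Eq.symm rk_lt

theorem strata_typ {π : Setoid I} {A : Set (X × (Finset I → Mat (I × I)))} (lc : LC A)
    (hA : ∀ y ∈ A, Good π y.2) : (∀ ρ, LC (A ∩ (fun y => typ π y.2) ⁻¹' {ρ})) ∧
    ((∀ ρ, FD (A ∩ (fun y => typ π y.2) ⁻¹' {ρ})) → FD A ∧ ∀ σ' σ, Inv σ π →
      Pres (Prod.map σ' (ac σ)) A → Lef (Prod.map σ' (ac σ)) A = open Classical in
        ∑ ρ with Inv σ ρ, Lef (Prod.map σ' (ac σ)) (A ∩ (fun y => typ π y.2) ⁻¹' {ρ})) := by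
  classical
  obtain ⟨a, b, -, c⟩ := strata' lc (fun y => typ π y.2) rk (typ_cl hA)
  refine ⟨a, fun fd => ⟨b fd, fun σ' σ hπ hp => ?_⟩⟩
  rw [c fd _ (cmp σ) hp (fun y hy => typ_act hπ (hA y hy) (hA _ ((hp.2 y).2 hy))) (rk_cmp σ)]
  simp only [cmp_fix]

end

/-- open linear stratum -/
def Lo (π ρ : Setoid I) : Set (Finset I → Mat (I × I)) := PP (Bl π) (VS · ⊥) ∩ typ π ⁻¹' {ρ}

theorem mem_Lc {π ρ : Setoid I} (h : ρ ≤ π) {x : Finset I → Mat (I × I)} :
    x ∈ PP (Bl π) (VS · ρ) ↔ x ∈ PP (Bl π) (VS · ⊥) ∧ ρ ≤ typ π x := by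
  constructor
  · intro hx
    refine ⟨fun B => ⟨fun hB => ((mem_PV_VS bot_le).1 ((hx B).1 hB)).1, (hx B).2⟩,
      fun i j hij => ((good_PP hx).typ i j).2 ⟨h hij, ?_⟩⟩
    by_cases hb : blk π i ∈ Bl π
    · exact ((mem_PV_VS bot_le).1 ((hx _).1 hb)).2 i j hij
    · rw [(hx _).2 hb]; rfl
  · rintro ⟨hx, h'⟩ B
    refine ⟨fun hB => (mem_PV_VS bot_le).2 ⟨(hx B).1 hB, fun i j hij => ?_⟩, (hx B).2⟩
    by_cases hi : i ∈ B
    · obtain ⟨⟨k, rfl⟩, -⟩ := mem_Bl.1 hB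
      rw [blk_eq.2 (mem_blk.1 hi)]
      exact (((good_PP hx).typ i j).1 (h' hij)).2
    · obtain ⟨u, ⟨hu, u0⟩, e⟩ := (hx B).1 hB
      rw [← e, pr_diag u0]
      exact hu.1 i j fun h => hi h.1

theorem Lo_empty {π ρ : Setoid I} (h : ¬ ρ ≤ π) : Lo π ρ = ∅ :=
  eq_empty_of_forall_notMem fun x hx => h ((show typ π x = ρ from hx.2) ▸ (good_PP hx.1).le)

theorem pres_Lo {σ : Equiv.Perm I} {π ρ : Setoid I} (hπ : Inv σ π) (hρ : Inv σ ρ) :
    Pres (ac σ) (Lo π ρ) := by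
  have p := pres_PP hπ.bl (Lp_VS (inv_bot σ))
  refine ⟨p.1, fun x => ?_⟩
  simp only [Lo, mem_inter_iff, p.2 x, mem_preimage, mem_singleton_iff]
  refine and_congr_right fun hx => ?_
  rw [typ_act hπ (good_PP hx) (good_PP ((p.2 x).2 hx))]
  conv_lhs => rw [← cmp_fix.2 hρ]
  exact (cmp σ).injective.eq_iff

variable {X : Type} [MetricSpace X] {U : Set X}

theorem fd_Lo (hU : FD U) (π ρ : Setoid I) : FD (U ×ˢ Lo π ρ) := by
  induction ρ using (wellFounded_gt (α := Setoid I)).induction with | _ ρ ih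
  by_cases h : ρ ≤ π
  swap
  · rw [Lo_empty h, prod_empty]; exact fd_empty
  have lc := hU.1.prod (LC.of_compact (isCompact_PP (Bl π) (VS · ρ)))
  let F : Set (X × (Finset I → Mat (I × I))) :=
    ⋃ i, ⋃ j, {y | (π i j ∧ ¬ ρ i j) ∧ y.2 (blk π i) (i, j) (i, j) = 0}
  have cF : IsClosed F := isClosed_iUnion_of_finite fun i => isClosed_iUnion_of_finite fun j =>
    isClosed_const.inter (isClosed_eq (by fun_prop) continuous_const)
  have mF : ∀ y ∈ U ×ˢ PP (Bl π) (VS · ρ), y ∈ F ↔ ρ < typ π y.2 := fun y hy => by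
    rw [lt_iff_le_not_ge, and_iff_right ((mem_Lc h).1 hy.2).2]
    simp only [F, mem_iUnion, mem_ofPred_eq, Setoid.le_def, (good_PP hy.2).typ, not_forall]
    exact ⟨fun ⟨i, j, a, b⟩ => ⟨i, j, ⟨a.1, b⟩, a.2⟩, fun ⟨i, j, a, b⟩ => ⟨i, j, ⟨a.1, b⟩, a.2⟩⟩
  have := fd_open lc cF ((strata_typ (π := π) (lc.inter cF) fun y hy => good_PP hy.1.2).2
    fun ρ' => ?_).1 ((proj hU.1 _ _).1 hU)
  · convert this using 1
    ext y
    constructor
    · rintro ⟨a, b, c⟩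
      have c' : typ π y.2 = ρ := c
      have := (mem_Lc h).2 ⟨b, c'.ge⟩
      exact ⟨⟨a, this⟩, fun hF => ((mF y ⟨a, this⟩).1 hF).ne' c'⟩
    · rintro ⟨a, b⟩
      have := (mem_Lc h).1 a.2
      exact ⟨a.1, this.1, (this.2.eq_or_lt.resolve_right fun h => b ((mF y a).2 h)).symm⟩
  · by_cases h' : ρ < ρ'
    · convert ih ρ' h' using 1
      ext y
      constructor
      · rintro ⟨⟨a, -⟩, c⟩
        exact ⟨a.1, ((mem_Lc h).1 a.2).1, c⟩
      · rintro ⟨a, b, c⟩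
        have c' : typ π y.2 = ρ' := c
        have := (mem_Lc h).2 ⟨b, c' ▸ h'.le⟩
        exact ⟨⟨⟨a, this⟩, (mF y ⟨a, this⟩).2 (c' ▸ h')⟩, c⟩
    · convert fd_empty (X := X × (Finset I → Mat (I × I)))
      refine eq_empty_of_forall_notMem fun y hy => h' ?_
      exact (show typ π y.2 = ρ' from hy.2) ▸ (mF y hy.1.1).1 hy.1.2

open Classical in
theorem lef_Lo (hU : FD U) {σ' : X → X} (hσ : Pres σ' U) {σ : Equiv.Perm I} {π ρ : Setoid I}
    (hπ : Inv σ π) (hρ : Inv σ ρ) :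
    ∑ ρ' with Inv σ ρ', (if ρ ≤ ρ' then Lef (Prod.map σ' (ac σ)) (U ×ˢ Lo π ρ') else 0) =
      if ρ ≤ π then Lef σ' U * nu σ π ρ else 0 := by
  by_cases h : ρ ≤ π
  swap
  · rw [if_neg h]
    refine Finset.sum_eq_zero fun ρ' _ => ?_
    split_ifs with h'
    · rw [Lo_empty fun h'' => h (h'.trans h''), prod_empty, lef_empty]
    · rfl
  have lc := hU.1.prod (LC.of_compact (isCompact_PP (Bl π) (VS · ρ)))
  have e : ∀ ρ', (U ×ˢ PP (Bl π) (VS · ρ)) ∩ (fun y => typ π y.2) ⁻¹' {ρ'} =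
      if ρ ≤ ρ' then U ×ˢ Lo π ρ' else ∅ := fun ρ' => by
    ext y
    split_ifs with h'
    · exact ⟨fun ⟨a, c⟩ => ⟨a.1, ((mem_Lc h).1 a.2).1, c⟩, fun ⟨a, b, c⟩ =>
        ⟨⟨a, (mem_Lc h).2 ⟨b, (show typ π y.2 = ρ' from c) ▸ h'⟩⟩, c⟩⟩
    · exact iff_of_false (fun ⟨a, c⟩ => h' ((show typ π y.2 = ρ' from c) ▸
        ((mem_Lc h).1 a.2).2)) (notMem_empty _)
  have := ((strata_typ (π := π) lc fun y hy => good_PP hy.2).2 fun ρ' => by
    rw [e]
    split_ifs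
    · exact fd_Lo hU π ρ'
    · exact fd_empty).2 σ' σ hπ (hσ.prod (pres_PP hπ.bl (Lp_VS hρ)))
  rw [(proj hU.1 _ _).2.2 hU σ' _ _ hσ hπ.bl (Lp_VS hρ)] at this
  have g : ∀ i, (if blk π i ∈ Bl π then (finrank ℂ (VS (blk π i) ρ) : ℚ) else 1) =
      fac ρ (blk π i) := fun i => by
    simp only [blk_mem_Bl, fac, ← finrank_VS ⟨i, self_mem_blk π i⟩ ρ]
    simp
  rw [QP_map (ρ₁ := orb σ π) (blk π) (fun _ _ => Iff.rfl) (sameCycle_inv fun B => by
    simp only [hπ.bl, finrank_act (Lp_VS hρ B)]) fun B => by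
      by_cases hB : B ∈ Bl π
      · obtain ⟨⟨i, rfl⟩, -⟩ := mem_Bl.1 hB
        exact Or.inr ⟨i, Equiv.Perm.SameCycle.refl _ _⟩
      · exact Or.inl (if_neg hB)] at this
  simp only [g] at this
  rw [if_pos h, nu, this]
  refine Finset.sum_congr rfl fun ρ' _ => ?_
  rw [e]
  split_ifs
  · rfl
  · rw [lef_empty]

end Pool.Agent.Work.MP_6b5a33_co
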