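import Pool.Agent.Work.MP_6b5a33_co.SQ
import Mathlib.Topology.Separation.Regular

/-! Local to global principle for localised complexes. -/

namespace Pool.Agent.Work.MP_6b5a33_co

open Topology Set

namespace Cx
variable {M M' : Type} [AddCommGroup M] [Module ℚ M] [AddCommGroup M'] [Module ℚ M']
variable {X : Type} [TopologicalSpace X]

/-- a family of null submodules indexed by subsets of a space -/
structure Loc (K : Cx M) (N : Set X → Submodule ℚ M) : Prop where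
  dN : ∀ A x, x ∈ N A → K.d x ∈ N A
  anti : ∀ A B, A ⊆ B → N B ≤ N A
  union : ∀ A B x, x ∈ N A → x ∈ N B → x ∈ N (A ∪ B)
  inter : ∀ A B, IsCompact A → IsCompact B → ∀ p x, x ∈ K.G p → x ∈ N (A ∩ B) →
    ∃ a, a ∈ K.G p ∧ a ∈ N A ∧ x - a ∈ N B
  loc : ∀ a x, x ∈ N {a} → ∃ U ∈ 𝓝 a, x ∈ N U
  low : ∃ p0 : ℤ, ∀ p < p0, ∀ x ∈ K.G p, x = 0

theorem acyc_iff {K : Cx M} {P Q : Submodule ℚ M} {p : ℤ} :
    Subsingleton (K.H P Q p) ↔ ∀ x, x ∈ K.G p → x ∈ Q → K.d x ∈ P →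
      ∃ y, y ∈ K.G (p - 1) ∧ y ∈ Q ∧ x - K.d y ∈ P := by
  rw [SQ.subsingleton_iff]
  simp only [mem_Zc, mem_Bc, and_imp]

/-- gluing primitives -/
theorem glue' {K : Cx M} {PA PB PI PU Q : Submodule ℚ M} (dA : ∀ x ∈ PA, K.d x ∈ PA)
    (dB : ∀ x ∈ PB, K.d x ∈ PB) (hA : PA ≤ PI) (hB : PB ≤ PI) (hAQ : PA ≤ Q)
    (hU : ∀ x ∈ PA, x ∈ PB → x ∈ PU) {p : ℤ}
    (hint : ∀ x ∈ K.G (p - 1), x ∈ PI → ∃ a, a ∈ K.G (p - 1) ∧ a ∈ PA ∧ x - a ∈ PB)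
    (hAB : Subsingleton (K.H PI Q (p - 1))) {x y z : M}
    (hy : y ∈ K.G (p - 1)) (hy0 : y ∈ Q) (hyA : x - K.d y ∈ PA)
    (hz : z ∈ K.G (p - 1)) (hz0 : z ∈ Q) (hzB : x - K.d z ∈ PB) :
    ∃ w, w ∈ K.G (p - 1) ∧ w ∈ Q ∧ x - K.d w ∈ PU := by
  have h1 : K.d (y - z) ∈ PI := by
    have := PI.sub_mem (hB hzB) (hA hyA)
    convert this using 1
    rw [map_sub]; abel
  obtain ⟨t, ht, ht0, ht1⟩ := acyc_iff.1 hAB (y - z) (Submodule.sub_mem _ hy hz)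
    (Submodule.sub_mem _ hy0 hz0) h1
  have hdt := K.dG _ _ ht
  rw [sub_add_cancel] at hdt
  obtain ⟨a, ha, haA, haB⟩ := hint _
    (Submodule.sub_mem _ (Submodule.sub_mem _ hy hz) hdt) ht1
  refine ⟨y - a, Submodule.sub_mem _ hy ha,
    Submodule.sub_mem _ hy0 (hAQ haA), hU _ ?_ ?_⟩
  · have := PA.add_mem hyA (dA _ haA)
    convert this using 1
    rw [map_sub]; abel
  · have := PB.sub_mem hzB (dB _ haB)
    convert this using 1
    simp only [map_sub, K.dd]; abel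

theorem Loc.glue {K : Cx M} {N : Set X → Submodule ℚ M} (h : Loc K N) {A B : Set X}
    (hA : IsCompact A) (hB : IsCompact B) {p : ℤ}
    (hAB : Subsingleton (K.H (N (A ∩ B)) (N ∅) (p - 1))) {x y z : M}
    (hy : y ∈ K.G (p - 1)) (hy0 : y ∈ N ∅) (hyA : x - K.d y ∈ N A)
    (hz : z ∈ K.G (p - 1)) (hz0 : z ∈ N ∅) (hzB : x - K.d z ∈ N B) :
    ∃ w, w ∈ K.G (p - 1) ∧ w ∈ N ∅ ∧ x - K.d w ∈ N (A ∪ B) :=
  glue' (h.dN A) (h.dN B) (h.anti _ _ inter_subset_left) (h.anti _ _ inter_subset_right)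
    (h.anti _ _ (empty_subset _)) (h.union A B) (h.inter A B hA hB (p - 1)) hAB
    hy hy0 hyA hz hz0 hzB

theorem Loc.acyc [T3Space X] {K : Cx M} {N : Set X → Submodule ℚ M} (h : Loc K N)
    (hpt : ∀ a p, Subsingleton (K.H (N {a}) (N ∅) p)) (p : ℤ) :
    ∀ A, IsCompact A → Subsingleton (K.H (N A) (N ∅) p) := by
  obtain ⟨p0, hp0⟩ := h.low
  induction p using Int.strongRec (m := p0) with
  | lt p hp =>
    intro A _
    refine acyc_iff.2 fun x hx _ _ => ⟨0, Submodule.zero_mem _, Submodule.zero_mem _, ?_⟩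
    rw [hp0 p hp x hx]; simp
  | ge p _ ih =>
    intro A hA
    refine acyc_iff.2 fun x hx hx0 hxA => ?_
    have key : ∃ B, IsCompact B ∧ A ⊆ B ∧
        ∃ y, y ∈ K.G (p - 1) ∧ y ∈ N ∅ ∧ x - K.d y ∈ N B := by
      refine hA.induction_on (p := fun S => ∃ B, IsCompact B ∧ S ⊆ B ∧
        ∃ y, y ∈ K.G (p - 1) ∧ y ∈ N ∅ ∧ x - K.d y ∈ N B) ?_ ?_ ?_ ?_
      · exact ⟨∅, isCompact_empty, subset_rfl, 0, Submodule.zero_mem _, Submodule.zero_mem _,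
          by simpa using hx0⟩
      · rintro S T hST ⟨B, h1, h2, h3⟩
        exact ⟨B, h1, hST.trans h2, h3⟩
      · rintro S T ⟨B, h1, h2, y, y1, y2, y3⟩ ⟨C, h3, h4, z, z1, z2, z3⟩
        exact ⟨B ∪ C, h1.union h3, union_subset_union h2 h4,
          h.glue h1 h3 (ih (p - 1) (by omega) _ (h1.inter h3)) y1 y2 y3 z1 z2 z3⟩
      · intro a ha
        obtain ⟨y, y1, y2, y3⟩ := acyc_iff.1 (hpt a p) x hx hx0
          (h.anti _ _ (singleton_subset_iff.2 ha) hxA)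
        obtain ⟨U, hU, hxU⟩ := h.loc _ _ y3
        obtain ⟨F, hF, hFc, hFU⟩ := exists_mem_nhds_isClosed_subset hU
        refine ⟨A ∩ F, inter_mem_nhdsWithin _ hF, A ∩ F, hA.inter_right hFc, subset_rfl,
          y, y1, y2, h.anti _ _ (inter_subset_right.trans hFU) hxU⟩
    obtain ⟨B, _, hAB, y, y1, y2, y3⟩ := key
    exact ⟨y, y1, y2, h.anti _ _ hAB y3⟩

/-- mapping cone -/
def cone {K : Cx M} {K' : Cx M'} {T : M →ₗ[ℚ] M'} (hT : IsCh K K' T) : Cx (M × M') where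
  d := LinearMap.prod (-(K.d ∘ₗ LinearMap.fst ℚ M M'))
    (T ∘ₗ LinearMap.fst ℚ M M' + K'.d ∘ₗ LinearMap.snd ℚ M M')
  G p := (K.G (p + 1)).prod (K'.G p)
  dd x := by
    ext <;> simp [K.dd, K'.dd, hT.comm]
  dG p x hx := ⟨Submodule.neg_mem _ (K.dG _ _ hx.1),
    Submodule.add_mem _ (hT.deg _ _ hx.1) (K'.dG _ _ hx.2)⟩

theorem cone_d {K : Cx M} {K' : Cx M'} {T : M →ₗ[ℚ] M'} (hT : IsCh K K' T) (x : M) (y : M') :
    (cone hT).d (x, y) = (- K.d x, T x + K'.d y) := rfl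

theorem cone_G {K : Cx M} {K' : Cx M'} {T : M →ₗ[ℚ] M'} (hT : IsCh K K' T) (p : ℤ) (x : M)
    (y : M') : (x, y) ∈ (cone hT).G p ↔ x ∈ K.G (p + 1) ∧ y ∈ K'.G p := Iff.rfl

theorem cone_acyc_iff {K : Cx M} {K' : Cx M'} {T : M →ₗ[ℚ] M'} (hT : IsCh K K' T)
    {P Q : Submodule ℚ M} {P' Q' : Submodule ℚ M'} (hP : ∀ x ∈ P, T x ∈ P')
    (hQ : ∀ x ∈ Q, T x ∈ Q') (dP : ∀ x ∈ P, K.d x ∈ P) (dQ : ∀ x ∈ Q, K.d x ∈ Q)
    (dQ' : ∀ x ∈ Q', K'.d x ∈ Q') :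
    (∀ p, Subsingleton ((cone hT).H (P.prod P') (Q.prod Q') p)) ↔
      ∀ p, Function.Bijective (hmap hT hP hQ p) := by
  constructor
  · intro h p
    constructor
    · rw [injective_iff_map_eq_zero]
      intro a ha
      induction a using SQ.ind with | _ x hx
      have hx' := K.mem_Zc.1 hx
      obtain ⟨y, y1, y2, y3⟩ := K'.mem_Bc.1 (SQ.mk_eq_zero.1 ha)
      have y3' : T x - K'.d y ∈ P' := y3
      obtain ⟨⟨u, v⟩, u1, u2, u3⟩ := acyc_iff.1 (h (p - 1)) (x, -y)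
        ⟨by simpa using hx'.1, Submodule.neg_mem _ y1⟩ ⟨hx'.2.1, Submodule.neg_mem _ y2⟩
        ⟨Submodule.neg_mem _ hx'.2.2, by simpa [cone_d, sub_eq_add_neg] using y3'⟩
      refine SQ.mk_eq_zero.2 (K.mem_Bc.2 ⟨-u, Submodule.neg_mem _ ?_,
        Submodule.neg_mem _ u2.1, ?_⟩)
      · simpa using u1.1
      · simpa [cone_d] using u3.1
    · intro b
      induction b using SQ.ind with | _ y hy
      have hy' := K'.mem_Zc.1 hy
      obtain ⟨⟨u, v⟩, u1, u2, u3⟩ := acyc_iff.1 (h p) (0, y)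
        ⟨Submodule.zero_mem _, hy'.1⟩ ⟨Submodule.zero_mem _, hy'.2.1⟩
        ⟨by simp [cone_d], by simpa [cone_d] using hy'.2.2⟩
      refine ⟨SQ.mk _ u (K.mem_Zc.2 ⟨by simpa using u1.1, u2.1, by simpa [cone_d] using u3.1⟩), ?_⟩
      refine SQ.mk_eq_mk.2 (K'.mem_Bc.2 ⟨-v, Submodule.neg_mem _ u1.2,
        Submodule.neg_mem _ u2.2, ?_⟩)
      have h2 : y - (T u + K'.d v) ∈ P' := u3.2
      have := P'.neg_mem h2
      change T u - y - K'.d (-v) ∈ P'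
      convert this using 1
      rw [map_neg]; abel
  · intro h p
    refine acyc_iff.2 ?_
    rintro ⟨x, y⟩ ⟨g1, g2⟩ ⟨q1, q2⟩ ⟨p1, p2⟩
    have p1' : K.d x ∈ P := by simpa [cone_d] using p1
    have p2' : T x + K'.d y ∈ P' := p2
    have hx : x ∈ K.Zc P Q (p + 1) := K.mem_Zc.2 ⟨g1, q1, p1'⟩
    have h0 : SQ.mk (K.Bc P Q (p + 1)) x hx = 0 := by
      apply (h (p + 1)).1
      rw [map_zero]
      refine SQ.mk_eq_zero.2 (K'.mem_Bc.2 ⟨-y, Submodule.neg_mem _ (by simpa using g2),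
        Submodule.neg_mem _ q2, ?_⟩)
      change T x - K'.d (-y) ∈ P'
      simpa using p2'
    obtain ⟨u, u1, u2, u3⟩ := K.mem_Bc.1 (SQ.mk_eq_zero.1 h0)
    rw [add_sub_cancel_right] at u1
    have hz : y + T u ∈ K'.Zc P' Q' p := by
      refine K'.mem_Zc.2 ⟨Submodule.add_mem _ g2 (hT.deg _ _ u1),
        Submodule.add_mem _ q2 (hQ _ u2), ?_⟩
      have := P'.sub_mem p2' (hP _ u3)
      convert this using 1
      rw [map_add, hT.comm, map_sub]; abel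
    obtain ⟨c, hc⟩ := (h p).2 (SQ.mk _ _ hz)
    induction c using SQ.ind with | _ w hw
    have hw' := K.mem_Zc.1 hw
    obtain ⟨v, v1, v2, v3⟩ := K'.mem_Bc.1 (SQ.mk_eq_mk.1 hc)
    have v3' : T w - (y + T u) - K'.d v ∈ P' := v3
    refine ⟨(w - u, -v), ⟨by simpa using Submodule.sub_mem _ hw'.1 u1, Submodule.neg_mem _ v1⟩,
      ⟨Submodule.sub_mem _ hw'.2.1 u2, Submodule.neg_mem _ v2⟩, ?_, ?_⟩
    · have := P.add_mem u3 hw'.2.2
      change x - (- K.d (w - u)) ∈ P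
      convert this using 1
      rw [map_sub]; abel
    · have := P'.neg_mem v3'
      change y - (T (w - u) + K'.d (-v)) ∈ P'
      convert this using 1
      rw [map_sub, map_neg]; abel

theorem Loc.cone {K : Cx M} {K' : Cx M'} {T : M →ₗ[ℚ] M'} (hT : IsCh K K' T)
    {N : Set X → Submodule ℚ M} {N' : Set X → Submodule ℚ M'} (h : Loc K N) (h' : Loc K' N')
    (hN : ∀ A, ∀ x ∈ N A, T x ∈ N' A) : Loc (cone hT) (fun A => (N A).prod (N' A)) where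
  dN A x hx := ⟨Submodule.neg_mem _ (h.dN _ _ hx.1),
    Submodule.add_mem _ (hN _ _ hx.1) (h'.dN _ _ hx.2)⟩
  anti A B hAB x hx := ⟨h.anti _ _ hAB hx.1, h'.anti _ _ hAB hx.2⟩
  union A B x h1 h2 := ⟨h.union _ _ _ h1.1 h2.1, h'.union _ _ _ h1.2 h2.2⟩
  inter A B hA hB p x hx hx' := by
    obtain ⟨a, a1, a2, a3⟩ := h.inter A B hA hB _ _ hx.1 hx'.1
    obtain ⟨b, b1, b2, b3⟩ := h'.inter A B hA hB _ _ hx.2 hx'.2
    exact ⟨(a, b), ⟨a1, b1⟩, ⟨a2, b2⟩, ⟨a3, b3⟩⟩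
  loc a x hx := by
    obtain ⟨U, hU, h1⟩ := h.loc _ _ hx.1
    obtain ⟨V, hV, h2⟩ := h'.loc _ _ hx.2
    exact ⟨U ∩ V, Filter.inter_mem hU hV, h.anti _ _ inter_subset_left h1,
      h'.anti _ _ inter_subset_right h2⟩
  low := by
    obtain ⟨a, ha⟩ := h.low
    obtain ⟨b, hb⟩ := h'.low
    refine ⟨min (a - 1) b, fun p hp x hx => Prod.ext (ha (p + 1) (by omega) _ hx.1)
      (hb p (by omega) _ hx.2)⟩

/-- a local quasi-isomorphism is a global one -/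
theorem Loc.bij [T3Space X] {K : Cx M} {K' : Cx M'} {T : M →ₗ[ℚ] M'} (hT : IsCh K K' T)
    {N : Set X → Submodule ℚ M} {N' : Set X → Submodule ℚ M'} (h : Loc K N) (h' : Loc K' N')
    (hN : ∀ A, ∀ x ∈ N A, T x ∈ N' A)
    (hpt : ∀ a p, Function.Bijective (hmap hT (hN {a}) (hN ∅) p)) (A : Set X) (hA : IsCompact A)
    (p : ℤ) : Function.Bijective (hmap hT (hN A) (hN ∅) p) := by
  refine (cone_acyc_iff hT (hN A) (hN ∅) (h.dN _) (h.dN _) (h'.dN _)).1 (fun q => ?_) p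
  refine (h.cone hT h' hN).acyc (fun a r => ?_) q A hA
  exact (cone_acyc_iff hT (hN {a}) (hN ∅) (h.dN _) (h.dN _) (h'.dN _)).2 (hpt a) r

end Cx

end Pool.Agent.Work.MP_6b5a33_co
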