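import Pool.Agent.Work.MP_6b5a33_co.Count
import Mathlib.Algebra.DualNumber
import Mathlib.NumberTheory.Divisors
import Mathlib.GroupTheory.Perm.Cycle.Type

/-! Normalised recursions. -/

namespace Pool.Agent.Work.MP_6b5a33_co

open Finset

theorem sum_Ioc_range {M : Type} [AddCommMonoid M] (f : ℕ → M) (n : ℕ) :
    ∑ k ∈ Ioc 0 n, f k = ∑ k ∈ range n, f (k + 1) := by
  induction n with
  | zero => simp
  | succ n ih => rw [sum_Ioc_succ_top (Nat.zero_le n), ih, sum_range_succ]

section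
variable {R : Type} [CommRing R] [Algebra ℚ R] (m y : R)

/-- normalised total weight -/
noncomputable def ea (n : ℕ) : R := (n.factorial : ℚ)⁻¹ • AA m y (Fin n)

/-- normalised one-block weight -/
noncomputable def fa (n : ℕ) : R := (n.factorial : ℚ)⁻¹ • Ph m (Fin n)

theorem recur' (n : ℕ) : (n : ℚ) • ea m y n = ∑ k ∈ Ioc 0 n,
    (∑ p ∈ k.divisorsAntidiagonal, (p.2 : ℚ) • (y ^ p.1 * fa m p.2)) * ea m y (n - k) := by
  let g : ℕ × ℕ → R := fun p => (p.2 : ℚ) • (y ^ p.1 * fa m p.2) * ea m y (n - p.1 * p.2)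
  have e1 : (n : ℚ) • ea m y n =
      ∑ p ∈ (Ioc 0 n ×ˢ Ioc 0 n).filter fun p => p.1 * p.2 ≤ n, g p := by
    rw [ea, smul_comm, recur, sum_filter, sum_product, sum_Ioc_range, smul_sum]
    refine sum_congr rfl fun d _ => ?_
    rw [sum_Ioc_range, sum_range_succ', smul_add, smul_sum]
    simp only [Nat.cast_zero, zero_div, mul_zero, zero_smul, smul_zero, add_zero]
    refine sum_congr rfl fun N _ => ?_
    split_ifs with h
    · simp only [g, ea, fa, mul_smul_comm, smul_mul_assoc, smul_smul]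
      congr 1
      rw [← Nat.factorial_mul_descFactorial h]
      have h1 : (n.descFactorial ((d + 1) * (N + 1)) : ℚ) ≠ 0 := by
        exact_mod_cast fun h' => (Nat.descFactorial_eq_zero_iff_lt.1 h').not_ge h
      have h2 : ((n - (d + 1) * (N + 1)).factorial : ℚ) ≠ 0 := by positivity
      push_cast
      field_simp
    · rw [Nat.descFactorial_eq_zero_iff_lt.2 (not_le.1 h)]; simp
  rw [e1, ← sum_fiberwise_of_maps_to (t := Ioc 0 n) (g := fun p => p.1 * p.2) fun p hp => by
    simp only [mem_filter, mem_product, mem_Ioc] at hp ⊢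
    exact ⟨Nat.mul_pos hp.1.1.1 hp.1.2.1, hp.2⟩]
  refine sum_congr rfl fun k hk => ?_
  rw [mem_Ioc] at hk
  rw [Nat.divisorsAntidiagonal_eq_prod_filter_of_le hk.1.ne' hk.2, sum_mul, filter_filter]
  refine sum_congr (filter_congr fun p _ => ⟨fun h => h.2, fun h => ⟨h ▸ hk.2, h⟩⟩) fun p hp => ?_
  simp only [g, (mem_filter.1 hp).2]

end

variable {A : Type} [CommRing A] [Algebra ℚ A] (M : A)

/-- normalised characteristic polynomial -/
noncomputable def pa (n : ℕ) : A :=
  (n.factorial : ℚ)⁻¹ • ∑ σ : Equiv.Perm (Fin n), lam σ ⊤ • cyc M σ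

open Classical in
/-- the same, weighted by the number of blocks -/
noncomputable def pb (n : ℕ) : A := (n.factorial : ℚ)⁻¹ • ∑ σ : Equiv.Perm (Fin n),
  (∑ π with Inv σ π, wt σ π * Nat.card (Quotient π)) • cyc M σ

open Classical in
theorem lam_top {I : Type} [Fintype I] [DecidableEq I] (σ : Equiv.Perm I) :
    lam σ ⊤ = ∑ π with Inv σ π, wt σ π :=
  sum_congr (filter_congr fun _ _ => and_iff_right le_top) fun _ _ => rfl

open TrivSqZeroExt DualNumber

theorem cyc_inl {I : Type} [Fintype I] [DecidableEq I] (σ : Equiv.Perm I) :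
    cyc (inl M : DualNumber A) σ = inl (cyc M σ) := by
  rw [cyc, cyc, QP_const, QP_const, inl_pow]

theorem fa_inl (n : ℕ) : fa (inl M : DualNumber A) n = inl (fa M n) := by
  simp only [fa, Ph, cyc_inl, inl_smul, inl_sum]

theorem fst_ea (n : ℕ) : (ea (inl M : DualNumber A) (1 + ε) n).fst = pa M n := by
  simp [ea, AA, Fw, pa, lam_top, cyc_inl, QP_const, fst_sum, sum_smul]

theorem snd_ea (n : ℕ) : (ea (inl M : DualNumber A) (1 + ε) n).snd = pb M n := by
  simp only [ea, AA, Fw, pb, cyc_inl, QP_const, snd_sum, sum_smul, snd_smul, DualNumber.snd_mul,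
    snd_pow, mul_smul, Nat.cast_smul_eq_nsmul]
  simp [mul_comm]

theorem rec_a (n : ℕ) : (n : ℚ) • pa M n = ∑ k ∈ Ioc 0 n,
    (∑ N ∈ k.divisors, (N : ℚ) • fa M N) * pa M (n - k) := by
  have := congrArg fst (recur' (inl M : DualNumber A) (1 + ε) n)
  simp only [fst_smul, fst_ea, fst_sum, fst_mul, fa_inl] at this
  rw [this]
  refine sum_congr rfl fun k _ => ?_
  rw [← Nat.sum_divisorsAntidiagonal' (fun _ N => (N : ℚ) • fa M N)]
  simp

theorem rec_b (n : ℕ) : (n : ℚ) • pb M n = ∑ k ∈ Ioc 0 n,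
    ((∑ N ∈ k.divisors, (N : ℚ) • fa M N) * pb M (n - k) +
      (∑ N ∈ k.divisors, (k : ℚ) • fa M N) * pa M (n - k)) := by
  have := congrArg snd (recur' (inl M : DualNumber A) (1 + ε) n)
  simp only [snd_smul, fst_smul, fst_ea, snd_ea, fst_sum, snd_sum, fst_mul, DualNumber.snd_mul,
    fa_inl] at this
  rw [this]
  refine sum_congr rfl fun k _ => ?_
  rw [← Nat.sum_divisorsAntidiagonal' (fun _ N => (N : ℚ) • fa M N),
    ← Nat.sum_divisorsAntidiagonal' (fun _ N => (k : ℚ) • fa M N)]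
  congr 2
  · simp
  · refine sum_congr rfl fun p hp => ?_
    rw [← (Nat.mem_divisorsAntidiagonal.1 hp).1]
    simp [snd_pow, mul_smul, Algebra.smul_def]
    ring

theorem pb_eq {n : ℕ} (hn : 2 ≤ n) : pb M n = (2 : ℚ) • pa M n := by
  classical
  rw [pa, pb, smul_comm (2 : ℚ), smul_sum (r := (2 : ℚ))]
  congr 1
  refine sum_congr rfl fun σ _ => ?_
  rw [smul_smul]
  congr 1
  have e : ∀ i : Fin n, blk ⊤ i = univ := fun i => eq_univ_of_forall fun j => mem_blk.2 trivial
  have h : ∀ ρ, nu σ ⊤ ρ = (Nat.card (Quotient ρ) : ℚ) - 1 := fun ρ => by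
    rw [nu, QP_single ⟨0, by omega⟩ (fun a b _ => by rw [e, e]) fun k => Or.inr (by
      change Equiv.Perm.SameCycle _ _ _
      rw [e, e])]
    simp [e, fac, hn, cnt_univ]
  have := wt_sum (inv_top σ)
  rw [filter_congr fun _ _ => and_iff_right le_top] at this
  simp only [h, mul_sub, sum_sub_distrib, mul_one] at this
  rw [lam_top]
  linarith

theorem pa_zero : pa M 0 = 1 := by
  have : (⊤ : Setoid (Fin 0)) = ⊥ := Setoid.ext fun a => a.elim0
  have e : ∀ σ : Equiv.Perm (Fin 0), lam σ ⊤ = 1 := fun σ => by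
    rw [this, lam, sum_le_split (inv_bot _), wt_bot]; simp
  simp [pa, e, cyc, QP_const]

theorem pb_zero : pb M 0 = 0 := by
  simp [pb]

theorem fa_one : fa M 1 = M := by
  have : (⊤ : Setoid (Fin 1)) = ⊥ := Setoid.ext fun a b => iff_of_true trivial
    (Subsingleton.elim a b)
  simp only [fa, Ph, this, wt_bot, cyc]
  have e : ∀ ρ : Setoid (Fin 1), QP ρ (fun _ => M) = M := fun ρ =>
    QP_single (0 : Fin 1) (fun _ _ _ => rfl) fun k => Or.inr (by rw [Subsingleton.elim k 0])
  simp [e]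

theorem cyc_eq {I R : Type} [Fintype I] [DecidableEq I] [CommRing R] (m : R) (σ : Equiv.Perm I) :
    cyc m σ = m ^ σ.partition.parts.card := by
  have : ∀ c : σ.cycleFactorsFinset, ∃ x, x ∈ c.1.support := fun c =>
    (Equiv.Perm.mem_cycleFactorsFinset_iff.1 c.2).1.nonempty_support
  choose r hr using this
  have hs : ∀ c, r c ∈ σ.support := fun c =>
    Equiv.Perm.mem_cycleFactorsFinset_support_le c.2 (hr c)
  rw [cyc, QP_eq (J := σ.cycleFactorsFinset ⊕ (σ.supportᶜ : Finset I)) (Sum.elim r Subtype.val) ?_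
    (fun _ _ _ => rfl) fun k => Or.inr ?_]
  · rw [prod_const, card_univ, Fintype.card_sum, Fintype.card_coe, Fintype.card_coe, card_compl]
    simp [Equiv.Perm.parts_partition, Equiv.Perm.cycleType_def]
  · rintro (a | a) (b | b) (h : σ.SameCycle _ _)
    · congr 1
      refine Subtype.ext ?_
      rw [Equiv.Perm.cycle_is_cycleOf (hr a) a.2, Equiv.Perm.cycle_is_cycleOf (hr b) b.2]
      exact Equiv.Perm.SameCycle.cycleOf_eq (x := r a) (y := r b) h
    · have : r a = b := h.eq_of_right (Equiv.Perm.notMem_support.1 (mem_compl.1 b.2))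
      exact absurd (this ▸ hs a) (mem_compl.1 b.2)
    · have : r b = a := h.symm.eq_of_right (Equiv.Perm.notMem_support.1 (mem_compl.1 a.2))
      exact absurd (this ▸ hs b) (mem_compl.1 a.2)
    · congr 1
      exact Subtype.ext (h.eq_of_right (Equiv.Perm.notMem_support.1 (mem_compl.1 b.2)))
  · by_cases hk : k ∈ σ.support
    · have h1 := Equiv.Perm.cycleOf_mem_cycleFactorsFinset_iff.2 hk
      exact ⟨Sum.inl ⟨_, h1⟩, (Equiv.Perm.mem_support_cycleOf_iff.1 (hr ⟨_, h1⟩)).1⟩
    · exact ⟨Sum.inr ⟨k, mem_compl.2 hk⟩, Equiv.Perm.SameCycle.refl _ _⟩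

end Pool.Agent.Work.MP_6b5a33_co
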