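import Pool.Agent.Work.MP_6b5a33_co.Chk
import Pool.Agent.Work.MP_6b5a33_co.Rec
import Mathlib.Algebra.Polynomial.Coeff

/-! The coefficients agree with the tables. -/

namespace Pool.Agent.Work.MP_6b5a33_co

open Finset Polynomial

/-- rescaled variable -/
noncomputable def MX : ℚ[X] := C (cc : ℚ) * X

theorem tB_zero (j : ℕ) : tB j 0 = 0 := rfl
theorem tB_one (j : ℕ) : tB j 1 = tA j 1 := rfl
theorem tB_two (j n : ℕ) : tB j (n + 2) = 2 * tA j (n + 2) := rfl

theorem tables (n : ℕ) (hn : n ≤ 120) : ∀ j < 4, (pa MX n).coeff j = tA j n ∧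
    (pb MX n).coeff j = tB j n ∧ (0 < n → (fa MX n).coeff j = tF j n) := by
  induction n using Nat.strong_induction_on with | _ n ih
  rcases n.eq_zero_or_pos with rfl | h0
  · intro j hj
    rw [pa_zero, pb_zero, (chk4 j (mem_range.2 hj)).1, tB_zero, coeff_one]
    simp
  have mem : ∀ k, 0 < k → k ≤ n → k ∈ Ioc 0 120 := fun k h1 h2 => mem_Ioc.2 ⟨h1, h2.trans hn⟩
  let δ : ℕ → ℚ := fun j => (fa MX n).coeff j - tF j n
  have hf : ∀ k, 0 < k → k ≤ n → ∀ N ∈ k.divisors, ∀ j < 4,
      (fa MX N).coeff j = tF j N + if N = n then δ j else 0 := fun k h1 h2 N hN j hj => by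
    split_ifs with h
    · simp [δ, h]
    · have := (Nat.divisor_le hN).trans h2
      rw [(ih N (by omega) (by omega) j hj).2.2 (Nat.pos_of_mem_divisors hN), add_zero]
  have hs : ∀ (c : ℕ → ℚ) (k : ℕ), 0 < k → k ≤ n → ∀ j < 4,
      (∑ N ∈ k.divisors, c N • fa MX N).coeff j =
        ∑ N ∈ k.divisors, c N * tF j N + if k = n then c n * δ j else 0 := by
    intro c k h1 h2 j hj
    rw [finset_sum_coeff, sum_congr rfl fun N hN => by
      rw [coeff_smul, hf k h1 h2 N hN j hj, smul_eq_mul, mul_add, mul_ite, mul_zero],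
      sum_add_distrib, sum_ite_eq']
    congr 1
    refine if_congr ⟨fun h => h2.antisymm (Nat.divisor_le h), ?_⟩ rfl rfl
    rintro rfl
    exact Nat.mem_divisors_self _ h1.ne'
  have hT : ∀ k, 0 < k → k ≤ n → ∀ j < 4, (∑ N ∈ k.divisors, (N : ℚ) • fa MX N).coeff j =
      tT j k + if k = n then n * δ j else 0 := fun k h1 h2 j hj => by
    rw [hs _ k h1 h2 j hj, (chk1 k (mem k h1 h2) j (mem_range.2 hj)).1]; push_cast; rfl
  have hU : ∀ k, 0 < k → k ≤ n → ∀ j < 4, (∑ N ∈ k.divisors, (k : ℚ) • fa MX N).coeff j =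
      tU j k + if k = n then n * δ j else 0 := fun k h1 h2 j hj => by
    rw [hs _ k h1 h2 j hj, (chk1 k (mem k h1 h2) j (mem_range.2 hj)).2]
    push_cast
    congr 1
    split_ifs with h
    · rw [h]
    · rfl
  have gen : ∀ (P Q : ℕ → ℚ[X]) (s t : ℕ → ℕ → ℤ),
      (∀ k, 0 < k → k ≤ n → ∀ j < 4, (P k).coeff j = s j k + if k = n then n * δ j else 0) →
      (∀ k < n, ∀ j < 4, (Q k).coeff j = t j k) → ∀ j < 4,
      ∑ k ∈ Ioc 0 n, (P k * Q (n - k)).coeff j =
        (∑ k ∈ Ioc 0 n, ∑ q ∈ antidiagonal j, s q.1 k * t q.2 (n - k) : ℤ) +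
          ∑ q ∈ antidiagonal j, n * δ q.1 * t q.2 0 := by
    intro P Q s t hP hQ j hj
    have : ∀ k ∈ Ioc 0 n, (P k * Q (n - k)).coeff j =
        ∑ q ∈ antidiagonal j, (s q.1 k : ℚ) * t q.2 (n - k) +
          if k = n then ∑ q ∈ antidiagonal j, n * δ q.1 * t q.2 0 else 0 := fun k hk => by
      rw [mem_Ioc] at hk
      rw [coeff_mul, sum_congr rfl fun q hq => by
        rw [hP k hk.1 hk.2 q.1 (by have := mem_antidiagonal.1 hq; omega),
          hQ (n - k) (by omega) q.2 (by have := mem_antidiagonal.1 hq; omega), add_mul],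
        sum_add_distrib]
      congr 1
      split_ifs with h
      · rw [h, Nat.sub_self]
      · simp
    rw [sum_congr rfl this, sum_add_distrib, sum_ite_eq', if_pos (mem_Ioc.2 ⟨h0, le_rfl⟩)]
    push_cast; rfl
  have iA : ∀ k < n, ∀ j < 4, (pa MX k).coeff j = tA j k := fun k hk j hj =>
    (ih k hk (by omega) j hj).1
  have iB : ∀ k < n, ∀ j < 4, (pb MX k).coeff j = tB j k := fun k hk j hj =>
    (ih k hk (by omega) j hj).2.1
  intro j hj
  have z : ∑ q ∈ antidiagonal j, n * δ q.1 * tA q.2 0 = n * δ j := by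
    rw [sum_eq_single (j, 0) (fun q hq h => by
      rw [(chk4 q.2 (mem_range.2 (by have := mem_antidiagonal.1 hq; omega))).1, if_neg fun h' => h
        (Prod.ext (by simpa [h'] using mem_antidiagonal.1 hq) h')]
      simp) (by simp), (chk4 0 (by simp)).1]
    simp
  have n0 : (n : ℚ) ≠ 0 := by positivity
  have ea : (pa MX n).coeff j = tA j n + δ j := by
    have := congrArg (·.coeff j) (rec_a MX n)
    simp only [coeff_smul, finset_sum_coeff] at this
    rw [gen _ _ tT tA hT iA j hj, ← chk2 n (mem n h0 le_rfl) j (mem_range.2 hj), z] at this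
    push_cast at this
    exact mul_left_cancel₀ n0 (by rw [mul_add, ← this, smul_eq_mul])
  have eb : (pb MX n).coeff j = tB j n + δ j := by
    have := congrArg (·.coeff j) (rec_b MX n)
    simp only [coeff_smul, finset_sum_coeff, coeff_add, sum_add_distrib] at this
    have c := chk3 n (mem n h0 le_rfl) j (mem_range.2 hj)
    rw [sum_add_distrib] at c
    rw [gen _ _ tT tB hT iB j hj, gen _ _ tU tA hU iA j hj, z] at this
    simp only [tB_zero, Int.cast_zero, mul_zero, sum_const_zero, add_zero] at this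
    rw [← add_assoc, ← Int.cast_add, ← c] at this
    push_cast at this
    exact mul_left_cancel₀ n0 (by rw [mul_add, ← this, smul_eq_mul])
  have d0 : δ j = 0 := by
    obtain rfl | ⟨n, rfl⟩ : n = 1 ∨ ∃ k, n = k + 2 := by
      rcases n with _ | _ | n
      · omega
      · exact Or.inl rfl
      · exact Or.inr ⟨n, rfl⟩
    · simp only [δ, fa_one, MX, (chk4 j (mem_range.2 hj)).2, coeff_C_mul, coeff_X]
      rcases eq_or_ne j 1 with rfl | h
      · simp
      · simp [h, h.symm]
    · rw [pb_eq MX (by omega), coeff_smul, ea, tB_two] at eb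
      push_cast at eb
      simp only [smul_eq_mul] at eb
      linarith
  rw [ea, eb, d0, add_zero, add_zero]
  exact ⟨rfl, rfl, fun _ => sub_eq_zero.1 d0⟩

theorem pa_scale (n j : ℕ) : (pa MX n).coeff j = (cc : ℚ) ^ j * (pa (X : ℚ[X]) n).coeff j := by
  simp only [pa, cyc_eq, MX, mul_pow, ← C_pow, coeff_smul, finset_sum_coeff, coeff_C_mul,
    coeff_X_pow, smul_eq_mul, mul_sum]
  refine sum_congr rfl fun σ _ => ?_
  split_ifs with h
  · rw [h]; ring
  · simp

theorem final_ineq : (pa (X : ℚ[X]) 120).coeff 2 ^ 2 <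
    (pa (X : ℚ[X]) 120).coeff 1 * (pa (X : ℚ[X]) 120).coeff 3 := by
  have h : ((tA 2 120 : ℤ) : ℚ) ^ 2 < tA 1 120 * tA 3 120 := by exact_mod_cast chk5
  rw [← (tables 120 le_rfl 1 (by norm_num)).1, ← (tables 120 le_rfl 2 (by norm_num)).1,
    ← (tables 120 le_rfl 3 (by norm_num)).1, pa_scale, pa_scale, pa_scale] at h
  have c : (0 : ℚ) < (cc : ℚ) ^ 4 := by
    have : (0 : ℚ) < cc := by exact_mod_cast (by decide : (0 : ℤ) < cc)
    positivity
  refine lt_of_mul_lt_mul_left ?_ c.le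
  linarith

end Pool.Agent.Work.MP_6b5a33_co
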