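import Pool.Agent.Work.MP_6b5a33_co.Defs
import Pool.Agent.Work.MP_6b5a33_co.Cell

/-! Comparison of cochains on tuples with cochains on lists. -/

namespace Pool.Agent.Work.MP_6b5a33_co

open Topology Set

variable {X : Type}

theorem D_ofFn (n : ℕ) : ∀ (φ : Co X) (x : Fin (n + 1) → X), D φ (List.ofFn x) =
    ∑ i : Fin (n + 1), (-1) ^ (i : ℕ) * φ (List.ofFn fun j => x (i.succAbove j)) := by
  induction n with
  | zero => intro φ x; simp [D_cons]
  | succ n ih =>
    intro φ x
    rw [List.ofFn_succ, D_cons, ih, Fin.sum_univ_succ (n := n + 1), sub_eq_add_neg,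
      ← Finset.sum_neg_distrib]
    congr 1
    · simp
    · refine Finset.sum_congr rfl fun i _ => ?_
      rw [List.ofFn_succ (f := fun j => x (i.succ.succAbove j))]
      simp [pow_succ]

/-- lists to tuples -/
def toT (p : ℕ) : Co X →ₗ[ℚ] Cochain X p where
  toFun φ x := φ (List.ofFn x)
  map_add' _ _ := rfl
  map_smul' _ _ := rfl

theorem toT_D (p : ℕ) (φ : Co X) : toT (p + 1) (D φ) = cobd X p (toT p φ) :=
  funext fun x => D_ofFn (p + 1) φ x

theorem toT_surj (p : ℕ) (ψ : Cochain X p) : ∃ φ ∈ (cx X).G p, toT p φ = ψ := by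
  refine ⟨fun l => if h : l.length = p + 1 then ψ fun i => l.get (i.cast h.symm) else 0,
    ⟨fun l hl => ?_, mem_Z0.2 (dif_neg (by simp))⟩, funext fun x => ?_⟩
  · by_contra hc
    exact hl (dif_neg fun h => hc (by rw [h]; push_cast; rfl))
  · change (if h : (List.ofFn x).length = p + 1 then _ else _) = _
    rw [dif_pos List.length_ofFn]
    simp only [List.get_ofFn]
    rfl

variable [TopologicalSpace X]

theorem toT_N {p : ℕ} {φ : Co X} (h : φ ∈ N (univ : Set X)) : toT p φ ∈ locZero X p := fun a =>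
  let ⟨U, hU, h1⟩ := h a trivial
  ⟨U, hU, fun x hx => h1 _ fun y hy => by
    obtain ⟨i, rfl⟩ := List.mem_ofFn.1 hy
    exact hx i⟩

theorem N_toT {p : ℕ} {φ : Co X} (g : φ ∈ (cx X).G p) (h : toT p φ ∈ locZero X p) :
    φ ∈ N (univ : Set X) := fun a _ => by
  obtain ⟨U, hU, h1⟩ := h a
  refine ⟨U, hU, fun l hl => ?_⟩
  by_contra hc
  have e : l.length = p + 1 := by exact_mod_cast g.1 l hc
  have := h1 (fun i => l.get (i.cast e.symm)) fun i => hl _ (List.get_mem _ _)
  refine hc (Eq.trans ?_ this)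
  change _ = φ _
  congr 1
  exact List.ext_getElem (by simp [e]) fun _ _ _ => by rw [List.getElem_ofFn]; rfl

/-- comparison map -/
def cmpH (p : ℕ) : HH (univ : Set X) ∅ p →ₗ[ℚ] ASH X p :=
  SQ.map (toT p) (fun φ h => by
    have := toT_N (p := p + 1) ((cx X).mem_Zc.1 h).2.2
    rwa [show (cx X).d φ = D φ from rfl, toT_D] at this) fun φ _ h0 => by
    obtain ⟨y, g, -, h⟩ := (cx X).mem_Bc.1 h0
    cases p with
    | zero =>
      rw [cx_low _ (by simp) y g, map_zero, sub_zero] at h
      exact toT_N h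
    | succ p => exact Submodule.mem_sup.2 ⟨_, toT_N h, _, ⟨toT p y, rfl⟩, by
        rw [← toT_D, ← map_add]; exact congrArg _ (sub_add_cancel _ _)⟩

theorem cmpH_bij (p : ℕ) : Function.Bijective (cmpH (X := X) p) := by
  constructor
  · rw [injective_iff_map_eq_zero]
    intro x hx
    induction x using SQ.ind with | _ φ hφ
    have g := ((cx X).mem_Zc.1 hφ).1
    have h : toT p φ ∈ cobdry X p := (SQ.mk_eq_zero (Z := cocyc X p)).1 hx
    refine SQ.mk_eq_zero.2 ((cx X).mem_Bc.2 ?_)
    cases p with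
    | zero => exact ⟨0, Submodule.zero_mem _, N_empty _, by simpa using N_toT g h⟩
    | succ p =>
      obtain ⟨a, ha, _, ⟨b, rfl⟩, e⟩ := Submodule.mem_sup.1 h
      obtain ⟨y, gy, rfl⟩ := toT_surj p b
      refine ⟨y, by simpa using gy, N_empty _, N_toT (p := p + 1)
        (Submodule.sub_mem _ g ((cx X).dG _ _ gy)) ?_⟩
      change toT (p + 1) (φ - D y) ∈ _
      rwa [map_sub, toT_D, ← e, add_sub_cancel_right]
  · intro x
    induction x using SQ.ind (Z := cocyc X p) with | _ ψ hψ
    obtain ⟨φ, g, rfl⟩ := toT_surj p ψ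
    refine ⟨SQ.mk _ φ ((cx X).mem_Zc.2 ⟨g, N_empty _, N_toT (p := p + 1) ((cx X).dG _ _ g) ?_⟩),
      rfl⟩
    change toT (p + 1) (D φ) ∈ _
    rwa [toT_D]

theorem trace_pullH (f : C(X, X)) (p : ℕ) : LinearMap.trace ℚ _ (pullH f p) =
    LinearMap.trace ℚ _ (hm f.continuous (mapsTo_univ f univ) (mapsTo_empty f ∅) p) := by
  refine (trace_of_bij _ (cmpH_bij p) _ _ fun x => ?_).symm
  induction x using SQ.ind with | _ φ hφ
  refine (SQ.mk_eq_mk (Z := cocyc X p)).2 ?_
  have : toT p (pull f φ) = pullC f p (toT p φ) := funext fun x => by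
    change φ _ = φ _
    rw [List.map_ofFn]; rfl
  change toT p (pull f φ) - pullC f p (toT p φ) ∈ _
  rw [this, sub_self]; exact Submodule.zero_mem _

theorem sum_trace [T3Space X] [CompactSpace X] (f : C(X, X)) (D : ℕ)
    (h : Vn (Sup (D - 1)) (univ : Set X)) :
    ∑ k ∈ Finset.range D, LinearMap.trace ℚ _ (pullH f (2 * k)) = Lef f univ := by
  rw [pr_lef isCompact_univ isCompact_empty (empty_subset _) diff_empty
    ⟨f.continuous, fun _ => Iff.rfl⟩ (mapsTo_univ f univ) (mapsTo_empty f ∅), Cx.lef,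
    finsum_eq_sum_of_support_subset _ (s := (Finset.range D).image fun k : ℕ => ((2 * k : ℕ) : ℤ)),
    Finset.sum_image fun a _ b _ h => by omega]
  · refine Finset.sum_congr rfl fun k _ => ?_
    rw [trace_pullH, Int.negOnePow_even _ (by simp)]
    simp
  · intro p hp
    by_contra hc
    refine hp ?_
    have : Subsingleton (HH (univ : Set X) ∅ p) := by
      by_cases h0 : p < 0
      · exact HH_low _ _ p h0
      refine (pr_sub isCompact_univ isCompact_empty (empty_subset _) diff_empty p).1 (h p ?_)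
      rcases Int.even_or_odd p with ⟨k, hk⟩ | ho
      · refine Or.inr (not_le.1 fun h' => hc ?_)
        simp only [Finset.coe_image, Finset.coe_range, mem_image, mem_Iio]
        exact ⟨k.toNat, by omega, by omega⟩
      · exact Or.inl ho
    simp only [trace_of_subsingleton, mul_zero]

end Pool.Agent.Work.MP_6b5a33_co
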