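import Pool.Agent.Work.MP_6b5a33_co.Graph
import Pool.Agent.Work.MP_6b5a33_co.Even
import Pool.Agent.Work.MP_6b5a33_co.Tup
import Pool.Agent.Work.MP_6b5a33_co.Num

/-! Assembly. -/

namespace Pool.Agent.Work.MP_6b5a33_co

open Topology Set Module Polynomial

variable {I : Type} [Fintype I] [DecidableEq I]

theorem pres_of_maps {X : Type} [TopologicalSpace X] {f g : X → X} {U : Set X} (hf : Continuous f)
    (h : ∀ x, g (f x) = x) (h1 : MapsTo f U U) (h2 : MapsTo g U U) : Pres f U :=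
  ⟨hf, fun x => ⟨fun hx => h x ▸ h2 hx, fun hx => h1 hx⟩⟩

/-- relabelling on the ambient product -/
abbrev rl {ι : Type} (σ : Equiv.Perm ι) (x : (Fin 4 ↪ ι) → OnePoint ℂ) (q : Fin 4 ↪ ι) :
    OnePoint ℂ := x (q.trans σ.toEmbedding)

theorem rl_inv {ι : Type} (σ : Equiv.Perm ι) (x : (Fin 4 ↪ ι) → OnePoint ℂ) :
    rl σ.symm (rl σ x) = x := by
  funext q
  exact congrArg x (Function.Embedding.ext fun i => by simp)

theorem ac_scr (σ : Equiv.Perm I) (w : I → ℂ) : ac σ (scr w) = scr (w ∘ σ) := by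
  funext S
  by_cases hS : S ∈ Gs ⊤
  · have : Lp (σ.prodCongr σ) (res (σ.finsetCongr S) (dvec w)) = res S (dvec (w ∘ σ)) := by
      ext p
      simp [Lp_apply, res_apply, dvec_apply]
    rw [scr, scr, mat_pos _ hS, ← this, pr_Lp]
    funext p q
    exact congrFun (congrFun (mat_pos _ (((inv_top σ).gs S).2 hS)) _) _
  · rw [scr, scr, mat_neg _ hS]
    funext p q
    exact congrFun (congrFun (mat_neg _ (mt ((inv_top σ).gs S).1 hS)) _) _

theorem maps_Gam (σ : Equiv.Perm I) :
    MapsTo (Prod.map (rl σ.optionCongr) (ac σ)) (Gam I) (Gam I) := by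
  refine MapsTo.closure ?_ ((continuous_relabel _).prodMap (continuous_act _ _))
  rintro _ ⟨z, hz, rfl⟩
  exact ⟨z ∘ σ.optionCongr, hz.comp (Equiv.injective _), Prod.ext rfl (ac_scr σ _)⟩

theorem trace_sum (hn : 2 ≤ Fintype.card I) (σ : Equiv.Perm I) :
    ∑ k ∈ Finset.range (Fintype.card I - 1),
      LinearMap.trace ℚ _ (pullH (relabel (ι := Option I) σ.optionCongr) (2 * k)) = lam σ ⊤ := by
  classical
  have cM : IsCompact (M0bar (Option I)) := isClosed_closure.isCompact
  haveI : CompactSpace (M0bar (Option I)) := isCompact_iff_compactSpace.1 cM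
  have t1 : Tr Prod.fst (Gam I) (M0bar (Option I)) :=
    Tr.of_compact continuous_fst isCompact_Gam ⟨gam_fst, inj_fst, surj_fst⟩
  have t2 : Tr Prod.snd (Gam I) (Y ⊤) :=
    Tr.of_compact continuous_snd isCompact_Gam ⟨gam_snd, inj_snd, surj_snd⟩
  have t3 : Tr Subtype.val univ (M0bar (Option I)) :=
    Tr.of_compact continuous_subtype_val isCompact_univ ⟨fun x _ => x.2,
      Subtype.val_injective.injOn, fun x hx => ⟨⟨x, hx⟩, trivial, rfl⟩⟩
  have l1 := LC.of_compact cM
  have l2 : LC (Y (⊤ : Setoid I)) := LC.of_compact (isCompact_Z _ _)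
  have hne : (Finset.univ : Finset I).Nonempty := Finset.card_pos.1 (by
    rw [Finset.card_univ]; omega)
  have hd : finrank ℂ (VS (Finset.univ : Finset I) ⊥) = Fintype.card I - 1 := by
    have := finrank_VS hne (⊥ : Setoid I)
    rw [cnt_univ, ← Nat.card_eq_of_bijective (Quotient.mk (⊥ : Setoid I))
      ⟨fun a b h => Quotient.exact h, Quotient.mk_surjective⟩, Nat.card_eq_fintype_card] at this
    omega
  have ev := even_Z (Gs (⊤ : Setoid I)) (fun S hS => Finset.card_pos.1 (by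
      have := mem_Gs_top.1 hS; omega)) (mem_Gs_top.2 hn)
    (fun S hS T h => mem_Gs_top.2 ((mem_Gs_top.1 hS).trans (Finset.card_le_card h))) ⊥
  rw [hd] at ev
  have p1 : Pres (rl σ.optionCongr) (M0bar (Option I)) :=
    pres_of_maps (continuous_relabel _) (rl_inv _) (relabel_mem _) (relabel_mem _)
  have p2 : Pres (Prod.map (rl σ.optionCongr) (ac σ)) (Gam I) :=
    pres_of_maps ((continuous_relabel _).prodMap (continuous_act _ _))
      (fun y => Prod.ext (rl_inv _ _) (by
        funext S p q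
        simp [act, Finset.map_map, Prod.map])) (maps_Gam σ) (maps_Gam σ.symm)
  rw [sum_trace _ _ ((t3.vn l1 _).1 ((t1.vn l1 _).2 ((t2.vn l2 _).1 ev))),
    ← t3.lef l1 p1 ⟨(relabel _).continuous, fun _ => Iff.rfl⟩ fun _ => rfl,
    t1.lef l1 p1 p2 fun _ => rfl, ← t2.lef l2 (pres_Y (inv_top σ)) p2 fun _ => rfl, (lef_X σ).2]

theorem Qpoly_eval {n : ℕ} (hn : 2 ≤ n) : (Qpoly n).eval 1 = pa (X : ℚ[X]) n := by
  have := fun σ => trace_sum (I := Fin n) (by simpa using hn) σ
  simp only [Fintype.card_fin] at this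
  simp only [Qpoly, charPoly, charQ, traceH, eval_finset_sum, eval_mul, eval_C, eval_pow, eval_X, one_pow,
    mul_one, pa, cyc_eq, ← this, ← Finset.mul_sum, smul_eq_C_mul, one_div, map_sum, Finset.sum_mul]
  rw [Finset.sum_comm]

theorem main : ((Qpoly 120).eval 1).coeff 2 ^ 2 <
    ((Qpoly 120).eval 1).coeff 1 * ((Qpoly 120).eval 1).coeff 3 := by
  rw [Qpoly_eval (by norm_num)]
  exact final_ineq

end Pool.Agent.Work.MP_6b5a33_co
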