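import Mathlib.Analysis.InnerProductSpace.PiL2
import Mathlib.Analysis.InnerProductSpace.Projection.FiniteDimensional
import Mathlib.Tactic

/-! Projective spaces as sets of rank one projectors. -/

namespace Pool.Agent.Work.MP_6b5a33_co

open Topology Set Metric Module ComplexConjugate

abbrev Ev (Λ : Type) : Type := EuclideanSpace ℂ Λ
abbrev Mat (Λ : Type) : Type := Λ → Λ → ℂ

variable {Λ : Type} [Fintype Λ]

/-- the projector onto the line through `u` -/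
noncomputable def pr (u : Ev Λ) : Mat Λ := fun p q => u p * conj (u q) / (‖u‖ : ℂ) ^ 2

/-- projective space -/
def PV (V : Submodule ℂ (Ev Λ)) : Set (Mat Λ) := pr '' {u | u ∈ V ∧ u ≠ 0}

theorem nrm_ne {u : Ev Λ} (hu : u ≠ 0) : (‖u‖ : ℂ) ^ 2 ≠ 0 := by simpa using hu

theorem pr_smul {c : ℂ} (hc : c ≠ 0) (u : Ev Λ) : pr (c • u) = pr u := by
  funext p q
  simp only [pr, PiLp.smul_apply, smul_eq_mul, map_mul, norm_smul, Complex.ofReal_mul, mul_pow]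
  rw [← Complex.mul_conj' c, mul_mul_mul_comm, mul_div_mul_left]
  simpa using hc

theorem pr_diag {u : Ev Λ} (hu : u ≠ 0) (p : Λ) : pr u p p = 0 ↔ u p = 0 := by
  simp [pr, hu]

theorem exists_ne_of_ne {u : Ev Λ} (hu : u ≠ 0) : ∃ q, u q ≠ 0 := by
  by_contra h
  push Not at h
  exact hu (PiLp.ext h)

theorem pr_eq {u v : Ev Λ} (hu : u ≠ 0) (hv : v ≠ 0) (h : pr u = pr v) :
    ∃ c : ℂ, c ≠ 0 ∧ v = c • u := by
  obtain ⟨q, hq⟩ := exists_ne_of_ne hv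
  have h1 := nrm_ne hu
  have h2 := nrm_ne hv
  have h3 : conj (v q) ≠ 0 := by simpa using hq
  have e : v = (conj (u q) * (‖v‖ : ℂ) ^ 2 / ((‖u‖ : ℂ) ^ 2 * conj (v q))) • u := by
    ext p
    have := congrFun (congrFun h p) q
    simp only [pr] at this
    simp only [PiLp.smul_apply, smul_eq_mul]
    rw [div_eq_div_iff h1 h2] at this
    rw [div_mul_eq_mul_div, eq_div_iff (mul_ne_zero h1 h3)]
    linear_combination -this
  refine ⟨_, fun hc => hv ?_, e⟩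
  rw [e, hc, zero_smul]

theorem continuousAt_pr {u : Ev Λ} (hu : u ≠ 0) : ContinuousAt pr u := by
  refine continuousAt_pi.2 fun p => continuousAt_pi.2 fun q => ?_
  refine ContinuousAt.div (Continuous.continuousAt ?_) (Continuous.continuousAt ?_) (nrm_ne hu)
  all_goals fun_prop

theorem isCompact_PV (V : Submodule ℂ (Ev Λ)) : IsCompact (PV V) := by
  have : PV V = pr '' (sphere 0 1 ∩ V) := by
    apply Subset.antisymm
    · rintro _ ⟨u, ⟨h1, h2⟩, rfl⟩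
      have h3 : (‖u‖ : ℂ) ≠ 0 := by simpa using h2
      refine ⟨(‖u‖ : ℂ)⁻¹ • u, ⟨?_, V.smul_mem _ h1⟩, pr_smul (inv_ne_zero h3) u⟩
      simp [norm_smul, h2]
    · rintro _ ⟨u, ⟨h1, h2⟩, rfl⟩
      refine ⟨u, ⟨h2, ?_⟩, rfl⟩
      rintro rfl
      simp at h1
  rw [this]
  refine ((isCompact_sphere 0 1).inter_right V.closed_of_finiteDimensional).image_of_continuousOn
    fun u hu => (continuousAt_pr ?_).continuousWithinAt
  rintro rfl
  simpa using hu.1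

theorem PV_bot : PV (⊥ : Submodule ℂ (Ev Λ)) = ∅ := by
  ext M
  simp only [PV, mem_image, mem_ofPred_eq, Submodule.mem_bot, mem_empty_iff_false, iff_false]
  rintro ⟨u, ⟨h1, h2⟩, -⟩
  exact h2 h1

theorem PV_mono {V W : Submodule ℂ (Ev Λ)} (h : V ≤ W) : PV V ⊆ PV W :=
  image_mono fun _ hu => ⟨h hu.1, hu.2⟩

theorem pr_mem_PV {V : Submodule ℂ (Ev Λ)} {u : Ev Λ} (hu : u ≠ 0) : pr u ∈ PV V ↔ u ∈ V := by
  refine ⟨?_, fun h => ⟨u, ⟨h, hu⟩, rfl⟩⟩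
  rintro ⟨v, ⟨h1, h2⟩, h⟩
  obtain ⟨c, -, rfl⟩ := pr_eq h2 hu h
  exact V.smul_mem _ h1

/-- permutation of coordinates -/
noncomputable def Lp (l : Equiv.Perm Λ) : Ev Λ ≃ₗᵢ[ℂ] Ev Λ :=
  LinearIsometryEquiv.piLpCongrLeft 2 ℂ ℂ l.symm

theorem Lp_apply (l : Equiv.Perm Λ) (u : Ev Λ) (p : Λ) : Lp l u p = u (l p) := rfl

theorem pr_Lp (l : Equiv.Perm Λ) (u : Ev Λ) : pr (Lp l u) = fun p q => pr u (l p) (l q) := by
  funext p q
  simp only [pr, Lp_apply, LinearIsometryEquiv.norm_map]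

theorem mem_PV_act {l : Equiv.Perm Λ} {V W : Submodule ℂ (Ev Λ)}
    (h : ∀ u, Lp l u ∈ V ↔ u ∈ W) (M : Mat Λ) :
    (fun p q => M (l p) (l q)) ∈ PV V ↔ M ∈ PV W := by
  constructor
  · rintro ⟨v, ⟨h1, h2⟩, e⟩
    obtain ⟨u, rfl⟩ := (Lp l).surjective v
    refine ⟨u, ⟨(h u).1 h1, by simpa using h2⟩, ?_⟩
    funext p q
    obtain ⟨p, rfl⟩ := l.surjective p
    obtain ⟨q, rfl⟩ := l.surjective q
    rw [pr_Lp] at e
    exact congrFun (congrFun e p) q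
  · rintro ⟨u, ⟨h1, h2⟩, rfl⟩
    exact ⟨Lp l u, ⟨(h u).2 h1, by simpa using h2⟩, pr_Lp l u⟩

/-- hyperplane orthogonal to `e` -/
noncomputable def hyp (e : Ev Λ) (V : Submodule ℂ (Ev Λ)) : Submodule ℂ (Ev Λ) := (ℂ ∙ e)ᗮ ⊓ V

theorem mem_hyp {e u : Ev Λ} {V : Submodule ℂ (Ev Λ)} :
    u ∈ hyp e V ↔ inner ℂ e u = 0 ∧ u ∈ V := by
  rw [hyp, Submodule.mem_inf, Submodule.mem_orthogonal_singleton_iff_inner_right]

theorem hyp_zero (V : Submodule ℂ (Ev Λ)) : hyp 0 V = V := by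
  ext u; simp [mem_hyp]

theorem finrank_hyp {e : Ev Λ} {V : Submodule ℂ (Ev Λ)} (he : e ≠ 0) (hV : e ∈ V) :
    finrank ℂ V = finrank ℂ (hyp e V) + 1 := by
  rw [← Submodule.finrank_add_inf_finrank_orthogonal
    ((Submodule.span_singleton_le_iff_mem e V).2 hV), finrank_span_singleton he, add_comm]
  rfl

/-- lift of the characteristic map -/
noncomputable def chv (e w : Ev Λ) : Ev Λ := w + ((1 - ‖w‖ : ℝ) : ℂ) • e

section ch
variable {e w w' : Ev Λ} {V : Submodule ℂ (Ev Λ)} (he : ‖e‖ = 1)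
include he

theorem inner_chv (hw : w ∈ hyp e V) : inner ℂ e (chv e w) = ((1 - ‖w‖ : ℝ) : ℂ) := by
  rw [chv, inner_add_right, (mem_hyp.1 hw).1, inner_smul_right, inner_self_eq_norm_sq_to_K, he]
  simp

theorem chv_ne (hw : w ∈ hyp e V) : chv e w ≠ 0 := by
  intro h
  have h1 := inner_chv he hw
  rw [h, inner_zero_right] at h1
  rw [chv, ← h1, zero_smul, add_zero] at h
  rw [h] at h1
  simp at h1

theorem ch_mem (hV : e ∈ V) (hw : w ∈ hyp e V) : pr (chv e w) ∈ PV V :=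
  ⟨_, ⟨V.add_mem (mem_hyp.1 hw).2 (V.smul_mem _ hV), chv_ne he hw⟩, rfl⟩

theorem ch_hyp (hw : w ∈ hyp e V) : pr (chv e w) ∈ PV (hyp e V) ↔ ‖w‖ = 1 := by
  rw [pr_mem_PV (chv_ne he hw)]
  constructor
  · intro h
    have := (mem_hyp.1 h).1
    rw [inner_chv he hw, Complex.ofReal_eq_zero] at this
    linarith
  · intro h
    simpa [chv, h] using hw

theorem ch_inj (hw : w ∈ hyp e V) (hw' : w' ∈ hyp e V) (h1 : ‖w‖ < 1) (h2 : ‖w'‖ < 1)
    (h : pr (chv e w) = pr (chv e w')) : w = w' := by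
  obtain ⟨c, -, hc⟩ := pr_eq (chv_ne he hw) (chv_ne he hw') h
  have e1 := inner_chv he hw'
  rw [hc, inner_smul_right, inner_chv he hw] at e1
  have e2 : w' = c • w := by
    rw [chv, chv, smul_add, smul_smul, e1] at hc
    exact add_right_cancel hc
  have p1 : (0 : ℝ) < 1 - ‖w‖ := by linarith
  have p2 : (0 : ℝ) < 1 - ‖w'‖ := by linarith
  have e3 : c = (((1 - ‖w'‖) / (1 - ‖w‖) : ℝ) : ℂ) := by
    rw [Complex.ofReal_div, ← e1, mul_div_cancel_right₀]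
    exact_mod_cast p1.ne'
  have e4 : ‖w'‖ = (1 - ‖w'‖) / (1 - ‖w‖) * ‖w‖ := by
    conv_lhs => rw [e2, norm_smul, e3, Complex.norm_real, Real.norm_of_nonneg (div_pos p2 p1).le]
  have e5 : ‖w'‖ = ‖w‖ := by
    field_simp at e4
    linarith
  rw [e2, e3, e5, div_self p1.ne']
  simp

theorem ch_surj (hV : e ∈ V) {M : Mat Λ} (h1 : M ∈ PV V) (h2 : M ∉ PV (hyp e V)) :
    ∃ w ∈ hyp e V, ‖w‖ < 1 ∧ pr (chv e w) = M := by
  obtain ⟨u, ⟨hu, hu0⟩, rfl⟩ := h1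
  have ha : inner ℂ e u ≠ 0 := fun h => h2 ⟨u, ⟨mem_hyp.2 ⟨h, hu⟩, hu0⟩, rfl⟩
  set a := inner ℂ e u with ea
  set v := a⁻¹ • u - e with ev
  have hv : v ∈ hyp e V := mem_hyp.2 ⟨by
    rw [ev, inner_sub_right, inner_smul_right, ← ea, inner_self_eq_norm_sq_to_K, he,
      inv_mul_cancel₀ ha]; simp, V.sub_mem (V.smul_mem _ hu) hV⟩
  have p : 0 < 1 + ‖v‖ := by positivity
  have n : ‖(((1 + ‖v‖)⁻¹ : ℝ) : ℂ) • v‖ = (1 + ‖v‖)⁻¹ * ‖v‖ := by
    rw [norm_smul, Complex.norm_real, Real.norm_of_nonneg (inv_pos.2 p).le]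
  refine ⟨(((1 + ‖v‖)⁻¹ : ℝ) : ℂ) • v, Submodule.smul_mem _ _ hv, ?_, ?_⟩
  · rw [n, inv_mul_lt_iff₀ p]; linarith
  · have : 1 - (1 + ‖v‖)⁻¹ * ‖v‖ = (1 + ‖v‖)⁻¹ := by field_simp; ring
    rw [chv, n, this, ← smul_add, pr_smul (by exact_mod_cast (inv_pos.2 p).ne'), ev,
      sub_add_cancel, pr_smul (inv_ne_zero ha)]

end ch

theorem continuous_chv (e : Ev Λ) : Continuous (chv e) := by
  unfold chv; fun_prop

end Pool.Agent.Work.MP_6b5a33_co
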