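import Mathlib.GroupTheory.Perm.Cycle.Basic
import Mathlib.Algebra.BigOperators.Ring.Finset
import Mathlib.Data.Setoid.Basic
import Mathlib.Tactic

/-! Products over the classes of an equivalence relation. -/

namespace Pool.Agent.Work.MP_6b5a33_co

variable {K J J' R : Type} [Fintype K] [Fintype J] [Fintype J'] [CommMonoid R]

open Classical in
/-- product over classes -/
noncomputable def QP (ρ : Setoid K) (g : K → R) : R := ∏ q : Quotient ρ, g q.out

theorem QP_eq {ρ : Setoid K} {g : K → R} (r : J → K) (inj : ∀ a b, ρ (r a) (r b) → a = b)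
    (inv : ∀ a b, ρ a b → g a = g b) (cov : ∀ k, g k = 1 ∨ ∃ a, ρ k (r a)) :
    QP ρ g = ∏ a, g (r a) := by
  classical
  symm
  refine Fintype.prod_of_injective (fun a => Quotient.mk ρ (r a))
    (fun a b h => inj a b (Quotient.exact h)) _ _ (fun q hq => ?_) fun a => ?_
  · rcases cov q.out with h | ⟨a, h⟩
    · exact h
    · exact absurd ⟨a, (Quotient.sound h).symm.trans q.out_eq⟩ hq
  · exact (inv _ _ (Quotient.mk_out (s := ρ) (r a))).symm

theorem QP_mul (ρ : Setoid K) (f g : K → R) : QP ρ (fun k => f k * g k) = QP ρ f * QP ρ g :=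
  Finset.prod_mul_distrib

theorem QP_one (ρ : Setoid K) : QP ρ (fun _ => (1 : R)) = 1 := Finset.prod_const_one

theorem QP_single {ρ : Setoid K} {g : K → R} (a : K) (inv : ∀ a b, ρ a b → g a = g b)
    (cov : ∀ k, g k = 1 ∨ ρ k a) : QP ρ g = g a := by
  rw [QP_eq (fun _ : Unit => a) (fun _ _ _ => rfl) inv fun k => (cov k).imp id fun h => ⟨(), h⟩]
  simp

theorem QP_two {ρ : Setoid K} {ρ₁ : Setoid J} {ρ₂ : Setoid J'} {g : K → R} (e₁ : J → K)
    (e₂ : J' → K) (h1 : ∀ a b, ρ (e₁ a) (e₁ b) ↔ ρ₁ a b) (h2 : ∀ a b, ρ (e₂ a) (e₂ b) ↔ ρ₂ a b)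
    (h12 : ∀ a b, ¬ ρ (e₁ a) (e₂ b)) (inv : ∀ a b, ρ a b → g a = g b)
    (cov : ∀ k, g k = 1 ∨ (∃ a, ρ k (e₁ a)) ∨ ∃ b, ρ k (e₂ b)) :
    QP ρ g = QP ρ₁ (fun a => g (e₁ a)) * QP ρ₂ (fun b => g (e₂ b)) := by
  classical
  rw [QP_eq (J := Quotient ρ₁ ⊕ Quotient ρ₂)
    (Sum.elim (fun q => e₁ q.out) fun q => e₂ q.out) ?_ inv fun k => ?_, Fintype.prod_sum_type]
  · rfl
  · rintro (a | a) (b | b) h
    · rw [Quotient.out_equiv_out.1 ((h1 _ _).1 h)]
    · exact absurd h (h12 _ _)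
    · exact absurd (ρ.symm h) (h12 _ _)
    · rw [Quotient.out_equiv_out.1 ((h2 _ _).1 h)]
  · rcases cov k with h | ⟨a, h⟩ | ⟨a, h⟩
    · exact Or.inl h
    · exact Or.inr ⟨Sum.inl (Quotient.mk _ a),
        ρ.trans h ((h1 _ _).2 (ρ₁.symm (Quotient.mk_out a)))⟩
    · exact Or.inr ⟨Sum.inr (Quotient.mk _ a),
        ρ.trans h ((h2 _ _).2 (ρ₂.symm (Quotient.mk_out a)))⟩

theorem QP_map {ρ : Setoid K} {ρ₁ : Setoid J} {g : K → R} (e₁ : J → K)
    (h1 : ∀ a b, ρ (e₁ a) (e₁ b) ↔ ρ₁ a b) (inv : ∀ a b, ρ a b → g a = g b)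
    (cov : ∀ k, g k = 1 ∨ ∃ a, ρ k (e₁ a)) : QP ρ g = QP ρ₁ (fun a => g (e₁ a)) := by
  classical
  rw [QP_eq (J := Quotient ρ₁) (fun q => e₁ q.out) ?_ inv fun k => ?_]
  · rfl
  · intro a b h
    exact Quotient.out_equiv_out.1 ((h1 _ _).1 h)
  · rcases cov k with h | ⟨a, h⟩
    · exact Or.inl h
    · exact Or.inr ⟨Quotient.mk _ a, ρ.trans h ((h1 _ _).2 (ρ₁.symm (Quotient.mk_out a)))⟩

theorem QP_zero {R : Type} [CommMonoidWithZero R] {ρ : Setoid K} {g : K → R} (a : K)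
    (inv : ∀ a b, ρ a b → g a = g b) (h : g a = 0) : QP ρ g = 0 := by
  classical
  exact Finset.prod_eq_zero (Finset.mem_univ (Quotient.mk ρ a))
    ((inv _ _ (Quotient.mk_out (s := ρ) a)).trans h)

theorem QP_const (ρ : Setoid K) (y : R) : QP ρ (fun _ => y) = y ^ Nat.card (Quotient ρ) := by
  classical
  simp [QP, Nat.card_eq_fintype_card]

theorem sameCycle_ind [DecidableEq K] {s : Equiv.Perm K} {p : K → Prop} {a b : K}
    (h : s.SameCycle a b) (ha : p a) (hs : ∀ k, p k → p (s k)) : p b := by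
  obtain ⟨i, -, rfl⟩ := h.exists_pow_eq'
  induction i with
  | zero => exact ha
  | succ i ih =>
    rw [pow_succ', Equiv.Perm.mul_apply]
    exact hs _ (ih ⟨i, by simp⟩)

theorem sameCycle_inv [DecidableEq K] {s : Equiv.Perm K} {α : Type} {g : K → α}
    (hs : ∀ k, g (s k) = g k) (a b : K) (h : s.SameCycle a b) : g a = g b :=
  sameCycle_ind (p := fun k => g a = g k) h rfl fun k hk => hk.trans (hs k).symm

end Pool.Agent.Work.MP_6b5a33_co
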