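import Pool.Agent.Work.MP_6b5a33_co.Cell
import Pool.Agent.Work.MP_6b5a33_co.PV
import Pool.Agent.Work.MP_6b5a33_co.QP
import Mathlib.LinearAlgebra.Eigenspace.Triangularizable
import Mathlib.Analysis.Complex.Polynomial.Basic

/-! Products of projective spaces over a test space. -/

namespace Pool.Agent.Work.MP_6b5a33_co

open Topology Set Metric Module

theorem strata' {X : Type} [MetricSpace X] {K : Type} [Fintype K] [DecidableEq K] {U : Set X}
    (hU : LC U) (t : X → K) (r : K → ℕ)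
    (cl : ∀ i, ∀ x ∈ closure (U ∩ t ⁻¹' {i}), x ∈ U → t x = i ∨ r (t x) < r i) :
    (∀ i, LC (U ∩ t ⁻¹' {i})) ∧ ((∀ i, FD (U ∩ t ⁻¹' {i})) → FD U) ∧
      (∀ S, (∀ i, Vn S (U ∩ t ⁻¹' {i})) → Vn S U) ∧ ((∀ i, FD (U ∩ t ⁻¹' {i})) →
      ∀ (σ : X → X) (π : Equiv.Perm K), Pres σ U → (∀ x ∈ U, t (σ x) = π (t x)) →
        (∀ i, r (π i) = r i) → Lef σ U = ∑ i with π i = i, Lef σ (U ∩ t ⁻¹' {i})) := by
  obtain ⟨a, b, c⟩ := strata hU (fun i => U ∩ t ⁻¹' {i}) r (fun x hx => ⟨t x, hx, rfl⟩)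
    (fun _ => inter_subset_left) (fun i j x h1 h2 => h1.2.symm.trans h2.2)
    (fun i x hx j hj => hj.2 ▸ cl i x hx hj.1)
  refine ⟨fun i => ?_, a, b, fun fd σ π h1 h2 h3 => c fd σ π h1 (fun i x => ?_) h3⟩
  · have := (hU.inter (isClosed_closure (s := U ∩ t ⁻¹' {i}))).diff (isClosed_closure
      (s := ⋃ j ∈ Finset.univ.filter (fun j => r j < r i), U ∩ t ⁻¹' {j}))
    convert this using 1
    rw [Finset.closure_biUnion]
    ext x
    simp only [mem_diff, mem_iUnion, Finset.mem_filter, Finset.mem_univ, true_and, not_exists]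
    constructor
    · intro hx
      refine ⟨⟨hx.1, subset_closure hx⟩, fun j hj h => ?_⟩
      have e : t x = i := hx.2
      rcases cl j x h hx.1 with h | h <;> rw [e] at h
      · rw [h] at hj; omega
      · omega
    · rintro ⟨⟨h1, h2⟩, h3⟩
      exact ⟨h1, (cl i x h2 h1).resolve_right fun h => h3 _ h (subset_closure ⟨h1, rfl⟩)⟩
  · simp only [mem_inter_iff, mem_preimage, mem_singleton_iff, h1.2]
    exact and_congr_right fun hx => by rw [h2 x hx, π.injective.eq_iff]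

variable {Λ K : Type} [Fintype Λ] [Fintype K] [DecidableEq K]

/-- product of projective spaces -/
def PP (A : Finset K) (V : K → Submodule ℂ (Ev Λ)) : Set (K → Mat Λ) :=
  {x | ∀ k, (k ∈ A → x k ∈ PV (V k)) ∧ (k ∉ A → x k = 0)}

/-- permutation action on families of matrices -/
def act (s : Equiv.Perm K) (l : Equiv.Perm Λ) (x : K → Mat Λ) : K → Mat Λ :=
  fun k p q => x (s k) (l p) (l q)

theorem continuous_act (s : Equiv.Perm K) (l : Equiv.Perm Λ) : Continuous (act s l) := by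
  unfold act; fun_prop

theorem isCompact_PP (A : Finset K) (V : K → Submodule ℂ (Ev Λ)) : IsCompact (PP A V) := by
  have : PP A V = univ.pi fun k => if k ∈ A then PV (V k) else {0} := by
    ext x
    simp only [PP, mem_ofPred_eq, mem_pi, mem_univ, true_imp_iff]
    refine forall_congr' fun k => ?_
    split_ifs with h <;> simp [h]
  rw [this]
  refine isCompact_univ_pi fun k => ?_
  split_ifs
  · exact isCompact_PV _
  · exact isCompact_singleton

theorem act_eq_zero (l : Equiv.Perm Λ) (M : Mat Λ) : (fun p q => M (l p) (l q)) = 0 ↔ M = 0 := by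
  constructor
  · intro h
    funext p q
    obtain ⟨p, rfl⟩ := l.surjective p
    obtain ⟨q, rfl⟩ := l.surjective q
    exact congrFun (congrFun h p) q
  · rintro rfl; rfl

theorem pres_PP {A : Finset K} {V : K → Submodule ℂ (Ev Λ)} {s : Equiv.Perm K} {l : Equiv.Perm Λ}
    (hs : ∀ k, s k ∈ A ↔ k ∈ A) (hV : ∀ k u, Lp l u ∈ V k ↔ u ∈ V (s k)) :
    Pres (act s l) (PP A V) := by
  refine ⟨continuous_act s l, fun x => ?_⟩
  simp only [PP, mem_ofPred_eq]
  rw [← s.forall_congr_right (q := fun k => (k ∈ A → x k ∈ PV (V k)) ∧ (k ∉ A → x k = 0))]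
  refine forall_congr' fun k => ?_
  rw [hs, ← mem_PV_act (hV k), ← act_eq_zero l (x (s k))]
  rfl

/-- twisted shift on a product of subspaces -/
noncomputable def Gm (W : K → Submodule ℂ (Ev Λ)) (s : Equiv.Perm K) (l : Equiv.Perm Λ)
    (h : ∀ k u, Lp l u ∈ W k ↔ u ∈ W (s k)) : ((k : K) → W k) →ₗ[ℂ] ((k : K) → W k) where
  toFun w k := ⟨Lp l (w (s k)), (h k _).2 (w (s k)).2⟩
  map_add' _ _ := by funext k; apply Subtype.ext; simp
  map_smul' _ _ := by funext k; apply Subtype.ext; simp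

theorem norm_Gm {W : K → Submodule ℂ (Ev Λ)} {s : Equiv.Perm K} {l : Equiv.Perm Λ}
    (h : ∀ k u, Lp l u ∈ W k ↔ u ∈ W (s k)) (w : (k : K) → W k) : ‖Gm W s l h w‖ = ‖w‖ := by
  have e : ∀ k, ‖Gm W s l h w k‖ = ‖w (s k)‖ := fun k => (Lp l).norm_map (w (s k))
  apply le_antisymm
  · exact (pi_norm_le_iff_of_nonneg (norm_nonneg _)).2 fun k => (e k).trans_le
      (norm_le_pi_norm w _)
  · refine (pi_norm_le_iff_of_nonneg (norm_nonneg _)).2 fun k => ?_
    obtain ⟨k, rfl⟩ := s.surjective k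
    exact (e k).symm.trans_le (norm_le_pi_norm _ _)

theorem ite_inv {T : Finset K} {V : K → Submodule ℂ (Ev Λ)} {s : Equiv.Perm K} {l : Equiv.Perm Λ}
    (hs : ∀ k, s k ∈ T ↔ k ∈ T) (hV : ∀ k u, Lp l u ∈ V k ↔ u ∈ V (s k)) (k : K) (u : Ev Λ) :
    Lp l u ∈ (if k ∈ T then V k else ⊥) ↔ u ∈ (if s k ∈ T then V (s k) else ⊥) := by
  by_cases hk : k ∈ T
  · rw [if_pos hk, if_pos ((hs k).2 hk), hV]
  · rw [if_neg hk, if_neg (mt (hs k).1 hk)]; simp

theorem exists_eig {V : K → Submodule ℂ (Ev Λ)} {s : Equiv.Perm K} {l : Equiv.Perm Λ}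
    (hV : ∀ k u, Lp l u ∈ V k ↔ u ∈ V (s k)) {k₀ : K} (h0 : V k₀ ≠ ⊥) :
    ∃ (e : K → Ev Λ) (c : ℂ), ‖c‖ = 1 ∧ (∀ k, Lp l (e (s k)) = c • e k) ∧ (∀ k, e k ∈ V k) ∧
      (∀ k, s.SameCycle k₀ k → ‖e k‖ = 1) ∧ ∀ k, ¬ s.SameCycle k₀ k → e k = 0 := by
  classical
  let T : Finset K := Finset.univ.filter (s.SameCycle k₀)
  have hT : ∀ k, s k ∈ T ↔ k ∈ T := fun k => by simp [T]
  let W : K → Submodule ℂ (Ev Λ) := fun k => if k ∈ T then V k else ⊥
  haveI : Nontrivial (W k₀) := by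
    rw [Submodule.nontrivial_iff_ne_bot]
    simpa [W, T, Equiv.Perm.SameCycle.refl] using h0
  haveI : Nontrivial ((k : K) → W k) := Pi.nontrivial_at k₀
  obtain ⟨c, hc⟩ := Module.End.exists_eigenvalue (Gm W s l (ite_inv hT hV))
  obtain ⟨u, hu, hu0⟩ := hc.exists_hasEigenvector
  rw [Module.End.mem_eigenspace_iff] at hu
  have c1 : ‖c‖ = 1 := by
    have := norm_Gm (ite_inv hT hV) u
    rwa [hu, norm_smul, mul_eq_right₀ (norm_ne_zero_iff.2 hu0)] at this
  have e1 : ∀ k, Lp l (u (s k)) = c • (u k : Ev Λ) := fun k =>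
    congrArg Subtype.val (congrFun hu k)
  have e2 : ∀ k, ‖(u (s k) : Ev Λ)‖ = ‖(u k : Ev Λ)‖ := fun k => by
    rw [← (Lp l).norm_map, e1, norm_smul, c1, one_mul]
  have e3 : ∀ k, ¬ s.SameCycle k₀ k → (u k : Ev Λ) = 0 := fun k hk => by
    have := (u k).2
    simpa [W, T, hk] using this
  have e4 : ‖(u k₀ : Ev Λ)‖ ≠ 0 := by
    intro h
    apply hu0
    funext k
    apply Subtype.ext
    by_cases hk : s.SameCycle k₀ k
    · exact norm_eq_zero.1 ((sameCycle_inv (g := fun k => ‖(u k : Ev Λ)‖) e2 _ _ hk).symm.trans h)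
    · exact e3 k hk
  refine ⟨fun k => ((‖(u k₀ : Ev Λ)‖ : ℝ) : ℂ)⁻¹ • (u k : Ev Λ), c, c1, fun k => ?_, fun k => ?_,
    fun k hk => ?_, fun k hk => ?_⟩
  · rw [map_smul, e1, smul_comm]
  · refine Submodule.smul_mem _ _ ?_
    by_cases hk : s.SameCycle k₀ k
    · have := (u k).2
      simpa [W, T, hk] using this
    · rw [e3 k hk]; exact Submodule.zero_mem _
  · rw [norm_smul, ← sameCycle_inv (g := fun k => ‖(u k : Ev Λ)‖) e2 _ _ hk, norm_inv,
      Complex.norm_real, norm_norm, inv_mul_cancel₀ e4]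
  · simp only [e3 k hk, smul_zero]

section step
variable {X : Type} [MetricSpace X] {U : Set X} {A O : Finset K} {V : K → Submodule ℂ (Ev Λ)}
  {e : K → Ev Λ}

open Classical in
/-- type of a point -/
noncomputable def ty (O : Finset K) (V : K → Submodule ℂ (Ev Λ)) (e : K → Ev Λ)
    (y : X × (K → Mat Λ)) : Finset K := O.filter fun k => y.2 k ∉ PV (hyp (e k) (V k))

theorem mem_ty {y : X × (K → Mat Λ)} {k : K} :
    k ∈ ty O V e y ↔ k ∈ O ∧ y.2 k ∉ PV (hyp (e k) (V k)) := by simp [ty]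

theorem ty_cl (T : Finset K) (y : X × (K → Mat Λ))
    (hy : y ∈ closure ((U ×ˢ PP A V) ∩ ty O V e ⁻¹' {T})) (_ : y ∈ U ×ˢ PP A V) :
    ty O V e y = T ∨ (ty O V e y).card < T.card := by
  have : ty O V e y ⊆ T := by
    intro k hk
    by_contra hc
    refine (mem_ty.1 hk).2 (closure_minimal (t := {z : X × (K → Mat Λ) | z.2 k ∈ PV (hyp (e k) (V k))})
      ?_ ((isCompact_PV _).isClosed.preimage (by fun_prop)) hy)
    rintro z ⟨-, hz⟩
    by_contra h
    exact hc ((show ty O V e z = T from hz) ▸ mem_ty.2 ⟨(mem_ty.1 hk).1, h⟩)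
  exact (eq_or_lt_of_le this).imp id Finset.card_lt_card

/-- characteristic map -/
noncomputable def chm (T : Finset K) (V : K → Submodule ℂ (Ev Λ)) (e : K → Ev Λ)
    (y : (X × (K → Mat Λ)) × ((k : K) → (if k ∈ T then hyp (e k) (V k) else ⊥ : Submodule ℂ _))) :
    X × (K → Mat Λ) := (y.1.1, fun k => if k ∈ T then pr (chv (e k) (y.2 k)) else y.1.2 k)

theorem tr_chm (hU : LC U) (hO : O ⊆ A) (h1 : ∀ k ∈ O, ‖e k‖ = 1) (h0 : ∀ k ∉ O, e k = 0)
    (hV : ∀ k, e k ∈ V k) {T : Finset K} (hT : T ⊆ O) :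
    Tr (chm T V e) ((U ×ˢ PP (A \ T) fun k => hyp (e k) (V k)) ×ˢ ball 0 1)
      ((U ×ˢ PP A V) ∩ ty O V e ⁻¹' {T}) := by
  have mw : ∀ (w : (k : K) → (if k ∈ T then hyp (e k) (V k) else ⊥ : Submodule ℂ _)), ∀ k ∈ T,
      (w k : Ev Λ) ∈ hyp (e k) (V k) := fun w k hk => by
    have := (w k).2
    simpa only [if_pos hk] using this
  have mw0 : ∀ (w : (k : K) → (if k ∈ T then hyp (e k) (V k) else ⊥ : Submodule ℂ _)), ∀ k ∉ T,
      (w k : Ev Λ) = 0 := fun w k hk => by
    have := (w k).2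
    simpa only [if_neg hk, Submodule.mem_bot] using this
  refine ⟨?_, ⟨(closure U ×ˢ PP (A \ T) fun k => hyp (e k) (V k)) ×ˢ closedBall 0 1,
    (hU.1.prod (isCompact_PP _ _)).prod (isCompact_closedBall _ _),
    prod_mono (prod_mono subset_closure subset_rfl) ball_subset_closedBall, ?_⟩, ?_, ?_, ?_⟩
  · refine Continuous.prodMk (by fun_prop) (continuous_pi fun k => ?_)
    split_ifs with hk
    · refine continuous_iff_continuousAt.2 fun y => ?_
      refine (continuousAt_pr (chv_ne (h1 k (hT hk)) (mw y.2 k hk))).comp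
        (f := fun y : (X × (K → Mat Λ)) × ((k : K) →
          (if k ∈ T then hyp (e k) (V k) else ⊥ : Submodule ℂ _)) => chv (e k) (y.2 k))
        (Continuous.continuousAt ((continuous_chv _).comp ?_))
      fun_prop
    · fun_prop
  · rintro y ⟨⟨-, a⟩, b⟩ ⟨⟨c, -⟩, d⟩
    refine ⟨⟨c, a⟩, mem_ball_zero_iff.2 ((pi_norm_lt_iff one_pos).2 fun k => ?_)⟩
    by_cases hk : k ∈ T
    · have e1 := (mem_ty.1 ((show ty O V e (chm T V e y) = T from d).symm ▸ hk)).2
      simp only [chm, if_pos hk, ch_hyp (h1 k (hT hk)) (mw y.2 k hk)] at e1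
      exact lt_of_le_of_ne ((norm_le_pi_norm y.2 k).trans (mem_closedBall_zero_iff.1 b)) e1
    · change ‖(y.2 k : Ev Λ)‖ < 1
      rw [mw0 y.2 k hk]; simp
  · rintro y ⟨⟨a, b⟩, c⟩
    refine ⟨⟨a, fun k => ?_⟩, ?_⟩
    · by_cases hk : k ∈ T
      · simp only [chm, if_pos hk]
        exact ⟨fun _ => ch_mem (h1 k (hT hk)) (hV k) (mw y.2 k hk), fun h => absurd (hO (hT hk)) h⟩
      · simp only [chm, if_neg hk]
        exact ⟨fun h => PV_mono inf_le_right ((b k).1 (Finset.mem_sdiff.2 ⟨h, hk⟩)),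
          fun h => (b k).2 fun h' => h (Finset.mem_sdiff.1 h').1⟩
    · ext k
      rw [mem_ty]
      by_cases hk : k ∈ T
      · simp only [chm, if_pos hk, ch_hyp (h1 k (hT hk)) (mw y.2 k hk)]
        exact iff_of_true ⟨hT hk,
          ((norm_le_pi_norm y.2 k).trans_lt (mem_ball_zero_iff.1 c)).ne⟩ hk
      · simp only [chm, if_neg hk]
        exact iff_of_false (fun h => h.2 ((b k).1 (Finset.mem_sdiff.2 ⟨hO h.1, hk⟩))) hk
  · rintro y ⟨⟨-, b⟩, c⟩ z ⟨⟨-, b'⟩, c'⟩ h
    obtain ⟨e1, e2⟩ := Prod.ext_iff.1 h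
    refine Prod.ext (Prod.ext e1 (funext fun k => ?_)) (funext fun k => Subtype.ext ?_)
    · have := congrFun e2 k
      by_cases hk : k ∈ T
      · rw [(b k).2 (by simp [hk]), (b' k).2 (by simp [hk])]
      · simpa only [chm, if_neg hk] using this
    · have := congrFun e2 k
      by_cases hk : k ∈ T
      · simp only [chm, if_pos hk] at this
        exact ch_inj (h1 k (hT hk)) (mw y.2 k hk) (mw z.2 k hk)
          ((norm_le_pi_norm y.2 k).trans_lt (mem_ball_zero_iff.1 c))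
          ((norm_le_pi_norm z.2 k).trans_lt (mem_ball_zero_iff.1 c')) this
      · rw [mw0 _ k hk, mw0 _ k hk]
  · rintro y ⟨⟨a, b⟩, c⟩
    have c' : ∀ k, k ∈ T ↔ k ∈ O ∧ y.2 k ∉ PV (hyp (e k) (V k)) := fun k => by
      rw [← mem_ty, show ty O V e y = T from c]
    have : ∀ k, ∃ w : (if k ∈ T then hyp (e k) (V k) else ⊥ : Submodule ℂ _), ‖w‖ < 1 ∧
        (k ∈ T → pr (chv (e k) w) = y.2 k) := fun k => by
      by_cases hk : k ∈ T
      · obtain ⟨w, w1, w2, w3⟩ := ch_surj (h1 k (hT hk)) (hV k) ((b k).1 (hO (hT hk)))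
          ((c' k).1 hk).2
        exact ⟨⟨w, by rwa [if_pos hk]⟩, w2, fun _ => w3⟩
      · exact ⟨0, by simp, fun h => absurd h hk⟩
    choose w w1 w2 using this
    refine ⟨((y.1, fun k => if k ∈ T then 0 else y.2 k), w), ⟨⟨a, fun k => ?_⟩,
      mem_ball_zero_iff.2 ((pi_norm_lt_iff one_pos).2 w1)⟩, Prod.ext rfl (funext fun k => ?_)⟩
    · by_cases hk : k ∈ T
      · simp [hk]
      · simp only [if_neg hk, Finset.mem_sdiff, hk, not_false_iff, and_true]
        refine ⟨fun h => ?_, (b k).2⟩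
        by_cases hk' : k ∈ O
        · by_contra hc
          exact hk ((c' k).2 ⟨hk', hc⟩)
        · rw [h0 k hk', hyp_zero]; exact (b k).1 h
    · by_cases hk : k ∈ T
      · simp only [chm, if_pos hk, w2 k hk]
      · simp only [chm, if_neg hk]

end step

theorem finrank_act {l : Equiv.Perm Λ} {V W : Submodule ℂ (Ev Λ)}
    (h : ∀ u, Lp l u ∈ V ↔ u ∈ W) : finrank ℂ W = finrank ℂ V := by
  have : V = W.map (Lp l).toLinearEquiv.toLinearMap := by
    ext v
    obtain ⟨u, rfl⟩ := (Lp l).surjective v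
    rw [h]
    exact ⟨fun hu => ⟨u, hu, rfl⟩, fun ⟨u', hu, e⟩ => (Lp l).injective e ▸ hu⟩
  rw [this, LinearEquiv.finrank_map_eq]

theorem proj {X : Type} [MetricSpace X] {U : Set X} (hU : LC U) (A : Finset K)
    (V : K → Submodule ℂ (Ev Λ)) : (FD U → FD (U ×ˢ PP A V)) ∧
    (∀ D, Vn (Sup D) U → Vn (Sup (D + ∑ k ∈ A, ((finrank ℂ (V k) : ℤ) - 1))) (U ×ˢ PP A V)) ∧
    (FD U → ∀ σ s l, Pres σ U → (∀ k, s k ∈ A ↔ k ∈ A) → (∀ k u, Lp l u ∈ V k ↔ u ∈ V (s k)) →
      Lef (Prod.map σ (act s l)) (U ×ˢ PP A V) = Lef σ U * QP (Equiv.Perm.SameCycle.setoid s)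
        fun k => if k ∈ A then (finrank ℂ (V k) : ℚ) else 1) := by
  classical
  induction hn : ∑ k ∈ A, finrank ℂ (V k) using Nat.strong_induction_on generalizing A V with
  | _ n ih
  rcases A.eq_empty_or_nonempty with rfl | ⟨k₀, hk₀⟩
  · have t : Tr Prod.fst (U ×ˢ PP ∅ V) U := ⟨continuous_fst,
      ⟨_, hU.1.prod (isCompact_PP ∅ V), prod_mono subset_closure subset_rfl,
        fun x hx h => ⟨h, hx.2⟩⟩, fun x hx => hx.1, fun x hx y hy h => Prod.ext h
          (funext fun k => by rw [(hx.2 k).2 (by simp), (hy.2 k).2 (by simp)]),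
      fun x hx => ⟨(x, 0), ⟨hx, fun k => by simp⟩, rfl⟩⟩
    refine ⟨(t.fd hU).1, fun D h => by simpa using (t.vn hU _).1 h, fun _ σ s l h1 h2 h3 => ?_⟩
    rw [← t.lef hU h1 (h1.prod (pres_PP h2 h3)) fun _ => rfl]
    simp [QP_one]
  by_cases h0 : V k₀ = ⊥
  · have : U ×ˢ PP A V = ∅ := by
      refine eq_empty_of_forall_notMem fun x hx => ?_
      have := (hx.2 k₀).1 hk₀
      rwa [h0, PV_bot] at this
    rw [this]
    refine ⟨fun _ => fd_empty, fun _ _ => vn_empty _, fun _ σ s l h1 h2 h3 => ?_⟩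
    rw [lef_empty, QP_zero k₀ (sameCycle_inv fun k => by
      simp only [h2, finrank_act (h3 k)]) (by simp [hk₀, h0]), mul_zero]
  have lcU := hU.prod (LC.of_compact (isCompact_PP A V))
  have step : ∀ (s : Equiv.Perm K) (l : Equiv.Perm Λ), (∀ k, s k ∈ A ↔ k ∈ A) →
      (∀ k u, Lp l u ∈ V k ↔ u ∈ V (s k)) → (FD U → FD (U ×ˢ PP A V)) ∧
      (∀ D, Vn (Sup D) U → Vn (Sup (D + ∑ k ∈ A, ((finrank ℂ (V k) : ℤ) - 1))) (U ×ˢ PP A V)) ∧
      (FD U → ∀ σ, Pres σ U →
        Lef (Prod.map σ (act s l)) (U ×ˢ PP A V) = Lef σ U * QP (Equiv.Perm.SameCycle.setoid s)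
          fun k => if k ∈ A then (finrank ℂ (V k) : ℚ) else 1) := by
    intro s l hs hV
    obtain ⟨e, c, c1, ec, eV, e1, e0⟩ := exists_eig hV h0
    set O : Finset K := Finset.univ.filter (s.SameCycle k₀)
    have mO : ∀ k, k ∈ O ↔ s.SameCycle k₀ k := fun k => by simp [O]
    have k0O : k₀ ∈ O := (mO _).2 (Equiv.Perm.SameCycle.refl _ _)
    have hO : O ⊆ A := fun k hk =>
      sameCycle_ind (p := (· ∈ A)) ((mO k).1 hk) hk₀ fun k h => (hs k).2 h
    have e1' : ∀ k ∈ O, ‖e k‖ = 1 := fun k hk => e1 k ((mO k).1 hk)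
    have e0' : ∀ k ∉ O, e k = 0 := fun k hk => e0 k (mt (mO k).2 hk)
    set V' : K → Submodule ℂ (Ev Λ) := fun k => hyp (e k) (V k)
    have d1 : ∀ k ∈ O, finrank ℂ (V k) = finrank ℂ (V' k) + 1 := fun k hk =>
      finrank_hyp (by rw [← norm_ne_zero_iff, e1' k hk]; simp) (eV k)
    have d0 : ∀ k ∉ O, V' k = V k := fun k hk => by simp only [V', e0' k hk, hyp_zero]
    have dle : ∀ k, finrank ℂ (V' k) ≤ finrank ℂ (V k) := fun k => Submodule.finrank_mono inf_le_right
    have IH := fun T => ih (∑ k ∈ A \ T, finrank ℂ (V' k)) (by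
      rw [← hn]
      exact (Finset.sum_le_sum_of_subset Finset.sdiff_subset).trans_lt (Finset.sum_lt_sum
        (fun k _ => dle k) ⟨k₀, hk₀, by rw [d1 k₀ k0O]; omega⟩)) (A \ T) V' rfl
    obtain ⟨s1, s2, s3, s4⟩ := strata' lcU (ty O V e) Finset.card ty_cl
    have emp : ∀ T, ¬ T ⊆ O → (U ×ˢ PP A V) ∩ ty O V e ⁻¹' {T} = ∅ := fun T hT =>
      eq_empty_of_forall_notMem fun y hy => hT fun k hk =>
        (mem_ty.1 ((show ty O V e y = T from hy.2).symm ▸ hk)).1
    have lc' := fun T => hU.prod (LC.of_compact (isCompact_PP (A \ T) V'))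
    have ce := fun T => cell (lc' T) ((k : K) → (if k ∈ T then V' k else ⊥ : Submodule ℂ _))
    have fd : FD U → ∀ T, FD ((U ×ˢ PP A V) ∩ ty O V e ⁻¹' {T}) := fun h T => by
      by_cases hT : T ⊆ O
      · exact ((tr_chm hU hO e1' e0' eV hT).fd (s1 T)).2 ((ce T).1 ((IH T).1 h))
      · rw [emp T hT]; exact fd_empty
    refine ⟨fun h => s2 (fd h), fun D h => s3 _ fun T => ?_, fun h σ hσ => ?_⟩
    · by_cases hT : T ⊆ O
      · refine ((tr_chm hU hO e1' e0' eV hT).vn (s1 T) _).2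
          (Sup.mono ((ce T).2.1 _ ((IH T).2.1 D h)) ?_)
        have fr : finrank ℂ ((k : K) → (if k ∈ T then V' k else ⊥ : Submodule ℂ _)) =
            ∑ k ∈ T, finrank ℂ (V' k) := by
          rw [finrank_pi_fintype, ← Finset.sum_subset (Finset.subset_univ T) fun k _ hk => by
            rw [if_neg hk]; simp]
          exact Finset.sum_congr rfl fun k hk => by rw [if_pos hk]
        refine le_trans (le_of_eq (congrArg (fun m : ℕ => _ + (m : ℤ)) fr)) ?_
        rw [← Finset.sum_sdiff (hT.trans hO), add_assoc]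
        push_cast
        gcongr with k hk k hk
        · exact dle k
        · rw [d1 k (hT hk)]; simp
      · rw [emp T hT]; exact vn_empty _
    have c0 : c ≠ 0 := by rw [← norm_ne_zero_iff, c1]; simp
    have hV' : ∀ k u, Lp l u ∈ V' k ↔ u ∈ V' (s k) := fun k u => by
      rw [mem_hyp, mem_hyp, hV, ← (Lp l).inner_map_map (e (s k)), ec, inner_smul_left]
      simp [c0]
    have pσ := hσ.prod (pres_PP hs hV)
    have sO : ∀ k, s k ∈ O ↔ k ∈ O := fun k => by simp [mO]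
    have tyact : ∀ y : X × (K → Mat Λ), ∀ k,
        k ∈ ty O V e (Prod.map σ (act s l) y) ↔ s k ∈ ty O V e y := fun y k => by
      rw [mem_ty, mem_ty, sO, ← mem_PV_act (hV' k)]; rfl
    have lefT : ∀ T, T ⊆ O → (∀ k, s k ∈ T ↔ k ∈ T) →
        Lef (Prod.map σ (act s l)) ((U ×ˢ PP A V) ∩ ty O V e ⁻¹' {T}) =
        Lef σ U * QP (Equiv.Perm.SameCycle.setoid s)
          fun k => if k ∈ A \ T then (finrank ℂ (V' k) : ℚ) else 1 := by
      intro T hT sT
      have sAT : ∀ k, s k ∈ A \ T ↔ k ∈ A \ T := fun k => by simp [hs, sT]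
      have p1 := hσ.prod (pres_PP sAT hV')
      have ng : ∀ w, ‖(c⁻¹ • Gm _ s l (ite_inv sT hV')) w‖ = ‖w‖ := fun w => by
        rw [LinearMap.smul_apply, norm_smul, norm_Gm, norm_inv, c1]; simp
      rw [← (IH T).2.2 h σ s l hσ sAT hV', ← (ce T).2.2 _ p1 _ ng]
      refine (tr_chm hU hO e1' e0' eV hT).lef (s1 T) ⟨pσ.1, fun y => and_congr (pσ.2 y) ?_⟩
        (p1.prod ⟨LinearMap.continuous_of_finiteDimensional _, fun w => by
          simp only [mem_ball_zero_iff, ng]⟩) fun y => Prod.ext rfl (funext fun k => ?_)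
      · simp only [mem_preimage, mem_singleton_iff, Finset.ext_iff, tyact]
        rw [← s.forall_congr_right (q := fun k => k ∈ ty O V e y ↔ k ∈ T)]
        simp only [sT]
      · by_cases hk : k ∈ T
        · change (if k ∈ T then pr (chv (e k) (c⁻¹ • Lp l (y.2 (s k)))) else _) =
            fun p q => (if s k ∈ T then pr (chv (e (s k)) (y.2 (s k))) else _) (l p) (l q)
          generalize (y.2 (s k) : Ev Λ) = w
          rw [if_pos hk, if_pos ((sT k).2 hk), ← pr_Lp, ← pr_smul c0]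
          congr 1
          rw [chv, chv, map_add, map_smul, ec, smul_add, smul_smul, mul_inv_cancel₀ c0, one_smul,
            norm_smul, norm_inv, c1, LinearIsometryEquiv.norm_map, smul_comm]
          simp
        · change (if k ∈ T then _ else act s l y.1.2 k) =
            fun p q => (if s k ∈ T then _ else y.1.2 (s k)) (l p) (l q)
          rw [if_neg hk, if_neg (mt (sT k).1 hk)]; rfl
    have hπ : ∀ T : Finset K, s.symm.finsetCongr T = T ↔ ∀ k, s k ∈ T ↔ k ∈ T := fun T => by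
      simp [Finset.ext_iff, Finset.mem_map_equiv]
    rw [s4 (fd h) _ s.symm.finsetCongr pσ (fun y _ => by
      ext k; rw [tyact]; simp [Finset.mem_map_equiv]) (fun T => by simp),
      Finset.sum_eq_add_of_mem ∅ O (by simp) (by exact Finset.mem_filter.2 ⟨Finset.mem_univ _, (hπ O).2 sO⟩)
        (Finset.ne_empty_of_mem k0O).symm fun T hT hT' => ?_,
      lefT ∅ (Finset.empty_subset _) (by simp), lefT O subset_rfl sO, ← mul_add]
    · congr 1
      have f : ∀ (a : ℚ) (g : K → ℚ), (∀ k ∈ O, g k = a) → QP (Equiv.Perm.SameCycle.setoid s) g =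
          a * QP (Equiv.Perm.SameCycle.setoid s) fun k => if k ∈ O then 1 else g k := by
        intro a g hg
        have := QP_single (ρ := Equiv.Perm.SameCycle.setoid s)
          (g := fun k => if k ∈ O then a else 1) k₀ (sameCycle_inv fun k => by simp only [sO])
          fun k => by
            by_cases hk : k ∈ O
            · exact Or.inr ((mO k).1 hk).symm
            · exact Or.inl (if_neg hk)
        rw [if_pos k0O] at this
        rw [← this, ← QP_mul]
        congr 1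
        funext k
        split_ifs with hk
        · rw [hg k hk, mul_one]
        · rw [one_mul]
      have dc : ∀ k ∈ O, finrank ℂ (V' k) = finrank ℂ (V' k₀) := fun k hk =>
        (sameCycle_inv (g := fun k => finrank ℂ (V' k)) (fun k => finrank_act (hV' k)) _ _
          ((mO k).1 hk)).symm
      rw [f (finrank ℂ (V' k₀)) _ fun k hk => by rw [if_pos (by simpa using hO hk), dc k hk],
        f (finrank ℂ (V' k₀) + 1) (fun k => if k ∈ A then (finrank ℂ (V k) : ℚ) else 1)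
          fun k hk => by rw [if_pos (hO hk), d1 k hk, dc k hk]; simp, add_mul, one_mul]
      congr 2
      · congr 1
        funext k
        by_cases hk : k ∈ O
        · simp [hk]
        · rw [d0 k hk]; simp [hk]
      · funext k
        by_cases hk : k ∈ O
        · simp [hk]
        · rw [d0 k hk]; simp [hk]
    · by_cases hTO : T ⊆ O
      · exfalso
        have sT := (hπ T).1 (Finset.mem_filter.1 hT).2
        obtain ⟨k, hk⟩ := Finset.nonempty_iff_ne_empty.2 hT'.1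
        refine hT'.2 (hTO.antisymm fun j hj => ?_)
        exact sameCycle_ind (p := (· ∈ T)) (((mO k).1 (hTO hk)).symm.trans ((mO j).1 hj)) hk
          fun k h => (sT k).2 h
      · rw [emp T hTO, lef_empty]
  obtain ⟨a, b, -⟩ := step 1 1 (fun _ => Iff.rfl) fun _ _ => Iff.rfl
  exact ⟨a, b, fun h σ s l h1 h2 h3 => (step s l h2 h3).2.2 h σ h1⟩

end Pool.Agent.Work.MP_6b5a33_co
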