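import Mathlib.LinearAlgebra.PID
import Mathlib.LinearAlgebra.FiniteDimensional.Lemmas
import Mathlib.Algebra.BigOperators.Finprod
import Mathlib.Algebra.Ring.NegOnePow
import Mathlib.Tactic

/-! Subquotients, graded complexes inside one module, long exact sequences and traces. -/

namespace Pool.Agent.Work.MP_6b5a33_co

open Module

section SQ
variable {M M' M'' : Type} [AddCommGroup M] [Module ℚ M] [AddCommGroup M'] [Module ℚ M']
  [AddCommGroup M''] [Module ℚ M'']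

/-- subquotient -/
def SQ (Z B : Submodule ℚ M) : Type := Z ⧸ B.submoduleOf Z

instance (Z B : Submodule ℚ M) : AddCommGroup (SQ Z B) :=
  inferInstanceAs (AddCommGroup (Z ⧸ B.submoduleOf Z))
instance (Z B : Submodule ℚ M) : Module ℚ (SQ Z B) :=
  inferInstanceAs (Module ℚ (Z ⧸ B.submoduleOf Z))

namespace SQ
variable {Z B : Submodule ℚ M} {Z' B' : Submodule ℚ M'} {Z'' B'' : Submodule ℚ M''}

def mkL (Z B : Submodule ℚ M) : Z →ₗ[ℚ] SQ Z B := (B.submoduleOf Z).mkQ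

def mk (B : Submodule ℚ M) (x : M) (hx : x ∈ Z) : SQ Z B := mkL Z B ⟨x, hx⟩

theorem mk_eq_zero {x : M} {hx : x ∈ Z} : mk B x hx = 0 ↔ x ∈ B :=
  Submodule.Quotient.mk_eq_zero _

theorem mk_eq_mk {x y : M} {hx : x ∈ Z} {hy : y ∈ Z} : mk B x hx = mk B y hy ↔ x - y ∈ B :=
  Submodule.Quotient.eq _

theorem ind {p : SQ Z B → Prop} (h : ∀ x hx, p (mk B x hx)) (a : SQ Z B) : p a := by
  obtain ⟨⟨x, hx⟩, rfl⟩ := (B.submoduleOf Z).mkQ_surjective a
  exact h x hx

def map (T : M →ₗ[ℚ] M') (hZ : ∀ x ∈ Z, T x ∈ Z') (hB : ∀ x ∈ Z, x ∈ B → T x ∈ B') :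
    SQ Z B →ₗ[ℚ] SQ Z' B' :=
  Submodule.mapQ _ _ (T.restrict hZ) (fun x hx => hB x.1 x.2 hx)

theorem map_mk (T : M →ₗ[ℚ] M') (hZ : ∀ x ∈ Z, T x ∈ Z') (hB : ∀ x ∈ Z, x ∈ B → T x ∈ B')
    (x : M) (hx : x ∈ Z) : map T hZ hB (mk B x hx) = mk B' (T x) (hZ x hx) := rfl

theorem subsingleton_iff : Subsingleton (SQ Z B) ↔ ∀ x ∈ Z, x ∈ B := by
  constructor
  · intro h x hx
    exact (mk_eq_zero (hx := hx)).1 (Subsingleton.elim _ _)
  · intro h
    refine ⟨fun a b => ?_⟩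
    induction a using ind with | _ x hx
    induction b using ind with | _ y hy
    exact mk_eq_mk.2 (B.sub_mem (h x hx) (h y hy))

theorem mk_add (x y : M) (hx : x ∈ Z) (hy : y ∈ Z) :
    mk B (x + y) (Z.add_mem hx hy) = mk B x hx + mk B y hy :=
  (mkL Z B).map_add ⟨x, hx⟩ ⟨y, hy⟩

end SQ

open Classical in
/-- trace of the restriction to an invariant subspace -/
noncomputable def rtr (S : Submodule ℚ M) (b : M →ₗ[ℚ] M) : ℚ :=
  if h : ∀ x ∈ S, b x ∈ S then LinearMap.trace ℚ S (b.restrict h) else 0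

theorem rtr_of_subsingleton [Subsingleton M] (S : Submodule ℚ M) (b : M →ₗ[ℚ] M) :
    rtr S b = 0 := by
  unfold rtr
  split_ifs with h
  · rw [Subsingleton.elim (b.restrict h) 0, map_zero]
  · rfl

theorem trace_of_subsingleton [Subsingleton M] (b : M →ₗ[ℚ] M) : LinearMap.trace ℚ M b = 0 := by
  rw [Subsingleton.elim b 0, map_zero]

theorem trace_exact [Module.Finite ℚ M'] (f : M →ₗ[ℚ] M') (g : M' →ₗ[ℚ] M'')
    (hex : Function.Exact f g) (b : M' →ₗ[ℚ] M') (c : M'' →ₗ[ℚ] M'')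
    (hg : ∀ x, g (b x) = c (g x)) :
    LinearMap.trace ℚ M' b = rtr (LinearMap.range f) b + rtr (LinearMap.range g) c := by
  have hker : LinearMap.range f = LinearMap.ker g := (LinearMap.exact_iff.1 hex).symm
  have h1 : ∀ x ∈ LinearMap.range f, b x ∈ LinearMap.range f := by
    intro x hx
    rw [hker, LinearMap.mem_ker] at hx ⊢
    rw [hg, hx, map_zero]
  have h2 : ∀ x ∈ LinearMap.range g, c x ∈ LinearMap.range g := by
    rintro _ ⟨x, rfl⟩
    exact ⟨b x, hg x⟩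
  unfold rtr
  rw [dif_pos h1, dif_pos h2]
  obtain ⟨s, hs⟩ := g.rangeRestrict.exists_rightInverse_of_surjective g.range_rangeRestrict
  have hs' : ∀ y : LinearMap.range g, g (s y) = y := fun y =>
    congrArg Subtype.val (LinearMap.congr_fun hs y)
  haveI : Module.Finite ℚ (LinearMap.range g) := Module.Finite.range g
  have e1 : b = b ∘ₗ (LinearMap.id - s ∘ₗ g.rangeRestrict) + (b ∘ₗ s) ∘ₗ g.rangeRestrict := by
    ext x; simp
  have hm : ∀ x, (b ∘ₗ (LinearMap.id - s ∘ₗ g.rangeRestrict)) x ∈ LinearMap.range f := by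
    intro x
    apply h1
    rw [hker, LinearMap.mem_ker]
    simp [hs']
  conv_lhs => rw [e1, map_add]
  congr 1
  · rw [← LinearMap.trace_restrict_eq_of_forall_mem _ _ hm]
    congr 1
    ext ⟨x, hx⟩
    have hx0 : g.rangeRestrict x = 0 := by
      rw [hker, LinearMap.mem_ker] at hx
      exact Subtype.ext hx
    simp [LinearMap.restrict_apply, hx0]
  · rw [LinearMap.trace_comp_comm']
    congr 1
    ext y
    simp [LinearMap.restrict_apply, hg, hs']

theorem finite_exact [Module.Finite ℚ M] [Module.Finite ℚ M''] (f : M →ₗ[ℚ] M')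
    (g : M' →ₗ[ℚ] M'') (hex : Function.Exact f g) : Module.Finite ℚ M' := by
  have hker : LinearMap.ker g = LinearMap.range f := LinearMap.exact_iff.1 hex
  haveI : Module.Finite ℚ (LinearMap.range f) := Module.Finite.range f
  haveI : Module.Finite ℚ (M' ⧸ LinearMap.range f) := by
    rw [← hker]
    exact Module.Finite.equiv g.quotKerEquivRange.symm
  exact Module.Finite.of_submodule_quotient (LinearMap.range f)

theorem subsingleton_exact [Subsingleton M] [Subsingleton M''] (f : M →ₗ[ℚ] M')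
    (g : M' →ₗ[ℚ] M'') (hex : Function.Exact f g) : Subsingleton M' := by
  refine subsingleton_of_forall_eq 0 fun x => ?_
  obtain ⟨y, rfl⟩ := (hex x).1 (Subsingleton.elim _ _)
  rw [Subsingleton.elim y 0, map_zero]

theorem trace_of_bij (e : M →ₗ[ℚ] M') (he : Function.Bijective e) (a : M →ₗ[ℚ] M)
    (b : M' →ₗ[ℚ] M') (h : ∀ x, e (a x) = b (e x)) :
    LinearMap.trace ℚ M a = LinearMap.trace ℚ M' b := by
  rw [← LinearMap.trace_conj' a (LinearEquiv.ofBijective e he)]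
  congr 1
  ext y
  obtain ⟨x, rfl⟩ := he.2 y
  rw [LinearEquiv.conj_apply]
  have : (LinearEquiv.ofBijective e he).symm (e x) = x :=
    (LinearEquiv.ofBijective e he).symm_apply_apply x
  simp [this, h]

end SQ

/-- a bounded below graded complex inside one module -/
structure Cx (M : Type) [AddCommGroup M] [Module ℚ M] where
  d : M →ₗ[ℚ] M
  G : ℤ → Submodule ℚ M
  dd : ∀ x, d (d x) = 0
  dG : ∀ p x, x ∈ G p → d x ∈ G (p + 1)

namespace Cx
variable {M M' M'' : Type} [AddCommGroup M] [Module ℚ M] [AddCommGroup M'] [Module ℚ M']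
  [AddCommGroup M''] [Module ℚ M'']
variable (K : Cx M)

def Zc (P Q : Submodule ℚ M) (p : ℤ) : Submodule ℚ M := K.G p ⊓ Q ⊓ P.comap K.d
def Bc (P Q : Submodule ℚ M) (p : ℤ) : Submodule ℚ M := P ⊔ (K.G (p - 1) ⊓ Q).map K.d

theorem mem_Zc {P Q : Submodule ℚ M} {p : ℤ} {x : M} :
    x ∈ K.Zc P Q p ↔ x ∈ K.G p ∧ x ∈ Q ∧ K.d x ∈ P := by
  simp [Zc, and_assoc]

theorem mem_Bc {P Q : Submodule ℚ M} {p : ℤ} {x : M} :
    x ∈ K.Bc P Q p ↔ ∃ y, y ∈ K.G (p - 1) ∧ y ∈ Q ∧ x - K.d y ∈ P := by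
  unfold Bc
  rw [Submodule.mem_sup]
  constructor
  · rintro ⟨a, ha, _, ⟨y, hy, rfl⟩, rfl⟩
    exact ⟨y, hy.1, hy.2, by simpa using ha⟩
  · rintro ⟨y, h1, h2, h3⟩
    exact ⟨_, h3, _, ⟨y, ⟨h1, h2⟩, rfl⟩, by simp⟩

/-- cohomology of Q / P -/
abbrev H (P Q : Submodule ℚ M) (p : ℤ) : Type := SQ (K.Zc P Q p) (K.Bc P Q p)

/-- chain maps -/
structure IsCh (K : Cx M) (K' : Cx M') (T : M →ₗ[ℚ] M') : Prop where
  comm : ∀ x, K'.d (T x) = T (K.d x)
  deg : ∀ p x, x ∈ K.G p → T x ∈ K'.G p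

variable {K}

theorem IsCh.id : IsCh K K LinearMap.id := ⟨fun _ => rfl, fun _ _ h => h⟩

def hmap {K' : Cx M'} {T : M →ₗ[ℚ] M'} (hT : IsCh K K' T) {P Q : Submodule ℚ M}
    {P' Q' : Submodule ℚ M'} (hP : ∀ x ∈ P, T x ∈ P') (hQ : ∀ x ∈ Q, T x ∈ Q') (p : ℤ) :
    K.H P Q p →ₗ[ℚ] K'.H P' Q' p :=
  SQ.map T (fun x hx => by
      rw [mem_Zc] at hx ⊢
      exact ⟨hT.deg _ _ hx.1, hQ _ hx.2.1, by rw [hT.comm]; exact hP _ hx.2.2⟩)
    (fun x _ hx => by
      rw [mem_Bc] at hx ⊢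
      obtain ⟨y, h1, h2, h3⟩ := hx
      exact ⟨T y, hT.deg _ _ h1, hQ _ h2, by rw [hT.comm, ← map_sub]; exact hP _ h3⟩)

theorem hmap_mk {K' : Cx M'} {T : M →ₗ[ℚ] M'} (hT : IsCh K K' T) {P Q : Submodule ℚ M}
    {P' Q' : Submodule ℚ M'} (hP : ∀ x ∈ P, T x ∈ P') (hQ : ∀ x ∈ Q, T x ∈ Q') (p : ℤ)
    (x : M) (hx : x ∈ K.Zc P Q p) :
    ∃ h, hmap hT hP hQ p (SQ.mk _ x hx) = SQ.mk _ (T x) h := ⟨_, rfl⟩

section LES
variable {P Q R : Submodule ℚ M} (hPQ : P ≤ Q) (hQR : Q ≤ R)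

def li (P : Submodule ℚ M) (hQR : Q ≤ R) (p : ℤ) : K.H P Q p →ₗ[ℚ] K.H P R p :=
  hmap IsCh.id (fun _ h => h) (fun _ h => hQR h) p

def lj (hPQ : P ≤ Q) (R : Submodule ℚ M) (p : ℤ) : K.H P R p →ₗ[ℚ] K.H Q R p :=
  hmap IsCh.id (fun _ h => hPQ h) (fun _ h => h) p

def ld (P : Submodule ℚ M) (Q R : Submodule ℚ M) (p : ℤ) :
    K.H Q R p →ₗ[ℚ] K.H P Q (p + 1) :=
  SQ.map K.d (fun x hx => by
      rw [mem_Zc] at hx ⊢
      exact ⟨K.dG _ _ hx.1, hx.2.2, by rw [K.dd]; exact P.zero_mem⟩)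
    (fun x hz hx => by
      rw [mem_Zc] at hz
      rw [mem_Bc] at hx ⊢
      obtain ⟨y, h1, h2, h3⟩ := hx
      refine ⟨x - K.d y, ?_, h3, by simp [K.dd]⟩
      have := K.dG _ _ h1
      rw [sub_add_cancel] at this
      rw [add_sub_cancel_right]
      exact Submodule.sub_mem _ hz.1 this)

theorem exact_ij (p : ℤ) : Function.Exact (li (K := K) P hQR p) (lj hPQ R p) := by
  intro a
  induction a using SQ.ind with | _ x hx
  have hx' := K.mem_Zc.1 hx
  constructor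
  · intro h
    obtain ⟨y, h1, h2, h3⟩ := K.mem_Bc.1 (SQ.mk_eq_zero.1 h)
    have hg := K.dG _ _ h1
    rw [sub_add_cancel] at hg
    refine ⟨SQ.mk _ (x - K.d y) (K.mem_Zc.2 ⟨Submodule.sub_mem _ hx'.1 hg, h3, ?_⟩), ?_⟩
    · simpa [K.dd] using hx'.2.2
    · refine SQ.mk_eq_mk.2 (K.mem_Bc.2 ⟨-y, Submodule.neg_mem _ h1, Submodule.neg_mem _ h2, ?_⟩)
      simp
  · rintro ⟨b, hb⟩
    rw [← hb]
    induction b using SQ.ind with | _ y hy
    refine SQ.mk_eq_zero.2 (K.mem_Bc.2 ⟨0, Submodule.zero_mem _, Submodule.zero_mem _, ?_⟩)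
    simpa using (K.mem_Zc.1 hy).2.1

include hQR in
theorem exact_jd (p : ℤ) : Function.Exact (lj (K := K) hPQ R p) (ld P Q R p) := by
  intro a
  induction a using SQ.ind with | _ x hx
  have hx' := K.mem_Zc.1 hx
  constructor
  · intro h
    obtain ⟨y, h1, h2, h3⟩ := K.mem_Bc.1 (SQ.mk_eq_zero.1 h)
    rw [add_sub_cancel_right] at h1
    refine ⟨SQ.mk _ (x - y) (K.mem_Zc.2 ⟨Submodule.sub_mem _ hx'.1 h1,
      Submodule.sub_mem _ hx'.2.1 (hQR h2), by simpa using h3⟩), ?_⟩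
    refine SQ.mk_eq_mk.2 (K.mem_Bc.2 ⟨0, Submodule.zero_mem _, Submodule.zero_mem _, ?_⟩)
    simpa using h2
  · rintro ⟨b, hb⟩
    rw [← hb]
    induction b using SQ.ind with | _ y hy
    refine SQ.mk_eq_zero.2 (K.mem_Bc.2 ⟨0, Submodule.zero_mem _, Submodule.zero_mem _, ?_⟩)
    simpa using (K.mem_Zc.1 hy).2.2

include hPQ in
theorem exact_di (p : ℤ) : Function.Exact (ld (K := K) P Q R p) (li P hQR (p + 1)) := by
  intro a
  induction a using SQ.ind with | _ x hx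
  have hx' := K.mem_Zc.1 hx
  constructor
  · intro h
    obtain ⟨y, h1, h2, h3⟩ := K.mem_Bc.1 (SQ.mk_eq_zero.1 h)
    rw [add_sub_cancel_right] at h1
    have h3' : x - K.d y ∈ P := h3
    have hq : K.d y ∈ Q := by
      have := Q.sub_mem hx'.2.1 (hPQ h3')
      simpa using this
    refine ⟨SQ.mk _ y (K.mem_Zc.2 ⟨h1, h2, hq⟩), ?_⟩
    refine SQ.mk_eq_mk.2 (K.mem_Bc.2 ⟨0, Submodule.zero_mem _, Submodule.zero_mem _, ?_⟩)
    simpa using P.neg_mem h3'
  · rintro ⟨b, hb⟩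
    rw [← hb]
    induction b using SQ.ind with | _ y hy
    have hy' := K.mem_Zc.1 hy
    refine SQ.mk_eq_zero.2 (K.mem_Bc.2 ⟨y, ?_, hy'.2.1, ?_⟩)
    · rw [add_sub_cancel_right]; exact hy'.1
    · simp

end LES

/-- finite total dimension -/
def Fin' (K : Cx M) (P Q : Submodule ℚ M) : Prop :=
  (∀ p, Module.Finite ℚ (K.H P Q p)) ∧ {p | ¬ Subsingleton (K.H P Q p)}.Finite

/-- Lefschetz number of a family of endomorphisms -/
noncomputable def lef {V : ℤ → Type} [∀ p, AddCommGroup (V p)] [∀ p, Module ℚ (V p)]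
    (a : ∀ p, V p →ₗ[ℚ] V p) : ℚ :=
  ∑ᶠ p : ℤ, ((p.negOnePow : ℤ) : ℚ) * LinearMap.trace ℚ (V p) (a p)

section LES2
variable {P Q R : Submodule ℚ M} (hPQ : P ≤ Q) (hQR : Q ≤ R)
include hPQ hQR

theorem fin_mid (h1 : K.Fin' P Q) (h2 : K.Fin' Q R) : K.Fin' P R := by
  refine ⟨fun p => ?_, (h1.2.union h2.2).subset fun p hp => ?_⟩
  · haveI := h1.1 p; haveI := h2.1 p
    exact finite_exact _ _ (exact_ij hPQ hQR p)
  · by_contra hc
    simp only [Set.mem_union, Set.mem_ofPred_eq, not_or, not_not] at hc hp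
    haveI := hc.1; haveI := hc.2
    exact hp (subsingleton_exact _ _ (exact_ij hPQ hQR p))

theorem fin_right (h1 : K.Fin' P Q) (h2 : K.Fin' P R) : K.Fin' Q R := by
  refine ⟨fun p => ?_, ((h1.2.image (· - 1)).union h2.2).subset fun p hp => ?_⟩
  · haveI := h1.1 (p + 1); haveI := h2.1 p
    exact finite_exact _ _ (exact_jd hPQ hQR p)
  · by_contra hc
    simp only [Set.mem_union, Set.mem_ofPred_eq, not_or, not_not, Set.mem_image, not_exists,
      not_and] at hc hp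
    haveI : Subsingleton (K.H P Q (p + 1)) := by
      by_contra h
      exact hc.1 _ h (by ring)
    haveI := hc.2
    exact hp (subsingleton_exact _ _ (exact_jd hPQ hQR p))

theorem fin_left (h1 : K.Fin' Q R) (h2 : K.Fin' P R) : K.Fin' P Q := by
  refine ⟨fun p => ?_, ((h1.2.image (· + 1)).union h2.2).subset fun p hp => ?_⟩
  · obtain ⟨q, rfl⟩ : ∃ q, p = q + 1 := ⟨p - 1, by ring⟩
    haveI := h1.1 q; haveI := h2.1 (q + 1)
    exact finite_exact _ _ (exact_di hPQ hQR q)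
  · obtain ⟨q, rfl⟩ : ∃ q, p = q + 1 := ⟨p - 1, by ring⟩
    by_contra hc
    simp only [Set.mem_union, Set.mem_ofPred_eq, not_or, not_not, Set.mem_image, not_exists,
      not_and] at hc hp
    haveI : Subsingleton (K.H Q R q) := by
      by_contra h
      exact hc.1 _ h rfl
    haveI := hc.2
    exact hp (subsingleton_exact _ _ (exact_di hPQ hQR q))

theorem lef_add (h1 : K.Fin' P Q) (h2 : K.Fin' Q R) {T : M →ₗ[ℚ] M} (hT : IsCh K K T)
    (tP : ∀ x ∈ P, T x ∈ P) (tQ : ∀ x ∈ Q, T x ∈ Q) (tR : ∀ x ∈ R, T x ∈ R) :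
    lef (hmap hT tP tR) = lef (hmap hT tP tQ) + lef (hmap hT tQ tR) := by
  have h3 := fin_mid hPQ hQR h1 h2
  set u : ℤ → ℚ := fun p => rtr (LinearMap.range (li (K := K) P hQR p)) (hmap hT tP tR p)
  set v : ℤ → ℚ := fun p => rtr (LinearMap.range (lj (K := K) hPQ R p)) (hmap hT tQ tR p)
  set w : ℤ → ℚ := fun p => rtr (LinearMap.range (ld (K := K) P Q R p)) (hmap hT tP tQ (p + 1))
  have eb : ∀ p, LinearMap.trace ℚ _ (hmap hT tP tR p) = u p + v p := fun p => by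
    haveI := h3.1 p
    refine trace_exact _ _ (exact_ij hPQ hQR p) _ _ fun x => ?_
    induction x using SQ.ind with | _ x hx
    rfl
  have ec : ∀ p, LinearMap.trace ℚ _ (hmap hT tQ tR p) = v p + w p := fun p => by
    haveI := h2.1 p
    refine trace_exact _ _ (exact_jd hPQ hQR p) _ _ fun x => ?_
    induction x using SQ.ind with | _ x hx
    refine SQ.mk_eq_mk.2 ?_
    change K.d (T x) - T (K.d x) ∈ _
    rw [hT.comm, sub_self]; exact Submodule.zero_mem _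
  have ea : ∀ p, LinearMap.trace ℚ _ (hmap hT tP tQ (p + 1)) = w p + u (p + 1) := fun p => by
    haveI := h1.1 (p + 1)
    refine trace_exact _ _ (exact_di hPQ hQR p) _ _ fun x => ?_
    induction x using SQ.ind with | _ x hx
    rfl
  set s : ℤ → ℚ := fun p => ((p.negOnePow : ℤ) : ℚ)
  have hs : ∀ p, s (p + 1) = - s p := fun p => by
    simp only [s]; rw [Int.negOnePow_succ]; simp
  have fu : (Function.support fun p => s p * u p).Finite := h3.2.subset fun p hp => by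
    intro hc; apply hp; simp only [u]; rw [rtr_of_subsingleton, mul_zero]
  have fv : (Function.support fun p => s p * v p).Finite := h2.2.subset fun p hp => by
    intro hc; apply hp; simp only [v]; rw [rtr_of_subsingleton, mul_zero]
  have fw : (Function.support fun p => s p * w p).Finite :=
    (h1.2.image (· - 1)).subset fun p hp => by
      refine ⟨p + 1, fun hc => ?_, by simp⟩
      apply hp; simp only [w]; rw [rtr_of_subsingleton, mul_zero]
  have fu' : (Function.support fun p => s (p + 1) * u (p + 1)).Finite :=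
    (fu.image (· - 1)).subset fun p hp => ⟨p + 1, hp, by simp⟩
  have fw' : (Function.support fun p => - (s p * w p)).Finite := by
    simpa using fw
  unfold lef
  have A : ∑ᶠ p : ℤ, s p * LinearMap.trace ℚ _ (hmap hT tP tQ p) =
      - (∑ᶠ p, s p * w p) + ∑ᶠ p, s p * u p := by
    rw [← finsum_comp_equiv (Equiv.addRight (1 : ℤ)),
      ← finsum_comp_equiv (Equiv.addRight (1 : ℤ)) (f := fun p => s p * u p), ← finsum_neg_distrib]
    change ∑ᶠ p : ℤ, s (p + 1) * LinearMap.trace ℚ _ (hmap hT tP tQ (p + 1)) =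
      ∑ᶠ p : ℤ, - (s p * w p) + ∑ᶠ p : ℤ, s (p + 1) * u (p + 1)
    rw [← finsum_add_distrib fw' fu']
    refine finsum_congr fun p => ?_
    rw [ea, hs]; ring
  have B : ∑ᶠ p : ℤ, s p * LinearMap.trace ℚ _ (hmap hT tP tR p) =
      (∑ᶠ p, s p * u p) + ∑ᶠ p, s p * v p := by
    rw [← finsum_add_distrib fu fv]
    exact finsum_congr fun p => by rw [eb]; ring
  have C : ∑ᶠ p : ℤ, s p * LinearMap.trace ℚ _ (hmap hT tQ tR p) =
      (∑ᶠ p, s p * v p) + ∑ᶠ p, s p * w p := by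
    rw [← finsum_add_distrib fv fw]
    exact finsum_congr fun p => by rw [ec]; ring
  change ∑ᶠ p : ℤ, s p * _ = ∑ᶠ p : ℤ, s p * _ + ∑ᶠ p : ℤ, s p * _
  rw [A, B, C]; ring

end LES2

end Cx

end Pool.Agent.Work.MP_6b5a33_co
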