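import Pool.Agent.Work.MP_6b5a33_co.QP

/-! Weights of invariant partitions. -/

namespace Pool.Agent.Work.MP_6b5a33_co

open Finset

variable {I : Type} [Fintype I] [DecidableEq I]

instance finSetoid : Finite (Setoid I) :=
  Finite.of_injective (fun r : Setoid I => r.r) fun _ _ h => Setoid.ext fun a b =>
    iff_of_eq (congrFun (congrFun h a) b)

noncomputable instance ftSetoid : Fintype (Setoid I) := Fintype.ofFinite _

/-- invariant equivalence relations -/
def Inv (σ : Equiv.Perm I) (π : Setoid I) : Prop := ∀ i j, π (σ i) (σ j) ↔ π i j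

theorem inv_bot (σ : Equiv.Perm I) : Inv σ ⊥ := fun _ _ => σ.injective.eq_iff

theorem inv_top (σ : Equiv.Perm I) : Inv σ ⊤ := fun _ _ => Iff.rfl

open Classical in
/-- block of a point -/
noncomputable def blk (π : Setoid I) (i : I) : Finset I := univ.filter (π i)

theorem mem_blk {π : Setoid I} {i j : I} : j ∈ blk π i ↔ π i j := by simp [blk]

theorem self_mem_blk (π : Setoid I) (i : I) : i ∈ blk π i := mem_blk.2 (π.refl i)

theorem blk_eq {π : Setoid I} {i j : I} : blk π i = blk π j ↔ π i j := by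
  refine ⟨fun h => mem_blk.1 (h ▸ self_mem_blk π j), fun h => ?_⟩
  ext k
  rw [mem_blk, mem_blk]
  exact ⟨π.trans (π.symm h), π.trans h⟩

theorem Inv.blk {σ : Equiv.Perm I} {π : Setoid I} (h : Inv σ π) (i : I) :
    σ.finsetCongr (blk π i) = blk π (σ i) := by
  ext j
  obtain ⟨j, rfl⟩ := σ.surjective j
  simp [mem_blk, h i j]

open Classical in
/-- number of classes meeting a set -/
noncomputable def cnt (ρ : Setoid I) (B : Finset I) : ℕ := (B.image (Quotient.mk ρ)).card

theorem cnt_map {J : Type} [Fintype J] [DecidableEq J] {ρ : Setoid I} {ρ' : Setoid J} (e : J ↪ I)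
    (h : ∀ a b, ρ (e a) (e b) ↔ ρ' a b) (B : Finset J) : cnt ρ (B.map e) = cnt ρ' B := by
  classical
  symm
  refine card_bij (fun q _ => Quotient.map' e (fun a b hab => (h a b).2 hab) q) ?_ ?_ ?_
  · intro q hq
    obtain ⟨a, ha, rfl⟩ := mem_image.1 hq
    exact mem_image.2 ⟨e a, mem_map_of_mem _ ha, rfl⟩
  · intro q _ q' _ hh
    induction q using Quotient.ind
    induction q' using Quotient.ind
    exact Quotient.sound ((h _ _).1 (Quotient.exact hh))
  · intro q hq
    obtain ⟨a, ha, rfl⟩ := mem_image.1 hq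
    obtain ⟨b, hb, rfl⟩ := mem_map.1 ha
    exact ⟨Quotient.mk _ b, mem_image.2 ⟨b, hb, rfl⟩, rfl⟩

theorem cnt_blk (π : Setoid I) (i : I) : cnt π (blk π i) = 1 := by
  classical
  refine card_eq_one.2 ⟨Quotient.mk π i, ?_⟩
  ext q
  simp only [mem_image, mem_blk, mem_singleton]
  exact ⟨fun ⟨j, hj, e⟩ => e ▸ Quotient.sound (π.symm hj), fun e => ⟨i, π.refl i, e.symm⟩⟩

theorem cnt_univ (ρ : Setoid I) : cnt ρ univ = Nat.card (Quotient ρ) := by
  classical
  rw [cnt, image_univ_of_surjective Quotient.mk_surjective, Nat.card_eq_fintype_card, card_univ]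

/-- orbits of blocks -/
noncomputable def orb (σ : Equiv.Perm I) (π : Setoid I) : Setoid I :=
  (Equiv.Perm.SameCycle.setoid σ.finsetCongr).comap (blk π)

/-- local factor -/
noncomputable def fac (ρ : Setoid I) (B : Finset I) : ℚ :=
  if 2 ≤ B.card then (cnt ρ B : ℚ) - 1 else 1

theorem Inv.fac {σ : Equiv.Perm I} {ρ : Setoid I} (h : Inv σ ρ) (B : Finset I) :
    fac ρ (σ.finsetCongr B) = fac ρ B := by
  unfold MP_6b5a33_co.fac
  rw [Equiv.finsetCongr_apply, card_map, cnt_map σ.toEmbedding h]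

/-- Lefschetz number on a product of projective spaces -/
noncomputable def nu (σ : Equiv.Perm I) (π ρ : Setoid I) : ℚ :=
  QP (orb σ π) fun i => fac ρ (blk π i)

open Classical in
/-- weight of an invariant partition -/
noncomputable def wt (σ : Equiv.Perm I) : Setoid I → ℚ :=
  (wellFounded_lt (α := Setoid I)).fix fun π ih => if π = ⊥ then 1 else
    ∑ ρ : Setoid I, if h : ρ < π ∧ Inv σ ρ then ih ρ h.1 * (nu σ π ρ - 1) else 0

open Classical in
theorem wt_eq (σ : Equiv.Perm I) (π : Setoid I) : wt σ π = if π = ⊥ then 1 else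
    ∑ ρ with ρ < π ∧ Inv σ ρ, wt σ ρ * (nu σ π ρ - 1) := by
  rw [wt, WellFounded.fix_eq, sum_filter]
  rfl

theorem wt_bot (σ : Equiv.Perm I) : wt σ ⊥ = 1 := by rw [wt_eq, if_pos rfl]

theorem blk_bot (i : I) : blk (⊥ : Setoid I) i = {i} := by
  ext j; rw [mem_blk, mem_singleton]; exact eq_comm

theorem nu_bot (σ : Equiv.Perm I) (ρ : Setoid I) : nu σ ⊥ ρ = 1 := by
  simp [nu, blk_bot, fac, QP_one]

theorem exists_big {π : Setoid I} (h : π ≠ ⊥) : ∃ i, 2 ≤ (blk π i).card := by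
  by_contra hc
  push Not at hc
  refine h (le_bot_iff.1 fun i j hij => ?_)
  exact card_le_one.1 (Nat.lt_succ_iff.1 (hc i)) _ (self_mem_blk π i) _ (mem_blk.2 hij)

theorem nu_self {σ : Equiv.Perm I} {π : Setoid I} (hπ : Inv σ π) (h : π ≠ ⊥) : nu σ π π = 0 := by
  obtain ⟨i, hi⟩ := exists_big h
  exact QP_zero i (fun a b hab => sameCycle_inv hπ.fac _ _ hab) (by simp [fac, hi, cnt_blk])

open Classical in
theorem sum_le_split {σ : Equiv.Perm I} {π : Setoid I} (hπ : Inv σ π) (f : Setoid I → ℚ) :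
    ∑ ρ with ρ ≤ π ∧ Inv σ ρ, f ρ = f π + ∑ ρ with ρ < π ∧ Inv σ ρ, f ρ := by
  rw [← sum_insert (by simp)]
  congr 1
  ext ρ
  simp only [mem_filter, mem_univ, true_and, mem_insert, le_iff_eq_or_lt]
  constructor
  · rintro ⟨h | h, h'⟩
    · exact Or.inl h
    · exact Or.inr ⟨h, h'⟩
  · rintro (rfl | h)
    · exact ⟨Or.inl rfl, hπ⟩
    · exact ⟨Or.inr h.1, h.2⟩

open Classical in
theorem wt_sum {σ : Equiv.Perm I} {π : Setoid I} (hπ : Inv σ π) :
    ∑ ρ with ρ ≤ π ∧ Inv σ ρ, wt σ ρ * (nu σ π ρ - 1) = 0 := by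
  rw [sum_le_split hπ]
  by_cases h : π = ⊥
  · subst h; simp [nu_bot]
  · rw [nu_self hπ h, wt_eq σ π, if_neg h]; ring

open Classical in
/-- total weight below a partition -/
noncomputable def lam (σ : Equiv.Perm I) (π : Setoid I) : ℚ := ∑ ρ with ρ ≤ π ∧ Inv σ ρ, wt σ ρ

open Classical in
theorem lam_eq {σ : Equiv.Perm I} {π : Setoid I} (hπ : Inv σ π) :
    lam σ π = ∑ ρ with ρ ≤ π ∧ Inv σ ρ, wt σ ρ * nu σ π ρ := by
  have := wt_sum hπ
  simp only [mul_sub, mul_one, sum_sub_distrib] at this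
  exact (sub_eq_zero.1 this).symm

end Pool.Agent.Work.MP_6b5a33_co
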