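import Pool.Agent.Work.MP_6b5a33_co.Proj
import Pool.Agent.Work.MP_6b5a33_co.Wt

/-! Spaces of compatible screens. -/

namespace Pool.Agent.Work.MP_6b5a33_co

open Topology Set Metric Module

variable {I : Type} [Fintype I] [DecidableEq I]

/-- difference vectors on `S` vanishing along `π` -/
def VS (S : Finset I) (π : Setoid I) : Submodule ℂ (Ev (I × I)) where
  carrier := {u | (∀ i j, ¬ (i ∈ S ∧ j ∈ S) → u (i, j) = 0) ∧
    (∀ i ∈ S, ∀ j ∈ S, ∀ k ∈ S, u (i, j) + u (j, k) = u (i, k)) ∧ ∀ i j, π i j → u (i, j) = 0}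
  add_mem' {u v} hu hv := ⟨fun i j h => by simp [hu.1 i j h, hv.1 i j h],
    fun i hi j hj k hk => by
      simp only [PiLp.add_apply, ← hu.2.1 i hi j hj k hk, ← hv.2.1 i hi j hj k hk]; ring,
    fun i j h => by simp [hu.2.2 i j h, hv.2.2 i j h]⟩
  zero_mem' := ⟨fun _ _ _ => rfl, fun _ _ _ _ _ _ => by simp, fun _ _ _ => rfl⟩
  smul_mem' c u hu := ⟨fun i j h => by simp [hu.1 i j h],
    fun i hi j hj k hk => by
      simp only [PiLp.smul_apply, ← hu.2.1 i hi j hj k hk, smul_eq_mul]; ring,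
    fun i j h => by simp [hu.2.2 i j h]⟩

theorem mem_VS {S : Finset I} {π : Setoid I} {u : Ev (I × I)} : u ∈ VS S π ↔
    (∀ i j, ¬ (i ∈ S ∧ j ∈ S) → u (i, j) = 0) ∧
    (∀ i ∈ S, ∀ j ∈ S, ∀ k ∈ S, u (i, j) + u (j, k) = u (i, k)) ∧ ∀ i j, π i j → u (i, j) = 0 :=
  Iff.rfl

/-- restriction to a subset -/
def res (T : Finset I) : Ev (I × I) →ₗ[ℂ] Ev (I × I) where
  toFun u := WithLp.toLp 2 fun p => if p.1 ∈ T ∧ p.2 ∈ T then u p else 0
  map_add' u v := by ext p; simp only [PiLp.add_apply]; split_ifs <;> simp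
  map_smul' c u := by ext p; simp only [PiLp.smul_apply, RingHom.id_apply]; split_ifs <;> simp

theorem res_apply (T : Finset I) (u : Ev (I × I)) (p : I × I) :
    res T u p = if p.1 ∈ T ∧ p.2 ∈ T then u p else 0 := rfl

theorem res_eq_zero {T : Finset I} {u : Ev (I × I)} :
    res T u = 0 ↔ ∀ i ∈ T, ∀ j ∈ T, u (i, j) = 0 := by
  constructor
  · intro h i hi j hj
    have := congrArg (fun v : Ev (I × I) => v (i, j)) h
    simpa [res_apply, hi, hj] using this
  · intro h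
    ext p
    rw [res_apply]
    split_ifs with hp
    · exact h _ hp.1 _ hp.2
    · rfl

theorem res_res {T S : Finset I} (h : T ⊆ S) (u : Ev (I × I)) : res T (res S u) = res T u := by
  ext p
  simp only [res_apply]
  split_ifs with h1 h2
  · rfl
  · exact absurd ⟨h h1.1, h h1.2⟩ h2
  · rfl

theorem res_comm (T S : Finset I) (u : Ev (I × I)) : res T (res S u) = res S (res T u) := by
  ext p
  simp only [res_apply]
  split_ifs <;> rfl

theorem res_self {S : Finset I} {π : Setoid I} {u : Ev (I × I)} (h : u ∈ VS S π) :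
    res S u = u := by
  ext p
  rw [res_apply]
  split_ifs with hp
  · rfl
  · exact (h.1 _ _ hp).symm

theorem res_mem {T S : Finset I} {π : Setoid I} {u : Ev (I × I)} (h : u ∈ VS S π) (hT : T ⊆ S) :
    res T u ∈ VS T π := by
  refine ⟨fun i j hij => if_neg hij, fun i hi j hj k hk => ?_, fun i j hij => ?_⟩
  · simp only [res_apply, hi, hj, hk, and_self, if_true]
    exact h.2.1 i (hT hi) j (hT hj) k (hT hk)
  · rw [res_apply, h.2.2 i j hij, ite_self]

theorem res_union {S T : Finset I} {π : Setoid I} {u : Ev (I × I)} (h : u ∈ VS (S ∪ T) π)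
    {t : I} (h1 : t ∈ S) (h2 : t ∈ T) (e1 : res S u = 0) (e2 : res T u = 0) : u = 0 := by
  rw [← res_self h]
  rw [res_eq_zero] at e1 e2 ⊢
  intro i hi j hj
  rw [← h.2.1 i hi t (Finset.mem_union_left _ h1) j hj]
  rcases Finset.mem_union.1 hi with hi | hi <;> rcases Finset.mem_union.1 hj with hj | hj <;>
    simp [*]

theorem mem_PV_VS {T : Finset I} {π ρ : Setoid I} (h : π ≤ ρ) {M : Mat (I × I)} :
    M ∈ PV (VS T ρ) ↔ M ∈ PV (VS T π) ∧ ∀ i j, ρ i j → M (i, j) (i, j) = 0 := by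
  constructor
  · rintro ⟨u, ⟨h1, h2⟩, rfl⟩
    exact ⟨⟨u, ⟨⟨h1.1, h1.2.1, fun i j hij => h1.2.2 i j (h hij)⟩, h2⟩, rfl⟩,
      fun i j hij => (pr_diag h2 _).2 (h1.2.2 i j hij)⟩
  · rintro ⟨⟨u, ⟨h1, h2⟩, rfl⟩, h3⟩
    exact ⟨u, ⟨⟨h1.1, h1.2.1, fun i j hij => (pr_diag h2 _).1 (h3 i j hij)⟩, h2⟩, rfl⟩

theorem finrank_VS {S : Finset I} (hS : S.Nonempty) (ρ : Setoid I) :
    finrank ℂ (VS S ρ) + 1 = cnt ρ S := by
  classical
  obtain ⟨s, hs⟩ := hS
  let Q := S.image (Quotient.mk ρ)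
  let c : ∀ i ∈ S, Q := fun i hi => ⟨Quotient.mk ρ i, Finset.mem_image_of_mem _ hi⟩
  let Φ : (Q → ℂ) →ₗ[ℂ] VS S ρ × ℂ :=
    { toFun := fun x => (⟨WithLp.toLp 2 fun p =>
          if h : p.1 ∈ S ∧ p.2 ∈ S then x (c _ h.1) - x (c _ h.2) else 0,
        fun i j h => dif_neg h, fun i hi j hj k hk => by simp [hi, hj, hk], fun i j h => by
          change (if h : i ∈ S ∧ j ∈ S then x (c _ h.1) - x (c _ h.2) else 0) = 0
          split_ifs with h'
          · rw [show c i h'.1 = c j h'.2 from Subtype.ext (Quotient.sound h), sub_self]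
          · rfl⟩, x (c s hs))
      map_add' := fun x y => by
        refine Prod.ext (Subtype.ext ?_) rfl
        ext p
        simp only [Prod.fst_add, Submodule.coe_add, PiLp.add_apply, Pi.add_apply]
        split_ifs <;> ring
      map_smul' := fun a x => by
        refine Prod.ext (Subtype.ext ?_) rfl
        ext p
        simp only [Prod.smul_fst, Submodule.coe_smul, PiLp.smul_apply, Pi.smul_apply,
          RingHom.id_apply, smul_eq_mul]
        split_ifs <;> ring }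
  have hb : Function.Bijective Φ := by
    constructor
    · rw [injective_iff_map_eq_zero]
      intro x hx
      funext ⟨q, hq⟩
      obtain ⟨i, hi, rfl⟩ := Finset.mem_image.1 hq
      have e1 : x (c s hs) = 0 := congrArg Prod.snd hx
      have e2 := congrArg (fun y : VS S ρ × ℂ => (y.1 : Ev (I × I)) (i, s)) hx
      simp only [Φ, LinearMap.coe_mk, AddHom.coe_mk, hi, hs, and_self, dite_true, e1, sub_zero]
        at e2
      exact e2
    · rintro ⟨⟨u, hu⟩, a⟩
      choose r hr1 hr2 using fun q : Q => Finset.mem_image.1 q.2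
      have e : ∀ i hi, u (r (c i hi), s) = u (i, s) := fun i hi => by
        rw [← hu.2.1 _ (hr1 _) i hi s hs, hu.2.2 _ _ (Quotient.exact (hr2 (c i hi))), zero_add]
      refine ⟨fun q => a + u (r q, s), Prod.ext (Subtype.ext ?_) ?_⟩
      · ext ⟨i, j⟩
        change (if h : i ∈ S ∧ j ∈ S then _ else 0) = u (i, j)
        split_ifs with h
        · simp only [e]
          rw [← hu.2.1 i h.1 j h.2 s hs]; ring
        · exact (hu.1 i j h).symm
      · change a + u (r (c s hs), s) = a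
        rw [e s hs, hu.2.2 s s (ρ.refl s), add_zero]
  have := (LinearEquiv.ofBijective Φ hb).finrank_eq
  rw [finrank_prod, finrank_self, finrank_fintype_fun_eq_card, Fintype.card_coe] at this
  exact this.symm

theorem Lp_VS {σ : Equiv.Perm I} {ρ : Setoid I} (h : Inv σ ρ) (S : Finset I) (u : Ev (I × I)) :
    Lp (σ.prodCongr σ) u ∈ VS S ρ ↔ u ∈ VS (σ.finsetCongr S) ρ := by
  simp only [mem_VS, Lp_apply, Equiv.prodCongr_apply, Prod.map_apply, Equiv.finsetCongr_apply,
    Finset.forall_mem_map, Equiv.coe_toEmbedding]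
  refine and_congr ?_ (and_congr Iff.rfl ?_)
  · exact σ.forall_congr fun i => σ.forall_congr fun j => by simp
  · exact σ.forall_congr fun i => σ.forall_congr fun j => by rw [h]

/-- compatibility of two screens -/
def Cmp (T : Finset I) (M M' : Mat (I × I)) : Prop := ∀ p q r s,
  (if p.1 ∈ T ∧ p.2 ∈ T then M p r else 0) * M' q s =
    (if q.1 ∈ T ∧ q.2 ∈ T then M q r else 0) * M' p s

theorem par_iff {Λ : Type} [Fintype Λ] {v u : Ev Λ} (hu : u ≠ 0) :
    (∀ p q, v p * u q = v q * u p) ↔ ∃ c : ℂ, v = c • u := by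
  constructor
  · intro h
    obtain ⟨q, hq⟩ := exists_ne_of_ne hu
    refine ⟨v q / u q, ?_⟩
    ext p
    simp only [PiLp.smul_apply, smul_eq_mul]
    rw [div_mul_eq_mul_div, eq_div_iff hq, h]
  · rintro ⟨c, rfl⟩ p q
    simp only [PiLp.smul_apply, smul_eq_mul]; ring

theorem cmp_iff {T : Finset I} {u v : Ev (I × I)} (hu : u ≠ 0) (hv : v ≠ 0) :
    Cmp T (pr u) (pr v) ↔ ∃ c : ℂ, res T u = c • v := by
  rw [← par_iff hv]
  have e : ∀ p r, (if p.1 ∈ T ∧ p.2 ∈ T then pr u p r else 0) =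
      res T u p * ((starRingEnd ℂ) (u r) / (‖u‖ : ℂ) ^ 2) := fun p r => by
    rw [res_apply]
    split_ifs
    · rw [pr, mul_div_assoc]
    · simp
  simp only [Cmp, e]
  constructor
  · intro h p q
    obtain ⟨r, hr⟩ := exists_ne_of_ne hu
    obtain ⟨s, hs⟩ := exists_ne_of_ne hv
    have h1 : (starRingEnd ℂ) (u r) / (‖u‖ : ℂ) ^ 2 ≠ 0 :=
      div_ne_zero (by simpa using hr) (nrm_ne hu)
    have h2 : (starRingEnd ℂ) (v s) / (‖v‖ : ℂ) ^ 2 ≠ 0 :=
      div_ne_zero (by simpa using hs) (nrm_ne hv)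
    have := h p q r s
    simp only [pr, mul_div_assoc] at this
    refine mul_right_cancel₀ (mul_ne_zero h1 h2) ?_
    linear_combination this
  · intro h p q r s
    simp only [pr, mul_div_assoc]
    linear_combination (h p q) * ((starRingEnd ℂ) (u r) / (‖u‖ : ℂ) ^ 2) *
      ((starRingEnd ℂ) (v s) / (‖v‖ : ℂ) ^ 2)

theorem cmp_eq {T : Finset I} {u : Ev (I × I)} (h : res T u ≠ 0) {V : Submodule ℂ (Ev (I × I))}
    {M : Mat (I × I)} (hM : M ∈ PV V) (hc : Cmp T (pr u) M) : M = pr (res T u) := by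
  obtain ⟨v, ⟨-, hv⟩, rfl⟩ := hM
  obtain ⟨c, hc⟩ := (cmp_iff (fun h' => h (by rw [h', map_zero])) hv).1 hc
  rw [hc, pr_smul]
  rintro rfl
  exact h (by rw [hc, zero_smul])

/-- compatible families of screens -/
def Z (π : Setoid I) (G : Finset (Finset I)) : Set (Finset I → Mat (I × I)) :=
  PP G (VS · π) ∩ {M | ∀ S ∈ G, ∀ T ∈ G, T ⊆ S → Cmp T (M S) (M T)}

theorem isCompact_Z (π : Setoid I) (G : Finset (Finset I)) : IsCompact (Z π G) := by
  refine (isCompact_PP _ _).inter_right ?_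
  simp only [Cmp, ofPred_forall]
  refine isClosed_iInter fun S => isClosed_iInter fun _ => isClosed_iInter fun T =>
    isClosed_iInter fun _ => isClosed_iInter fun _ => isClosed_iInter fun p =>
    isClosed_iInter fun q => isClosed_iInter fun r => isClosed_iInter fun s =>
    isClosed_eq ?_ ?_
  all_goals split_ifs <;> fun_prop

/-- vector description of compatible families -/
structure Fam (π : Setoid I) (G : Finset (Finset I)) (u : Finset I → Ev (I × I)) : Prop where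
  mem : ∀ S ∈ G, u S ∈ VS S π
  ne : ∀ S ∈ G, u S ≠ 0
  cmp : ∀ S ∈ G, ∀ T ∈ G, T ⊆ S → ∃ c : ℂ, res T (u S) = c • u T

/-- matrices of a family -/
noncomputable def mat (G : Finset (Finset I)) (u : Finset I → Ev (I × I)) :
    Finset I → Mat (I × I) := fun S => if S ∈ G then pr (u S) else 0

theorem mat_pos {G : Finset (Finset I)} (u : Finset I → Ev (I × I)) {S : Finset I} (h : S ∈ G) :
    mat G u S = pr (u S) := if_pos h

theorem mat_neg {G : Finset (Finset I)} (u : Finset I → Ev (I × I)) {S : Finset I} (h : S ∉ G) :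
    mat G u S = 0 := if_neg h

theorem exists_mat {G : Finset (Finset I)} {V : Finset I → Submodule ℂ (Ev (I × I))}
    {M : Finset I → Mat (I × I)} (h : M ∈ PP G V) :
    ∃ u, (∀ S ∈ G, u S ∈ V S ∧ u S ≠ 0) ∧ M = mat G u := by
  have : ∀ S, ∃ v, S ∈ G → (v ∈ V S ∧ v ≠ 0) ∧ pr v = M S := fun S => by
    by_cases hS : S ∈ G
    · obtain ⟨v, hv⟩ := (h S).1 hS
      exact ⟨v, fun _ => hv⟩
    · exact ⟨0, fun h => absurd h hS⟩
  choose u hu using this
  refine ⟨u, fun S hS => (hu S hS).1, funext fun S => ?_⟩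
  by_cases hS : S ∈ G
  · rw [mat_pos u hS, (hu S hS).2]
  · rw [mat_neg u hS, (h S).2 hS]

theorem mat_mem {G : Finset (Finset I)} {V : Finset I → Submodule ℂ (Ev (I × I))}
    {u : Finset I → Ev (I × I)} (h : ∀ S ∈ G, u S ∈ V S ∧ u S ≠ 0) : mat G u ∈ PP G V :=
  fun S => ⟨fun hS => mat_pos u hS ▸ ⟨_, h S hS, rfl⟩, mat_neg u⟩

theorem mem_Z {π : Setoid I} {G : Finset (Finset I)} {M : Finset I → Mat (I × I)} :
    M ∈ Z π G ↔ ∃ u, Fam π G u ∧ M = mat G u := by
  constructor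
  · rintro ⟨h1, h2⟩
    obtain ⟨u, hu, rfl⟩ := exists_mat h1
    refine ⟨u, ⟨fun S hS => (hu S hS).1, fun S hS => (hu S hS).2, fun S hS T hT h => ?_⟩, rfl⟩
    have := h2 S hS T hT h
    rwa [mat_pos u hS, mat_pos u hT, cmp_iff (hu S hS).2 (hu T hT).2] at this
  · rintro ⟨u, hu, rfl⟩
    refine ⟨mat_mem fun S hS => ⟨hu.mem S hS, hu.ne S hS⟩, fun S hS T hT h => ?_⟩
    rw [mat_pos u hS, mat_pos u hT, cmp_iff (hu.ne S hS) (hu.ne T hT)]
    exact hu.cmp S hS T hT h

theorem pres_Z {σ : Equiv.Perm I} {π : Setoid I} (hπ : Inv σ π) {G : Finset (Finset I)}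
    (hG : ∀ S, σ.finsetCongr S ∈ G ↔ S ∈ G) :
    Pres (act σ.finsetCongr (σ.prodCongr σ)) (Z π G) := by
  refine ⟨continuous_act _ _, fun M => and_congr ((pres_PP hG (Lp_VS hπ)).2 M) ?_⟩
  simp only [mem_ofPred_eq]
  refine σ.finsetCongr.forall_congr fun S => imp_congr (hG S).symm ?_
  refine σ.finsetCongr.forall_congr fun T => imp_congr (hG T).symm (imp_congr (by simp) ?_)
  refine (σ.prodCongr σ).forall_congr fun p => (σ.prodCongr σ).forall_congr fun q =>
    (σ.prodCongr σ).forall_congr fun r => (σ.prodCongr σ).forall_congr fun s => ?_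
  simp [act]

theorem Tr.of_compact {X X' : Type} [TopologicalSpace X] [TopologicalSpace X'] {f : X' → X}
    {U' : Set X'} {U : Set X} (hf : Continuous f) (c : IsCompact U') (h : BijOn f U' U) :
    Tr f U' U := ⟨hf, ⟨U', c, subset_rfl, fun _ hx _ => hx⟩, h⟩

theorem tr_pt {X : Type} [TopologicalSpace X] {U : Set X} (c : IsCompact U) :
    Tr (fun x => ((), x)) U ({()} ×ˢ U) :=
  Tr.of_compact (by fun_prop) c ⟨fun _ hx => ⟨rfl, hx⟩, fun _ _ _ _ h => (Prod.ext_iff.1 h).2,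
    fun x hx => ⟨x.2, hx.2, rfl⟩⟩

end Pool.Agent.Work.MP_6b5a33_co
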