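import Pool.Agent.Work.MP_6b5a33_co.LC
import Mathlib.Topology.MetricSpace.HausdorffDistance

/-! Lefschetz numbers of stratified sets. -/

namespace Pool.Agent.Work.MP_6b5a33_co

open Topology Set

variable {X : Type} [MetricSpace X] {K : Type} [Fintype K] [DecidableEq K]

theorem lef_perm {U : Set X} (P : K → Set X) (cover : ∀ x ∈ U, ∃ i, x ∈ P i)
    (sub : ∀ i, P i ⊆ U) (disj : ∀ i j x, x ∈ P i → x ∈ P j → i = j)
    (cl : ∀ i, closure (P i) ∩ U ⊆ P i) {σ : X → X} (hσ : Pres σ U) (π : Equiv.Perm K)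
    (hπ : ∀ i x, σ x ∈ P (π i) ↔ x ∈ P i) (nf : ∀ i, π i = i → P i = ∅) : Lef σ U = 0 := by
  let O : K → Set X := fun i =>
    {y | (P i).Nonempty ∧ ∀ j, j ≠ i → Metric.infEDist y (P i) < Metric.infEDist y (P j)}
  have oO : ∀ i, IsOpen (O i) := fun i => by
    simp only [O, ofPred_and, ofPred_forall]
    refine IsOpen.inter isOpen_const (isOpen_iInter_of_finite fun j => isOpen_iInter_of_finite
      fun _ => isOpen_lt Metric.continuous_infEDist Metric.continuous_infEDist)
  have PO : ∀ i, P i ⊆ O i := fun i x hx => ⟨⟨x, hx⟩, fun j hj => by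
    rw [Metric.infEDist_zero_of_mem hx, pos_iff_ne_zero]
    intro h
    exact hj (disj _ _ x (cl j ⟨Metric.mem_closure_iff_infEDist_zero.2 h, sub i hx⟩) hx)⟩
  have dO : ∀ i j, i ≠ j → Disjoint (O i) (O j) := fun i j hij =>
    Set.disjoint_left.2 fun y h1 h2 => lt_asymm (h1.2 j hij.symm) (h2.2 i hij)
  have loc : ∀ χ : Co X, χ ∈ N (bd U) → (∀ j, ∀ x ∈ P j, ∃ V ∈ 𝓝 x, Van χ V) →
      χ ∈ N (closure U) := by
    intro χ h1 h2 x hx
    by_cases hxU : x ∈ U
    · obtain ⟨j, hj⟩ := cover x hxU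
      exact h2 j x hj
    · exact h1 x ⟨hx, hxU⟩
  have comm : ∀ i (φ : Co X), φ ∈ N (bd U) → φ [] = 0 →
      D (cut (O i) φ) - cut (O i) (D φ) ∈ N (closure U) := by
    intro i φ h h0
    refine loc _ (Submodule.sub_mem _ (N_D (N_cut h _)) (N_cut (N_D h) _)) fun j x hx =>
      ⟨O j, (oO j).mem_nhds (PO j hx), fun l hl => ?_⟩
    by_cases hij : i = j
    · subst hij
      have e1 := (van_sub_cut φ h0 (subset_refl (O i))).D l hl
      have e2 := van_sub_cut (D φ) rfl (subset_refl (O i)) l hl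
      rw [map_sub] at e1
      simp only [Pi.sub_apply] at e1 e2 ⊢
      linarith
    · rw [Pi.sub_apply, (van_cut_of_disjoint φ (dO i j hij)).D l hl,
        van_cut_of_disjoint _ (dO i j hij) l hl, sub_zero]
  have hZ : ∀ (i : K) (p : ℤ), ∀ φ ∈ (cx X).Zc (N (closure U)) (N (bd U)) p,
      cut (O i) φ ∈ (cx X).Zc (N (closure U)) (N (bd U)) p := fun i p φ hφ => by
    obtain ⟨g, h1, h2⟩ := (cx X).mem_Zc.1 hφ
    refine (cx X).mem_Zc.2 ⟨cut_Gr g.1 _, N_cut h1 _, ?_⟩
    have := Submodule.add_mem _ (comm i φ h1 g.2) (N_cut h2 (O i))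
    change D (cut (O i) φ) ∈ _
    convert this using 1
    change _ = D _ - cut (O i) (D φ) + cut (O i) (D φ)
    abel
  let E : ∀ (i : K) (p : ℤ), HC U p →ₗ[ℚ] HC U p := fun i p =>
    SQ.map (cut (O i)) (hZ i p) (fun φ _ hφ => by
      obtain ⟨ψ, g, h1, h2⟩ := (cx X).mem_Bc.1 hφ
      refine (cx X).mem_Bc.2 ⟨cut (O i) ψ, cut_Gr g.1 _, N_cut h1 _, ?_⟩
      have := Submodule.sub_mem _ (N_cut h2 (O i)) (comm i ψ h1 g.2)
      change cut (O i) φ - D (cut (O i) ψ) ∈ _
      convert this using 1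
      change _ = cut (O i) (φ - D ψ) - _
      rw [map_sub]; abel)
  have toB : ∀ (p : ℤ) (χ : Co X), χ ∈ N (closure U) →
      χ ∈ (cx X).Bc (N (closure U)) (N (bd U)) p := fun p χ h => Submodule.mem_sup_left h
  rw [hσ.lef]
  refine finsum_eq_zero_of_forall_eq_zero fun p => ?_
  set s := hm hσ.1 hσ.cl hσ.bd p
  have sumE : ∑ i, E i p = 1 := by
    ext a
    induction a using SQ.ind with | _ φ hφ
    obtain ⟨g, h1, h2⟩ := (cx X).mem_Zc.1 hφ
    have : ∀ t : Finset K, ∃ h, (∑ i ∈ t, E i p) (SQ.mk _ φ hφ) =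
        SQ.mk _ (∑ i ∈ t, cut (O i) φ) h := by
      intro t
      induction t using Finset.induction_on with
      | empty => exact ⟨Submodule.zero_mem _, (SQ.mk_eq_zero.2 (Submodule.zero_mem _)).symm⟩
      | insert i t hi ih =>
        obtain ⟨h, e⟩ := ih
        simp only [Finset.sum_insert hi, LinearMap.add_apply, e]
        exact ⟨Submodule.add_mem _ (hZ i p φ hφ) h, (SQ.mk_add _ _ _ _).symm⟩
    obtain ⟨h, e⟩ := this Finset.univ
    rw [e]
    refine SQ.mk_eq_mk.2 (toB p _ (loc _ (Submodule.sub_mem _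
      (Submodule.sum_mem _ fun i _ => N_cut h1 _) h1) fun j x hx =>
        ⟨O j, (oO j).mem_nhds (PO j hx), fun l hl => ?_⟩))
    rw [Pi.sub_apply, Finset.sum_apply, Finset.sum_eq_single j (fun i _ hij =>
      van_cut_of_disjoint φ (dO i j hij) l hl) (by simp)]
    have := van_sub_cut φ g.2 (subset_refl (O j)) l hl
    rw [Pi.sub_apply] at this
    linarith
  have EE : ∀ i, E i p * E i p = E i p := by
    intro i
    ext a
    induction a using SQ.ind with | _ φ hφ
    refine SQ.mk_eq_mk.2 ?_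
    have : cut (O i) (cut (O i) φ) = cut (O i) φ := by
      funext l
      rcases cut_eq_or (O i) (cut (O i) φ) l with h | h
      · cases l with
        | nil => rw [cut_nil, cut_nil]
        | cons a l =>
          by_cases ha : a ∈ O i
          · rw [cut_cons_of_mem _ _ ha]
          · rw [cut_cons_of_not_mem _ _ ha, cut_cons_of_not_mem _ _ ha]
      · exact h
    change cut (O i) (cut (O i) φ) - cut (O i) φ ∈ _
    rw [this, sub_self]; exact Submodule.zero_mem _
  have EF : ∀ i, E (π i) p * E i p = 0 := by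
    intro i
    ext a
    induction a using SQ.ind with | _ φ hφ
    refine SQ.mk_eq_zero.2 ?_
    have : cut (O (π i)) (cut (O i) φ) = 0 := by
      funext l
      cases l with
      | nil => exact cut_nil _ _
      | cons a l =>
        by_cases ha : a ∈ O (π i)
        · rw [cut_cons_of_mem _ _ ha]
          refine cut_cons_of_not_mem _ _ fun hb => ?_
          by_cases hi : π i = i
          · have := hb.1
            rw [nf i hi] at this
            exact not_nonempty_empty this
          · exact (dO _ _ hi).notMem_of_mem_left ha hb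
        · exact cut_cons_of_not_mem _ _ ha
    change cut (O (π i)) (cut (O i) φ) ∈ _
    rw [this]; exact Submodule.zero_mem _
  have Es : ∀ i, E i p * s = s * E (π i) p := by
    intro i
    ext a
    induction a using SQ.ind with | _ φ hφ
    obtain ⟨g, h1, h2⟩ := (cx X).mem_Zc.1 hφ
    refine SQ.mk_eq_mk.2 (toB p _ ?_)
    change cut (O i) (pull σ φ) - pull σ (cut (O (π i)) φ) ∈ _
    refine loc _ (Submodule.sub_mem _ (N_cut (N_pull hσ.1 hσ.bd _ h1) _)
      (N_pull hσ.1 hσ.bd _ (N_cut h1 _))) fun j x hx =>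
      ⟨O j ∩ σ ⁻¹' O (π j), ((oO j).inter ((oO _).preimage hσ.1)).mem_nhds
        ⟨PO j hx, PO _ ((hπ j x).2 hx)⟩, fun l hl => ?_⟩
    cases l with
    | nil => simp [cut_nil]
    | cons a l =>
      obtain ⟨h3, h4⟩ := hl a List.mem_cons_self
      rw [Pi.sub_apply, pull_apply, List.map_cons]
      by_cases hij : i = j
      · subst hij
        rw [cut_cons_of_mem _ _ h3, cut_cons_of_mem _ _ (show σ a ∈ O (π i) from h4)]; simp
      · rw [cut_cons_of_not_mem _ _ fun h => (dO i j hij).notMem_of_mem_left h h3,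
          cut_cons_of_not_mem _ _ fun h =>
            (dO _ _ (π.injective.ne hij)).notMem_of_mem_left h h4, sub_zero]
  have : LinearMap.trace ℚ _ s = 0 := by
    rw [← one_mul s, ← sumE, Finset.sum_mul, map_sum]
    refine Finset.sum_eq_zero fun i _ => ?_
    rw [← EE, mul_assoc, LinearMap.trace_mul_comm, Es, mul_assoc, EF, mul_zero, map_zero]
  rw [this, mul_zero]

theorem level {U : Set X} (hU : LC U) (P : K → Set X) (cover : ∀ x ∈ U, ∃ i, x ∈ P i)
    (sub : ∀ i, P i ⊆ U) (disj : ∀ i j x, x ∈ P i → x ∈ P j → i = j)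
    (cl : ∀ i, closure (P i) ∩ U ⊆ P i) :
    ((∀ i, FD (P i)) → FD U) ∧ (∀ S, (∀ i, Vn S (P i)) → Vn S U) ∧ ((∀ i, FD (P i)) →
      ∀ (σ : X → X) (π : Equiv.Perm K), Pres σ U → (∀ i x, σ x ∈ P (π i) ↔ x ∈ P i) →
        Lef σ U = ∑ i with π i = i, Lef σ (P i)) := by
  let V : Finset K → Set X := fun s => ⋃ i ∈ s, P i
  have memV : ∀ s x, x ∈ V s ↔ ∃ i ∈ s, x ∈ P i := fun s x => by simp [V]
  have hV : ∀ s, U ∩ closure (V s) = V s := by
    intro s
    apply Subset.antisymm
    · rintro x ⟨h1, h2⟩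
      rw [s.closure_biUnion] at h2
      simp only [mem_iUnion] at h2
      obtain ⟨i, hi, h3⟩ := h2
      exact (memV s x).2 ⟨i, hi, cl i ⟨h3, h1⟩⟩
    · intro x hx
      refine ⟨?_, subset_closure hx⟩
      obtain ⟨i, -, h⟩ := (memV s x).1 hx
      exact sub i h
  have lcV : ∀ s, LC (V s) := fun s => hV s ▸ hU.inter isClosed_closure
  have e1 : ∀ s i, V (insert i s) ∩ closure (P i) = P i := by
    intro s i
    apply Subset.antisymm
    · rintro x ⟨h1, h2⟩
      exact cl i ⟨h2, (hV _ ▸ h1 :).1⟩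
    · exact fun x hx => ⟨(memV _ x).2 ⟨i, Finset.mem_insert_self _ _, hx⟩, subset_closure hx⟩
  have e2 : ∀ s i, i ∉ s → V (insert i s) \ closure (P i) = V s := by
    intro s i hi
    apply Subset.antisymm
    · rintro x ⟨h1, h2⟩
      obtain ⟨j, hj, h⟩ := (memV _ x).1 h1
      rcases Finset.mem_insert.1 hj with rfl | hj
      · exact absurd (subset_closure h) h2
      · exact (memV _ x).2 ⟨j, hj, h⟩
    · intro x hx
      obtain ⟨j, hj, h⟩ := (memV _ x).1 hx
      refine ⟨(memV _ x).2 ⟨j, Finset.mem_insert_of_mem hj, h⟩, fun h2 => hi ?_⟩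
      rwa [disj i j x (cl i ⟨h2, sub j h⟩) h]
  have V0 : V ∅ = ∅ := by simp [V]
  have fdV : (∀ i, FD (P i)) → ∀ s, FD (V s) := by
    intro fd s
    induction s using Finset.induction_on with
    | empty => rw [V0]; exact fd_empty
    | insert i s hi ih =>
      exact fd_add (lcV _) isClosed_closure ((e1 s i).symm ▸ fd i) ((e2 s i hi).symm ▸ ih)
  have VU : V Finset.univ = U := by
    apply Subset.antisymm
    · intro x hx
      obtain ⟨i, -, h⟩ := (memV _ x).1 hx
      exact sub i h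
    · intro x hx
      obtain ⟨i, h⟩ := cover x hx
      exact (memV _ x).2 ⟨i, Finset.mem_univ _, h⟩
  refine ⟨fun fd => VU ▸ fdV fd _, fun S hS => ?_, fun fd σ π hσ hπ => ?_⟩
  · have : ∀ s, Vn S (V s) := by
      intro s
      induction s using Finset.induction_on with
      | empty => rw [V0]; exact vn_empty S
      | insert i s hi ih =>
        exact vn_add (lcV _) isClosed_closure ((e1 s i).symm ▸ hS i) ((e2 s i hi).symm ▸ ih)
    exact VU ▸ this _
  replace fdV := fdV fd
  have pV : ∀ s : Finset K, (∀ i, π i ∈ s ↔ i ∈ s) → Pres σ (V s) := fun s hs =>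
    ⟨hσ.1, fun x => by
      rw [memV, memV]
      constructor
      · rintro ⟨i, hi, h⟩
        obtain ⟨j, rfl⟩ := π.surjective i
        exact ⟨j, (hs j).1 hi, (hπ j x).1 h⟩
      · rintro ⟨i, hi, h⟩
        exact ⟨π i, (hs i).2 hi, (hπ i x).2 h⟩⟩
  have fixV : ∀ s : Finset K, (∀ i ∈ s, π i = i) → Lef σ (V s) = ∑ i ∈ s, Lef σ (P i) := by
    intro s
    induction s using Finset.induction_on with
    | empty => intro _; rw [V0, lef_empty, Finset.sum_empty]
    | insert i s hi ih =>
      intro hs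
      have hi' := hs i (Finset.mem_insert_self _ _)
      rw [lef_add (lcV _) isClosed_closure (F := closure (P i)) (pV _ fun j => ?_) ?_
        ((e1 s i).symm ▸ fd i) ((e2 s i hi).symm ▸ fdV s), e1, e2 s i hi,
        ih fun j hj => hs j (Finset.mem_insert_of_mem hj), Finset.sum_insert hi]
      · rw [e1]
        exact ⟨hσ.1, fun x => by conv_lhs => rw [← hi']
                                 exact hπ i x⟩
      · refine ⟨fun h => ?_, fun h => by rwa [hs j h]⟩
        have := π.injective (hs _ h)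
        rwa [this] at h
  set F : Finset K := Finset.univ.filter fun i => π i = i
  have hF : ∀ i, π i ∈ F ↔ i ∈ F := fun i => by simp [F]
  have e3 : U \ closure (V F) = V Fᶜ := by
    apply Subset.antisymm
    · rintro x ⟨h1, h2⟩
      obtain ⟨i, h⟩ := cover x h1
      refine (memV _ x).2 ⟨i, Finset.mem_compl.2 fun hi => h2 (subset_closure ?_), h⟩
      exact (memV _ x).2 ⟨i, hi, h⟩
    · intro x hx
      obtain ⟨i, hi, h⟩ := (memV _ x).1 hx
      refine ⟨sub i h, fun h2 => ?_⟩
      obtain ⟨j, hj, h'⟩ := (memV F x).1 (hV F ▸ ⟨sub i h, h2⟩)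
      exact Finset.mem_compl.1 hi (disj _ _ x h h' ▸ hj)
  rw [lef_add hU isClosed_closure (F := closure (V F)) hσ ((hV F).symm ▸ pV F hF)
    ((hV F).symm ▸ fdV F) (e3.symm ▸ fdV _), hV, e3, fixV F fun i hi => by simpa [F] using hi]
  rw [lef_perm (fun i => if i ∈ Fᶜ then P i else ∅) ?_ ?_ ?_ ?_
    (pV Fᶜ fun i => by simp only [Finset.mem_compl, hF]) π ?_ ?_, add_zero]
  · intro x hx
    obtain ⟨i, hi, h⟩ := (memV _ x).1 hx
    exact ⟨i, by rwa [if_pos hi]⟩
  · intro i x hx
    split_ifs at hx with hi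
    · exact (memV _ x).2 ⟨i, hi, hx⟩
    · exact hx.elim
  · intro i j x h1 h2
    split_ifs at h1 h2
    · exact disj i j x h1 h2
    all_goals first | exact h2.elim | exact h1.elim
  · intro i x hx
    split_ifs at hx ⊢ with hi
    · exact cl i ⟨hx.1, (e3 ▸ hx.2 :).1⟩
    · simpa using hx.1
  · intro i x
    by_cases hi : i ∈ Fᶜ
    · have : π i ∈ Fᶜ := by simpa only [Finset.mem_compl, hF] using hi
      rw [if_pos hi, if_pos this]; exact hπ i x
    · have : π i ∉ Fᶜ := by simpa only [Finset.mem_compl, hF] using hi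
      rw [if_neg hi, if_neg this]; simp
  · intro i hi
    rw [if_neg]; simp [F, hi]

theorem strata {U : Set X} (hU : LC U) (P : K → Set X) (r : K → ℕ)
    (cover : ∀ x ∈ U, ∃ i, x ∈ P i)
    (sub : ∀ i, P i ⊆ U) (disj : ∀ i j x, x ∈ P i → x ∈ P j → i = j)
    (cl : ∀ i, ∀ x ∈ closure (P i), ∀ j, x ∈ P j → j = i ∨ r j < r i) :
    ((∀ i, FD (P i)) → FD U) ∧ (∀ S, (∀ i, Vn S (P i)) → Vn S U) ∧ ((∀ i, FD (P i)) →
      ∀ (σ : X → X) (π : Equiv.Perm K), Pres σ U → (∀ i x, σ x ∈ P (π i) ↔ x ∈ P i) →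
        (∀ i, r (π i) = r i) → Lef σ U = ∑ i with π i = i, Lef σ (P i)) := by
  let W : ℕ → Set X := fun t => {x | ∃ i, r i < t ∧ x ∈ P i}
  have hW : ∀ t, U ∩ closure (W t) = W t := by
    intro t
    apply Subset.antisymm
    · rintro x ⟨h1, h2⟩
      have : W t = ⋃ i ∈ (Finset.univ.filter fun i => r i < t), P i := by
        ext y; simp [W]
      rw [this, Finset.closure_biUnion] at h2
      simp only [mem_iUnion, Finset.mem_filter, Finset.mem_univ, true_and] at h2
      obtain ⟨i, hi, h3⟩ := h2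
      obtain ⟨j, hj⟩ := cover x h1
      exact ⟨j, by rcases cl i x h3 j hj with rfl | h <;> omega, hj⟩
    · rintro x ⟨i, hi, h⟩
      exact ⟨sub i h, subset_closure ⟨i, hi, h⟩⟩
  have lcW : ∀ t, LC (W t) := fun t => hW t ▸ hU.inter isClosed_closure
  have e1 : ∀ t, W (t + 1) ∩ closure (W t) = W t := by
    intro t
    apply Subset.antisymm
    · rintro x ⟨⟨i, _, h⟩, h2⟩
      exact hW t ▸ ⟨sub i h, h2⟩
    · rintro x ⟨i, hi, h⟩
      exact ⟨⟨i, by omega, h⟩, subset_closure ⟨i, hi, h⟩⟩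
  have e2 : ∀ t x, x ∈ W (t + 1) \ closure (W t) ↔ ∃ i, r i = t ∧ x ∈ P i := by
    intro t x
    constructor
    · rintro ⟨⟨i, hi, h⟩, h2⟩
      refine ⟨i, ?_, h⟩
      by_contra hc
      exact h2 (subset_closure ⟨i, by omega, h⟩)
    · rintro ⟨i, hi, h⟩
      refine ⟨⟨i, by omega, h⟩, fun h2 => ?_⟩
      obtain ⟨j, hj, h'⟩ : x ∈ W t := hW t ▸ ⟨sub i h, h2⟩
      have := disj _ _ x h h'
      subst this; omega
  have lv := fun t => level ((lcW (t + 1)).diff (isClosed_closure (s := W t)))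
    (fun i => if r i = t then P i else ∅) (fun x hx => by
      obtain ⟨i, hi, h⟩ := (e2 t x).1 hx
      exact ⟨i, by rwa [if_pos hi]⟩) (fun i x hx => by
      split_ifs at hx with hi
      · exact (e2 t x).2 ⟨i, hi, hx⟩
      · exact hx.elim) (fun i j x h1 h2 => by
      split_ifs at h1 h2
      · exact disj i j x h1 h2
      all_goals first | exact h2.elim | exact h1.elim) (fun i x hx => by
      split_ifs at hx ⊢ with hi
      · obtain ⟨j, hj, h⟩ := (e2 t x).1 hx.2
        rcases cl i x hx.1 j h with rfl | h'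
        · exact h
        · omega
      · simpa using hx.1)
  have fd' : (∀ i, FD (P i)) → ∀ t i, FD (if r i = t then P i else ∅) := fun fd t i => by
    split_ifs
    · exact fd i
    · exact fd_empty
  have W0 : W 0 = ∅ := by ext x; simp [W]
  have fdW : (∀ i, FD (P i)) → ∀ t, FD (W t) := by
    intro fd t
    induction t with
    | zero => rw [W0]; exact fd_empty
    | succ t ih => exact fd_add (lcW _) isClosed_closure ((e1 t).symm ▸ ih) ((lv t).1 (fd' fd t))
  obtain ⟨T, hT⟩ : ∃ T, ∀ i, r i < T :=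
    ⟨Finset.univ.sup r + 1, fun i => Nat.lt_succ_of_le (Finset.le_sup (Finset.mem_univ i))⟩
  have WU : W T = U := by
    apply Subset.antisymm
    · rintro x ⟨i, -, h⟩
      exact sub i h
    · intro x hx
      obtain ⟨i, h⟩ := cover x hx
      exact ⟨i, hT i, h⟩
  refine ⟨fun fd => WU ▸ fdW fd T, fun S hS => ?_, fun fd σ π hσ hπ hr => ?_⟩
  · have : ∀ t, Vn S (W t) := by
      intro t
      induction t with
      | zero => rw [W0]; exact vn_empty S
      | succ t ih =>
        refine vn_add (lcW _) isClosed_closure ((e1 t).symm ▸ ih) ((lv t).2.1 S fun i => ?_)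
        split_ifs
        · exact hS i
        · exact vn_empty S
    exact WU ▸ this T
  have pW : ∀ t, Pres σ (W t) := fun t => ⟨hσ.1, fun x => by
    constructor
    · rintro ⟨i, hi, h⟩
      obtain ⟨j, rfl⟩ := π.surjective i
      exact ⟨j, hr j ▸ hi, (hπ j x).1 h⟩
    · rintro ⟨i, hi, h⟩
      exact ⟨π i, (hr i).symm ▸ hi, (hπ i x).2 h⟩⟩
  have : ∀ t, Lef σ (W t) = ∑ i with π i = i, if r i < t then Lef σ (P i) else 0 := by
    intro t
    induction t with
    | zero => rw [W0, lef_empty]; simp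
    | succ t ih =>
      rw [lef_add (lcW _) isClosed_closure (F := closure (W t)) (pW _) ((e1 t).symm ▸ pW t)
        ((e1 t).symm ▸ fdW fd t) ((lv t).1 (fd' fd t)), e1, ih,
        (lv t).2.2 (fd' fd t) σ π ⟨hσ.1, fun x => ?_⟩ ?_,
        ← Finset.sum_add_distrib]
      · refine Finset.sum_congr rfl fun i _ => ?_
        by_cases h1 : r i < t
        · rw [if_pos h1, if_neg h1.ne, if_pos (by omega), lef_empty, add_zero]
        · by_cases h2 : r i = t
          · rw [if_neg h1, if_pos h2, if_pos (by omega), zero_add]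
          · rw [if_neg h1, if_neg h2, if_neg (by omega), lef_empty, add_zero]
      · intro i x
        rw [hr]
        split_ifs
        · exact hπ i x
        · simp
      · rw [e2, e2]
        constructor
        · rintro ⟨i, hi, h⟩
          obtain ⟨j, rfl⟩ := π.surjective i
          exact ⟨j, hr j ▸ hi, (hπ j x).1 h⟩
        · rintro ⟨i, hi, h⟩
          exact ⟨π i, (hr i).symm ▸ hi, (hπ i x).2 h⟩
  rw [← WU, this]
  exact Finset.sum_congr rfl fun i _ => if_pos (hT i)

end Pool.Agent.Work.MP_6b5a33_co
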